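import Pool.Agent.YUD.Base2

/-!
# [YUD] A1: maximum principle, torsion function
-/

open MeasureTheory Set Filter Topology
open scoped ContDiff

namespace Pool.Agent.YUD

variable {M : Set ℂ} {f g ζ : ℂ → ℝ} {x y : ℂ}

/-- one-dimensional second derivative test -/
theorem deriv2_nonpos_of_isLocalMax {h : ℝ → ℝ} {t : ℝ} (hd : ContinuousAt h t)
    (hm : IsLocalMax h t) : deriv (deriv h) t ≤ 0 := by
  by_contra hcon
  push Not at hcon
  have h1 : deriv h t = 0 := hm.deriv_eq_zero
  have h2 : IsLocalMin h t := isLocalMin_of_deriv_deriv_pos hcon h1 hd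
  have h3 : h =ᶠ[𝓝 t] fun _ => h t := by
    filter_upwards [hm, h2] with s hs1 hs2
    exact le_antisymm hs1 hs2
  have h4 : deriv h =ᶠ[𝓝 t] fun _ => 0 := by
    have := h3.deriv
    simpa using this
  rw [h4.deriv_eq, deriv_const] at hcon
  exact lt_irrefl _ hcon

/-- the second derivative along a line -/
theorem deriv2_line {v : ℂ} (hM : IsOpen M) (hf : ContDiffOn ℝ 2 f M) (hx : x ∈ M) :
    deriv (deriv fun t : ℝ => f (x + t • v)) 0 =
      fderiv ℝ (fun z => fderiv ℝ f z v) x v := by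
  have hl : ∀ t : ℝ, HasDerivAt (fun t : ℝ => x + t • v) v t := by
    intro t
    simpa using ((hasDerivAt_id t).smul_const v).const_add x
  have hcont : Continuous fun t : ℝ => x + t • v := by fun_prop
  have hopen : (fun t : ℝ => x + t • v) ⁻¹' M ∈ 𝓝 (0 : ℝ) := by
    refine (hM.preimage hcont).mem_nhds ?_
    simpa using hx
  have h1 : (deriv fun t : ℝ => f (x + t • v)) =ᶠ[𝓝 0] fun t => fderiv ℝ f (x + t • v) v := by
    filter_upwards [hopen] with t ht
    have hdf : DifferentiableAt ℝ f (x + t • v) :=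
      (hf.contDiffAt (hM.mem_nhds ht)).differentiableAt (by norm_num)
    exact (hdf.hasFDerivAt.comp_hasDerivAt t (hl t)).deriv
  rw [h1.deriv_eq]
  have hd1 : DifferentiableAt ℝ (fun z => fderiv ℝ f z v) x := by
    have : ContDiffOn ℝ 1 (fderiv ℝ f) M := hf.fderiv_of_isOpen hM (by norm_num)
    exact ((this.contDiffAt (hM.mem_nhds hx)).differentiableAt one_ne_zero).clm_apply
      (differentiableAt_const _)
  have h2 : HasFDerivAt (fun z => fderiv ℝ f z v) (fderiv ℝ (fun z => fderiv ℝ f z v) x)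
      (x + (0 : ℝ) • v) := by
    simpa using hd1.hasFDerivAt
  exact (h2.comp_hasDerivAt (0 : ℝ) (hl 0)).deriv

theorem lap_nonpos_of_isLocalMax (hM : IsOpen M) (hf : ContDiffOn ℝ 2 f M) (hx : x ∈ M)
    (h : IsLocalMax f x) : lap f x ≤ 0 := by
  have key : ∀ v : ℂ, fderiv ℝ (fun z => fderiv ℝ f z v) x v ≤ 0 := by
    intro v
    rw [← deriv2_line hM hf hx]
    have hcont : ContinuousAt (fun t : ℝ => x + t • v) 0 := by fun_prop
    have hc2 : Tendsto (fun t : ℝ => x + t • v) (𝓝 0) (𝓝 x) := by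
      have := hcont.tendsto; simpa using this
    apply deriv2_nonpos_of_isLocalMax
    · have hfc : ContinuousAt f (x + (0 : ℝ) • v) := by
        simpa using (hf.contDiffAt (hM.mem_nhds hx)).continuousAt
      exact ContinuousAt.comp (f := fun t : ℝ => x + t • v) (x := (0 : ℝ)) hfc hcont
    · have := hc2.eventually h
      filter_upwards [this] with t ht
      simpa using ht
  exact add_nonpos (key 1) (key Complex.I)

/-- the maximum principle -/
theorem max_principle (hM : IsOpen M) (hb : Bornology.IsBounded M) (hf : ContDiffOn ℝ 2 f M)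
    (h0 : ZeroAtBoundary M f) (h : ∀ x ∈ M, 0 ≤ lap f x) : ∀ x ∈ M, f x ≤ 0 := by
  by_contra hcon
  push Not at hcon
  obtain ⟨x0, hx0, hpos⟩ := hcon
  obtain ⟨R, hR⟩ := hb.exists_norm_le
  have hR0 : 0 ≤ R := (norm_nonneg _).trans (hR x0 hx0)
  set m := f x0 / 2 with hm
  have hm0 : 0 < m := by positivity
  obtain ⟨e, he0, he⟩ : ∃ e > 0, e * R ^ 2 < m := by
    refine ⟨m / (2 * (R ^ 2 + 1)), by positivity, ?_⟩
    rw [div_mul_eq_mul_div, div_lt_iff₀ (by positivity)]
    nlinarith [sq_nonneg R]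
  obtain ⟨K, hK, hKc, hK2⟩ := h0 m hm0
  have hx0K : x0 ∈ K := by
    by_contra hn
    have := hK2 x0 hx0 hn
    rw [abs_of_pos hpos] at this
    linarith
  set q : ℂ → ℝ := fun z => z.re ^ 2 + z.im ^ 2 with hq
  have hqn : ∀ z, q z = ‖z‖ ^ 2 := fun z => by
    rw [hq, ← Complex.normSq_eq_norm_sq, Complex.normSq_apply]; ring
  have hqc : ContDiff ℝ 2 q := by
    have h1 : ContDiff ℝ 2 Complex.re := Complex.reCLM.contDiff
    have h2 : ContDiff ℝ 2 Complex.im := Complex.imCLM.contDiff
    exact (h1.pow 2).add (h2.pow 2)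
  have hg : ContDiffOn ℝ 2 (fun z => f z + e * q z) M := hf.add (contDiff_const.mul hqc).contDiffOn
  obtain ⟨x1, hx1, hmax⟩ := hKc.exists_isMaxOn ⟨x0, hx0K⟩ (hg.continuousOn.mono hK)
  have hglob : ∀ z ∈ M, f z + e * q z ≤ f x1 + e * q x1 := by
    intro z hz
    by_cases hzK : z ∈ K
    · exact hmax hzK
    · have h1 := (abs_lt.1 (hK2 z hz hzK)).2
      have h2 : q z ≤ R ^ 2 := by rw [hqn]; exact pow_le_pow_left₀ (norm_nonneg _) (hR z hz) 2
      have h3 : f x0 + e * q x0 ≤ f x1 + e * q x1 := hmax hx0K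
      have h4 : 0 ≤ q x0 := by rw [hqn]; positivity
      nlinarith
  have hloc : IsLocalMax (fun z => f z + e * q z) x1 := by
    filter_upwards [hM.mem_nhds (hK hx1)] with z hz using hglob z hz
  have h1 := lap_nonpos_of_isLocalMax hM hg (hK hx1) hloc
  have hqlap : ∀ z, lap q z = 4 := by
    intro z
    have hre : ∀ z, HasFDerivAt (fun z : ℂ => z.re) Complex.reCLM z := fun z =>
      Complex.reCLM.hasFDerivAt
    have him : ∀ z, HasFDerivAt (fun z : ℂ => z.im) Complex.imCLM z := fun z =>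
      Complex.imCLM.hasFDerivAt
    have hd : ∀ z, HasFDerivAt q ((2 * z.re) • Complex.reCLM + (2 * z.im) • Complex.imCLM) z := by
      intro z
      have := ((hre z).pow 2).fun_add ((him z).pow 2)
      simpa [hq] using this
    have e1 : dx q = fun z => 2 * z.re := by
      ext z; rw [dx, (hd z).fderiv]; simp
    have e2 : dy q = fun z => 2 * z.im := by
      ext z; rw [dy, (hd z).fderiv]; simp
    unfold lap
    rw [e1, e2]
    unfold dx dy
    rw [((hre z).const_mul 2).fderiv, ((him z).const_mul 2).fderiv]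
    simp; norm_num
  rw [lap_add hM hf (contDiff_const.mul hqc).contDiffOn (hK hx1),
    lap_const_mul hM e hqc.contDiffOn (hK hx1), hqlap] at h1
  have h2 := h x1 (hK hx1)
  linarith

theorem zeroAtBoundary_add (hf : ZeroAtBoundary M f) (hg : ZeroAtBoundary M g) :
    ZeroAtBoundary M (fun x => f x + g x) := by
  intro ε hε
  obtain ⟨K, hK, hKc, hK2⟩ := hf (ε / 2) (by positivity)
  obtain ⟨L, hL, hLc, hL2⟩ := hg (ε / 2) (by positivity)
  refine ⟨K ∪ L, union_subset hK hL, hKc.union hLc, fun x hx hxK => ?_⟩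
  rw [mem_union, not_or] at hxK
  have h1 := hK2 x hx hxK.1
  have h2 := hL2 x hx hxK.2
  calc |f x + g x| ≤ |f x| + |g x| := abs_add_le _ _
    _ < ε := by linarith

theorem zeroAtBoundary_const_mul (c : ℝ) (hf : ZeroAtBoundary M f) :
    ZeroAtBoundary M (fun x => c * f x) := by
  intro ε hε
  obtain ⟨K, hK, hKc, hK2⟩ := hf (ε / (|c| + 1)) (by positivity)
  refine ⟨K, hK, hKc, fun x hx hxK => ?_⟩
  have h1 := hK2 x hx hxK
  rw [lt_div_iff₀ (by positivity)] at h1
  rw [abs_mul]
  nlinarith [abs_nonneg (f x), abs_nonneg c]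

theorem torsion_neg (hM : IsOpen M) (hb : Bornology.IsBounded M) (hζ : Torsion M ζ) :
    ∀ x ∈ M, ζ x < 0 := by
  have h1 := max_principle hM hb hζ.1.two hζ.1.zero fun x hx => by rw [hζ.2 x hx]; exact zero_le_one
  intro x hx
  refine lt_of_le_of_ne (h1 x hx) fun h0 => ?_
  have hloc : IsLocalMax ζ x := by
    filter_upwards [hM.mem_nhds hx] with z hz
    rw [h0]; exact h1 z hz
  have h2 := lap_nonpos_of_isLocalMax hM hζ.1.two hx hloc
  rw [hζ.2 x hx] at h2
  linarith

theorem abs_le_torsion (hM : IsOpen M) (hb : Bornology.IsBounded M) (hζ : Torsion M ζ) {A : ℝ}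
    (hf : ContDiffOn ℝ 2 f M) (h0 : ZeroAtBoundary M f) (h : ∀ x ∈ M, |lap f x| ≤ A) :
    ∀ x ∈ M, |f x| ≤ A * |ζ x| := by
  intro x hx
  have hn := torsion_neg hM hb hζ x hx
  rw [abs_of_neg hn]
  have h1 := max_principle hM hb (hf.add (contDiffOn_const.mul hζ.1.two))
    (zeroAtBoundary_add h0 (zeroAtBoundary_const_mul A hζ.1.zero)) (fun z hz => by
      rw [lap_add hM hf (contDiffOn_const.mul hζ.1.two) hz, lap_const_mul hM A hζ.1.two hz,
        hζ.2 z hz]
      have := (abs_le.1 (h z hz)).1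
      linarith) x hx
  have h2 := max_principle hM hb ((contDiffOn_const (c := (-1 : ℝ)).mul hf).add
    (contDiffOn_const.mul hζ.1.two))
    (zeroAtBoundary_add (zeroAtBoundary_const_mul (-1) h0) (zeroAtBoundary_const_mul A hζ.1.zero))
    (fun z hz => by
      rw [lap_add hM (contDiffOn_const.mul hf) (contDiffOn_const.mul hζ.1.two) hz,
        lap_const_mul hM A hζ.1.two hz, lap_const_mul hM (-1) hf hz, hζ.2 z hz]
      have := (abs_le.1 (h z hz)).2
      linarith) x hx
  rw [abs_le]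
  constructor <;> linarith

theorem stream_unique (hM : IsOpen M) (hb : Bornology.IsBounded M) {f g : ℂ → ℝ}
    (hf : Stream M f) (hg : Stream M g) (h : ∀ x ∈ M, lap f x = lap g x) :
    ∀ x ∈ M, f x = g x := by
  intro x hx
  have h1 := max_principle hM hb (hf.sub hM hg).two (hf.sub hM hg).zero (fun z hz => by
    rw [lap_sub hM hf.two hg.two hz, h z hz, sub_self]) x hx
  have h2 := max_principle hM hb (hg.sub hM hf).two (hg.sub hM hf).zero (fun z hz => by
    rw [lap_sub hM hg.two hf.two hz, h z hz, sub_self]) x hx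
  linarith

end Pool.Agent.YUD
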