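import Pool.Agent.YUD.A1

/-!
# [YUD] A2: cutoff functions adapted to the torsion function

PROOF. `s(u) = Real.smoothTransition (u - 1)` is smooth, `0 ≤ s ≤ 1`, `s = 0` for `u ≤ 1`, `s = 1` for `u ≥ 2`;
`|s'| ≤ S` for some `S` (s' is continuous and vanishes off `[1,2]`: `IsCompact.exists_bound_of_continuousOn`
on `Icc 1 2`, and for `u ∉ Icc 1 2` `s` is locally constant, or use that `s'` is continuous of compact support).
`χ n x = if x ∈ M then s (-(n:ℝ) * ζ x) else 0` (`M.indicator`). Recall `ζ < 0` on `M` (`torsion_neg`).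
* support: `χ n x ≠ 0` implies `x ∈ M`, `n|ζ x| ≥ 1` so `n ≥ 1` and `x ∈ K` where `K` compact `⊆ M` comes from
  `ZeroAtBoundary` with `ε = 1/(n+1)` (off `K`, `|ζ| < 1/(n+1)`, so `n|ζ| < 1`). So the support is in the compact
  (closed) set `K`, hence `tsupport ⊆ K ⊆ M` and `HasCompactSupport`.
* smooth: `contDiff_of_tsupport` (or `contDiff_iff_contDiffAt`): at `x ∈ M` the function is
  locally `s ∘ (-n ζ)`, which is `C³`; at `x ∉ K` it is locally `0`.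
* `|ζ x| ‖D χ n x‖ ≤ B := 2 S Z`, `Z` a bound for `‖fderiv ℝ ζ‖` on `M` (`norm_fderiv_le` and `hζ.1.bdd`): on `M`,
  `D χ n x = s'(-n ζ x) * (-n) * D ζ x`, which is `0` unless `1 ≤ n |ζ x| ≤ 2`.
* eventually `1`: given `x ∈ M`, `n ≥ 4 / |ζ x|` (say): near `x`, `|ζ y| > |ζ x|/2`, so `n|ζ y| ≥ 2`.
-/

open MeasureTheory Set Filter Topology
open scoped ContDiff

namespace Pool.Agent.YUD

variable {M : Set ℂ} {f g ζ ψ : ℂ → ℝ} {α : ℝ} {x y : ℂ}

/-- the profile -/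
noncomputable def A2_s (u : ℝ) : ℝ := Real.smoothTransition (u - 1)

theorem A2_contDiff : ContDiff ℝ ∞ A2_s :=
  Real.smoothTransition.contDiff.comp (contDiff_id.sub contDiff_const)

theorem A2_zero {u : ℝ} (h : u ≤ 1) : A2_s u = 0 :=
  Real.smoothTransition.zero_of_nonpos (by linarith)

theorem A2_one {u : ℝ} (h : 2 ≤ u) : A2_s u = 1 :=
  Real.smoothTransition.one_of_one_le (by linarith)

theorem A2_deriv_zero {u : ℝ} (h : 2 < u) : deriv A2_s u = 0 := by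
  have h1 : A2_s =ᶠ[𝓝 u] fun _ => (1 : ℝ) := by
    filter_upwards [lt_mem_nhds h] with v hv using A2_one hv.le
  rw [h1.deriv_eq, deriv_const]

/-- the cutoff functions -/
noncomputable def A2_chi (M : Set ℂ) (ζ : ℂ → ℝ) (n : ℕ) : ℂ → ℝ :=
  M.indicator fun x => A2_s (-(n : ℝ) * ζ x)

theorem A2_chi_eq (hx : x ∈ M) (n : ℕ) : A2_chi M ζ n x = A2_s (-(n : ℝ) * ζ x) :=
  indicator_of_mem hx _

theorem A2_chi_nhds (hM : IsOpen M) (hx : x ∈ M) (n : ℕ) :
    A2_chi M ζ n =ᶠ[𝓝 x] fun y => A2_s (-(n : ℝ) * ζ y) := by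
  filter_upwards [hM.mem_nhds hx] with y hy using A2_chi_eq hy n

theorem A2_compact (hM : IsOpen M) (hb : Bornology.IsBounded M) (hζ : Torsion M ζ) (n : ℕ) :
    ∃ K ⊆ M, IsCompact K ∧ ∀ x, x ∉ K → A2_chi M ζ n x = 0 := by
  obtain ⟨K, hK, hKc, hK2⟩ := hζ.1.zero (1 / ((n : ℝ) + 1)) (by positivity)
  refine ⟨K, hK, hKc, fun x hx => ?_⟩
  by_cases hxM : x ∈ M
  · rw [A2_chi_eq hxM]
    apply A2_zero
    have h1 := hK2 x hxM hx
    have h2 := torsion_neg hM hb hζ x hxM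
    rw [abs_of_neg h2, lt_div_iff₀ (by positivity)] at h1
    nlinarith
  · exact indicator_of_notMem hxM _

theorem exists_cutoffs (hM : IsOpen M) (hb : Bornology.IsBounded M) (hζ : Torsion M ζ) :
    ∃ (B : ℝ) (χ : ℕ → ℂ → ℝ), 0 ≤ B ∧ (∀ n, ContDiff ℝ 3 (χ n)) ∧
      (∀ n, HasCompactSupport (χ n)) ∧ (∀ n, tsupport (χ n) ⊆ M) ∧
      (∀ n x, 0 ≤ χ n x ∧ χ n x ≤ 1) ∧ (∀ n, ∀ x ∈ M, |ζ x| * ‖fderiv ℝ (χ n) x‖ ≤ B) ∧
      ∀ x ∈ M, ∀ᶠ n in atTop, ∀ᶠ y in 𝓝 x, χ n y = 1 := by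
  have hneg := torsion_neg hM hb hζ
  obtain ⟨S, hS0, hS⟩ := bdd_on_Icc (G := deriv A2_s)
    (A2_contDiff.continuous_deriv (by simp)) 2
  obtain ⟨C, hC⟩ := hζ.1.bdd
  have hcd : ∀ x ∈ M, ContDiffAt ℝ 3 ζ x := fun x hx => hζ.1.contDiffOn.contDiffAt (hM.mem_nhds hx)
  have hcs : ∀ n : ℕ, ∀ x ∈ M, ContDiffAt ℝ 3 (fun y => A2_s (-(n : ℝ) * ζ y)) x := by
    intro n x hx
    have h0 : ContDiff ℝ 3 A2_s := by exact_mod_cast contDiff_infty.1 A2_contDiff 3
    have h1 : ContDiffAt ℝ 3 A2_s (-(n : ℝ) * ζ x) := h0.contDiffAt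
    exact ContDiffAt.comp (g := A2_s) (f := fun y => -(n : ℝ) * ζ y) x h1
      (contDiffAt_const.mul (hcd x hx))
  refine ⟨2 * S * (2 * |C|), A2_chi M ζ, by positivity, ?_, ?_, ?_, ?_, ?_, ?_⟩
  · intro n
    obtain ⟨K, hK, hKc, hK2⟩ := A2_compact hM hb hζ n
    rw [contDiff_iff_contDiffAt]
    intro x
    by_cases hx : x ∈ M
    · exact (hcs n x hx).congr_of_eventuallyEq (A2_chi_nhds hM hx n)
    · have h1 : A2_chi M ζ n =ᶠ[𝓝 x] fun _ => (0 : ℝ) := by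
        filter_upwards [hKc.isClosed.isOpen_compl.mem_nhds (fun h => hx (hK h))] with y hy using hK2 y hy
      exact contDiffAt_const.congr_of_eventuallyEq h1
  · intro n
    obtain ⟨K, hK, hKc, hK2⟩ := A2_compact hM hb hζ n
    exact HasCompactSupport.intro hKc hK2
  · intro n
    obtain ⟨K, hK, hKc, hK2⟩ := A2_compact hM hb hζ n
    refine (closure_minimal ?_ hKc.isClosed).trans hK
    intro x hx
    by_contra hxK
    exact hx (hK2 x hxK)
  · intro n x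
    by_cases hx : x ∈ M
    · rw [A2_chi_eq hx]
      exact ⟨Real.smoothTransition.nonneg _, Real.smoothTransition.le_one _⟩
    · have h1 : A2_chi M ζ n x = 0 := indicator_of_notMem hx _
      rw [h1]
      exact ⟨le_rfl, zero_le_one⟩
  · intro n x hx
    have hd : DifferentiableAt ℝ ζ x := (hcd x hx).differentiableAt (by norm_num)
    have hsd : DifferentiableAt ℝ A2_s (-(n : ℝ) * ζ x) :=
      (A2_contDiff.differentiable (by simp)).differentiableAt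
    have h1 : HasFDerivAt (fun y => -(n : ℝ) * ζ y) (-(n : ℝ) • fderiv ℝ ζ x) x :=
      hd.hasFDerivAt.const_mul _
    have h2 := hsd.hasDerivAt.comp_hasFDerivAt x h1
    have h3 : fderiv ℝ (A2_chi M ζ n) x = deriv A2_s (-(n : ℝ) * ζ x) • (-(n : ℝ) • fderiv ℝ ζ x) := by
      rw [(A2_chi_nhds hM hx n).fderiv_eq]
      exact h2.fderiv
    have h4 : ‖fderiv ℝ ζ x‖ ≤ 2 * |C| := by
      have h5 := norm_fderiv_le ζ x
      have h6 := hC.2.1.zero_le x hx
      have h7 := hC.2.2.zero_le x hx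
      have h8 := le_abs_self C
      linarith
    have hzn := hneg x hx
    rw [h3, norm_smul, norm_smul, Real.norm_eq_abs, Real.norm_eq_abs, abs_neg, Nat.abs_cast]
    have e : |ζ x| * (|deriv A2_s (-(n : ℝ) * ζ x)| * ((n : ℝ) * ‖fderiv ℝ ζ x‖)) =
        ((n : ℝ) * |ζ x|) * |deriv A2_s (-(n : ℝ) * ζ x)| * ‖fderiv ℝ ζ x‖ := by ring
    rw [e]
    have hu : -(n : ℝ) * ζ x = (n : ℝ) * |ζ x| := by
      rw [abs_of_neg hzn]
      ring
    rw [hu]
    have hn0 : (0 : ℝ) ≤ (n : ℝ) * |ζ x| := by positivity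
    by_cases h5 : (n : ℝ) * |ζ x| ≤ 2
    · have h6 := hS ((n : ℝ) * |ζ x|) (by rw [abs_of_nonneg hn0]; exact h5)
      exact mul_le_mul (mul_le_mul h5 h6 (abs_nonneg _) (by norm_num)) h4 (norm_nonneg _) (by positivity)
    · push Not at h5
      rw [A2_deriv_zero h5, abs_zero, mul_zero, zero_mul]
      positivity
  · intro x hx
    have hzn := hneg x hx
    have h1 : ∀ᶠ n : ℕ in atTop, 4 / (-ζ x) ≤ (n : ℝ) :=
      tendsto_natCast_atTop_atTop.eventually_ge_atTop _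
    filter_upwards [h1] with n hn
    have hc : ContinuousAt ζ x := (hcd x hx).continuousAt
    have h2 : ∀ᶠ y in 𝓝 x, ζ y < ζ x / 2 := hc.eventually_lt continuousAt_const (by linarith)
    filter_upwards [h2, hM.mem_nhds hx] with y hy hyM
    rw [A2_chi_eq hyM]
    apply A2_one
    rw [div_le_iff₀ (by linarith)] at hn
    have hn0 : (0 : ℝ) ≤ (n : ℝ) := Nat.cast_nonneg n
    nlinarith

end Pool.Agent.YUD
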