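import Pool.Agent.YUD.A1

/-!
# [YUD] A3: integrals of derivatives of compactly supported functions

PROOFS. (1) Mathlib `integral_mul_fderiv_eq_neg_fderiv_mul_of_integrable` with one factor the
constant `1` (all integrands are continuous of compact support, hence integrable:
`Continuous.integrable_of_hasCompactSupport`; `HasCompactSupport.fderiv`).
(2) `contDiff_of_tsupport` / at points of `M` the product of `ContDiffAt`s, off `tsupport χ` locally zero.
(3) `HasCompactSupport.mul_right`.  (4) set integral over `M` of a function vanishing off `M`: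
`setIntegral_eq_integral_of_forall_compl_eq_zero`. For (4): `χ * P`, `χ * Q` are `C¹` of compact support by
(2), (3); `∫ dx (χ P) = 0`, `∫ dy (χ Q) = 0` over `ℂ`; the integrands vanish off `M` (the derivative vanishes off
`tsupport`); on `M` use `dx_mul`, `dy_mul`.
(5) `a` is `C²` of compact support in `M`, `g` is `C¹` on `M`. Then `{a,g} = dy (dx a * g) - dx (dy a * g)` on `M`
(`dx_dy_comm` for `a`), and `dx a * g`, `dy a * g` are `C¹` with compact support in `M` (the supports of `dx a`, `dy a` are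
inside `tsupport a`; use (2) with `χ = dx a`, `f = g`).
-/

open MeasureTheory Set Filter Topology
open scoped ContDiff

namespace Pool.Agent.YUD

variable {M : Set ℂ} {f g ζ ψ : ℂ → ℝ} {α : ℝ} {x y : ℂ}

/-- (1) -/
theorem integral_fderiv_apply_eq_zero {f : ℂ → ℝ} (hf : ContDiff ℝ 1 f) (hc : HasCompactSupport f)
    (v : ℂ) : ∫ x, fderiv ℝ f x v = 0 := by
  have h1 : Integrable (fun x => fderiv ℝ f x v) :=
    ((hf.continuous_fderiv one_ne_zero).clm_apply continuous_const).integrable_of_hasCompactSupport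
      (hc.fderiv_apply ℝ v)
  have h2 : Integrable f := hf.continuous.integrable_of_hasCompactSupport hc
  have h3 := integral_mul_fderiv_eq_neg_fderiv_mul_of_integrable (μ := volume)
    (f := fun _ : ℂ => (1 : ℝ)) (g := f) (v := v)
    (by simp) (by simpa using h1) (by simpa using h2)
    (fun x _ => differentiableAt_const _) (fun x _ => hf.differentiable one_ne_zero x)
  simpa using h3

theorem A3_dx_integral {f : ℂ → ℝ} (hf : ContDiff ℝ 1 f) (hc : HasCompactSupport f) :
    Integrable (dx f) ∧ ∫ x, dx f x = 0 :=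
  ⟨((hf.continuous_fderiv one_ne_zero).clm_apply continuous_const).integrable_of_hasCompactSupport
      (hc.fderiv_apply ℝ 1), integral_fderiv_apply_eq_zero hf hc 1⟩

theorem A3_dy_integral {f : ℂ → ℝ} (hf : ContDiff ℝ 1 f) (hc : HasCompactSupport f) :
    Integrable (dy f) ∧ ∫ x, dy f x = 0 :=
  ⟨((hf.continuous_fderiv one_ne_zero).clm_apply continuous_const).integrable_of_hasCompactSupport
      (hc.fderiv_apply ℝ Complex.I), integral_fderiv_apply_eq_zero hf hc Complex.I⟩

theorem A3_dx_off {f : ℂ → ℝ} {x : ℂ} (h : x ∉ tsupport f) : dx f x = 0 := by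
  unfold dx
  rw [fderiv_of_notMem_tsupport ℝ h]
  rfl

theorem A3_dy_off {f : ℂ → ℝ} {x : ℂ} (h : x ∉ tsupport f) : dy f x = 0 := by
  unfold dy
  rw [fderiv_of_notMem_tsupport ℝ h]
  rfl

/-- (2) -/
theorem contDiff_cut {n : ℕ} (hM : IsOpen M) {χ : ℂ → ℝ} (hχ : ContDiff ℝ n χ)
    (hs : tsupport χ ⊆ M) (hf : ContDiffOn ℝ n f M) : ContDiff ℝ n (fun x => χ x * f x) := by
  rw [contDiff_iff_contDiffAt]
  intro x
  by_cases h1 : x ∈ tsupport χ
  · exact hχ.contDiffAt.mul (hf.contDiffAt (hM.mem_nhds (hs h1)))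
  · rw [notMem_tsupport_iff_eventuallyEq] at h1
    have h2 : (fun x => χ x * f x) =ᶠ[𝓝 x] fun _ => (0 : ℝ) := by
      filter_upwards [h1] with y hy
      rw [hy]
      simp
    exact contDiffAt_const.congr_of_eventuallyEq h2

theorem A3_ts {χ f : ℂ → ℝ} (hs : tsupport χ ⊆ M) : tsupport (fun x => χ x * f x) ⊆ M :=
  (tsupport_mul_subset_left (f := χ) (g := f)).trans hs

/-- the divergence of a compactly supported field -/
theorem A3_div {u w : ℂ → ℝ} (hu : ContDiff ℝ 1 u) (hw : ContDiff ℝ 1 w) (huc : HasCompactSupport u)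
    (hwc : HasCompactSupport w) (hus : tsupport u ⊆ M) (hws : tsupport w ⊆ M) :
    ∫ x in M, (dx u x + dy w x) = 0 := by
  rw [setIntegral_eq_integral_of_forall_compl_eq_zero (fun x hx => by
    rw [A3_dx_off (fun h => hx (hus h)), A3_dy_off (fun h => hx (hws h)), add_zero])]
  obtain ⟨h1, h2⟩ := A3_dx_integral hu huc
  obtain ⟨h3, h4⟩ := A3_dy_integral hw hwc
  rw [integral_add h1 h3, h2, h4, add_zero]

/-- (4) -/
theorem integral_div_cut (hM : IsOpen M) {χ P Q : ℂ → ℝ} (hχ : ContDiff ℝ 1 χ)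
    (hc : HasCompactSupport χ) (hs : tsupport χ ⊆ M) (hP : ContDiffOn ℝ 1 P M)
    (hQ : ContDiffOn ℝ 1 Q M) :
    ∫ x in M, (dx χ x * P x + dy χ x * Q x + χ x * (dx P x + dy Q x)) = 0 := by
  have h1 : ContDiff ℝ 1 (fun x => χ x * P x) := contDiff_cut (n := 1) hM hχ hs hP
  have h2 : ContDiff ℝ 1 (fun x => χ x * Q x) := contDiff_cut (n := 1) hM hχ hs hQ
  rw [← A3_div h1 h2 hc.mul_right hc.mul_right (A3_ts hs) (A3_ts hs)]
  refine setIntegral_congr_fun hM.measurableSet fun x hx => ?_
  have d0 : DifferentiableAt ℝ χ x := hχ.differentiable one_ne_zero x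
  have d1 : DifferentiableAt ℝ P x := (hP.contDiffAt (hM.mem_nhds hx)).differentiableAt one_ne_zero
  have d2 : DifferentiableAt ℝ Q x := (hQ.contDiffAt (hM.mem_nhds hx)).differentiableAt one_ne_zero
  show dx χ x * P x + dy χ x * Q x + χ x * (dx P x + dy Q x) =
    dx (fun x => χ x * P x) x + dy (fun x => χ x * Q x) x
  rw [dx_mul d0 d1, dy_mul d0 d2]
  ring

/-- (5) -/
theorem integral_pb_cut (hM : IsOpen M) {a : ℂ → ℝ} (ha : ContDiff ℝ 2 a)
    (hc : HasCompactSupport a) (hs : tsupport a ⊆ M) (hg : ContDiffOn ℝ 1 g M) :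
    ∫ x in M, pb a g x = 0 := by
  have ha' : ContDiff ℝ (1 + 1 : ℕ) a := ha
  have u1 : ContDiff ℝ 1 (dx a) := contDiff_dx (n := 1) ha'
  have w1 : ContDiff ℝ 1 (dy a) := contDiff_dy (n := 1) ha'
  have su : tsupport (dx a) ⊆ M := (tsupport_fderiv_apply_subset ℝ (f := a) 1).trans hs
  have sw : tsupport (dy a) ⊆ M := (tsupport_fderiv_apply_subset ℝ (f := a) Complex.I).trans hs
  have cu : HasCompactSupport (dx a) := hc.fderiv_apply ℝ 1
  have cw : HasCompactSupport (dy a) := hc.fderiv_apply ℝ Complex.I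
  have h1 : ContDiff ℝ 1 (fun x => dy a x * g x) := contDiff_cut (n := 1) hM w1 sw hg
  have h2 : ContDiff ℝ 1 (fun x => dx a x * g x) := contDiff_cut (n := 1) hM u1 su hg
  have h1' : ContDiff ℝ 1 (fun x => - (dy a x * g x)) := h1.neg
  have c1 : HasCompactSupport (fun x => - (dy a x * g x)) := (cw.mul_right (f' := g)).neg
  have s1 : tsupport (fun x => - (dy a x * g x)) ⊆ M := by
    have e : tsupport (fun x => - (dy a x * g x)) = tsupport (fun x => dy a x * g x) := by
      unfold tsupport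
      congr 1
      ext x
      simp
    rw [e]
    exact A3_ts sw
  rw [← A3_div h1' h2 c1 cu.mul_right s1 (A3_ts su)]
  refine setIntegral_congr_fun hM.measurableSet fun x hx => ?_
  have d0 : DifferentiableAt ℝ g x := (hg.contDiffAt (hM.mem_nhds hx)).differentiableAt one_ne_zero
  have d1 : DifferentiableAt ℝ (dx a) x := u1.differentiable one_ne_zero x
  have d2 : DifferentiableAt ℝ (dy a) x := w1.differentiable one_ne_zero x
  show pb a g x = dx (fun x => - (dy a x * g x)) x + dy (fun x => dx a x * g x) x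
  rw [dx_neg, dx_mul d2 d0, dy_mul d1 d0, dx_dy_comm isOpen_univ ha.contDiffOn (mem_univ x)]
  unfold pb
  ring

end Pool.Agent.YUD
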