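import Pool.Agent.YUD.A2
import Pool.Agent.YUD.A3

/-!
# [YUD] A4: integration by parts on `M` without boundary terms

PROOF. Take `χ n`, `B'` from `exists_cutoffs`. `integral_div_cut` with `P := φ * P`, `Q := φ * Q` gives, for every `n`,
`∫_M χ_n (φ_x P + φ_y Q + φ (P_x + Q_y)) = - ∫_M φ (∂_x χ_n P + ∂_y χ_n Q)` (product rule `dx_mul`, `dy_mul` on `M`; all four
products are bounded and continuous on `M`, see `integrableOn_of_bdd`).
Let `n → ∞` (`tendsto_integral_of_dominated_convergence` on `volume.restrict M`, which is finite): on the left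
the integrand tends pointwise on `M` to `φ_x P + φ_y Q + φ (P_x + Q_y)` (`χ_n x = 1` eventually) with bound
`2B·B + (A Z) B`, where `Z` bounds `|ζ|`; on the right the integrand is bounded by
`|φ| (|∂_x χ_n| + |∂_y χ_n|) B ≤ A |ζ| 2 ‖D χ_n‖ B ≤ 2 A B' B` and tends to `0` pointwise, because `χ_n = 1` near `x` eventually,
so `D χ_n x = 0`. Hence `∫_M (φ_x P + φ_y Q + φ (P_x + Q_y)) = 0`.
(The derivatives are continuous on `M`: `contDiffOn_dx`, `contDiffOn_dy` with `n = 0`.)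
(2) `integral_pb_eq_zero`: `a = χ_n ψ` is `C²` (even `C³`) of compact support in `M` (`contDiff_cut`),
`integral_pb_cut` gives `∫_M {χ_n ψ, g} = 0`, i.e. (`pb_mul_left`) `∫_M χ_n {ψ, g} = - ∫_M ψ {χ_n, g}`; here
`|ψ| ≤ A |ζ|` by `abs_le_torsion` (`lap ψ` is bounded by `hψ.bdd`), so the right integrand is bounded by
`A |ζ| 2 ‖D χ_n‖ ‖D g‖ ≤ 2 A B' B` (`abs_pb_le`) and tends to `0` pointwise; same limit argument.
-/

open MeasureTheory Set Filter Topology
open scoped ContDiff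

namespace Pool.Agent.YUD

variable {M : Set ℂ} {f g ζ ψ : ℂ → ℝ} {α : ℝ} {x y : ℂ}

theorem a4_dx_cont (hM : IsOpen M) {φ : ℂ → ℝ} (hφ : ContDiffOn ℝ 1 φ M) : ContinuousOn (dx φ) M :=
  (contDiffOn_dx (n := 0) hM (hφ.of_le (by norm_num))).continuousOn

theorem a4_dy_cont (hM : IsOpen M) {φ : ℂ → ℝ} (hφ : ContDiffOn ℝ 1 φ M) : ContinuousOn (dy φ) M :=
  (contDiffOn_dy (n := 0) hM (hφ.of_le (by norm_num))).continuousOn

theorem a4_dat (hM : IsOpen M) {φ : ℂ → ℝ} (hφ : ContDiffOn ℝ 1 φ M) {x : ℂ} (hx : x ∈ M) :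
    DifferentiableAt ℝ φ x :=
  (hφ.contDiffAt (hM.mem_nhds hx)).differentiableAt one_ne_zero

theorem a4_limit (hM : IsOpen M) (hb : Bornology.IsBounded M) {χ : ℕ → ℂ → ℝ} {V : ℕ → ℂ → ℝ} {U : ℂ → ℝ}
    {C D : ℝ} (hχ : ∀ n, ContDiff ℝ 3 (χ n)) (hχ1 : ∀ n x, 0 ≤ χ n x ∧ χ n x ≤ 1)
    (hχe : ∀ x ∈ M, ∀ᶠ n in atTop, ∀ᶠ y in 𝓝 x, χ n y = 1)
    (hU : ContinuousOn U M) (hUC : ∀ x ∈ M, |U x| ≤ C)
    (hV : ∀ n, ContinuousOn (V n) M) (hVD : ∀ n, ∀ x ∈ M, |V n x| ≤ D)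
    (hVe : ∀ x ∈ M, ∀ᶠ n in atTop, V n x = 0)
    (h : ∀ n, ∫ x in M, (V n x + χ n x * U x) = 0) : ∫ x in M, U x = 0 := by
  have hfin : volume M < ⊤ := hb.measure_lt_top
  have hfm : IsFiniteMeasure (volume.restrict M) := isFiniteMeasure_restrict.2 hfin.ne
  have hχU : ∀ n, ContinuousOn (fun x => χ n x * U x) M := fun n =>
    (hχ n).continuous.continuousOn.mul hU
  have hχUC : ∀ n, ∀ x ∈ M, |χ n x * U x| ≤ C := by
    intro n x hx
    rw [abs_mul, abs_of_nonneg (hχ1 n x).1]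
    calc χ n x * |U x| ≤ 1 * |U x| := mul_le_mul_of_nonneg_right (hχ1 n x).2 (abs_nonneg _)
      _ ≤ C := by rw [one_mul]; exact hUC x hx
  have h1 : Tendsto (fun n => ∫ x in M, χ n x * U x) atTop (𝓝 (∫ x in M, U x)) := by
    refine tendsto_integral_of_dominated_convergence (fun _ => C) (fun n => ?_) (integrable_const C)
      (fun n => ?_) ?_
    · exact (hχU n).aestronglyMeasurable hM.measurableSet
    · rw [ae_restrict_iff' hM.measurableSet]
      exact Eventually.of_forall fun x hx => by simpa using hχUC n x hx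
    · rw [ae_restrict_iff' hM.measurableSet]
      refine Eventually.of_forall fun x hx => ?_
      refine tendsto_const_nhds.congr' ?_
      filter_upwards [hχe x hx] with n hn
      rw [hn.self_of_nhds, one_mul]
  have h2 : Tendsto (fun n => ∫ x in M, V n x) atTop (𝓝 (∫ x in M, (0 : ℝ))) := by
    refine tendsto_integral_of_dominated_convergence (fun _ => D) (fun n => ?_) (integrable_const D)
      (fun n => ?_) ?_
    · exact (hV n).aestronglyMeasurable hM.measurableSet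
    · rw [ae_restrict_iff' hM.measurableSet]
      exact Eventually.of_forall fun x hx => by simpa using hVD n x hx
    · rw [ae_restrict_iff' hM.measurableSet]
      refine Eventually.of_forall fun x hx => ?_
      refine tendsto_const_nhds.congr' ?_
      filter_upwards [hVe x hx] with n hn
      rw [hn]
  rw [integral_zero] at h2
  have h3 : ∀ n, (∫ x in M, V n x) + ∫ x in M, χ n x * U x = 0 := by
    intro n
    rw [← h n, integral_add]
    · exact integrableOn_of_bdd hM hb (hV n) (hVD n)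
    · exact integrableOn_of_bdd hM hb (hχU n) (hχUC n)
  have h4 := h2.add h1
  simp only [h3] at h4
  rw [zero_add] at h4
  exact (tendsto_nhds_unique h4 tendsto_const_nhds)

theorem a4_d0 {χ : ℂ → ℝ} {x : ℂ} (h : ∀ᶠ y in 𝓝 x, χ y = 1) : fderiv ℝ χ x = 0 := by
  have h1 : χ =ᶠ[𝓝 x] fun _ => 1 := h
  rw [h1.fderiv_eq, fderiv_fun_const]
  rfl

theorem integral_grad_mul (hM : IsOpen M) (hb : Bornology.IsBounded M) (hζ : Torsion M ζ)
    {φ P Q : ℂ → ℝ} {A B : ℝ} (hφ : ContDiffOn ℝ 1 φ M) (hP : ContDiffOn ℝ 1 P M)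
    (hQ : ContDiffOn ℝ 1 Q M) (hφA : ∀ x ∈ M, |φ x| ≤ A * |ζ x|)
    (hφB : ∀ x ∈ M, ‖fderiv ℝ φ x‖ ≤ B) (hPB : ∀ x ∈ M, |P x| ≤ B) (hQB : ∀ x ∈ M, |Q x| ≤ B)
    (hdiv : ∀ x ∈ M, |dx P x + dy Q x| ≤ B) :
    ∫ x in M, (dx φ x * P x + dy φ x * Q x) = - ∫ x in M, φ x * (dx P x + dy Q x) := by
  obtain ⟨B', χ, hB', hχ, hχc, hχs, hχ1, hχb, hχe⟩ := exists_cutoffs hM hb hζ
  obtain ⟨Z, hZ⟩ := hζ.1.abs_bdd
  have cx := a4_dx_cont hM hφ
  have cy := a4_dy_cont hM hφ
  have cP := a4_dx_cont hM hP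
  have cQ := a4_dy_cont hM hQ
  have hφZ : ∀ x ∈ M, |φ x| ≤ |A| * Z := by
    intro x hx
    refine (hφA x hx).trans ?_
    calc A * |ζ x| ≤ |A| * |ζ x| := mul_le_mul_of_nonneg_right (le_abs_self A) (abs_nonneg _)
      _ ≤ |A| * Z := mul_le_mul_of_nonneg_left (hZ x hx) (abs_nonneg _)
  have hB0 : ∀ x ∈ M, 0 ≤ B := fun x hx => (norm_nonneg _).trans (hφB x hx)
  have cU1 : ContinuousOn (fun x => dx φ x * P x + dy φ x * Q x) M :=
    (cx.mul hP.continuousOn).add (cy.mul hQ.continuousOn)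
  have cU2 : ContinuousOn (fun x => φ x * (dx P x + dy Q x)) M :=
    hφ.continuousOn.mul (cP.add cQ)
  have bU1 : ∀ x ∈ M, |dx φ x * P x + dy φ x * Q x| ≤ 2 * (B * B) := by
    intro x hx
    have hB := hB0 x hx
    have h1 : |dx φ x| ≤ B := (abs_dx_le φ x).trans (hφB x hx)
    have h2 : |dy φ x| ≤ B := (abs_dy_le φ x).trans (hφB x hx)
    refine (abs_add_le _ _).trans ?_
    rw [abs_mul, abs_mul]
    have h3 := mul_le_mul h1 (hPB x hx) (abs_nonneg _) hB
    have h4 := mul_le_mul h2 (hQB x hx) (abs_nonneg _) hB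
    linarith
  have bU2 : ∀ x ∈ M, |φ x * (dx P x + dy Q x)| ≤ (|A| * Z) * B := by
    intro x hx
    rw [abs_mul]
    exact mul_le_mul (hφZ x hx) (hdiv x hx) (abs_nonneg _) ((abs_nonneg _).trans (hφZ x hx))
  have key : ∫ x in M, ((dx φ x * P x + dy φ x * Q x) + φ x * (dx P x + dy Q x)) = 0 := by
    refine a4_limit hM hb (C := 2 * (B * B) + (|A| * Z) * B) (D := 2 * (|A| * B') * B) hχ hχ1 hχe
      (V := fun n x => φ x * (dx (χ n) x * P x + dy (χ n) x * Q x)) (cU1.add cU2) ?_ ?_ ?_ ?_ ?_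
    · intro x hx
      exact (abs_add_le _ _).trans (add_le_add (bU1 x hx) (bU2 x hx))
    · intro n
      have h1 : ContDiffOn ℝ 1 (χ n) M := ((hχ n).of_le (by norm_num)).contDiffOn
      exact hφ.continuousOn.mul (((a4_dx_cont hM h1).mul hP.continuousOn).add
        ((a4_dy_cont hM h1).mul hQ.continuousOn))
    · intro n x hx
      have hB := hB0 x hx
      have h1 := abs_dx_le (χ n) x
      have h2 := abs_dy_le (χ n) x
      have h3 : |dx (χ n) x * P x + dy (χ n) x * Q x| ≤ 2 * ‖fderiv ℝ (χ n) x‖ * B := by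
        refine (abs_add_le _ _).trans ?_
        rw [abs_mul, abs_mul]
        have h3 := mul_le_mul h1 (hPB x hx) (abs_nonneg _) (norm_nonneg _)
        have h4 := mul_le_mul h2 (hQB x hx) (abs_nonneg _) (norm_nonneg _)
        linarith
      have h4 : |φ x| * ‖fderiv ℝ (χ n) x‖ ≤ |A| * B' := by
        calc |φ x| * ‖fderiv ℝ (χ n) x‖ ≤ (|A| * |ζ x|) * ‖fderiv ℝ (χ n) x‖ := by
              refine mul_le_mul_of_nonneg_right ?_ (norm_nonneg _)
              exact (hφA x hx).trans (mul_le_mul_of_nonneg_right (le_abs_self A) (abs_nonneg _))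
          _ = |A| * (|ζ x| * ‖fderiv ℝ (χ n) x‖) := by ring
          _ ≤ |A| * B' := mul_le_mul_of_nonneg_left (hχb n x hx) (abs_nonneg _)
      rw [abs_mul]
      calc |φ x| * |dx (χ n) x * P x + dy (χ n) x * Q x| ≤ |φ x| * (2 * ‖fderiv ℝ (χ n) x‖ * B) :=
            mul_le_mul_of_nonneg_left h3 (abs_nonneg _)
        _ = 2 * (|φ x| * ‖fderiv ℝ (χ n) x‖) * B := by ring
        _ ≤ 2 * (|A| * B') * B := by gcongr
    · intro x hx
      filter_upwards [hχe x hx] with n hn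
      have h1 := a4_d0 hn
      have h2 : dx (χ n) x = 0 := by unfold dx; rw [h1]; rfl
      have h3 : dy (χ n) x = 0 := by unfold dy; rw [h1]; rfl
      rw [h2, h3]
      ring
    · intro n
      have h1 := integral_div_cut hM (χ := χ n) (P := fun x => φ x * P x) (Q := fun x => φ x * Q x)
        ((hχ n).of_le (by norm_num)) (hχc n) (hχs n) (hφ.mul hP) (hφ.mul hQ)
      rw [← h1]
      refine setIntegral_congr_fun hM.measurableSet fun x hx => ?_
      have dφ := a4_dat hM hφ hx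
      have dP := a4_dat hM hP hx
      have dQ := a4_dat hM hQ hx
      beta_reduce
      rw [dx_mul dφ dP, dy_mul dφ dQ]
      ring
  rw [integral_add (integrableOn_of_bdd hM hb cU1 bU1) (integrableOn_of_bdd hM hb cU2 bU2)] at key
  linarith

theorem integral_pb_eq_zero (hM : IsOpen M) (hb : Bornology.IsBounded M) (hζ : Torsion M ζ)
    (hψ : Stream M ψ) {B : ℝ} (hg : ContDiffOn ℝ 1 g M)
    (hgB : ∀ x ∈ M, ‖fderiv ℝ g x‖ ≤ B) : ∫ x in M, pb ψ g x = 0 := by
  obtain ⟨B', χ, hB', hχ, hχc, hχs, hχ1, hχb, hχe⟩ := exists_cutoffs hM hb hζ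
  obtain ⟨C, hC⟩ := hψ.bdd
  have hψ1 := hψ.one
  have hlap : ∀ x ∈ M, |lap ψ x| ≤ 2 * C := by
    intro x hx
    have h1 := hC.2.1.2.1.zero_le x hx
    have h2 := hC.2.2.2.2.zero_le x hx
    unfold lap
    refine (abs_add_le _ _).trans ?_
    linarith
  have hψA := abs_le_torsion hM hb hζ hψ.two hψ.zero hlap
  have hψD : ∀ x ∈ M, ‖fderiv ℝ ψ x‖ ≤ 2 * C := by
    intro x hx
    have h1 := hC.2.1.zero_le x hx
    have h2 := hC.2.2.zero_le x hx
    exact (norm_fderiv_le ψ x).trans (by linarith)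
  have cpb : ∀ {a : ℂ → ℝ}, ContDiffOn ℝ 1 a M → ContinuousOn (pb a g) M := by
    intro a ha
    exact ((a4_dx_cont hM ha).mul (a4_dy_cont hM hg)).sub ((a4_dy_cont hM ha).mul (a4_dx_cont hM hg))
  refine a4_limit hM hb (C := 2 * (2 * C) * B) (D := 2 * (|2 * C| * B') * B) hχ hχ1 hχe
    (V := fun n x => pb (χ n) g x * ψ x) (cpb hψ1) ?_ ?_ ?_ ?_ ?_
  · intro x hx
    have hC0 : 0 ≤ 2 * C := (norm_nonneg _).trans (hψD x hx)
    refine (abs_pb_le ψ g x).trans ?_
    have h1 := mul_le_mul (hψD x hx) (hgB x hx) (norm_nonneg _) hC0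
    nlinarith [h1]
  · intro n
    have h1 : ContDiffOn ℝ 1 (χ n) M := ((hχ n).of_le (by norm_num)).contDiffOn
    exact (cpb h1).mul hψ1.continuousOn
  · intro n x hx
    have hB : 0 ≤ B := (norm_nonneg _).trans (hgB x hx)
    have h4 : |ψ x| * ‖fderiv ℝ (χ n) x‖ ≤ |2 * C| * B' := by
      calc |ψ x| * ‖fderiv ℝ (χ n) x‖ ≤ (|2 * C| * |ζ x|) * ‖fderiv ℝ (χ n) x‖ := by
            refine mul_le_mul_of_nonneg_right ?_ (norm_nonneg _)
            exact (hψA x hx).trans (mul_le_mul_of_nonneg_right (le_abs_self _) (abs_nonneg _))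
        _ = |2 * C| * (|ζ x| * ‖fderiv ℝ (χ n) x‖) := by ring
        _ ≤ |2 * C| * B' := mul_le_mul_of_nonneg_left (hχb n x hx) (abs_nonneg _)
    rw [abs_mul]
    calc |pb (χ n) g x| * |ψ x| ≤ (2 * ‖fderiv ℝ (χ n) x‖ * ‖fderiv ℝ g x‖) * |ψ x| :=
          mul_le_mul_of_nonneg_right (abs_pb_le (χ n) g x) (abs_nonneg _)
      _ = 2 * (|ψ x| * ‖fderiv ℝ (χ n) x‖) * ‖fderiv ℝ g x‖ := by ring
      _ ≤ 2 * (|2 * C| * B') * B := by
          refine mul_le_mul (mul_le_mul_of_nonneg_left h4 (by norm_num)) (hgB x hx) (norm_nonneg _) ?_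
          positivity
  · intro x hx
    filter_upwards [hχe x hx] with n hn
    have h1 := a4_d0 hn
    have h2 : dx (χ n) x = 0 := by unfold dx; rw [h1]; rfl
    have h3 : dy (χ n) x = 0 := by unfold dy; rw [h1]; rfl
    unfold pb
    rw [h2, h3]
    ring
  · intro n
    have h3 : ContDiff ℝ (3 : ℕ) (fun x => χ n x * ψ x) :=
      contDiff_cut (n := 3) hM (hχ n) (hχs n) hψ.contDiffOn
    have h1 := integral_pb_cut hM (a := fun x => χ n x * ψ x) (h3.of_le (by norm_num))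
      ((hχc n).mul_right) ((tsupport_mul_subset_left).trans (hχs n)) hg
    rw [← h1]
    refine setIntegral_congr_fun hM.measurableSet fun x hx => ?_
    have dχ : DifferentiableAt ℝ (χ n) x := (hχ n).differentiable (by norm_num) x
    have dψ := a4_dat hM hψ1 hx
    beta_reduce
    rw [pb_mul_left dχ dψ]

end Pool.Agent.YUD
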