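import Pool.Agent.YUD.A4

/-!
# [YUD] A6: Green's formula, Poincare's inequality, energy estimate

PROOFS. `green`: `integral_grad_mul` with `φ = f`, `P = dx g`, `Q = dy g` (`|f| ≤ A|ζ|` by `abs_le_torsion`; all
bounds from `Stream.bdd`; `lap g` is bounded).
`lap_symm`: `green` twice and symmetry of the left side (`setIntegral_congr_fun`).
`poincare`: with `Z` a bound for `|dx ζ|, |dy ζ|` (so `Z ≥ 0` after `max`), `integral_grad_mul` with `φ = f²`, `P = dx ζ`,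
`Q = dy ζ` gives `∫ f² = ∫ f² lap ζ = - ∫ (2 f f_x ζ_x + 2 f f_y ζ_y) ≤ ∫ (1/2) f² + 4 Z² gsq f` pointwise, from
`-2 f (f_x ζ_x + f_y ζ_y) ≤ (1/2) f² + 2 (f_x ζ_x + f_y ζ_y)² ≤ (1/2) f² + 4 Z² (f_x² + f_y²)`.
So `∫ f² ≤ 8 Z² ∫ gsq f`. Put `P = 8 Z² + 1`. Then `∫ gsq f = - ∫ f lap f ≤ ∫ (1/(2P)) f² + (P/2) (lap f)² ≤
(1/2) ∫ gsq f + (P/2) ∫ (lap f)²`, so `∫ gsq f ≤ P ∫ (lap f)²`. (`setIntegral_mono_on`, `integral_add`,
`integral_const_mul`; everything is bounded and continuous on `M`: `integrableOn_of_bdd`.)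
-/

open MeasureTheory Set Filter Topology
open scoped ContDiff

namespace Pool.Agent.YUD

variable {M : Set ℂ} {f g ζ ψ : ℂ → ℝ} {α : ℝ} {x y : ℂ}

theorem A6_bdd {f : ℂ → ℝ} (hf : Stream M f) : ∃ C : ℝ, 0 ≤ C ∧ ∀ x ∈ M, |f x| ≤ C ∧ |dx f x| ≤ C ∧ |dy f x| ≤ C ∧
    |dx (dx f) x| ≤ C ∧ |dy (dy f) x| ≤ C ∧ |lap f x| ≤ 2 * C ∧ ‖fderiv ℝ f x‖ ≤ 2 * C := by
  obtain ⟨C, hC⟩ := hf.bdd
  have h := hC.mono (le_max_left C 0)
  refine ⟨max C 0, le_max_right _ _, fun x hx => ?_⟩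
  have h1 : |f x| ≤ max C 0 := h.1 x hx
  have h2 : |dx f x| ≤ max C 0 := h.2.1.1 x hx
  have h3 : |dy f x| ≤ max C 0 := h.2.2.1 x hx
  have h4 : |dx (dx f) x| ≤ max C 0 := h.2.1.2.1.1 x hx
  have h5 : |dy (dy f) x| ≤ max C 0 := h.2.2.2.2.1 x hx
  refine ⟨h1, h2, h3, h4, h5, ?_, ?_⟩
  · unfold lap
    exact (abs_add_le _ _).trans (by linarith)
  · exact (norm_fderiv_le f x).trans (by linarith)

theorem A6_cont {f : ℂ → ℝ} (hM : IsOpen M) (hf : Stream M f) : ContinuousOn f M ∧ ContDiffOn ℝ 1 (dx f) M ∧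
    ContDiffOn ℝ 1 (dy f) M ∧ ContinuousOn (dx f) M ∧ ContinuousOn (dy f) M ∧ ContinuousOn (lap f) M := by
  have h1 : ContDiffOn ℝ (1 : ℕ) (dx f) M := contDiffOn_dx hM hf.cd2
  have h2 : ContDiffOn ℝ (1 : ℕ) (dy f) M := contDiffOn_dy hM hf.cd2
  have h3 : ContDiffOn ℝ (0 : ℕ) (dx (dx f)) M := contDiffOn_dx hM h1
  have h4 : ContDiffOn ℝ (0 : ℕ) (dy (dy f)) M := contDiffOn_dy hM h2
  refine ⟨hf.contDiffOn.continuousOn, by exact_mod_cast h1, by exact_mod_cast h2, h1.continuousOn, h2.continuousOn, ?_⟩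
  exact h3.continuousOn.add h4.continuousOn

theorem green {f g : ℂ → ℝ} (hM : IsOpen M) (hb : Bornology.IsBounded M) {ζ : ℂ → ℝ}
    (hζ : Torsion M ζ) (hf : Stream M f) (hg : Stream M g) :
    ∫ x in M, (dx f x * dx g x + dy f x * dy g x) = - ∫ x in M, f x * lap g x := by
  obtain ⟨Cf, hCf, hf1⟩ := A6_bdd hf
  obtain ⟨Cg, hCg, hg1⟩ := A6_bdd hg
  obtain ⟨-, hP, hQ, -, -, -⟩ := A6_cont hM hg
  refine integral_grad_mul hM hb hζ (φ := f) (P := dx g) (Q := dy g) (A := 2 * Cf) (B := 2 * Cf + 2 * Cg)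
    hf.one hP hQ (abs_le_torsion hM hb hζ hf.two hf.zero fun x hx => (hf1 x hx).2.2.2.2.2.1) ?_ ?_ ?_ ?_
  · intro x hx
    have := (hf1 x hx).2.2.2.2.2.2
    linarith
  · intro x hx
    have := (hg1 x hx).2.1
    linarith
  · intro x hx
    have := (hg1 x hx).2.2.1
    linarith
  · intro x hx
    have : |dx (dx g) x + dy (dy g) x| ≤ 2 * Cg := (hg1 x hx).2.2.2.2.2.1
    linarith

theorem lap_symm {f g : ℂ → ℝ} (hM : IsOpen M) (hb : Bornology.IsBounded M) {ζ : ℂ → ℝ}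
    (hζ : Torsion M ζ) (hf : Stream M f) (hg : Stream M g) :
    ∫ x in M, f x * lap g x = ∫ x in M, lap f x * g x := by
  have h1 := green hM hb hζ hf hg
  have h2 := green hM hb hζ hg hf
  have h3 : ∫ x in M, (dx g x * dx f x + dy g x * dy f x) = ∫ x in M, (dx f x * dx g x + dy f x * dy g x) := by
    congr 1
    funext x
    ring
  have h4 : ∫ x in M, g x * lap f x = ∫ x in M, lap f x * g x := by
    congr 1
    funext x
    ring
  rw [h3, h1, h4] at h2
  exact neg_injective h2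

theorem poincare (hM : IsOpen M) (hb : Bornology.IsBounded M) (hζ : Torsion M ζ) :
    ∃ P, 0 < P ∧ ∀ f : ℂ → ℝ, Stream M f →
      ∫ x in M, f x ^ 2 ≤ P * ∫ x in M, gsq f x ∧
      ∫ x in M, gsq f x ≤ P * ∫ x in M, lap f x ^ 2 := by
  obtain ⟨Z, hZ0, hZ⟩ := A6_bdd hζ.1
  obtain ⟨-, hPζ, hQζ, hcx, hcy, -⟩ := A6_cont hM hζ.1
  refine ⟨8 * Z ^ 2 + 1, by positivity, fun f hf => ?_⟩
  obtain ⟨C, hC0, hC⟩ := A6_bdd hf
  obtain ⟨hc, -, -, hcfx, hcfy, hclap⟩ := A6_cont hM hf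
  have hif : IntegrableOn (fun x => f x ^ 2) M := by
    refine integrableOn_of_bdd hM hb (hc.pow 2) (C := C ^ 2) fun x hx => ?_
    rw [abs_pow]
    exact pow_le_pow_left₀ (abs_nonneg _) (hC x hx).1 2
  have hig : IntegrableOn (fun x => gsq f x) M := by
    refine integrableOn_of_bdd hM hb ((hcfx.pow 2).add (hcfy.pow 2)) (C := C ^ 2 + C ^ 2) fun x hx => ?_
    refine (abs_add_le _ _).trans (add_le_add ?_ ?_)
    · rw [abs_pow]
      exact pow_le_pow_left₀ (abs_nonneg _) (hC x hx).2.1 2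
    · rw [abs_pow]
      exact pow_le_pow_left₀ (abs_nonneg _) (hC x hx).2.2.1 2
  have hil : IntegrableOn (fun x => lap f x ^ 2) M := by
    refine integrableOn_of_bdd hM hb (hclap.pow 2) (C := (2 * C) ^ 2) fun x hx => ?_
    rw [abs_pow]
    exact pow_le_pow_left₀ (abs_nonneg _) (hC x hx).2.2.2.2.2.1 2
  have hifl : IntegrableOn (fun x => -(f x * lap f x)) M := by
    refine integrableOn_of_bdd hM hb (hc.mul hclap).neg (C := C * (2 * C)) fun x hx => ?_
    rw [abs_neg, abs_mul]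
    exact mul_le_mul (hC x hx).1 (hC x hx).2.2.2.2.2.1 (abs_nonneg _) hC0
  have hd : ∀ x ∈ M, dx (fun x => f x * f x) x = 2 * f x * dx f x ∧ dy (fun x => f x * f x) x = 2 * f x * dy f x := by
    intro x hx
    have h := hf.differentiableAt hM hx
    rw [dx_mul h h, dy_mul h h]
    constructor <;> ring
  have hig2 : IntegrableOn (fun x => -(2 * f x * dx f x * dx ζ x + 2 * f x * dy f x * dy ζ x)) M := by
    refine integrableOn_of_bdd hM hb ?_ (C := 2 * C * C * Z + 2 * C * C * Z) fun x hx => ?_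
    · exact ((((continuousOn_const.mul hc).mul hcfx).mul hcx).add (((continuousOn_const.mul hc).mul hcfy).mul hcy)).neg
    · obtain ⟨h1, h2, h3, -⟩ := hC x hx
      obtain ⟨-, h4, h5, -⟩ := hZ x hx
      rw [abs_neg]
      refine (abs_add_le _ _).trans (add_le_add ?_ ?_)
      · rw [abs_mul, abs_mul, abs_mul, abs_of_pos (by norm_num : (0 : ℝ) < 2)]
        gcongr
      · rw [abs_mul, abs_mul, abs_mul, abs_of_pos (by norm_num : (0 : ℝ) < 2)]
        gcongr
  -- the identity with the torsion function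
  have key : ∫ x in M, f x ^ 2 = ∫ x in M, -(2 * f x * dx f x * dx ζ x + 2 * f x * dy f x * dy ζ x) := by
    have hA := abs_le_torsion hM hb hζ hf.two hf.zero fun x hx => (hC x hx).2.2.2.2.2.1
    have h1 := integral_grad_mul hM hb hζ (φ := fun x => f x * f x) (P := dx ζ) (Q := dy ζ) (A := C * (2 * C))
      (B := 4 * C ^ 2 + 2 * Z) (hf.one.mul hf.one) hPζ hQζ ?_ ?_ ?_ ?_ ?_
    · have h2 : ∫ x in M, (f x * f x) * (dx (dx ζ) x + dy (dy ζ) x) = ∫ x in M, f x ^ 2 := by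
        refine setIntegral_congr_fun hM.measurableSet fun x hx => ?_
        have h3 : dx (dx ζ) x + dy (dy ζ) x = 1 := hζ.2 x hx
        change (f x * f x) * (dx (dx ζ) x + dy (dy ζ) x) = f x ^ 2
        rw [h3]
        ring
      have h4 : ∫ x in M, (dx (fun x => f x * f x) x * dx ζ x + dy (fun x => f x * f x) x * dy ζ x) =
          ∫ x in M, (2 * f x * dx f x * dx ζ x + 2 * f x * dy f x * dy ζ x) := by
        refine setIntegral_congr_fun hM.measurableSet fun x hx => ?_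
        obtain ⟨e1, e2⟩ := hd x hx
        rw [e1, e2]
      rw [h2, h4] at h1
      rw [integral_neg]
      linarith
    · intro x hx
      rw [abs_mul, mul_assoc C]
      exact mul_le_mul (hC x hx).1 (hA x hx) (abs_nonneg _) hC0
    · intro x hx
      refine (norm_fderiv_le _ x).trans ?_
      obtain ⟨e1, e2⟩ := hd x hx
      rw [e1, e2]
      obtain ⟨h1, h2, h3, -⟩ := hC x hx
      have h4 : |2 * f x * dx f x| ≤ 2 * C * C := by
        rw [abs_mul, abs_mul, abs_of_pos (by norm_num : (0 : ℝ) < 2)]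
        gcongr
      have h5 : |2 * f x * dy f x| ≤ 2 * C * C := by
        rw [abs_mul, abs_mul, abs_of_pos (by norm_num : (0 : ℝ) < 2)]
        gcongr
      nlinarith
    · intro x hx
      have := (hZ x hx).2.1
      nlinarith [sq_nonneg C]
    · intro x hx
      have := (hZ x hx).2.2.1
      nlinarith [sq_nonneg C]
    · intro x hx
      have : |dx (dx ζ) x + dy (dy ζ) x| ≤ 2 * Z := (hZ x hx).2.2.2.2.2.1
      nlinarith [sq_nonneg C]
  have hfirst : ∫ x in M, f x ^ 2 ≤ 8 * Z ^ 2 * ∫ x in M, gsq f x := by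
    have h1 : ∫ x in M, -(2 * f x * dx f x * dx ζ x + 2 * f x * dy f x * dy ζ x) ≤
        ∫ x in M, ((1 / 2) * f x ^ 2 + 4 * Z ^ 2 * gsq f x) := by
      refine setIntegral_mono_on hig2 ((hif.const_mul _).add (hig.const_mul _)) hM.measurableSet fun x hx => ?_
      obtain ⟨-, h4, h5, -⟩ := hZ x hx
      have h6 : dx ζ x ^ 2 ≤ Z ^ 2 := by rw [← sq_abs (dx ζ x)]; exact pow_le_pow_left₀ (abs_nonneg _) h4 2
      have h7 : dy ζ x ^ 2 ≤ Z ^ 2 := by rw [← sq_abs (dy ζ x)]; exact pow_le_pow_left₀ (abs_nonneg _) h5 2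
      have h8 : (dx f x * dx ζ x + dy f x * dy ζ x) ^ 2 ≤ gsq f x * (dx ζ x ^ 2 + dy ζ x ^ 2) := by
        unfold gsq
        nlinarith [sq_nonneg (dx f x * dy ζ x - dy f x * dx ζ x)]
      have h9 : gsq f x * (dx ζ x ^ 2 + dy ζ x ^ 2) ≤ gsq f x * (2 * Z ^ 2) :=
        mul_le_mul_of_nonneg_left (by linarith) (gsq_nonneg f x)
      nlinarith [sq_nonneg (f x + 2 * (dx f x * dx ζ x + dy f x * dy ζ x))]
    rw [← key] at h1
    have h2 : ∫ x in M, ((1 / 2) * f x ^ 2 + 4 * Z ^ 2 * gsq f x) =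
        (1 / 2) * (∫ x in M, f x ^ 2) + 4 * Z ^ 2 * ∫ x in M, gsq f x := by
      rw [integral_add (hif.const_mul _) (hig.const_mul _), integral_const_mul, integral_const_mul]
    rw [h2] at h1
    linarith
  have hg0 : 0 ≤ ∫ x in M, gsq f x := setIntegral_nonneg hM.measurableSet fun x _ => gsq_nonneg f x
  have hsecond : ∫ x in M, f x ^ 2 ≤ (8 * Z ^ 2 + 1) * ∫ x in M, gsq f x := by nlinarith
  refine ⟨hsecond, ?_⟩
  set P := 8 * Z ^ 2 + 1 with hP
  have hP0 : 0 < P := by positivity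
  have hgr : ∫ x in M, gsq f x = ∫ x in M, -(f x * lap f x) := by
    have h1 := green hM hb hζ hf hf
    rw [integral_neg, ← h1]
    congr 1
    funext x
    unfold gsq
    ring
  have h3 : ∫ x in M, -(f x * lap f x) ≤ ∫ x in M, ((1 / (2 * P)) * f x ^ 2 + P / 2 * lap f x ^ 2) := by
    refine setIntegral_mono_on hifl ((hif.const_mul _).add (hil.const_mul _)) hM.measurableSet fun x hx => ?_
    have h4 : 0 ≤ (1 / (2 * P)) * (f x + P * lap f x) ^ 2 := by positivity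
    have h5 : (1 / (2 * P)) * (f x + P * lap f x) ^ 2 = (1 / (2 * P)) * f x ^ 2 + f x * lap f x + P / 2 * lap f x ^ 2 := by
      field_simp
      ring
    linarith
  have h4 : ∫ x in M, ((1 / (2 * P)) * f x ^ 2 + P / 2 * lap f x ^ 2) =
      (1 / (2 * P)) * (∫ x in M, f x ^ 2) + P / 2 * ∫ x in M, lap f x ^ 2 := by
    rw [integral_add (hif.const_mul _) (hil.const_mul _), integral_const_mul, integral_const_mul]
  rw [← hgr, h4] at h3
  have h5 : (1 / (2 * P)) * ∫ x in M, f x ^ 2 ≤ (1 / (2 * P)) * (P * ∫ x in M, gsq f x) :=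
    mul_le_mul_of_nonneg_left hsecond (by positivity)
  have h6 : (1 / (2 * P)) * (P * ∫ x in M, gsq f x) = (1 / 2) * ∫ x in M, gsq f x := by
    field_simp
  rw [h6] at h5
  linarith

end Pool.Agent.YUD
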