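import Mathlib

/-!
# [YUD] A7a: Poincare's inequality on squares, finitely many squares

PROOF. Use the measure preserving equivalence `Complex.measurableEquivRealProd` (`Complex.volume_preserving_equiv_real_prod`) to write integrals
over `ℂ` as integrals over `ℝ × ℝ` (all functions here are continuous with compact support, so integrable, also `F(x,y) = f(x+iy)`).
(1) `square`: for `Q = {a ≤ re < a + l, b ≤ im < b + l}` (or closed square) and `f : ℂ → ℝ` of class `C¹`,
`∫_Q f² ≤ l² ∫_Q (f_x² + f_y²) + l⁻² (∫_Q f)²`.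
 For `p = (x,y)`, `p' = (x',y')` in `Q`: `f(p) - f(p') = ∫_{x'}^{x} f_x(s,y) ds + ∫_{y'}^{y} f_y(x',t) dt`, so
 `(f(p)-f(p'))² ≤ 2 l ∫_a^{a+l} f_x(s,y)² ds + 2 l ∫_b^{b+l} f_y(x',t)² dt` (`(u+v)² ≤ 2u²+2v²` and Cauchy-Schwarz on an interval of length
 `≤ l`). Integrate over `(p,p') ∈ Q × Q`: the right side is `2 l · l³ ∫_Q f_x² + 2 l · l³ ∫_Q f_y²`, the left side is
 `2 l² ∫_Q f² - 2 (∫_Q f)²`. Divide by `2 l²`.
 (Alternatively: two one-dimensional Poincare inequalities.)
(2) `poincare_squares`: given `R` and `B`, choose `l > 0` with `B l² ≤ 1`, `l = 2R/N`, and let `Q_i` be the `N²` half open squares of side `l` tiling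
 `[-R,R)²`. If `f` is `C¹` with support in `ball 0 R`, then `∫ f² = Σ_i ∫_{Q_i} f² ≤ l² ∫ (f_x²+f_y²) + l⁻² Σ_i (∫_{Q_i} f)²`.
 Multiply by `B`: `B ∫ f² ≤ ∫ (f_x² + f_y²) + D Σ_i (∫_{Q_i} f)²` with `D = B l⁻²` (if `B ≤ 0` the statement is trivial with `m = 0`).
-/

open MeasureTheory Set Filter Topology
open scoped ContDiff

namespace Pool.Agent.YUD

/-- Cauchy-Schwarz -/
theorem A7a_cs {u : ℝ → ℝ} (hu : Continuous u) {a l : ℝ} (hl : 0 < l) :
    (∫ x in a..(a + l), u x) ^ 2 ≤ l * ∫ x in a..(a + l), u x ^ 2 := by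
  set H := ∫ x in a..(a + l), u x with hH
  set S := ∫ x in a..(a + l), u x ^ 2 with hS
  have h0 : 0 ≤ ∫ x in a..(a + l), (u x - H / l) ^ 2 :=
    intervalIntegral.integral_nonneg (by linarith) fun x _ => sq_nonneg _
  have h1 : ∫ x in a..(a + l), (u x - H / l) ^ 2 = S - 2 * (H / l) * H + (H / l) ^ 2 * l := by
    have e : ∀ x, (u x - H / l) ^ 2 = u x ^ 2 - 2 * (H / l) * u x + (H / l) ^ 2 := by
      intro x
      ring
    simp only [e]
    rw [intervalIntegral.integral_add ((by fun_prop : Continuous fun x =>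
        u x ^ 2 - 2 * (H / l) * u x).intervalIntegrable _ _)
        (continuous_const.intervalIntegrable _ _),
      intervalIntegral.integral_sub
        ((by fun_prop : Continuous fun x => u x ^ 2).intervalIntegrable _ _)
        ((by fun_prop : Continuous fun x => 2 * (H / l) * u x).intervalIntegrable _ _),
      intervalIntegral.integral_const_mul, intervalIntegral.integral_const, smul_eq_mul]
    ring
  rw [h1] at h0
  have h2 : S - 2 * (H / l) * H + (H / l) ^ 2 * l = S - H ^ 2 / l := by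
    field_simp
    ring
  rw [h2] at h0
  have h3 : H ^ 2 / l ≤ S := by linarith
  rw [div_le_iff₀ hl] at h3
  linarith

theorem A7a_var {h : ℝ → ℝ} (hh : Continuous h) {a l A : ℝ} (hl : 0 < l)
    (hA : ∀ y ∈ Icc a (a + l), ∀ y' ∈ Icc a (a + l), (h y - h y') ^ 2 ≤ A) :
    l * ∫ y in a..(a + l), h y ^ 2 ≤ (∫ y in a..(a + l), h y) ^ 2 + l ^ 2 / 2 * A := by
  set H := ∫ x in a..(a + l), h x with hH
  set S := ∫ x in a..(a + l), h x ^ 2 with hS
  have h1 : ∀ y ∈ Icc a (a + l), l * h y ^ 2 - 2 * H * h y + S ≤ l * A := by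
    intro y hy
    have e1 : ∫ x in a..(a + l), (h y - h x) ^ 2 = l * h y ^ 2 - 2 * H * h y + S := by
      have e : ∀ x, (h y - h x) ^ 2 = (h y ^ 2 - 2 * h y * h x) + h x ^ 2 := by
        intro x
        ring
      simp only [e]
      rw [intervalIntegral.integral_add ((by fun_prop : Continuous fun x =>
          h y ^ 2 - 2 * h y * h x).intervalIntegrable _ _)
          ((by fun_prop : Continuous fun x => h x ^ 2).intervalIntegrable _ _),
        intervalIntegral.integral_sub (continuous_const.intervalIntegrable _ _)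
          ((by fun_prop : Continuous fun x => 2 * h y * h x).intervalIntegrable _ _),
        intervalIntegral.integral_const_mul, intervalIntegral.integral_const, smul_eq_mul]
      ring
    have e2 : ∫ x in a..(a + l), A = l * A := by
      rw [intervalIntegral.integral_const, smul_eq_mul]
      ring
    rw [← e1, ← e2]
    refine intervalIntegral.integral_mono_on (by linarith)
      ((by fun_prop : Continuous fun x => (h y - h x) ^ 2).intervalIntegrable _ _)
      (continuous_const.intervalIntegrable _ _) fun x hx => hA y hy x hx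
  have h2 := intervalIntegral.integral_mono_on (a := a) (b := a + l) (μ := volume) (by linarith)
    ((by fun_prop : Continuous fun y => l * h y ^ 2 - 2 * H * h y + S).intervalIntegrable _ _)
    ((continuous_const (y := l * A)).intervalIntegrable _ _) h1
  have h3 : ∫ y in a..(a + l), (l * h y ^ 2 - 2 * H * h y + S) = l * S - 2 * H * H + S * l := by
    rw [intervalIntegral.integral_add ((by fun_prop : Continuous fun y =>
        l * h y ^ 2 - 2 * H * h y).intervalIntegrable _ _)
        (continuous_const.intervalIntegrable _ _),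
      intervalIntegral.integral_sub
        ((by fun_prop : Continuous fun y => l * h y ^ 2).intervalIntegrable _ _)
        ((by fun_prop : Continuous fun y => 2 * H * h y).intervalIntegrable _ _),
      intervalIntegral.integral_const_mul, intervalIntegral.integral_const_mul,
      intervalIntegral.integral_const, smul_eq_mul]
    ring
  have h4 : ∫ y in a..(a + l), l * A = l * (l * A) := by
    rw [intervalIntegral.integral_const, smul_eq_mul]
    ring
  rw [h3, h4] at h2
  nlinarith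

theorem A7a_seg {φ φ' : ℝ → ℝ} (hd : ∀ x, HasDerivAt φ (φ' x) x) (hc : Continuous φ')
    {a l : ℝ} (hl : 0 < l) : ∀ y ∈ Icc a (a + l), ∀ y' ∈ Icc a (a + l),
      (φ y - φ y') ^ 2 ≤ l * ∫ x in a..(a + l), φ' x ^ 2 := by
  have key : ∀ y ∈ Icc a (a + l), ∀ y' ∈ Icc a (a + l), y' ≤ y →
      (φ y - φ y') ^ 2 ≤ l * ∫ x in a..(a + l), φ' x ^ 2 := by
    intro y hy y' hy' hyy
    have h1 : ∫ x in y'..y, φ' x = φ y - φ y' :=
      intervalIntegral.integral_eq_sub_of_hasDerivAt (fun x _ => hd x)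
        (hc.intervalIntegrable _ _)
    have h2 : |∫ x in y'..y, φ' x| ≤ ∫ x in y'..y, |φ' x| :=
      intervalIntegral.abs_integral_le_integral_abs hyy
    have h3 : ∫ x in y'..y, |φ' x| ≤ ∫ x in a..(a + l), |φ' x| :=
      intervalIntegral.integral_mono_interval hy'.1 hyy hy.2
        (Eventually.of_forall fun x => abs_nonneg _) (hc.abs.intervalIntegrable _ _)
    have h4 := A7a_cs (a := a) hc.abs hl
    simp only [sq_abs] at h4
    rw [← h1]
    calc (∫ x in y'..y, φ' x) ^ 2 = |∫ x in y'..y, φ' x| ^ 2 := (sq_abs _).symm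
      _ ≤ (∫ x in a..(a + l), |φ' x|) ^ 2 := by
          have := abs_nonneg (∫ x in y'..y, φ' x)
          exact pow_le_pow_left₀ this (h2.trans h3) 2
      _ ≤ _ := h4
  intro y hy y' hy'
  rcases le_total y' y with h | h
  · exact key y hy y' hy' h
  · have := key y' hy' y hy h
    calc (φ y - φ y') ^ 2 = (φ y' - φ y) ^ 2 := by ring
      _ ≤ _ := this

/-- iterated integral over a square -/
noncomputable def A7a_I (G : ℝ × ℝ → ℝ) (a b l : ℝ) : ℝ :=
  ∫ x in a..(a + l), ∫ y in b..(b + l), G (x, y)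

theorem A7a_intOn {G : ℝ × ℝ → ℝ} (hG : Continuous G) (a a' b b' : ℝ) :
    IntegrableOn G (Ioc a a' ×ˢ Ioc b b') (volume.prod volume) := by
  have h1 : IntegrableOn G (Icc a a' ×ˢ Icc b b') (volume.prod volume) :=
    hG.continuousOn.integrableOn_compact (isCompact_Icc.prod isCompact_Icc)
  exact h1.mono_set (prod_mono Ioc_subset_Icc_self Ioc_subset_Icc_self)

theorem A7a_set {G : ℝ × ℝ → ℝ} (hG : Continuous G) {a a' b b' : ℝ} (ha : a ≤ a')
    (hb : b ≤ b') :
    ∫ p in Ioc a a' ×ˢ Ioc b b', G p ∂(volume.prod volume) =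
      ∫ x in a..a', ∫ y in b..b', G (x, y) := by
  rw [setIntegral_prod _ (A7a_intOn hG a a' b b'), intervalIntegral.integral_of_le ha]
  refine setIntegral_congr_fun measurableSet_Ioc fun x _ => ?_
  simp only [intervalIntegral.integral_of_le hb]

theorem A7a_swap {G : ℝ × ℝ → ℝ} (hG : Continuous G) {a a' b b' : ℝ} (ha : a ≤ a')
    (hb : b ≤ b') :
    ∫ x in a..a', ∫ y in b..b', G (x, y) = ∫ y in b..b', ∫ x in a..a', G (x, y) := by
  rw [← A7a_set hG ha hb, ← setIntegral_prod_swap]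
  exact A7a_set (G := fun p => G p.swap) (hG.comp continuous_swap) hb ha

theorem A7a_square {F Fx Fy : ℝ × ℝ → ℝ} (hF : Continuous F) (hFx : Continuous Fx)
    (hFy : Continuous Fy) (hdx : ∀ x y, HasDerivAt (fun s => F (s, y)) (Fx (x, y)) x)
    (hdy : ∀ x y, HasDerivAt (fun t => F (x, t)) (Fy (x, y)) y) (a b : ℝ) {l : ℝ} (hl : 0 < l) :
    l ^ 2 * A7a_I (fun p => F p ^ 2) a b l ≤ (A7a_I F a b l) ^ 2 +
      l ^ 4 / 2 * (A7a_I (fun p => Fx p ^ 2) a b l + A7a_I (fun p => Fy p ^ 2) a b l) := by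
  have hal : a ≤ a + l := by linarith
  have hbl : b ≤ b + l := by linarith
  -- the inner integrals
  set h : ℝ → ℝ := fun y => ∫ x in a..(a + l), F (x, y) with hh
  have hcont : ∀ {G : ℝ × ℝ → ℝ}, Continuous G →
      Continuous fun y => ∫ x in a..(a + l), G (x, y) := by
    intro G hG
    exact intervalIntegral.continuous_parametric_intervalIntegral_of_continuous'
      (f := fun y x => G (x, y)) (by
        show Continuous fun p : ℝ × ℝ => G (p.2, p.1)
        fun_prop) a (a + l)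
  have hcont' : ∀ {G : ℝ × ℝ → ℝ}, Continuous G →
      Continuous fun x => ∫ y in b..(b + l), G (x, y) := by
    intro G hG
    exact intervalIntegral.continuous_parametric_intervalIntegral_of_continuous'
      (f := fun x y => G (x, y)) (by
        show Continuous fun p : ℝ × ℝ => G (p.1, p.2)
        fun_prop) b (b + l)
  have hhc : Continuous h := hcont hF
  have s1 : ∀ y, l * ∫ x in a..(a + l), F (x, y) ^ 2 ≤
      h y ^ 2 + l ^ 3 / 2 * ∫ x in a..(a + l), Fx (x, y) ^ 2 := by
    intro y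
    have h1 := A7a_var (h := fun x => F (x, y)) (by fun_prop) (a := a) hl
      (A7a_seg (fun x => hdx x y) (by fun_prop) hl)
    refine h1.trans (le_of_eq ?_)
    rw [hh]
    ring
  have s2 : l * ∫ y in b..(b + l), ∫ x in a..(a + l), F (x, y) ^ 2 ≤
      (∫ y in b..(b + l), h y ^ 2) +
        l ^ 3 / 2 * ∫ y in b..(b + l), ∫ x in a..(a + l), Fx (x, y) ^ 2 := by
    have c1 : Continuous fun y => ∫ x in a..(a + l), F (x, y) ^ 2 :=
      hcont (G := fun p => F p ^ 2) (by fun_prop)
    have c2 : Continuous fun y => ∫ x in a..(a + l), Fx (x, y) ^ 2 :=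
      hcont (G := fun p => Fx p ^ 2) (by fun_prop)
    have c3 : Continuous fun y => l * ∫ x in a..(a + l), F (x, y) ^ 2 := continuous_const.mul c1
    have c4 : Continuous fun y => h y ^ 2 := hhc.pow 2
    have c5 : Continuous fun y => l ^ 3 / 2 * ∫ x in a..(a + l), Fx (x, y) ^ 2 :=
      continuous_const.mul c2
    have c6 : Continuous fun y => h y ^ 2 + l ^ 3 / 2 * ∫ x in a..(a + l), Fx (x, y) ^ 2 :=
      c4.add c5
    have h1 : ∫ y in b..(b + l), (l * ∫ x in a..(a + l), F (x, y) ^ 2) ≤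
        ∫ y in b..(b + l), (h y ^ 2 + l ^ 3 / 2 * ∫ x in a..(a + l), Fx (x, y) ^ 2) :=
      intervalIntegral.integral_mono_on hbl (c3.intervalIntegrable _ _)
        (c6.intervalIntegrable _ _) (fun y _ => s1 y)
    rw [intervalIntegral.integral_const_mul, intervalIntegral.integral_add
      (c4.intervalIntegrable _ _) (c5.intervalIntegrable _ _),
      intervalIntegral.integral_const_mul] at h1
    exact h1
  -- the outer direction
  have s3 : l * ∫ y in b..(b + l), h y ^ 2 ≤ (∫ y in b..(b + l), h y) ^ 2 +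
      l ^ 2 / 2 * (l ^ 2 * ∫ x in a..(a + l), ∫ y in b..(b + l), Fy (x, y) ^ 2) := by
    apply A7a_var hhc hl
    intro y hy y' hy'
    have e1 : h y - h y' = ∫ x in a..(a + l), (F (x, y) - F (x, y')) := by
      rw [hh]
      exact (intervalIntegral.integral_sub
        ((by fun_prop : Continuous fun x => F (x, y)).intervalIntegrable _ _)
        ((by fun_prop : Continuous fun x => F (x, y')).intervalIntegrable _ _)).symm
    have c3 : Continuous fun x => ∫ t in b..(b + l), Fy (x, t) ^ 2 :=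
      hcont' (G := fun p => Fy p ^ 2) (by fun_prop)
    rw [e1]
    calc (∫ x in a..(a + l), (F (x, y) - F (x, y'))) ^ 2
        ≤ l * ∫ x in a..(a + l), (F (x, y) - F (x, y')) ^ 2 :=
          A7a_cs (by fun_prop) hl
      _ ≤ l * ∫ x in a..(a + l), l * ∫ t in b..(b + l), Fy (x, t) ^ 2 := by
          refine mul_le_mul_of_nonneg_left ?_ hl.le
          refine intervalIntegral.integral_mono_on hal
            ((by fun_prop : Continuous fun x => (F (x, y) - F (x, y')) ^ 2).intervalIntegrable _ _)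
            ((continuous_const (y := l).mul c3).intervalIntegrable _ _) fun x _ => ?_
          exact A7a_seg (fun t => hdy x t) (by fun_prop) hl y hy y' hy'
      _ = l ^ 2 * ∫ x in a..(a + l), ∫ y in b..(b + l), Fy (x, y) ^ 2 := by
          rw [intervalIntegral.integral_const_mul]
          ring
  have w1 : A7a_I (fun p => F p ^ 2) a b l = ∫ y in b..(b + l), ∫ x in a..(a + l), F (x, y) ^ 2 :=
    A7a_swap (G := fun p => F p ^ 2) (by fun_prop) hal hbl
  have w2 : A7a_I (fun p => Fx p ^ 2) a b l =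
      ∫ y in b..(b + l), ∫ x in a..(a + l), Fx (x, y) ^ 2 :=
    A7a_swap (G := fun p => Fx p ^ 2) (by fun_prop) hal hbl
  have w3 : A7a_I F a b l = ∫ y in b..(b + l), h y := A7a_swap hF hal hbl
  have w4 : A7a_I (fun p => Fy p ^ 2) a b l =
    ∫ x in a..(a + l), ∫ y in b..(b + l), Fy (x, y) ^ 2 := rfl
  rw [w1, w2, w3, w4]
  have h5 := mul_le_mul_of_nonneg_left s2 hl.le
  have h6 : l * ((∫ y in b..(b + l), h y ^ 2) +
        l ^ 3 / 2 * ∫ y in b..(b + l), ∫ x in a..(a + l), Fx (x, y) ^ 2) =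
      l * (∫ y in b..(b + l), h y ^ 2) +
        l ^ 4 / 2 * ∫ y in b..(b + l), ∫ x in a..(a + l), Fx (x, y) ^ 2 := by
    ring
  rw [h6] at h5
  calc l ^ 2 * ∫ y in b..(b + l), ∫ x in a..(a + l), F (x, y) ^ 2
      = l * (l * ∫ y in b..(b + l), ∫ x in a..(a + l), F (x, y) ^ 2) := by ring
    _ ≤ _ := h5
    _ ≤ ((∫ y in b..(b + l), h y) ^ 2 +
      l ^ 2 / 2 * (l ^ 2 * ∫ x in a..(a + l), ∫ y in b..(b + l), Fy (x, y) ^ 2)) +
        l ^ 4 / 2 * ∫ y in b..(b + l), ∫ x in a..(a + l), Fx (x, y) ^ 2 := by linarith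
    _ = _ := by ring

/-- the tiling -/
theorem A7a_tile {G : ℝ × ℝ → ℝ} (hG : Continuous G) (a l : ℝ) (N : ℕ) :
    ∑ j ∈ Finset.range N, ∑ k ∈ Finset.range N, A7a_I G (a + j * l) (a + k * l) l =
      ∫ x in a..(a + N * l), ∫ y in a..(a + N * l), G (x, y) := by
  have hadj : ∀ {u : ℝ → ℝ}, Continuous u → ∑ k ∈ Finset.range N,
      ∫ y in (a + k * l)..(a + k * l + l), u y = ∫ y in a..(a + N * l), u y := by
    intro u hu
    have h1 := intervalIntegral.sum_integral_adjacent_intervals (μ := volume) (f := u)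
      (a := fun k : ℕ => a + k * l) (n := N) (fun k _ => hu.intervalIntegrable _ _)
    have h2 : (a + ((0 : ℕ) : ℝ) * l) = a := by simp
    simp only [h2] at h1
    rw [← h1]
    refine Finset.sum_congr rfl fun k _ => ?_
    congr 1
    push_cast
    ring
  have hc : ∀ b b' : ℝ, Continuous fun x => ∫ y in b..b', G (x, y) := by
    intro b b'
    exact intervalIntegral.continuous_parametric_intervalIntegral_of_continuous'
      (f := fun x y => G (x, y)) (by
        show Continuous fun p : ℝ × ℝ => G (p.1, p.2)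
        fun_prop) b b'
  have h1 : ∀ j : ℕ, ∑ k ∈ Finset.range N, A7a_I G (a + j * l) (a + k * l) l =
      ∫ x in (a + j * l)..(a + j * l + l), ∫ y in a..(a + N * l), G (x, y) := by
    intro j
    unfold A7a_I
    rw [← intervalIntegral.integral_finsetSum
      (fun k _ => (hc _ _).intervalIntegrable _ _)]
    congr 1
    ext x
    exact hadj (u := fun y => G (x, y)) (by fun_prop)
  simp only [h1]
  exact hadj (hc a (a + N * l))

theorem A7a_complex (g : ℂ → ℝ) (s : Set (ℝ × ℝ)) :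
    ∫ z in {z : ℂ | (z.re, z.im) ∈ s}, g z =
      ∫ p in s, g ⟨p.1, p.2⟩ ∂(volume.prod volume) :=
  Complex.volume_preserving_equiv_real_prod.setIntegral_preimage_emb
    Complex.measurableEquivRealProd.measurableEmbedding (fun p : ℝ × ℝ => g ⟨p.1, p.2⟩) s

theorem poincare_squares (R B : ℝ) : ∃ (m : ℕ) (Q : Fin m → Set ℂ) (D : ℝ), 0 ≤ D ∧
    (∀ i, MeasurableSet (Q i)) ∧ ∀ f : ℂ → ℝ, ContDiff ℝ 1 f → (∀ x, R ≤ ‖x‖ → f x = 0) →
      B * ∫ x, f x ^ 2 ≤ (∫ x, ((fderiv ℝ f x 1) ^ 2 + (fderiv ℝ f x Complex.I) ^ 2)) +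
        D * ∑ i, (∫ x in Q i, f x) ^ 2 := by
  rcases le_or_gt B 0 with hB | hB
  · refine ⟨0, fun _ => ∅, 0, le_rfl, fun _ => MeasurableSet.empty, fun f _ _ => ?_⟩
    have h1 : 0 ≤ ∫ x, f x ^ 2 := integral_nonneg fun x => sq_nonneg _
    have h2 : 0 ≤ ∫ x, ((fderiv ℝ f x 1) ^ 2 + (fderiv ℝ f x Complex.I) ^ 2) :=
      integral_nonneg fun x => by positivity
    nlinarith
  set R' := |R| + 1 with hR'
  have hR'0 : 0 < R' := by positivity
  obtain ⟨N, hN⟩ := exists_nat_gt ((2 * R') ^ 2 * B)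
  have hNpos : (0 : ℝ) < N := lt_of_le_of_lt (by positivity) hN
  have hN1 : (1 : ℝ) ≤ N := by
    have : 0 < N := by exact_mod_cast hNpos
    exact_mod_cast this
  set l := 2 * R' / N with hl
  have hl0 : 0 < l := by positivity
  have hlB : B * l ^ 2 ≤ 1 := by
    rw [hl, div_pow, mul_div_assoc', div_le_one (by positivity)]
    nlinarith
  have hNl : -R' + N * l = R' := by
    rw [hl]
    field_simp
    ring
  let Q : Fin (N * N) → Set ℂ := fun i =>
    {z : ℂ | (z.re, z.im) ∈ Ioc (-R' + ((finProdFinEquiv.symm i).1 : ℕ) * l)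
      (-R' + ((finProdFinEquiv.symm i).1 : ℕ) * l + l) ×ˢ
      Ioc (-R' + ((finProdFinEquiv.symm i).2 : ℕ) * l)
      (-R' + ((finProdFinEquiv.symm i).2 : ℕ) * l + l)}
  refine ⟨N * N, Q, B / l ^ 2, by positivity, fun i => ?_, fun f hf hfR => ?_⟩
  · have h1 : Measurable fun z : ℂ => (z.re, z.im) :=
      Complex.measurable_re.prodMk Complex.measurable_im
    exact h1 (measurableSet_Ioc.prod measurableSet_Ioc)
  -- the functions on the real plane
  set F : ℝ × ℝ → ℝ := fun p => f ⟨p.1, p.2⟩ with hF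
  set Fx : ℝ × ℝ → ℝ := fun p => fderiv ℝ f ⟨p.1, p.2⟩ 1 with hFx
  set Fy : ℝ × ℝ → ℝ := fun p => fderiv ℝ f ⟨p.1, p.2⟩ Complex.I with hFy
  have hmk : Continuous fun p : ℝ × ℝ => (⟨p.1, p.2⟩ : ℂ) :=
    Complex.equivRealProdCLM.symm.continuous
  have hfd : Continuous (fderiv ℝ f) := hf.continuous_fderiv (by norm_num)
  have cF : Continuous F := hf.continuous.comp hmk
  have cFx : Continuous Fx := (hfd.comp hmk).clm_apply continuous_const
  have cFy : Continuous Fy := (hfd.comp hmk).clm_apply continuous_const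
  have hdiff : Differentiable ℝ f := hf.differentiable (by norm_num)
  have hdx : ∀ x y, HasDerivAt (fun s => F (s, y)) (Fx (x, y)) x := by
    intro x y
    have h1 : HasDerivAt (fun s : ℝ => (⟨s, y⟩ : ℂ)) 1 x := by
      have h2 : (fun s : ℝ => (⟨s, y⟩ : ℂ)) = fun s : ℝ => (s : ℂ) + y * Complex.I := by
        ext s
        exact Complex.mk_eq_add_mul_I s y
      rw [h2]
      have h3 := (hasDerivAt_id x).ofReal_comp.add_const ((y : ℂ) * Complex.I)
      simpa using h3
    exact (hdiff ⟨x, y⟩).hasFDerivAt.comp_hasDerivAt x h1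
  have hdy : ∀ x y, HasDerivAt (fun t => F (x, t)) (Fy (x, y)) y := by
    intro x y
    have h1 : HasDerivAt (fun t : ℝ => (⟨x, t⟩ : ℂ)) Complex.I y := by
      have h2 : (fun t : ℝ => (⟨x, t⟩ : ℂ)) = fun t : ℝ => (x : ℂ) + t * Complex.I := by
        ext t
        exact Complex.mk_eq_add_mul_I x t
      rw [h2]
      have h3 := ((hasDerivAt_id y).ofReal_comp.mul_const Complex.I).const_add (x : ℂ)
      simpa using h3
    exact (hdiff ⟨x, y⟩).hasFDerivAt.comp_hasDerivAt y h1
  -- the sums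
  have hsum := Finset.sum_le_sum (s := Finset.range N) fun j _ =>
    Finset.sum_le_sum (s := Finset.range N) fun k _ =>
      A7a_square cF cFx cFy hdx hdy (-R' + j * l) (-R' + k * l) hl0
  simp only [Finset.sum_add_distrib, ← Finset.mul_sum] at hsum
  rw [A7a_tile (G := fun p => F p ^ 2) (by fun_prop), A7a_tile (G := fun p => Fx p ^ 2)
    (by fun_prop), A7a_tile (G := fun p => Fy p ^ 2) (by fun_prop), hNl] at hsum
  -- the integrals over the big square
  set K : Set ℂ := {z : ℂ | (z.re, z.im) ∈ Ioc (-R') R' ×ˢ Ioc (-R') R'} with hK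
  have hKoff : ∀ z : ℂ, z ∉ K → R < ‖z‖ := by
    intro z hz
    by_contra hlt
    push Not at hlt
    apply hz
    have h1 := Complex.abs_re_le_norm z
    have h2 := Complex.abs_im_le_norm z
    have h3 := le_abs_self R
    have h4 := (abs_le.1 (h1.trans (hlt.trans h3)))
    have h5 := (abs_le.1 (h2.trans (hlt.trans h3)))
    refine ⟨⟨?_, ?_⟩, ?_, ?_⟩ <;> simp only <;> linarith
  have hRR : -R' ≤ R' := by linarith
  have hbig : ∀ g : ℂ → ℝ, Continuous g → ∫ z in K, g z =
      ∫ x in (-R')..R', ∫ y in (-R')..R', g ⟨x, y⟩ := by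
    intro g hg
    rw [hK, A7a_complex g]
    exact A7a_set (G := fun p : ℝ × ℝ => g ⟨p.1, p.2⟩) (hg.comp hmk) hRR hRR
  have hf2 : ∫ z, f z ^ 2 = ∫ x in (-R')..R', ∫ y in (-R')..R', F (x, y) ^ 2 := by
    rw [← hbig (fun z => f z ^ 2) (hf.continuous.pow 2)]
    exact (setIntegral_eq_integral_of_forall_compl_eq_zero fun z hz => by
      rw [hfR z (hKoff z hz).le]
      norm_num).symm
  have hsupp : HasCompactSupport f := by
    refine HasCompactSupport.intro (isCompact_closedBall (0 : ℂ) |R|) fun z hz => ?_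
    apply hfR
    rw [Metric.mem_closedBall, dist_zero_right, not_le] at hz
    exact (le_abs_self R).trans hz.le
  have hgc : Continuous fun z => (fderiv ℝ f z 1) ^ 2 + (fderiv ℝ f z Complex.I) ^ 2 :=
    ((hfd.clm_apply continuous_const).pow 2).add ((hfd.clm_apply continuous_const).pow 2)
  have hgs : HasCompactSupport fun z => (fderiv ℝ f z 1) ^ 2 + (fderiv ℝ f z Complex.I) ^ 2 := by
    refine (hsupp.fderiv (𝕜 := ℝ)).comp_left (g := fun A : ℂ →L[ℝ] ℝ => A 1 ^ 2 + A Complex.I ^ 2) ?_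
    simp
  have hg2 : (∫ x in (-R')..R', ∫ y in (-R')..R', Fx (x, y) ^ 2) +
      (∫ x in (-R')..R', ∫ y in (-R')..R', Fy (x, y) ^ 2) ≤
      ∫ z, ((fderiv ℝ f z 1) ^ 2 + (fderiv ℝ f z Complex.I) ^ 2) := by
    have c1 : Continuous fun z => (fderiv ℝ f z 1) ^ 2 := (hfd.clm_apply continuous_const).pow 2
    have c2 : Continuous fun z => (fderiv ℝ f z Complex.I) ^ 2 :=
      (hfd.clm_apply continuous_const).pow 2
    have hKb : Bornology.IsBounded K := by
      refine (Metric.isBounded_iff_subset_closedBall 0).2 ⟨R' + R', fun z hz => ?_⟩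
      rw [Metric.mem_closedBall, dist_zero_right]
      refine (Complex.norm_le_abs_re_add_abs_im z).trans ?_
      obtain ⟨⟨h1, h2⟩, h3, h4⟩ := hz
      have h5 : |z.re| ≤ R' := abs_le.2 ⟨h1.le, h2⟩
      have h6 : |z.im| ≤ R' := abs_le.2 ⟨h3.le, h4⟩
      linarith
    have hKint : ∀ {g : ℂ → ℝ}, Continuous g → IntegrableOn g K := by
      intro g hg
      obtain ⟨r, hr⟩ := (Metric.isBounded_iff_subset_closedBall 0).1 hKb
      exact (hg.continuousOn.integrableOn_compact (isCompact_closedBall _ _)).mono_set hr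
    have e1 : (∫ x in (-R')..R', ∫ y in (-R')..R', Fx (x, y) ^ 2) = ∫ z in K, (fderiv ℝ f z 1) ^ 2 :=
      (hbig (fun z => (fderiv ℝ f z 1) ^ 2) c1).symm
    have e2 : (∫ x in (-R')..R', ∫ y in (-R')..R', Fy (x, y) ^ 2) =
        ∫ z in K, (fderiv ℝ f z Complex.I) ^ 2 :=
      (hbig (fun z => (fderiv ℝ f z Complex.I) ^ 2) c2).symm
    rw [e1, e2, ← integral_add (hKint c1) (hKint c2)]
    exact setIntegral_le_integral (hgc.integrable_of_hasCompactSupport hgs)
      (Eventually.of_forall fun z => by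
        show (0 : ℝ) ≤ _
        positivity)
  have hQsum : ∑ j ∈ Finset.range N, ∑ k ∈ Finset.range N,
      (A7a_I F (-R' + j * l) (-R' + k * l) l) ^ 2 = ∑ i, (∫ x in Q i, f x) ^ 2 := by
    have e1 : ∀ i : Fin (N * N), ∫ x in Q i, f x =
        A7a_I F (-R' + ((finProdFinEquiv.symm i).1 : ℕ) * l)
          (-R' + ((finProdFinEquiv.symm i).2 : ℕ) * l) l := by
      intro i
      show ∫ z in {z : ℂ | (z.re, z.im) ∈ _}, f z = _
      rw [A7a_complex f]
      exact A7a_set cF (by linarith) (by linarith)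
    simp only [e1]
    rw [← (finProdFinEquiv (m := N) (n := N)).sum_comp]
    simp only [Equiv.symm_apply_apply]
    rw [Fintype.sum_prod_type, ← Fin.sum_univ_eq_sum_range (fun j : ℕ =>
      ∑ k ∈ Finset.range N, (A7a_I F (-R' + j * l) (-R' + k * l) l) ^ 2) N]
    refine Finset.sum_congr rfl fun j _ => ?_
    exact (Fin.sum_univ_eq_sum_range (fun k : ℕ =>
      (A7a_I F (-R' + (j : ℕ) * l) (-R' + k * l) l) ^ 2) N).symm
  rw [hQsum, ← hf2] at hsum
  set G2 := ∫ z, ((fderiv ℝ f z 1) ^ 2 + (fderiv ℝ f z Complex.I) ^ 2) with hG2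
  have hG0 : 0 ≤ G2 := integral_nonneg fun x => by positivity
  set W := ∑ i, (∫ x in Q i, f x) ^ 2 with hW
  have h7 : l ^ 2 * ∫ z, f z ^ 2 ≤ W + l ^ 4 / 2 * G2 := by
    refine hsum.trans ?_
    have : l ^ 4 / 2 * ((∫ x in (-R')..R', ∫ y in (-R')..R', Fx (x, y) ^ 2) +
      (∫ x in (-R')..R', ∫ y in (-R')..R', Fy (x, y) ^ 2)) ≤ l ^ 4 / 2 * G2 :=
      mul_le_mul_of_nonneg_left hg2 (by positivity)
    linarith
  have h8 : B * ∫ z, f z ^ 2 = B / l ^ 2 * (l ^ 2 * ∫ z, f z ^ 2) := by
    field_simp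
  rw [h8]
  calc B / l ^ 2 * (l ^ 2 * ∫ z, f z ^ 2) ≤ B / l ^ 2 * (W + l ^ 4 / 2 * G2) :=
        mul_le_mul_of_nonneg_left h7 (by positivity)
    _ = (B * l ^ 2) / 2 * G2 + B / l ^ 2 * W := by
        field_simp
        ring
    _ ≤ G2 + B / l ^ 2 * W := by nlinarith

end Pool.Agent.YUD
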