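import Pool.Agent.YUD.A2
import Pool.Agent.YUD.A3
import Pool.Agent.YUD.A7a

/-!
# [YUD] A7b: Poincare's inequality with a large constant on a subspace of finite codimension

PROOF. `M ⊆ ball 0 R`. Take `m, Q, D` from `poincare_squares R B`. Let `f ∈ Stream` with `∫_{M ∩ Q_i} f = 0`. `|f| ≤ A|ζ|`
(`abs_le_torsion`). With `χ n` from `exists_cutoffs`, `f_n = χ_n f` is `C¹` (`contDiff_cut`), vanishes off `M`. So
`B ∫ f_n² ≤ ∫ gsq f_n + D Σ_i (∫_{Q_i} f_n)²`, and all integrals are integrals over `M` (resp. `M ∩ Q_i`). Let `n → ∞` with dominated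
convergence: `f_n → f` pointwise on `M`, `|f_n| ≤ |f|`; `dx f_n = χ_n dx f + f dx χ_n → dx f` pointwise (as `D χ_n x = 0` for large `n`) with
`|dx f_n| ≤ |dx f| + A |ζ| ‖D χ_n‖ ≤ C`; `∫_{Q_i} f_n = ∫_{M ∩ Q_i} f_n → ∫_{M ∩ Q_i} f = 0`.
-/

open MeasureTheory Set Filter Topology
open scoped ContDiff

namespace Pool.Agent.YUD

variable {M : Set ℂ}

/-- convergence of integrals over a subset of `M` -/
theorem A7b_tendsto (hM : IsOpen M) (hb : Bornology.IsBounded M) {S : Set ℂ}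
    (hS : MeasurableSet S) {F : ℕ → ℂ → ℝ} {g : ℂ → ℝ} {C : ℝ} (hF : ∀ n, Continuous (F n))
    (hbd : ∀ n, ∀ x ∈ M, |F n x| ≤ C)
    (hlim : ∀ x ∈ M, ∀ᶠ n in atTop, F n x = g x) :
    Tendsto (fun n => ∫ x in M ∩ S, F n x) atTop (𝓝 (∫ x in M ∩ S, g x)) := by
  have hfin : volume (M ∩ S) < ⊤ := (hb.subset inter_subset_left).measure_lt_top
  have : IsFiniteMeasure (volume.restrict (M ∩ S)) := isFiniteMeasure_restrict.2 hfin.ne
  have hmeas : MeasurableSet (M ∩ S) := hM.measurableSet.inter hS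
  refine tendsto_integral_of_dominated_convergence (fun _ => C)
    (fun n => (hF n).aestronglyMeasurable) (integrable_const C) (fun n => ?_) ?_
  · rw [ae_restrict_iff' hmeas]
    exact Eventually.of_forall fun x hx => by
      rw [Real.norm_eq_abs]
      exact hbd n x hx.1
  · rw [ae_restrict_iff' hmeas]
    exact Eventually.of_forall fun x hx =>
      tendsto_const_nhds.congr' ((hlim x hx.1).mono fun n hn => hn.symm)

theorem poincare_codim (hM : IsOpen M) (hb : Bornology.IsBounded M) {ζ : ℂ → ℝ}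
    (hζ : Torsion M ζ) (B : ℝ) : ∃ (m : ℕ) (Q : Fin m → Set ℂ), (∀ i, MeasurableSet (Q i)) ∧
      ∀ f : ℂ → ℝ, Stream M f → (∀ i, ∫ x in M ∩ Q i, f x = 0) →
        B * ∫ x in M, f x ^ 2 ≤ ∫ x in M, gsq f x := by
  obtain ⟨R, hR⟩ := hb.exists_norm_le
  obtain ⟨m, Q, D, hD, hQ, hP⟩ := poincare_squares (R + 1) B
  refine ⟨m, Q, hQ, fun f hf h0 => ?_⟩
  obtain ⟨C, hC⟩ := hf.bdd
  rcases M.eq_empty_or_nonempty with rfl | ⟨x0, hx0⟩
  · simp
  have hC0 : 0 ≤ C := (abs_nonneg _).trans (hC.1 x0 hx0)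
  have hlap : ∀ x ∈ M, |lap f x| ≤ 2 * C := by
    intro x hx
    have h1 := hC.2.1.2.1.1 x hx
    have h2 := hC.2.2.2.2.1 x hx
    unfold lap
    refine (abs_add_le _ _).trans ?_
    linarith
  have hfζ := abs_le_torsion hM hb hζ hf.two hf.zero hlap
  obtain ⟨Bc, χ, hB0, hχ, hχc, hχs, hχ01, hχd, hχ1⟩ := exists_cutoffs hM hb hζ
  set F : ℕ → ℂ → ℝ := fun n x => χ n x * f x with hFdef
  have hχ1' : ∀ n, ContDiff ℝ 1 (χ n) := fun n => (hχ n).of_le (by norm_num)
  have hF1 : ∀ n, ContDiff ℝ 1 (F n) := fun n =>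
    contDiff_cut (n := 1) hM (hχ1' n) (hχs n) hf.one
  have hFoff : ∀ n, ∀ x, x ∉ M → F n =ᶠ[𝓝 x] fun _ => 0 := by
    intro n x hx
    have h1 : x ∉ tsupport (χ n) := fun h => hx (hχs n h)
    filter_upwards [(isClosed_tsupport (χ n)).isOpen_compl.mem_nhds h1] with y hy
    have h2 : χ n y = 0 := image_eq_zero_of_notMem_tsupport hy
    show χ n y * f y = 0
    rw [h2, zero_mul]
  have hFoff0 : ∀ n, ∀ x, x ∉ M → F n x = 0 := fun n x hx => (hFoff n x hx).self_of_nhds
  have hFev : ∀ x ∈ M, ∀ᶠ n in atTop, F n =ᶠ[𝓝 x] f := by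
    intro x hx
    filter_upwards [hχ1 x hx] with n hn
    filter_upwards [hn] with y hy
    show χ n y * f y = f y
    rw [hy, one_mul]
  have hFbd : ∀ n, ∀ x ∈ M, |F n x| ≤ C := by
    intro n x hx
    show |χ n x * f x| ≤ C
    rw [abs_mul, abs_of_nonneg (hχ01 n x).1]
    have h1 := hC.1 x hx
    have h2 := (hχ01 n x).2
    have h3 := (hχ01 n x).1
    calc χ n x * |f x| ≤ 1 * C := by gcongr
      _ = C := one_mul C
  -- bound of the gradient
  set E := 2 * C * Bc + C with hE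
  have hdχ : ∀ n x, DifferentiableAt ℝ (χ n) x := fun n x =>
    (hχ1' n).differentiable (by norm_num) x
  have hdf : ∀ x ∈ M, DifferentiableAt ℝ f x := fun x hx => hf.differentiableAt hM hx
  have hxd : ∀ n, ∀ x ∈ M, |f x| * ‖fderiv ℝ (χ n) x‖ ≤ 2 * C * Bc := by
    intro n x hx
    calc |f x| * ‖fderiv ℝ (χ n) x‖ ≤ (2 * C * |ζ x|) * ‖fderiv ℝ (χ n) x‖ := by
          gcongr
          exact hfζ x hx
      _ = 2 * C * (|ζ x| * ‖fderiv ℝ (χ n) x‖) := by ring
      _ ≤ 2 * C * Bc := by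
          gcongr
          exact hχd n x hx
  have hdxF : ∀ n, ∀ x ∈ M, |dx (F n) x| ≤ E := by
    intro n x hx
    have h1 : dx (F n) x = dx (χ n) x * f x + χ n x * dx f x := dx_mul (hdχ n x) (hdf x hx)
    rw [h1]
    refine (abs_add_le _ _).trans ?_
    rw [abs_mul, abs_mul, abs_of_nonneg (hχ01 n x).1]
    have h2 : |dx (χ n) x| * |f x| ≤ 2 * C * Bc := by
      calc |dx (χ n) x| * |f x| ≤ ‖fderiv ℝ (χ n) x‖ * |f x| := by
            gcongr
            exact abs_dx_le _ _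
        _ = |f x| * ‖fderiv ℝ (χ n) x‖ := mul_comm _ _
        _ ≤ _ := hxd n x hx
    have h3 : χ n x * |dx f x| ≤ 1 * C := by
      have h4 := hC.2.1.1 x hx
      have h5 := (hχ01 n x).2
      have h6 := (hχ01 n x).1
      gcongr
    rw [hE]
    linarith
  have hdyF : ∀ n, ∀ x ∈ M, |dy (F n) x| ≤ E := by
    intro n x hx
    have h1 : dy (F n) x = dy (χ n) x * f x + χ n x * dy f x := dy_mul (hdχ n x) (hdf x hx)
    rw [h1]
    refine (abs_add_le _ _).trans ?_
    rw [abs_mul, abs_mul, abs_of_nonneg (hχ01 n x).1]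
    have h2 : |dy (χ n) x| * |f x| ≤ 2 * C * Bc := by
      calc |dy (χ n) x| * |f x| ≤ ‖fderiv ℝ (χ n) x‖ * |f x| := by
            gcongr
            exact abs_dy_le _ _
        _ = |f x| * ‖fderiv ℝ (χ n) x‖ := mul_comm _ _
        _ ≤ _ := hxd n x hx
    have h3 : χ n x * |dy f x| ≤ 1 * C := by
      have h4 := hC.2.2.1 x hx
      have h5 := (hχ01 n x).2
      have h6 := (hχ01 n x).1
      gcongr
    rw [hE]
    linarith
  have hgF : ∀ n, ∀ x ∈ M, |gsq (F n) x| ≤ 2 * E ^ 2 := by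
    intro n x hx
    rw [abs_of_nonneg (gsq_nonneg _ _)]
    unfold gsq
    have h1 := hdxF n x hx
    have h2 := hdyF n x hx
    have h3 := sq_le_sq' (by linarith [neg_abs_le (dx (F n) x)]) ((le_abs_self _).trans h1)
    have h4 := sq_le_sq' (by linarith [neg_abs_le (dy (F n) x)]) ((le_abs_self _).trans h2)
    linarith
  have hgcont : ∀ n, Continuous (gsq (F n)) := by
    intro n
    have h1 : Continuous (fderiv ℝ (F n)) := (hF1 n).continuous_fderiv (by norm_num)
    have h2 : Continuous (dx (F n)) := h1.clm_apply continuous_const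
    have h3 : Continuous (dy (F n)) := h1.clm_apply continuous_const
    exact (h2.pow 2).add (h3.pow 2)
  -- the inequality for the cut functions
  have hineq : ∀ n, B * ∫ x in M ∩ univ, F n x ^ 2 ≤ (∫ x in M ∩ univ, gsq (F n) x) +
      D * ∑ i, (∫ x in M ∩ Q i, F n x) ^ 2 := by
    intro n
    have h1 := hP (F n) (hF1 n) (fun x hx => hFoff0 n x fun hxM => by
      have := hR x hxM
      linarith)
    have e1 : ∫ x, F n x ^ 2 = ∫ x in M ∩ univ, F n x ^ 2 := by
      rw [inter_univ]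
      exact (setIntegral_eq_integral_of_forall_compl_eq_zero fun x hx => by
        rw [hFoff0 n x hx]; norm_num).symm
    have e2 : ∫ x, ((fderiv ℝ (F n) x 1) ^ 2 + (fderiv ℝ (F n) x Complex.I) ^ 2) =
        ∫ x in M ∩ univ, gsq (F n) x := by
      rw [inter_univ]
      exact (setIntegral_eq_integral_of_forall_compl_eq_zero fun x hx => by
        show (fderiv ℝ (F n) x 1) ^ 2 + (fderiv ℝ (F n) x Complex.I) ^ 2 = 0
        rw [(hFoff n x hx).fderiv_eq]
        simp).symm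
    have e3 : ∀ i, ∫ x in Q i, F n x = ∫ x in M ∩ Q i, F n x := fun i =>
      setIntegral_eq_of_subset_of_forall_sdiff_eq_zero (hQ i) inter_subset_right
        fun x hx => hFoff0 n x fun hxM => hx.2 ⟨hxM, hx.1⟩
    rw [e1, e2] at h1
    simp only [e3] at h1
    exact h1
  have t1 : Tendsto (fun n => ∫ x in M ∩ univ, F n x ^ 2) atTop
      (𝓝 (∫ x in M ∩ univ, f x ^ 2)) :=
    A7b_tendsto hM hb MeasurableSet.univ (C := C ^ 2) (fun n => (hF1 n).continuous.pow 2)
      (fun n x hx => by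
        rw [abs_pow]
        have := hFbd n x hx
        gcongr)
      (fun x hx => by
        filter_upwards [hFev x hx] with n hn
        rw [hn.self_of_nhds])
  have t2 : Tendsto (fun n => ∫ x in M ∩ univ, gsq (F n) x) atTop
      (𝓝 (∫ x in M ∩ univ, gsq f x)) :=
    A7b_tendsto hM hb MeasurableSet.univ (C := 2 * E ^ 2) hgcont hgF
      (fun x hx => by
        filter_upwards [hFev x hx] with n hn
        unfold gsq
        rw [dx_congr_nhds hn, dy_congr_nhds hn])
  have t3 : ∀ i, Tendsto (fun n => ∫ x in M ∩ Q i, F n x) atTop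
      (𝓝 (∫ x in M ∩ Q i, f x)) := fun i =>
    A7b_tendsto hM hb (hQ i) (C := C) (fun n => (hF1 n).continuous) hFbd
      (fun x hx => by
        filter_upwards [hFev x hx] with n hn
        exact hn.self_of_nhds)
  have t4 : Tendsto (fun n => (∫ x in M ∩ univ, gsq (F n) x) +
      D * ∑ i, (∫ x in M ∩ Q i, F n x) ^ 2) atTop
      (𝓝 ((∫ x in M ∩ univ, gsq f x) + D * ∑ i, (∫ x in M ∩ Q i, f x) ^ 2)) :=
    t2.add ((tendsto_finsetSum _ fun i _ => (t3 i).pow 2).const_mul D)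
  have h5 := le_of_tendsto_of_tendsto' (t1.const_mul B) t4 hineq
  rw [inter_univ] at h5
  have h6 : ∑ i, (∫ x in M ∩ Q i, f x) ^ 2 = 0 :=
    Finset.sum_eq_zero fun i _ => by rw [h0 i]; norm_num
  rw [h6, mul_zero, add_zero] at h5
  exact h5

end Pool.Agent.YUD
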