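import Pool.Agent.YUD.Base2

/-!
# [YUD] A8: difference quotients under the integral sign

PROOF. `g'' = deriv (deriv g)` is continuous of compact support, so `|g''| ≤ K`, `|g'| ≤ K`; Taylor:
`|g (s+u) - g s - g' s * u| ≤ K u²` (mean value inequality twice). With `d = Ψ ε x - ψ x`, `|d - ε φ| ≤ η ε`, so `|d| ≤ (|A|+η) ε` and
`|g(Ψ ε x) - g(ψ x) - ε g'(ψ x) φ x| ≤ K η ε + K (|A|+η)² ε²`. Integrate over `M` (finite volume, `integrableOn_of_bdd`): with
`I = ∫_M g'(ψ) φ`, `0 = ∫ g(Ψ ε) - ∫ g(ψ)`, so `|ε I| ≤ vol(M) (K η ε + K (|A|+η)² ε²)`, i.e. `|I| ≤ vol(M) K (η + (|A|+η)² ε)` for all small `ε > 0`;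
`ε → 0`, then `η → 0`.
-/

open MeasureTheory Set Filter Topology
open scoped ContDiff

namespace Pool.Agent.YUD

variable {M : Set ℂ}

theorem a8_taylor {g : ℝ → ℝ} (hg : ContDiff ℝ 2 g) (hgc : HasCompactSupport g) :
    ∃ K, 0 ≤ K ∧ (∀ s, |g s| ≤ K) ∧ (∀ s, |deriv g s| ≤ K) ∧
      ∀ s u, |g (s + u) - g s - deriv g s * u| ≤ K * u ^ 2 := by
  have hd : Differentiable ℝ g := hg.differentiable (by norm_num)
  have h2 : ContDiff ℝ 1 (deriv g) := by
    have h3 : ContDiff ℝ (1 + 1) g := by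
      have e : (1 : WithTop ℕ∞) + 1 = 2 := by norm_num
      rw [e]; exact hg
    exact (contDiff_succ_iff_deriv.1 h3).2.2
  have hd1 : Differentiable ℝ (deriv g) := h2.differentiable (by norm_num)
  have hc2 : Continuous (deriv (deriv g)) := h2.continuous_deriv le_rfl
  obtain ⟨K0, hK0⟩ := hgc.exists_bound_of_continuous hg.continuous
  obtain ⟨K1, hK1⟩ := hgc.deriv.exists_bound_of_continuous h2.continuous
  obtain ⟨K2, hK2⟩ := hgc.deriv.deriv.exists_bound_of_continuous hc2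
  set K := max (max K0 K1) (max K2 0) with hK
  have k0 : K0 ≤ K := (le_max_left _ _).trans (le_max_left _ _)
  have k1 : K1 ≤ K := (le_max_right _ _).trans (le_max_left _ _)
  have k2 : K2 ≤ K := (le_max_left _ _).trans (le_max_right _ _)
  have k3 : 0 ≤ K := (le_max_right _ _).trans (le_max_right _ _)
  refine ⟨K, k3, fun s => (hK0 s).trans k0, fun s => (hK1 s).trans k1, fun s u => ?_⟩
  have hlip : ∀ v, |deriv g v - deriv g s| ≤ K * |v - s| := by
    intro v
    have := Convex.norm_image_sub_le_of_norm_deriv_le (f := deriv g) (C := K) (s := univ) (x := s) (y := v)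
      (fun x _ => hd1 x) (fun x _ => (hK2 x).trans k2) convex_univ (mem_univ _) (mem_univ _)
    simpa using this
  have hf : ∀ v, HasDerivAt (fun v => g v - deriv g s * v) (deriv g v - deriv g s) v := by
    intro v
    have h5 : HasDerivAt (fun v : ℝ => deriv g s * v) (deriv g s) v := by
      simpa using (hasDerivAt_id v).const_mul (deriv g s)
    exact (hd v).hasDerivAt.sub h5
  have h6 := Convex.norm_image_sub_le_of_norm_deriv_le (f := fun v => g v - deriv g s * v) (C := K * |u|)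
    (s := uIcc s (s + u)) (x := s) (y := s + u) (fun v _ => (hf v).differentiableAt)
    (fun v hv => by
      rw [(hf v).deriv, Real.norm_eq_abs]
      refine (hlip v).trans (mul_le_mul_of_nonneg_left ?_ k3)
      have h7 := abs_sub_left_of_mem_uIcc hv
      simpa using h7) (convex_uIcc s (s + u)) left_mem_uIcc right_mem_uIcc
  have h8 : g (s + u) - deriv g s * (s + u) - (g s - deriv g s * s) = g (s + u) - g s - deriv g s * u := by
    ring
  rw [h8, Real.norm_eq_abs, Real.norm_eq_abs, add_sub_cancel_left] at h6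
  refine h6.trans (le_of_eq ?_)
  rw [mul_assoc, ← sq, sq_abs]

theorem deriv_limit (hM : IsOpen M) (hb : Bornology.IsBounded M) {ψ φ : ℂ → ℝ} {Ψ : ℝ → ℂ → ℝ}
    (hψ : ContinuousOn ψ M) (hφ : ContinuousOn φ M) {A : ℝ} (hφA : ∀ x ∈ M, |φ x| ≤ A)
    (hΨ : ∀ᶠ ε in 𝓝[>] 0, ContinuousOn (Ψ ε) M) {g : ℝ → ℝ} (hg : ContDiff ℝ 2 g)
    (hgc : HasCompactSupport g)
    (h : ∀ η > 0, ∀ᶠ ε in 𝓝[>] 0, ∀ x ∈ M, |Ψ ε x - ψ x - ε * φ x| ≤ η * ε)
    (h0 : ∫ x in M, g (ψ x) = 0) (hε : ∀ᶠ ε in 𝓝[>] (0 : ℝ), ∫ x in M, g (Ψ ε x) = 0) :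
    ∫ x in M, deriv g (ψ x) * φ x = 0 := by
  obtain ⟨K, hK, hK0, hK1, hK2⟩ := a8_taylor hg hgc
  set V : ℝ := volume.real M with hV
  have hV0 : 0 ≤ V := measureReal_nonneg
  have hfin : volume M < ⊤ := hb.measure_lt_top
  have hA0 : 0 ≤ |A| := abs_nonneg A
  have hφA' : ∀ x ∈ M, |φ x| ≤ |A| := fun x hx => (hφA x hx).trans (le_abs_self A)
  have hgcont : Continuous g := hg.continuous
  have hg'cont : Continuous (deriv g) := hg.continuous_deriv (by norm_num)
  set I : ℝ := ∫ x in M, deriv g (ψ x) * φ x with hI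
  have hint1 : IntegrableOn (fun x => g (ψ x)) M :=
    integrableOn_of_bdd hM hb (hgcont.comp_continuousOn hψ) (C := K) fun x _ => hK0 _
  have hint2 : IntegrableOn (fun x => deriv g (ψ x) * φ x) M := by
    refine integrableOn_of_bdd hM hb ((hg'cont.comp_continuousOn hψ).mul hφ) (C := K * |A|) fun x hx => ?_
    rw [abs_mul]
    exact mul_le_mul (hK1 _) (hφA' x hx) (abs_nonneg _) hK
  have key : ∀ δ : ℝ, 0 < δ → δ ≤ 1 → |I| ≤ δ * (V * K * (1 + (|A| + 1) ^ 2)) := by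
    intro δ hδ hδ1
    have hsm : ∀ᶠ ε in 𝓝[>] (0 : ℝ), ε < δ :=
      (eventually_lt_nhds hδ).filter_mono nhdsWithin_le_nhds
    have hpos : ∀ᶠ ε in 𝓝[>] (0 : ℝ), 0 < ε := eventually_mem_nhdsWithin
    obtain ⟨ε, ⟨⟨⟨⟨h1, h2⟩, h3⟩, h4⟩, h5⟩⟩ := ((((hsm.and hpos).and (h δ hδ)).and hΨ).and hε).exists
    have hint3 : IntegrableOn (fun x => g (Ψ ε x)) M :=
      integrableOn_of_bdd hM hb (hgcont.comp_continuousOn h4) (C := K) fun x _ => hK0 _
    have e1 : ∫ x in M, (g (Ψ ε x) - g (ψ x) - ε * (deriv g (ψ x) * φ x)) = - (ε * I) := by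
      have e0 := integral_sub (hint3.sub hint1) (hint2.const_mul ε)
      simp only [Pi.sub_apply] at e0
      rw [e0, integral_sub hint3 hint1, h5, h0, integral_const_mul]
      ring
    have e2 : ∀ x ∈ M, ‖g (Ψ ε x) - g (ψ x) - ε * (deriv g (ψ x) * φ x)‖ ≤
        K * (δ * ε) + K * ((|A| + 1) * ε) ^ 2 := by
      intro x hx
      have h6 := h3 x hx
      set d := Ψ ε x - ψ x with hd
      have h7 : Ψ ε x = ψ x + d := by rw [hd]; ring
      have h8 : |d| ≤ (|A| + 1) * ε := by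
        have h9 : d = (d - ε * φ x) + ε * φ x := by ring
        have h10 : |ε * φ x| ≤ ε * |A| := by
          rw [abs_mul, abs_of_pos h2]
          exact mul_le_mul_of_nonneg_left (hφA' x hx) h2.le
        have h11 : δ * ε ≤ 1 * ε := mul_le_mul_of_nonneg_right hδ1 h2.le
        calc |d| = |(d - ε * φ x) + ε * φ x| := by rw [← h9]
          _ ≤ |d - ε * φ x| + |ε * φ x| := abs_add_le _ _
          _ ≤ δ * ε + ε * |A| := add_le_add h6 h10
          _ ≤ (|A| + 1) * ε := by linarith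
      have h12 : g (Ψ ε x) - g (ψ x) - ε * (deriv g (ψ x) * φ x) =
          (g (ψ x + d) - g (ψ x) - deriv g (ψ x) * d) + deriv g (ψ x) * (d - ε * φ x) := by
        rw [h7]; ring
      rw [Real.norm_eq_abs, h12]
      refine (abs_add_le _ _).trans ?_
      rw [add_comm]
      refine add_le_add ?_ ?_
      · rw [abs_mul]
        exact mul_le_mul (hK1 _) h6 (abs_nonneg _) hK
      · refine (hK2 _ _).trans (mul_le_mul_of_nonneg_left ?_ hK)
        rw [← sq_abs d]
        exact pow_le_pow_left₀ (abs_nonneg _) h8 2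
    have e3 := norm_setIntegral_le_of_norm_le_const hfin e2
    rw [e1, norm_neg, Real.norm_eq_abs, abs_mul, abs_of_pos h2, ← hV] at e3
    have e4 : ε * |I| ≤ ε * (V * K * (δ + (|A| + 1) ^ 2 * ε)) := by
      refine e3.trans (le_of_eq ?_)
      ring
    have e5 : |I| ≤ V * K * (δ + (|A| + 1) ^ 2 * ε) := le_of_mul_le_mul_left e4 h2
    refine e5.trans ?_
    have e6 : (|A| + 1) ^ 2 * ε ≤ (|A| + 1) ^ 2 * δ := mul_le_mul_of_nonneg_left h1.le (by positivity)
    have e7 : 0 ≤ V * K := mul_nonneg hV0 hK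
    calc V * K * (δ + (|A| + 1) ^ 2 * ε) ≤ V * K * (δ + (|A| + 1) ^ 2 * δ) :=
          mul_le_mul_of_nonneg_left (by linarith) e7
      _ = δ * (V * K * (1 + (|A| + 1) ^ 2)) := by ring
  set C0 : ℝ := V * K * (1 + (|A| + 1) ^ 2) with hC0
  have hC : 0 ≤ C0 := by positivity
  by_contra hne
  have hpos : 0 < |I| := abs_pos.2 hne
  have h1 := key (min 1 (|I| / (2 * (C0 + 1)))) (lt_min one_pos (by positivity)) (min_le_left _ _)
  have h2 : min 1 (|I| / (2 * (C0 + 1))) * C0 ≤ |I| / (2 * (C0 + 1)) * (C0 + 1) :=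
    mul_le_mul (min_le_right _ _) (by linarith) hC (by positivity)
  have h3 : |I| / (2 * (C0 + 1)) * (C0 + 1) = |I| / 2 := by
    field_simp
  linarith

end Pool.Agent.YUD
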