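import Pool.Agent.YUD.Base

/-!
# [YUD] A9: a nonzero test function killed by finitely many linear functionals

PROOF. `N = finrank W + 1`; choose disjoint nonempty closed intervals `[a_i, b_i] ⊆ [a,b]`, `i : Fin N`, e.g. with midpoints
`c_i = a + (b-a)(2i+1)/(2N)` and radius `ρ = (b-a)/(4N)`. Take smooth bumps `β_i` (`ContDiffBump`, center `c_i`, `rOut = ρ`), `β_i c_i = 1`,
support in `closedBall c_i ρ`, smooth (`ContDiffBump.contDiff`). `β_i'' ∈ Sm`. The linear map `(Fin N → ℝ) →ₗ W`,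
`c ↦ L (Σ c_i β_i'')` has a nonzero kernel vector `c` (`LinearMap.exists_ne_zero_of_...`/`LinearMap.ker_ne_bot_of_finrank_lt`). `h = Σ c_i β_i`: smooth, `tsupport h ⊆ Icc a b` (closed set containing
the supports: `closure_minimal`), `h c_i = c_i`-th coefficient (disjointness), so `h ≠ 0`; `deriv (deriv h) = Σ c_i β_i''`.
-/

open MeasureTheory Set Filter Topology
open scoped ContDiff

namespace Pool.Agent.YUD

theorem A9_poly (p : Polynomial ℝ) : ContDiff ℝ ∞ fun x : ℝ => p.eval x := by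
  have h := Polynomial.contDiff_aeval (𝕜 := ℝ) p ∞
  simpa [Polynomial.coe_aeval_eq_eval] using h

theorem A9_smooth {f : ℝ → ℝ} (hf : ContDiff ℝ ∞ f) : ContDiff ℝ ∞ (deriv f) :=
  (contDiff_infty_iff_deriv.1 hf).2

theorem A9_deriv_add {f g : ℝ → ℝ} (hf : ContDiff ℝ ∞ f) (hg : ContDiff ℝ ∞ g) :
    deriv (fun x => f x + g x) = fun x => deriv f x + deriv g x := by
  ext x
  exact deriv_fun_add ((contDiff_infty_iff_deriv.1 hf).1 x) ((contDiff_infty_iff_deriv.1 hg).1 x)

theorem A9_deriv_smul {f : ℝ → ℝ} (c : ℝ) :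
    deriv (fun x => c * f x) = fun x => c * deriv f x := by
  ext x
  exact deriv_const_mul_field c

/-- the linear map `p ↦ (p β)''` -/
noncomputable def A9_T (β : ℝ → ℝ) (hβ : ContDiff ℝ ∞ β) : Polynomial ℝ →ₗ[ℝ] Sm where
  toFun p := ⟨deriv (deriv fun x => p.eval x * β x), A9_smooth (A9_smooth ((A9_poly p).mul hβ))⟩
  map_add' p q := by
    apply Subtype.ext
    show deriv (deriv fun x => (p + q).eval x * β x) =
      (deriv (deriv fun x => p.eval x * β x)) + (deriv (deriv fun x => q.eval x * β x))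
    have h1 : (fun x => (p + q).eval x * β x) = fun x => p.eval x * β x + q.eval x * β x := by
      ext x
      rw [Polynomial.eval_add, add_mul]
    have hp : ContDiff ℝ ∞ fun x => p.eval x * β x := (A9_poly p).mul hβ
    have hq : ContDiff ℝ ∞ fun x => q.eval x * β x := (A9_poly q).mul hβ
    rw [h1, A9_deriv_add hp hq, A9_deriv_add (A9_smooth hp) (A9_smooth hq)]
    rfl
  map_smul' c p := by
    apply Subtype.ext
    show deriv (deriv fun x => (c • p).eval x * β x) = c • (deriv (deriv fun x => p.eval x * β x))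
    have h1 : (fun x => (c • p).eval x * β x) = fun x => c * (p.eval x * β x) := by
      ext x
      rw [Polynomial.eval_smul, smul_eq_mul, mul_assoc]
    rw [h1, A9_deriv_smul, A9_deriv_smul]
    rfl

theorem exists_test {a b : ℝ} (hab : a < b) {W : Type} [AddCommGroup W] [Module ℝ W]
    [FiniteDimensional ℝ W] (L : Sm →ₗ[ℝ] W) :
    ∃ h : ℝ → ℝ, ContDiff ℝ ∞ h ∧ tsupport h ⊆ Icc a b ∧ h ≠ 0 ∧
      ∃ hs : deriv (deriv h) ∈ Sm, L ⟨deriv (deriv h), hs⟩ = 0 := by
  let β : ContDiffBump ((a + b) / 2 : ℝ) :=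
    { rIn := (b - a) / 4, rOut := (b - a) / 2, rIn_pos := by linarith, rIn_lt_rOut := by linarith }
  have hβ : ContDiff ℝ ∞ (β : ℝ → ℝ) := β.contDiff
  obtain ⟨N, hN⟩ : ∃ N : ℕ, N = Module.finrank ℝ W + 1 := ⟨_, rfl⟩
  let F : (Fin N → ℝ) →ₗ[ℝ] W :=
    L ∘ₗ (A9_T β hβ) ∘ₗ (Polynomial.degreeLT ℝ N).subtype ∘ₗ (Polynomial.degreeLTEquiv ℝ N).symm.toLinearMap
  have hF : LinearMap.ker F ≠ ⊥ := by
    apply LinearMap.ker_ne_bot_of_finrank_lt
    rw [Module.finrank_fin_fun]
    omega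
  obtain ⟨v, hv, hv0⟩ := (Submodule.ne_bot_iff _).1 hF
  obtain ⟨p, hp⟩ : ∃ p : Polynomial.degreeLT ℝ N, p = (Polynomial.degreeLTEquiv ℝ N).symm v := ⟨_, rfl⟩
  have hp0 : (p : Polynomial ℝ) ≠ 0 := by
    intro h0
    have h1 : p = 0 := Subtype.ext h0
    rw [h1] at hp
    exact hv0 ((LinearEquiv.map_eq_zero_iff _).1 hp.symm)
  have hLp : L (A9_T β hβ (p : Polynomial ℝ)) = 0 := by
    rw [hp]
    exact hv
  refine ⟨fun x => (p : Polynomial ℝ).eval x * β x, (A9_poly _).mul hβ, ?_, ?_,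
    A9_smooth (A9_smooth ((A9_poly _).mul hβ)), hLp⟩
  · refine (tsupport_mul_subset_right (f := fun x => (p : Polynomial ℝ).eval x) (g := β)).trans ?_
    rw [β.tsupport_eq, Real.closedBall_eq_Icc]
    show Icc ((a + b) / 2 - (b - a) / 2) ((a + b) / 2 + (b - a) / 2) ⊆ Icc a b
    apply Icc_subset_Icc <;> linarith
  · intro h0
    apply hp0
    apply Polynomial.eq_zero_of_infinite_isRoot
    have h1 : (Icc ((a + b) / 2 - (b - a) / 4) ((a + b) / 2 + (b - a) / 4)).Infinite :=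
      Icc_infinite (by linarith)
    refine h1.mono fun x hx => ?_
    have h2 : x ∈ Metric.closedBall ((a + b) / 2 : ℝ) β.rIn := by
      rw [Real.closedBall_eq_Icc]
      exact hx
    have h3 : (p : Polynomial ℝ).eval x * β x = 0 := congrFun h0 x
    rw [β.one_of_mem_closedBall h2, mul_one] at h3
    exact h3

end Pool.Agent.YUD
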