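import Pool.Agent.YUD.Base

/-!
# [YUD] B1: a Banach space realising the norm of `C^{1,α}(M)`

PROOF. `V = ℂ →L[ℝ] ℝ`, `P = {p : ℂ × ℂ // p.1 ∈ M ∧ p.2 ∈ M ∧ p.1 ≠ p.2}`, `Y = (↥M →ᵇ ℝ) × (↥M →ᵇ V) × (↥P →ᵇ V)` (bounded continuous
functions, a Banach space). For `a : ↥M → ℝ` let `E a : ℂ → ℝ` be its extension by `0`.
`X` = the submodule of the `(a, b, c) : Y` with `∀ x : M, HasFDerivAt (E a) (b x) x` and
`∀ p : P, c p = (‖p.1 - p.2‖ ^ α)⁻¹ • (b p.1 - b p.2)`. It is closed: a limit of `(a_n, b_n, c_n) ∈ X` satisfies the second condition pointwise, and the first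
by `hasFDerivAt_of_tendstoUniformlyOn` on the open set `M` (convergence in `→ᵇ` is uniform; use sequences, `IsSeqClosed.isClosed`, or
the filter version). So `X` is complete. `ev (a,b,c) = E a`, linear.
* `normLe`: on `M`, `|E a x| ≤ ‖a‖`, `fderiv (E a) x = b x`, `‖b x‖ ≤ ‖b‖`, `‖b x - b y‖ = ‖x-y‖^α ‖c (x,y)‖ ≤ ‖c‖ ‖x-y‖^α` (trivial for
  `x = y`); each norm is `≤ ‖F‖` (sup norm of the product), so constants `‖F‖, ‖F‖, ‖F‖`, sum `3‖F‖`.
* `lift`: `f` with constants `a₀ + b₀ + c₀ ≤ C`: `f|M` is continuous (differentiable on the open `M`), `fderiv f` on `M` is continuous because of the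
  Hölder bound and `α > 0`, the quotient is continuous on `P`; bounded by `a₀, b₀, c₀`; (`E (f|M) = f` near points of `M`, so `HasFDerivAt`.)
  The norm is `max(..) ≤ C`. (`BoundedContinuousFunction.norm_ofNormedAddCommGroup_le`, all constants are `≥ 0`.)
* `ext`: `E a = 0` on `M` gives `a = 0`, then `b = 0` (derivative of a function vanishing on the open set), `c = 0`.
(You may use `lp`-type spaces of bounded functions instead of continuous ones if you find it easier.)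
-/

open MeasureTheory Set Filter Topology
open scoped ContDiff

namespace Pool.Agent.YUD

/-- a normed space `X` of functions realising the norm of `C^{1,α}(M)` up to constants -/
structure Model (M : Set ℂ) (α : ℝ) (X : Type) [NormedAddCommGroup X] [NormedSpace ℝ X] where
  ev : X →ₗ[ℝ] (ℂ → ℝ)
  normLe : ∀ f, NormLe M α (3 * ‖f‖) (ev f)
  lift : ∀ (C : ℝ) (f : ℂ → ℝ), NormLe M α C f → ∃ F : X, ‖F‖ ≤ C ∧ ∀ x ∈ M, ev F x = f x
  ext : ∀ F : X, (∀ x ∈ M, ev F x = 0) → F = 0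

/-! the space -/

section B1

open scoped ENNReal

variable (M : Set ℂ) (α : ℝ)

/-- pairs of different points of `M` -/
abbrev B1P : Type := {p : ℂ × ℂ // p.1 ∈ M ∧ p.2 ∈ M ∧ p.1 ≠ p.2}

/-- bounded families -/
abbrev B1Y : Type :=
  lp (fun _ : M => ℝ) ∞ × lp (fun _ : M => (ℂ →L[ℝ] ℝ)) ∞ × lp (fun _ : B1P M => (ℂ →L[ℝ] ℝ)) ∞

open scoped Classical in
/-- extension by zero -/
noncomputable def B1E {V : Type} [Zero V] (a : M → V) (x : ℂ) : V := if h : x ∈ M then a ⟨x, h⟩ else 0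

variable {M}

theorem B1E_mem {V : Type} [Zero V] (a : M → V) (x : M) : B1E M a x = a x := by
  unfold B1E
  rw [dif_pos x.2]

theorem B1E_mem' {V : Type} [Zero V] (a : M → V) {x : ℂ} (hx : x ∈ M) : B1E M a x = a ⟨x, hx⟩ := by
  unfold B1E
  rw [dif_pos hx]

theorem B1E_add (a b : M → ℝ) : B1E M (fun x => a x + b x) = fun x => B1E M a x + B1E M b x := by
  ext x
  unfold B1E
  by_cases h : x ∈ M
  · simp only [dif_pos h]
  · simp only [dif_neg h, add_zero]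

theorem B1E_smul (c : ℝ) (a : M → ℝ) : B1E M (fun x => c * a x) = fun x => c * B1E M a x := by
  ext x
  unfold B1E
  by_cases h : x ∈ M
  · simp only [dif_pos h]
  · simp only [dif_neg h, mul_zero]

/-- the condition -/
structure B1C (F : B1Y M) : Prop where
  der : ∀ x : M, HasFDerivAt (B1E M (fun x => F.1 x)) (F.2.1 x) (x : ℂ)
  hol : ∀ p : B1P M, F.2.2 p = (‖p.1.1 - p.1.2‖ ^ α)⁻¹ •
    (F.2.1 ⟨p.1.1, p.2.1⟩ - F.2.1 ⟨p.1.2, p.2.2.1⟩)

variable (M) in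
/-- the space -/
def B1X : Submodule ℝ (B1Y M) where
  carrier := {F | B1C α F}
  zero_mem' := by
    refine ⟨fun x => ?_, fun p => ?_⟩
    · have h : (B1E M (fun x => ((0 : B1Y M).1 : lp (fun _ : M => ℝ) ∞) x)) = fun _ => 0 := by
        ext x
        unfold B1E
        by_cases h : x ∈ M
        · rw [dif_pos h]; rfl
        · rw [dif_neg h]
      rw [h]
      exact hasFDerivAt_const _ _
    · show (0 : ℂ →L[ℝ] ℝ) = _ • ((0 : ℂ →L[ℝ] ℝ) - 0)
      rw [sub_zero, smul_zero]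
  add_mem' := by
    intro F G hF hG
    refine ⟨fun x => ?_, fun p => ?_⟩
    · have h : (B1E M (fun x => (F + G).1 x)) =
          fun x => B1E M (fun x => F.1 x) x + B1E M (fun x => G.1 x) x :=
        B1E_add (fun x => F.1 x) (fun x => G.1 x)
      rw [h]
      exact (hF.der x).add (hG.der x)
    · show F.2.2 p + G.2.2 p = _ • ((F.2.1 _ + G.2.1 _) - (F.2.1 _ + G.2.1 _))
      rw [hF.hol p, hG.hol p, ← smul_add]
      congr 1
      abel
  smul_mem' := by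
    intro c F hF
    refine ⟨fun x => ?_, fun p => ?_⟩
    · have h : (B1E M (fun x => (c • F).1 x)) = fun x => c * B1E M (fun x => F.1 x) x :=
        B1E_smul c (fun x => F.1 x)
      rw [h]
      exact (hF.der x).const_mul c
    · have e : ∀ (u v : ℂ →L[ℝ] ℝ) (r : ℝ), c • r • (u - v) = r • (c • u - c • v) := by
        intro u v r
        ext z
        simp only [ContinuousLinearMap.smul_apply, ContinuousLinearMap.sub_apply, smul_eq_mul]
        ring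
      exact (congrArg (fun z => c • z) (hF.hol p)).trans (e _ _ _)

theorem B1_mem (F : B1Y M) : F ∈ B1X M α ↔ B1C α F := Iff.rfl

theorem B1_closed (hM : IsOpen M) : IsClosed (B1X M α : Set (B1Y M)) := by
  apply IsSeqClosed.isClosed
  intro F G hF hFG
  have h1 : Tendsto (fun n => (F n).1) atTop (𝓝 G.1) := (continuous_fst.tendsto _).comp hFG
  have h2 : Tendsto (fun n => (F n).2.1) atTop (𝓝 G.2.1) :=
    ((continuous_fst.comp continuous_snd).tendsto _).comp hFG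
  have h3 : Tendsto (fun n => (F n).2.2) atTop (𝓝 G.2.2) :=
    ((continuous_snd.comp continuous_snd).tendsto _).comp hFG
  have hnn : (∞ : ℝ≥0∞) ≠ 0 := ENNReal.top_ne_zero
  have h1' : ∀ x : M, Tendsto (fun n => (F n).1 x) atTop (𝓝 (G.1 x)) := by
    intro x
    rw [tendsto_iff_norm_sub_tendsto_zero] at h1 ⊢
    exact squeeze_zero (fun n => norm_nonneg _)
      (fun n => lp.norm_apply_le_norm hnn ((F n).1 - G.1) x) h1
  have h2' : ∀ x : M, Tendsto (fun n => (F n).2.1 x) atTop (𝓝 (G.2.1 x)) := by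
    intro x
    rw [tendsto_iff_norm_sub_tendsto_zero] at h2 ⊢
    exact squeeze_zero (fun n => norm_nonneg _)
      (fun n => lp.norm_apply_le_norm hnn ((F n).2.1 - G.2.1) x) h2
  have h3' : ∀ x : B1P M, Tendsto (fun n => (F n).2.2 x) atTop (𝓝 (G.2.2 x)) := by
    intro x
    rw [tendsto_iff_norm_sub_tendsto_zero] at h3 ⊢
    exact squeeze_zero (fun n => norm_nonneg _)
      (fun n => lp.norm_apply_le_norm hnn ((F n).2.2 - G.2.2) x) h3
  refine ⟨fun x => ?_, fun p => ?_⟩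
  · have hu : TendstoUniformlyOn (fun n => B1E M (fun x => (F n).2.1 x))
        (B1E M (fun x => G.2.1 x)) atTop M := by
      rw [Metric.tendstoUniformlyOn_iff]
      intro ε hε
      have h4 := (tendsto_iff_norm_sub_tendsto_zero.1 h2).eventually (gt_mem_nhds hε)
      filter_upwards [h4] with n hn z hz
      rw [B1E_mem' _ hz, B1E_mem' _ hz, dist_comm, dist_eq_norm]
      exact lt_of_le_of_lt (lp.norm_apply_le_norm hnn ((F n).2.1 - G.2.1) ⟨z, hz⟩) hn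
    have h5 := hasFDerivAt_of_tendstoUniformlyOn (𝕜 := ℝ) (l := atTop)
      (f := fun n => B1E M (fun x => (F n).1 x)) (g := B1E M (fun x => G.1 x)) hM hu
      (fun n z hz => by
        have h6 := (hF n).der ⟨z, hz⟩
        rw [B1E_mem' _ hz]
        exact h6) (fun z hz => by
        simp only [B1E_mem' _ hz]
        exact h1' ⟨z, hz⟩) x.2
    rw [B1E_mem] at h5
    exact h5
  · refine tendsto_nhds_unique (h3' p) ?_
    have h6 : (fun n => (F n).2.2 p) = fun n => (‖p.1.1 - p.1.2‖ ^ α)⁻¹ •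
        ((F n).2.1 ⟨p.1.1, p.2.1⟩ - (F n).2.1 ⟨p.1.2, p.2.2.1⟩) := by
      ext1 n
      exact (hF n).hol p
    rw [h6]
    exact ((h2' _).sub (h2' _)).const_smul _

/-- the evaluation -/
noncomputable def B1ev : B1X M α →ₗ[ℝ] (ℂ → ℝ) where
  toFun F := B1E M (fun x => (F : B1Y M).1 x)
  map_add' F G := B1E_add (fun x => (F : B1Y M).1 x) (fun x => (G : B1Y M).1 x)
  map_smul' c F := B1E_smul c (fun x => (F : B1Y M).1 x)

theorem B1_normLe (F : B1X M α) : NormLe M α (3 * ‖F‖) (B1ev α F) := by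
  obtain ⟨F, hF⟩ := F
  have hnn : (∞ : ℝ≥0∞) ≠ 0 := ENNReal.top_ne_zero
  have n1 : ‖F.1‖ ≤ ‖F‖ := norm_fst_le F
  have n2' : ‖F.2‖ ≤ ‖F‖ := norm_snd_le F
  have n2 : ‖F.2.1‖ ≤ ‖F‖ := (norm_fst_le F.2).trans n2'
  have n3 : ‖F.2.2‖ ≤ ‖F‖ := (norm_snd_le F.2).trans n2'
  have hfd : ∀ x (hx : x ∈ M), fderiv ℝ (B1ev α ⟨F, hF⟩) x = F.2.1 ⟨x, hx⟩ := fun x hx =>
    (hF.der ⟨x, hx⟩).fderiv
  refine ⟨fun x hx => (hF.der ⟨x, hx⟩).differentiableAt.differentiableWithinAt, ‖F‖, ‖F‖, ‖F‖,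
    norm_nonneg _, norm_nonneg _, norm_nonneg _, ?_, ?_, ?_, ?_⟩
  · show ‖F‖ + ‖F‖ + ‖F‖ ≤ 3 * ‖F‖
    linarith
  · intro x hx
    show |B1E M (fun x => F.1 x) x| ≤ ‖F‖
    rw [B1E_mem' _ hx, ← Real.norm_eq_abs]
    exact (lp.norm_apply_le_norm hnn F.1 ⟨x, hx⟩).trans n1
  · intro x hx
    rw [hfd x hx]
    exact (lp.norm_apply_le_norm hnn F.2.1 ⟨x, hx⟩).trans n2
  · intro x hx y hy
    rw [hfd x hx, hfd y hy]
    by_cases hxy : x = y
    · subst hxy
      rw [sub_self, norm_zero]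
      positivity
    · have h4 := hF.hol ⟨(x, y), hx, hy, hxy⟩
      have h5 := (lp.norm_apply_le_norm hnn F.2.2 ⟨(x, y), hx, hy, hxy⟩).trans n3
      rw [h4, norm_smul, norm_inv] at h5
      have hpos : 0 < ‖x - y‖ := norm_pos_iff.2 (sub_ne_zero.2 hxy)
      have hpos' : 0 < ‖x - y‖ ^ α := Real.rpow_pos_of_pos hpos α
      have h6 : ‖(‖x - y‖ ^ α : ℝ)‖ = ‖x - y‖ ^ α := by
        rw [Real.norm_eq_abs, abs_of_pos hpos']
      have h7 : (‖x - y‖ ^ α)⁻¹ * ‖F.2.1 ⟨x, hx⟩ - F.2.1 ⟨y, hy⟩‖ ≤ ‖F‖ := by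
        rw [← h6]
        exact h5
      rwa [inv_mul_le_iff₀ hpos', mul_comm] at h7

theorem B1_lift (hM : IsOpen M) (C : ℝ) (f : ℂ → ℝ) (hf : NormLe M α C f) :
    ∃ F : B1X M α, ‖F‖ ≤ C ∧ ∀ x ∈ M, B1ev α F x = f x := by
  obtain ⟨hd, a₀, b₀, c₀, ha, hb, hc, habc, h1, h2, h3⟩ := hf
  have hCa : a₀ ≤ C := by linarith
  have hCb : b₀ ≤ C := by linarith
  have hCc : c₀ ≤ C := by linarith
  have hC : 0 ≤ C := by linarith
  have hq : ∀ p : B1P M, ‖(‖p.1.1 - p.1.2‖ ^ α)⁻¹ •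
      (fderiv ℝ f p.1.1 - fderiv ℝ f p.1.2)‖ ≤ c₀ := by
    intro p
    have hpos : 0 < ‖p.1.1 - p.1.2‖ := norm_pos_iff.2 (sub_ne_zero.2 p.2.2.2)
    have hpos' : 0 < ‖p.1.1 - p.1.2‖ ^ α := Real.rpow_pos_of_pos hpos α
    rw [norm_smul, norm_inv, Real.norm_eq_abs, abs_of_pos hpos', inv_mul_le_iff₀ hpos', mul_comm]
    exact h3 _ p.2.1 _ p.2.2.1
  let a : lp (fun _ : M => ℝ) ∞ := ⟨fun x => f x, memℓp_infty ⟨a₀, by
    rintro _ ⟨x, rfl⟩
    show ‖f x‖ ≤ a₀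
    rw [Real.norm_eq_abs]
    exact h1 x x.2⟩⟩
  let b : lp (fun _ : M => (ℂ →L[ℝ] ℝ)) ∞ := ⟨fun x => fderiv ℝ f x, memℓp_infty ⟨b₀, by
    rintro _ ⟨x, rfl⟩
    exact h2 x x.2⟩⟩
  let c : lp (fun _ : B1P M => (ℂ →L[ℝ] ℝ)) ∞ := ⟨fun p => (‖p.1.1 - p.1.2‖ ^ α)⁻¹ •
      (fderiv ℝ f p.1.1 - fderiv ℝ f p.1.2), memℓp_infty ⟨c₀, by
    rintro _ ⟨p, rfl⟩
    exact hq p⟩⟩
  have ha' : ‖a‖ ≤ C := lp.norm_le_of_forall_le hC fun x => by
    show ‖f x‖ ≤ C
    rw [Real.norm_eq_abs]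
    exact (h1 x x.2).trans hCa
  have hb' : ‖b‖ ≤ C := lp.norm_le_of_forall_le hC fun x => (h2 x x.2).trans hCb
  have hc' : ‖c‖ ≤ C := lp.norm_le_of_forall_le hC fun p => (hq p).trans hCc
  have hmem : B1C α ((a, b, c) : B1Y M) := by
    refine ⟨fun x => ?_, fun p => rfl⟩
    have h4 : HasFDerivAt f (fderiv ℝ f x) (x : ℂ) :=
      ((hd x x.2).differentiableAt (hM.mem_nhds x.2)).hasFDerivAt
    refine h4.congr_of_eventuallyEq ?_
    filter_upwards [hM.mem_nhds x.2] with z hz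
    exact B1E_mem' _ hz
  refine ⟨⟨(a, b, c), hmem⟩, ?_, ?_⟩
  · show ‖((a, b, c) : B1Y M)‖ ≤ C
    rw [Prod.norm_mk, Prod.norm_mk]
    exact max_le ha' (max_le hb' hc')
  · intro x hx
    exact B1E_mem' _ hx

theorem B1_ext (hM : IsOpen M) (F : B1X M α) (h : ∀ x ∈ M, B1ev α F x = 0) : F = 0 := by
  obtain ⟨⟨a, b, c⟩, hF⟩ := F
  have ha : ∀ x : M, a x = 0 := by
    intro x
    have h1 := h x x.2
    have h2 : B1E M (fun x => a x) x = 0 := h1
    rwa [B1E_mem] at h2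
  have hE : B1E M (fun x => a x) = fun _ => 0 := by
    ext x
    unfold B1E
    by_cases hx : x ∈ M
    · rw [dif_pos hx]
      exact ha ⟨x, hx⟩
    · rw [dif_neg hx]
  have hb : ∀ x : M, b x = 0 := by
    intro x
    have h1 := hF.der x
    have h2 : HasFDerivAt (B1E M (fun x => a x)) (b x) (x : ℂ) := h1
    rw [hE] at h2
    exact h2.unique (hasFDerivAt_const _ _)
  have hc : ∀ p : B1P M, c p = 0 := by
    intro p
    have h1 : c p = _ • (b _ - b _) := hF.hol p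
    rw [h1, hb, hb, sub_zero, smul_zero]
  apply Subtype.ext
  refine Prod.ext ?_ (Prod.ext ?_ ?_)
  · exact lp.ext (funext ha)
  · exact lp.ext (funext hb)
  · exact lp.ext (funext hc)

end B1

theorem exists_model {M : Set ℂ} (hM : IsOpen M) {α : ℝ} (hα0 : 0 < α) :
    ∃ (X : Type) (_ : NormedAddCommGroup X) (_ : NormedSpace ℝ X) (_ : CompleteSpace X),
      Nonempty (Model M α X) :=
  ⟨B1X M α, inferInstance, inferInstance, (B1_closed α hM).completeSpace_coe,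
    ⟨⟨B1ev α, B1_normLe α, B1_lift α hM, B1_ext α hM⟩⟩⟩

end Pool.Agent.YUD
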