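import Pool.Agent.YUD.Base2

/-!
# [YUD] B2: quasiconvexity: bounded 2-jets control the norm of `C^{1,α}(M)`

PROOF. (1) `lip_of_jet`: let `κ` be the constant of `QuasiConvex`, `κ' = max κ 0`, `x, y ∈ M`, `γ` the curve. `γ '' Icc 0 1` is compact in the open
`M` (γ is Lipschitz on `Icc 0 1`, so continuous on it), so for some `δ > 0`, `ball (γ s) δ ⊆ M` for all `s ∈ Icc 0 1`
(`IsCompact.exists_thickening_subset_open` or `exists_cthickening`). Choose `N ≥ 1` with `κ' ‖x-y‖ / N < δ`. For `i < N` the points `γ (i/N)`, `γ ((i+1)/N)` have distance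
`≤ κ' ‖x-y‖/N < δ`, the segment lies in the (convex) ball around `γ (i/N)`, which is in `M`, where `‖fderiv f‖ ≤ 2C` (`norm_fderiv_le` and the jets), so
`|f (γ ((i+1)/N)) - f (γ (i/N))| ≤ 2 C κ' ‖x-y‖ / N` (`Convex.norm_image_sub_le_of_norm_fderiv_le`). Sum over `i < N`
(`dist_le_range_sum_dist`): `|f x - f y| ≤ 2 κ' C ‖x-y‖`. `K = 2 κ'`.
(2) `normLe_of_jet`: `M ⊆ ball 0 R`, so `‖x-y‖ ≤ D := 2R+1`. Constants `a = C`, `b = 2C`, `c = 2 K C D^{1-α}`:
`‖fderiv f x - fderiv f y‖ ≤ |dx f x - dx f y| + |dy f x - dy f y| ≤ 2 K C ‖x-y‖` by (1) applied to `dx f`, `dy f` (`C¹`, 1-jets `≤ C`), and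
`‖x-y‖ = ‖x-y‖^{1-α} ‖x-y‖^α ≤ D^{1-α} ‖x-y‖^α`. (If `M` is empty everything is trivial.)
-/

open MeasureTheory Set Filter Topology
open scoped ContDiff

namespace Pool.Agent.YUD

variable {M : Set ℂ} {f g ζ ψ : ℂ → ℝ} {α : ℝ} {x y : ℂ}

theorem lip_of_jet (hM : IsOpen M) (hq : QuasiConvex M) : ∃ K, 0 ≤ K ∧
    ∀ (C : ℝ) (f : ℂ → ℝ), 0 ≤ C → ContDiffOn ℝ 1 f M → JetLe M 1 C f →
      ∀ x ∈ M, ∀ y ∈ M, |f x - f y| ≤ K * C * ‖x - y‖ := by
  obtain ⟨κ, hκ⟩ := hq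
  refine ⟨2 * max κ 0, by positivity, fun C f hC hf hj x hx y hy => ?_⟩
  obtain ⟨γ, h0, h1, hγM, hγ⟩ := hκ x hx y hy
  set L := max κ 0 * ‖x - y‖ with hL
  have hL0 : 0 ≤ L := by positivity
  have hγL : ∀ s ∈ Icc (0 : ℝ) 1, ∀ t ∈ Icc (0 : ℝ) 1, ‖γ s - γ t‖ ≤ L * |s - t| := by
    intro s hs t ht
    refine (hγ s hs t ht).trans ?_
    rw [hL]
    gcongr
    exact le_max_left κ 0
  have hlip : LipschitzOnWith (Real.toNNReal L) γ (Icc 0 1) := by
    refine LipschitzOnWith.of_dist_le_mul fun s hs t ht => ?_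
    rw [dist_eq_norm, Real.coe_toNNReal L hL0, Real.dist_eq]
    exact hγL s hs t ht
  have hS : IsCompact (γ '' Icc 0 1) := isCompact_Icc.image_of_continuousOn hlip.continuousOn
  have hSM : γ '' Icc 0 1 ⊆ M := by
    rintro _ ⟨s, hs, rfl⟩
    exact hγM s hs
  obtain ⟨δ, hδ, hδM⟩ := hS.exists_thickening_subset_open hM hSM
  obtain ⟨N, hN⟩ := exists_nat_gt (L / δ)
  have hNpos : (0 : ℝ) < N := lt_of_le_of_lt (by positivity) hN
  have hLN : L / N < δ := by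
    rw [div_lt_iff₀ hδ] at hN
    rw [div_lt_iff₀ hNpos]
    linarith
  have hstep : ∀ i ∈ Finset.range N, |f (γ (((i + 1 : ℕ) : ℝ) / N)) - f (γ ((i : ℝ) / N))| ≤
      2 * C * (L / N) := by
    intro i hi
    have hiN : i < N := Finset.mem_range.1 hi
    have hi1 : ((i : ℝ) + 1) ≤ N := by exact_mod_cast hiN
    have hs : (i : ℝ) / N ∈ Icc (0 : ℝ) 1 := by
      refine ⟨by positivity, ?_⟩
      rw [div_le_one hNpos]
      linarith
    have ht : ((i + 1 : ℕ) : ℝ) / N ∈ Icc (0 : ℝ) 1 := by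
      refine ⟨by positivity, ?_⟩
      rw [div_le_one hNpos]
      push_cast
      exact hi1
    have hd : ‖γ (((i + 1 : ℕ) : ℝ) / N) - γ ((i : ℝ) / N)‖ ≤ L / N := by
      refine (hγL _ ht _ hs).trans (le_of_eq ?_)
      have : ((i + 1 : ℕ) : ℝ) / N - (i : ℝ) / N = 1 / N := by
        push_cast
        ring
      rw [this, abs_of_nonneg (by positivity)]
      ring
    have hball : Metric.ball (γ ((i : ℝ) / N)) δ ⊆ M :=
      (Metric.ball_subset_thickening (mem_image_of_mem γ hs) δ).trans hδM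
    have hb1 : γ ((i : ℝ) / N) ∈ Metric.ball (γ ((i : ℝ) / N)) δ := Metric.mem_ball_self hδ
    have hb2 : γ (((i + 1 : ℕ) : ℝ) / N) ∈ Metric.ball (γ ((i : ℝ) / N)) δ := by
      rw [Metric.mem_ball, dist_eq_norm]
      exact lt_of_le_of_lt hd hLN
    have hmv := (convex_ball (γ ((i : ℝ) / N)) δ).norm_image_sub_le_of_norm_fderiv_le (𝕜 := ℝ)
      (f := f) (C := 2 * C) (fun z hz => dat (n := 0) hM hf (hball hz)) (fun z hz => by
        refine (norm_fderiv_le f z).trans ?_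
        have h2 := hj.2.1 z (hball hz)
        have h3 := hj.2.2 z (hball hz)
        linarith) hb1 hb2
    rw [Real.norm_eq_abs] at hmv
    refine hmv.trans ?_
    gcongr
  have hsum := Finset.sum_range_sub (fun i : ℕ => f (γ ((i : ℝ) / N))) N
  have hN1 : (N : ℝ) / N = 1 := div_self hNpos.ne'
  rw [hN1, h1, Nat.cast_zero, zero_div, h0] at hsum
  rw [abs_sub_comm, ← hsum]
  calc |∑ i ∈ Finset.range N, (f (γ (((i + 1 : ℕ) : ℝ) / N)) - f (γ ((i : ℝ) / N)))|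
      ≤ ∑ i ∈ Finset.range N, |f (γ (((i + 1 : ℕ) : ℝ) / N)) - f (γ ((i : ℝ) / N))| :=
        Finset.abs_sum_le_sum_abs _ _
    _ ≤ ∑ i ∈ Finset.range N, 2 * C * (L / N) := Finset.sum_le_sum hstep
    _ = 2 * max κ 0 * C * ‖x - y‖ := by
        rw [Finset.sum_const, Finset.card_range, nsmul_eq_mul, hL]
        field_simp

theorem normLe_of_jet (hM : IsOpen M) (hb : Bornology.IsBounded M) (hq : QuasiConvex M)
    (hα0 : 0 < α) (hα1 : α < 1) : ∃ K, 0 ≤ K ∧ ∀ (C : ℝ) (f : ℂ → ℝ), 0 ≤ C →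
      ContDiffOn ℝ 2 f M → JetLe M 2 C f → NormLe M α (K * C) f := by
  obtain ⟨K, hK0, hK⟩ := lip_of_jet hM hq
  obtain ⟨R, hR⟩ := hb.exists_norm_le
  set D := 2 * |R| + 1 with hD
  have hD0 : 0 < D := by positivity
  refine ⟨1 + 2 + 2 * K * D ^ (1 - α), by positivity, fun C f hC hf hj => ?_⟩
  have hf1 : ContDiffOn ℝ 1 f M := hf.of_le (by norm_num)
  have hdx : ContDiffOn ℝ 1 (dx f) M := contDiffOn_dx (n := 1) hM hf
  have hdy : ContDiffOn ℝ 1 (dy f) M := contDiffOn_dy (n := 1) hM hf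
  refine ⟨fun x hx => (dat (n := 1) hM hf hx).differentiableWithinAt, C, 2 * C,
    2 * K * D ^ (1 - α) * C, hC, by positivity, by positivity, le_of_eq (by ring), hj.1, ?_, ?_⟩
  · intro x hx
    refine (norm_fderiv_le f x).trans ?_
    have h2 := hj.2.1.1 x hx
    have h3 := hj.2.2.1 x hx
    linarith
  · intro x hx y hy
    have h1 := hK C (dx f) hC hdx hj.2.1 x hx y hy
    have h2 := hK C (dy f) hC hdy hj.2.2 x hx y hy
    have h3 := norm_fderiv_sub_le f f x y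
    have hxy : ‖x - y‖ ≤ D := by
      have h4 := hR x hx
      have h5 := hR y hy
      have h6 := norm_sub_le x y
      have h7 := le_abs_self R
      linarith
    have h4 : ‖x - y‖ ≤ D ^ (1 - α) * ‖x - y‖ ^ α := by
      rcases eq_or_lt_of_le (norm_nonneg (x - y)) with h0 | h0
      · rw [← h0]
        positivity
      · have h5 : ‖x - y‖ = ‖x - y‖ ^ (1 - α) * ‖x - y‖ ^ α := by
          rw [← Real.rpow_add h0]
          simp
        calc ‖x - y‖ = ‖x - y‖ ^ (1 - α) * ‖x - y‖ ^ α := h5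
          _ ≤ D ^ (1 - α) * ‖x - y‖ ^ α := by
              gcongr
    calc ‖fderiv ℝ f x - fderiv ℝ f y‖ ≤ K * C * ‖x - y‖ + K * C * ‖x - y‖ := by linarith
      _ = 2 * K * C * ‖x - y‖ := by ring
      _ ≤ 2 * K * C * (D ^ (1 - α) * ‖x - y‖ ^ α) := by gcongr
      _ = 2 * K * D ^ (1 - α) * C * ‖x - y‖ ^ α := by ring

end Pool.Agent.YUD
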