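import Pool.Agent.YUD.A1

/-!
# [YUD] B3: `UB` gives solvability of the Dirichlet problem

PROOF. `UB` at `w₀ = ws` (difference `0`, `normLe_const 0`, `0 ≤ δ`) gives a solution `(w¹, ψ¹)`: `ψ¹ 0 ∈ Stream`, `lap (ψ¹ 0) = w¹ 0 = ws` on `M`.
For `g` with `NormLe M α δ g`, `UB` at `w₀ = ws + g` gives `ψ² 0` with `lap = ws + g`. The difference `ψ² 0 - ψ¹ 0` is in `Stream` with
`lap = g`. For general `f` with `NormLe M α C f`, apply this to `g = (δ/(C+1)) f` (`NormLe.const_mul`, `C ≥ 0`) and multiply the result by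
`(C+1)/δ` (`Stream.const_mul`, `lap_const_mul`).
-/

open MeasureTheory Set Filter Topology
open scoped ContDiff

namespace Pool.Agent.YUD

variable {M : Set ℂ} {f g ζ ψ : ℂ → ℝ} {α : ℝ} {x y : ℂ}

theorem solvable_of_UB (hM : IsOpen M) {ws : ℂ → ℝ} {δ C : ℝ} (hδ : 0 < δ)
    (hUB : UB M α ws δ C) : ∀ f : ℂ → ℝ, (∃ C, NormLe M α C f) →
      ∃ ψ : ℂ → ℝ, Stream M ψ ∧ ∀ x ∈ M, lap ψ x = f x := by
  have key : ∀ g : ℂ → ℝ, NormLe M α δ g →
      ∃ ψ : ℂ → ℝ, Stream M ψ ∧ ∀ x ∈ M, lap ψ x = ws x + g x := by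
    intro g hg
    obtain ⟨w, ψ, hs, h0, -⟩ := hUB (fun x => ws x + g x) (hg.congr hM (fun x _ => by ring))
    refine ⟨ψ 0, hs.stream 0 le_rfl, fun x hx => ?_⟩
    rw [hs.lap_eq 0 le_rfl x hx, h0 x hx]
  obtain ⟨ψ1, h1, h1'⟩ := key (fun _ => 0) (by
    have h := normLe_const (M := M) (α := α) 0
    rw [abs_zero] at h
    exact h.mono hδ.le)
  rintro f ⟨C', hC'⟩
  have hC0 : 0 ≤ C' := hC'.nonneg
  obtain ⟨ψ2, h2, h2'⟩ := key (fun x => (δ / (C' + 1)) * f x) (by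
    refine (hC'.const_mul hM (δ / (C' + 1))).mono ?_
    rw [abs_of_nonneg (by positivity), div_mul_eq_mul_div, div_le_iff₀ (by positivity)]
    nlinarith)
  refine ⟨fun x => ((C' + 1) / δ) * (ψ2 x - ψ1 x), (h2.sub hM h1).const_mul hM _,
    fun x hx => ?_⟩
  rw [lap_const_mul hM _ (h2.sub hM h1).two hx, lap_sub hM h2.two h1.two hx, h2' x hx, h1' x hx]
  have hC1 : C' + 1 ≠ 0 := by positivity
  field_simp
  ring

end Pool.Agent.YUD
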