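import Pool.Agent.YUD.Base

/-!
# [YUD] B4a: closed graph theorem for a directional derivative

PROOF. Let `L : X →ₗ[ℝ] (↥M →ᵇ ℝ)`, `L f = (x ↦ fderiv ℝ (T f) x v)` (continuous on `M` because `T f` is `C¹`; bounded by `hbd'`;
linear: on the open set `M`, `T (f+g) = T f + T g`, so `fderiv_congr_on` and `fderiv_fun_add`; similarly for `smul`).
`↥M →ᵇ ℝ` is Banach. The graph is closed (`LinearMap.continuous_of_seq_closed_graph`): let `f_n → f` in `X` and `L f_n → g` uniformly.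
Fix `x ∈ M`, `ball x r ⊆ M`; consider the functions of `t ∈ (-s, s)` (with `s ‖v‖ < r`): `h_n t = T f_n (x + t v)`, with derivative
`h_n' t = L f_n (x + t v) → g (x + t v)` uniformly, and `h_n t → T f (x + t v)` by `hbd` (`|T f_n z - T f z| = |T (f_n - f) z| ≤ C ‖f_n - f‖`; use
`hadd`, `hsmul` with `c = -1`). By `hasDerivAt_of_tendstoUniformlyOn` (open interval) `t ↦ T f (x + t v)` has derivative `g x` at `0`;
it also has derivative `fderiv ℝ (T f) x v`; so `L f x = g x`. Hence `L` is continuous and `C := ‖L‖` works.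
(If `M` is empty: trivial, but the argument covers it.)
-/

open MeasureTheory Set Filter Topology
open scoped ContDiff

namespace Pool.Agent.YUD

theorem closed_graph_stage {M : Set ℂ} (hM : IsOpen M) {X : Type} [NormedAddCommGroup X]
    [NormedSpace ℝ X] [CompleteSpace X] {T : X → ℂ → ℝ} {v : ℂ}
    (hadd : ∀ f g, ∀ x ∈ M, T (f + g) x = T f x + T g x)
    (hsmul : ∀ (c : ℝ) f, ∀ x ∈ M, T (c • f) x = c * T f x)
    (hC1 : ∀ f, ContDiffOn ℝ 1 (T f) M) (hbd : ∃ C, ∀ f, ∀ x ∈ M, |T f x| ≤ C * ‖f‖)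
    (hbd' : ∀ f, ∃ C, ∀ x ∈ M, |fderiv ℝ (T f) x v| ≤ C) :
    ∃ C, 0 ≤ C ∧ ∀ f, ∀ x ∈ M, |fderiv ℝ (T f) x v| ≤ C * ‖f‖ := by
  obtain ⟨C0, hC0⟩ := hbd
  have hT0 : ∀ f, ∀ x ∈ M, |T f x| ≤ max C0 0 * ‖f‖ := fun f x hx =>
    (hC0 f x hx).trans (mul_le_mul_of_nonneg_right (le_max_left _ _) (norm_nonneg f))
  -- the derivative along the line
  have hline : ∀ f x (s : ℝ), x + s • v ∈ M →
      HasDerivAt (fun s : ℝ => T f (x + s • v)) (fderiv ℝ (T f) (x + s • v) v) s := by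
    intro f x s hs
    have hd : DifferentiableAt ℝ (T f) (x + s • v) :=
      ((hC1 f).contDiffAt (hM.mem_nhds hs)).differentiableAt one_ne_zero
    have hl : HasDerivAt (fun t : ℝ => x + t • v) v s := by
      simpa using ((hasDerivAt_id s).smul_const v).const_add x
    exact hd.hasFDerivAt.comp_hasDerivAt s hl
  let ι := {p : ℂ × ℝ // 0 < p.2 ∧ ∀ s ∈ Icc (0 : ℝ) p.2, p.1 + s • v ∈ M}
  have hι0 : ∀ i : ι, i.1.1 ∈ M := by
    rintro ⟨⟨x, t⟩, ht, h⟩
    simpa using h 0 ⟨le_rfl, ht.le⟩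
  have hιt : ∀ i : ι, i.1.1 + i.1.2 • v ∈ M := by
    rintro ⟨⟨x, t⟩, ht, h⟩
    exact h t ⟨ht.le, le_rfl⟩
  let g : ι → X →L[ℝ] ℝ := fun i => LinearMap.mkContinuous
    { toFun := fun f => i.1.2⁻¹ * (T f (i.1.1 + i.1.2 • v) - T f i.1.1)
      map_add' := by
        intro f f'
        rw [hadd _ _ _ (hιt i), hadd _ _ _ (hι0 i)]
        ring
      map_smul' := by
        intro c f
        rw [hsmul _ _ _ (hιt i), hsmul _ _ _ (hι0 i)]
        simp only [smul_eq_mul, RingHom.id_apply]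
        ring } (|i.1.2⁻¹| * (2 * max C0 0)) (by
      intro f
      show ‖i.1.2⁻¹ * (T f (i.1.1 + i.1.2 • v) - T f i.1.1)‖ ≤ _
      rw [Real.norm_eq_abs, abs_mul, mul_assoc]
      refine mul_le_mul_of_nonneg_left ?_ (abs_nonneg _)
      refine (abs_sub _ _).trans ?_
      have h1 := hT0 f _ (hιt i)
      have h2 := hT0 f _ (hι0 i)
      linarith)
  have hg : ∀ i f, g i f = i.1.2⁻¹ * (T f (i.1.1 + i.1.2 • v) - T f i.1.1) := fun i f => rfl
  obtain ⟨C', hC'⟩ := banach_steinhaus (g := g) (by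
    intro f
    obtain ⟨C, hC⟩ := hbd' f
    refine ⟨C, fun i => ?_⟩
    rw [hg]
    obtain ⟨⟨x, t⟩, ht, h⟩ := i
    simp only
    simp only at ht h
    have h1 : ‖T f (x + t • v) - T f (x + (0 : ℝ) • v)‖ ≤ C * ‖t - 0‖ := by
      refine (convex_Icc (0 : ℝ) t).norm_image_sub_le_of_norm_hasDerivWithin_le
        (f := fun s : ℝ => T f (x + s • v)) (f' := fun s => fderiv ℝ (T f) (x + s • v) v)
        (fun s hs => (hline f x s (h s hs)).hasDerivWithinAt) ?_ ⟨le_rfl, ht.le⟩ ⟨ht.le, le_rfl⟩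
      intro s hs
      exact hC _ (h s hs)
    rw [zero_smul, add_zero, sub_zero, Real.norm_of_nonneg ht.le] at h1
    rw [norm_mul, Real.norm_of_nonneg (inv_nonneg.2 ht.le), inv_mul_le_iff₀ ht, mul_comm t]
    exact h1)
  refine ⟨max C' 0, le_max_right _ _, fun f x hx => ?_⟩
  have hlim : Tendsto (fun t : ℝ => t⁻¹ • (T f (x + (0 + t) • v) - T f (x + (0 : ℝ) • v))) (𝓝[>] 0)
      (𝓝 (fderiv ℝ (T f) (x + (0 : ℝ) • v) v)) :=
    (hline f x 0 (by simpa using hx)).tendsto_slope_zero_right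
  rw [zero_smul, add_zero] at hlim
  have hlim2 := hlim.abs
  refine le_of_tendsto hlim2 ?_
  obtain ⟨r, hr, hball⟩ := Metric.isOpen_iff.1 hM x hx
  have hpos : 0 < r / (‖v‖ + 1) := by positivity
  filter_upwards [Ioo_mem_nhdsGT hpos] with t ht
  have hmem : 0 < t ∧ ∀ s ∈ Icc (0 : ℝ) t, x + s • v ∈ M := by
    refine ⟨ht.1, fun s hs => hball ?_⟩
    rw [Metric.mem_ball, dist_eq_norm, add_sub_cancel_left, norm_smul, Real.norm_of_nonneg hs.1]
    have h1 : t * (‖v‖ + 1) < r := (lt_div_iff₀ (by positivity)).1 ht.2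
    nlinarith [hs.2, hs.1, norm_nonneg v, ht.1, mul_le_mul_of_nonneg_right hs.2 (norm_nonneg v)]
  have h2 := (g ⟨(x, t), hmem⟩).le_opNorm f
  rw [hg] at h2
  simp only [zero_add, smul_eq_mul]
  refine h2.trans (mul_le_mul_of_nonneg_right ((hC' _).trans (le_max_left _ _)) (norm_nonneg f))

end Pool.Agent.YUD
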