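import Pool.Agent.YUD.B1
import Pool.Agent.YUD.B3
import Pool.Agent.YUD.B4a

/-!
# [YUD] B4b: the Schauder estimate from the closed graph theorem

PROOF. (1) `jet_bound` by induction on `n`. `n = 0`: `hbd` (replace `C` by `max C 0`). `n + 1`: by `closed_graph_stage` with `v = 1` and `v = I` the
maps `f ↦ dx (T f)`, `f ↦ dy (T f)` satisfy the sup bound; they satisfy the additivity and homogeneity on `M` (`dx_congr`, `dx_add`, `dx_const_mul`), are
`C^n` (`contDiffOn_dx`) with bounded `n`-jets; apply the induction hypothesis to both; take the maximum of the three constants (`JetLe.mono`, `‖f‖ ≥ 0`).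
(2) `schauder_of_UB`: `X`, `m : Model` from `exists_model`. For `f : X` choose `S f ∈ Stream` with `lap (S f) = ev f` on `M` (`solvable_of_UB`, `m.normLe`).
Additivity and homogeneity on `M` from `stream_unique`. Sup bound: `|lap (S f)| ≤ 3‖f‖` on `M` and, with a torsion function `ζ`
(`solvable_of_UB` for the constant `1`, `normLe_const`), `|S f x| ≤ 3 ‖f‖ |ζ x| ≤ 3 Z ‖f‖` (`abs_le_torsion`, `Stream.abs_bdd`). `jet_bound` with `n = 3` gives `C`:
`JetLe M 3 (C ‖f‖) (S f)`. Given `NormLe M α c f`, take `F : X`, `‖F‖ ≤ c`, `ev F = f` on `M` (`m.lift`), `ψ = S F`: `CS = C`.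
-/

open MeasureTheory Set Filter Topology
open scoped ContDiff

namespace Pool.Agent.YUD

variable {M : Set ℂ} {α : ℝ}

theorem jet_bound (hM : IsOpen M) {X : Type} [NormedAddCommGroup X] [NormedSpace ℝ X]
    [CompleteSpace X] (n : ℕ) : ∀ {T : X → ℂ → ℝ},
    (∀ f g, ∀ x ∈ M, T (f + g) x = T f x + T g x) →
    (∀ (c : ℝ) f, ∀ x ∈ M, T (c • f) x = c * T f x) →
    (∀ f, ContDiffOn ℝ n (T f) M) → (∀ f, ∃ C, JetLe M n C (T f)) →
    (∃ C, ∀ f, ∀ x ∈ M, |T f x| ≤ C * ‖f‖) →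
    ∃ C, 0 ≤ C ∧ ∀ f, JetLe M n (C * ‖f‖) (T f) := by
  induction n with
  | zero =>
    intro T hadd hsmul hC hj hbd
    obtain ⟨C, hC⟩ := hbd
    exact ⟨max C 0, le_max_right _ _, fun f x hx =>
      (hC f x hx).trans (mul_le_mul_of_nonneg_right (le_max_left _ _) (norm_nonneg f))⟩
  | succ n ih =>
    intro T hadd hsmul hC hj hbd
    have hC1 : ∀ f, ContDiffOn ℝ 1 (T f) M := fun f => (hC f).of_le (by norm_cast; omega)
    obtain ⟨K1, hK10, hK1⟩ := closed_graph_stage hM (v := 1) hadd hsmul hC1 hbd (by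
      intro f
      obtain ⟨C, hC⟩ := hj f
      exact ⟨C, fun x hx => hC.2.1.zero_le x hx⟩)
    obtain ⟨K2, hK20, hK2⟩ := closed_graph_stage hM (v := Complex.I) hadd hsmul hC1 hbd (by
      intro f
      obtain ⟨C, hC⟩ := hj f
      exact ⟨C, fun x hx => hC.2.2.zero_le x hx⟩)
    obtain ⟨D1, hD10, hD1⟩ := ih (T := fun f => dx (T f))
      (fun f g x hx => (dx_congr hM (hadd f g) hx).trans (dx_add (dat hM (hC f) hx) (dat hM (hC g) hx)))
      (fun c f x hx => (dx_congr hM (hsmul c f) hx).trans (dx_const_mul c (dat hM (hC f) hx)))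
      (fun f => contDiffOn_dx hM (hC f))
      (fun f => by
        obtain ⟨C, hC⟩ := hj f
        exact ⟨C, hC.2.1⟩)
      ⟨K1, fun f x hx => hK1 f x hx⟩
    obtain ⟨D2, hD20, hD2⟩ := ih (T := fun f => dy (T f))
      (fun f g x hx => (dy_congr hM (hadd f g) hx).trans (dy_add (dat hM (hC f) hx) (dat hM (hC g) hx)))
      (fun c f x hx => (dy_congr hM (hsmul c f) hx).trans (dy_const_mul c (dat hM (hC f) hx)))
      (fun f => contDiffOn_dy hM (hC f))
      (fun f => by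
        obtain ⟨C, hC⟩ := hj f
        exact ⟨C, hC.2.2⟩)
      ⟨K2, fun f x hx => hK2 f x hx⟩
    obtain ⟨C, hC⟩ := hbd
    refine ⟨max C (max D1 D2), hD10.trans ((le_max_left _ _).trans (le_max_right _ _)), fun f => ⟨?_, ?_, ?_⟩⟩
    · intro x hx
      exact (hC f x hx).trans (mul_le_mul_of_nonneg_right (le_max_left _ _) (norm_nonneg f))
    · exact (hD1 f).mono (mul_le_mul_of_nonneg_right ((le_max_left _ _).trans (le_max_right _ _))
        (norm_nonneg f))
    · exact (hD2 f).mono (mul_le_mul_of_nonneg_right ((le_max_right _ _).trans (le_max_right _ _))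
        (norm_nonneg f))

theorem schauder_of_UB (hM : IsOpen M) (hb : Bornology.IsBounded M) (hα0 : 0 < α) (hα1 : α < 1)
    {ws : ℂ → ℝ} {δ C : ℝ} (hδ : 0 < δ) (hUB : UB M α ws δ C) : ∃ CS, Schauder M α CS := by
  obtain ⟨X, _, _, _, ⟨m⟩⟩ := exists_model hM hα0
  have hex : ∀ f : X, ∃ ψ : ℂ → ℝ, Stream M ψ ∧ ∀ x ∈ M, lap ψ x = m.ev f x := fun f =>
    solvable_of_UB hM hδ hUB (m.ev f) ⟨_, m.normLe f⟩
  choose Sf hS hlap using hex
  obtain ⟨ζ, hζ, hζ1⟩ := solvable_of_UB hM hδ hUB (fun _ => 1) ⟨_, normLe_const 1⟩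
  have hT : Torsion M ζ := ⟨hζ, hζ1⟩
  obtain ⟨Z, hZ⟩ := hζ.abs_bdd
  have hadd : ∀ f g, ∀ x ∈ M, Sf (f + g) x = Sf f x + Sf g x := by
    intro f g
    refine stream_unique hM hb (hS (f + g)) ((hS f).add hM (hS g)) fun x hx => ?_
    rw [hlap _ x hx, lap_add hM (hS f).two (hS g).two hx, hlap f x hx, hlap g x hx, map_add]
    rfl
  have hsmul : ∀ (c : ℝ) f, ∀ x ∈ M, Sf (c • f) x = c * Sf f x := by
    intro c f
    refine stream_unique hM hb (hS (c • f)) ((hS f).const_mul hM c) fun x hx => ?_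
    rw [hlap _ x hx, lap_const_mul hM c (hS f).two hx, hlap f x hx, map_smul]
    rfl
  have hbd : ∃ C, ∀ f, ∀ x ∈ M, |Sf f x| ≤ C * ‖f‖ := by
    refine ⟨3 * Z, fun f x hx => ?_⟩
    have h1 := abs_le_torsion hM hb hT (A := 3 * ‖f‖) (hS f).two (hS f).zero (fun z hz => by
      rw [hlap f z hz]
      exact (m.normLe f).abs_le hz) x hx
    refine h1.trans ?_
    have h2 := mul_le_mul_of_nonneg_left (hZ x hx) (by positivity : 0 ≤ 3 * ‖f‖)
    linarith
  obtain ⟨CS, hCS0, hCS⟩ := jet_bound hM 3 hadd hsmul (fun f => (hS f).contDiffOn) (fun f => (hS f).bdd) hbd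
  refine ⟨CS, hCS0, fun c f hf => ?_⟩
  obtain ⟨F, hF, hF'⟩ := m.lift c f hf
  exact ⟨Sf F, hS F, fun x hx => by rw [hlap F x hx, hF' x hx],
    (hCS F).mono (mul_le_mul_of_nonneg_left hF hCS0)⟩

end Pool.Agent.YUD
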