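import Pool.Agent.YUD.B2

/-!
# [YUD] B5: functions with bounded `(n+1)`-jets are precompact with respect to `n`-jets

PROOF. Induction on `n`. We may assume `C ≥ 0` (otherwise replace `C` by `max C 0`, `JetLe.mono`).
`n = 0`: let `K` be the constant of `lip_of_jet`; so all our functions satisfy `|f x - f y| ≤ K C ‖x-y‖` on `M`. `M` is bounded, hence totally bounded: there is a finite set
`S ⊆ M` with `M ⊆ ⋃_{s ∈ S} ball s ρ`, where `K C ρ ≤ ε/4` (`ρ = ε / (4 (K C + 1))`; `Metric.totallyBounded_iff`, then move the centres into `M`, or use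
`TotallyBounded.exists_subset`). Let `D f : S → ℤ` restricted to the finite range: `D f s = ⌊4 f s / ε⌋` clipped to a finite interval
(`|f s| ≤ C`, so the integer is in `[-N, N]`, `N = ⌈4C/ε⌉ + 1`; define `β = S → Fin (2N+1)` or `β = (S → ↥(Finset.Icc (-N) N))` and `D` by a clamp). `D f = D g` gives
`|f s - g s| ≤ ε/4` for `s ∈ S` (for functions bounded by `C`), so `|f x - g x| ≤ ε/4 + ε/4 + ε/4 ≤ ε` on `M`.
`n + 1`: combine `D` for the functions themselves (case `0`) with the ones for `dx f`, `dy f` (induction hypothesis; they are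
`C^{n+1}` with `(n+1)`-jets `≤ C`): `β = β₀ × β₁ × β₂`; `dx (f - g) = dx f - dx g` on `M` (`dx_sub`, `JetLe.congr`).
-/

open MeasureTheory Set Filter Topology
open scoped ContDiff

namespace Pool.Agent.YUD

variable {M : Set ℂ}

theorem b5_zero (hM : IsOpen M) (hb : Bornology.IsBounded M) (hq : QuasiConvex M) (C ε : ℝ) (hε : 0 < ε) :
    ∃ (β : Type) (_ : Finite β) (D : (ℂ → ℝ) → β), ∀ f g : ℂ → ℝ,
      ContDiffOn ℝ 1 f M → ContDiffOn ℝ 1 g M → JetLe M 1 C f → JetLe M 1 C g → D f = D g →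
      ∀ x ∈ M, |f x - g x| ≤ ε := by
  obtain ⟨K, hK0, hK⟩ := lip_of_jet hM hq
  set C' := max C 0 with hC'
  have hC0 : 0 ≤ C' := le_max_right _ _
  have hKC : 0 ≤ K * C' := mul_nonneg hK0 hC0
  set ρ := ε / (4 * (K * C' + 1)) with hρ
  have hρ0 : 0 < ρ := by positivity
  have hρε : K * C' * ρ ≤ ε / 4 := by
    rw [hρ, mul_div_assoc', div_le_div_iff₀ (by positivity) (by positivity)]
    nlinarith
  have htb : TotallyBounded M := (hb.isCompact_closure.totallyBounded).subset subset_closure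
  obtain ⟨S, hSM, hSf, hcov⟩ := htb.exists_subset (Metric.dist_mem_uniformity hρ0)
  have hfin : Finite S := hSf
  set N : ℤ := ⌈4 * C' / ε⌉ with hN
  have hN0 : 4 * C' / ε ≤ N := Int.le_ceil _
  have hN1 : 0 ≤ N := by
    have h1 : 0 ≤ 4 * C' / ε := by positivity
    exact_mod_cast h1.trans hN0
  have hle : -N ≤ N := by omega
  refine ⟨S → Icc (-N) N, inferInstance, fun f s => projIcc (-N) N hle ⌊4 * f s / ε⌋, ?_⟩
  intro f g hf hg hjf hjg hD x hx
  have hjf' : JetLe M 1 C' f := hjf.mono (le_max_left _ _)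
  have hjg' : JetLe M 1 C' g := hjg.mono (le_max_left _ _)
  have hmem : ∀ f : ℂ → ℝ, JetLe M 1 C' f → ∀ s ∈ S, ⌊4 * f s / ε⌋ ∈ Icc (-N) N := by
    intro f hf s hs
    have h1 := abs_le.1 (hf.zero_le s (hSM hs))
    constructor
    · rw [Int.le_floor]
      push_cast
      have h2 : -(4 * C' / ε) ≤ 4 * f s / ε := by
        rw [← neg_div, div_le_div_iff_of_pos_right hε]
        linarith [h1.1]
      linarith
    · have h2 : ((⌊4 * f s / ε⌋ : ℤ) : ℝ) ≤ N := by
        refine (Int.floor_le _).trans (le_trans ?_ hN0)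
        rw [div_le_div_iff_of_pos_right hε]
        linarith [h1.2]
      exact_mod_cast h2
  have hx2 := hcov hx
  rw [mem_iUnion₂] at hx2
  obtain ⟨s, hs, hxs⟩ := hx2
  have hxs' : dist x s < ρ := hxs
  have h1 := congrFun hD ⟨s, hs⟩
  simp only at h1
  rw [projIcc_of_mem hle (hmem f hjf' s hs), projIcc_of_mem hle (hmem g hjg' s hs), Subtype.mk.injEq] at h1
  have h2 := Int.abs_sub_lt_one_of_floor_eq_floor h1
  have h3 : |f s - g s| ≤ ε / 4 := by
    have h4 : 4 * f s / ε - 4 * g s / ε = (f s - g s) * (4 / ε) := by ring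
    rw [h4, abs_mul, abs_of_pos (by positivity : 0 < 4 / ε), mul_div_assoc', div_lt_one hε] at h2
    linarith
  have hn : ‖x - s‖ ≤ ρ := by rw [← dist_eq_norm]; exact hxs'.le
  have h5 : |f x - f s| ≤ ε / 4 := (hK C' f hC0 hf hjf' x hx s (hSM hs)).trans
    ((mul_le_mul_of_nonneg_left hn hKC).trans hρε)
  have h6 : |g x - g s| ≤ ε / 4 := (hK C' g hC0 hg hjg' x hx s (hSM hs)).trans
    ((mul_le_mul_of_nonneg_left hn hKC).trans hρε)
  have h7 := abs_le.1 h3
  have h8 := abs_le.1 h5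
  have h9 := abs_le.1 h6
  rw [abs_le]
  constructor <;> linarith [h7.1, h7.2, h8.1, h8.2, h9.1, h9.2]

theorem discretize (hM : IsOpen M) (hb : Bornology.IsBounded M) (hq : QuasiConvex M) (n : ℕ) :
    ∀ (C ε : ℝ), 0 < ε → ∃ (β : Type) (_ : Finite β) (D : (ℂ → ℝ) → β), ∀ f g : ℂ → ℝ,
      ContDiffOn ℝ (n + 1 : ℕ) f M → ContDiffOn ℝ (n + 1 : ℕ) g M → JetLe M (n + 1) C f →
      JetLe M (n + 1) C g → D f = D g → JetLe M n ε (fun x => f x - g x) := by
  induction n with
  | zero =>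
    intro C ε hε
    obtain ⟨β, hβ, D, hD⟩ := b5_zero hM hb hq C ε hε
    refine ⟨β, hβ, D, fun f g hf hg hjf hjg h => ?_⟩
    exact hD f g (hf.of_le (by norm_num)) (hg.of_le (by norm_num)) hjf hjg h
  | succ n ih =>
    intro C ε hε
    obtain ⟨β, hβ, D, hD⟩ := b5_zero hM hb hq C ε hε
    obtain ⟨β1, hβ1, D1, hD1⟩ := ih C ε hε
    refine ⟨β × β1 × β1, inferInstance, fun f => (D f, D1 (dx f), D1 (dy f)), ?_⟩
    intro f g hf hg hjf hjg h
    simp only [Prod.mk.injEq] at h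
    obtain ⟨h1, h2, h3⟩ := h
    have hf1 : ContDiffOn ℝ 1 f M := hf.of_le (by norm_cast; omega)
    have hg1 : ContDiffOn ℝ 1 g M := hg.of_le (by norm_cast; omega)
    refine ⟨hD f g hf1 hg1 (hjf.of_le (by omega)) (hjg.of_le (by omega)) h1, ?_, ?_⟩
    · exact (hD1 _ _ (contDiffOn_dx hM hf) (contDiffOn_dx hM hg) hjf.2.1 hjg.2.1 h2).congr hM
        fun x hx => (dx_sub (dat hM hf hx) (dat hM hg hx)).symm
    · exact (hD1 _ _ (contDiffOn_dy hM hf) (contDiffOn_dy hM hg) hjf.2.2 hjg.2.2 h3).congr hM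
        fun x hx => (dy_sub (dat hM hf hx) (dat hM hg hx)).symm

end Pool.Agent.YUD
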