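import Pool.Agent.YUD.Base2

/-!
# [YUD] B6: composition with a smooth function is Lipschitz and differentiable in `n`-jets

PROOF. Induction on `n`, for all `G` simultaneously (model: `jetLe_comp` in Base2). We may assume `A ≥ 0` (replace by `max A 0`).
(1) `jet_comp_lip`. `n = 0`: mean value inequality on `[-A, A]` with `B = sup_{[-A,A]} |G'|`. `n + 1`: on `M`,
`∂(G(u) - G(v)) = G'(u) ∂u - G'(v) ∂v = (G'(u) - G'(v)) ∂u + G'(v) (∂u - ∂v)`. By induction `G'(u) - G'(v)` has `n`-jets `≤ B₁ σ`, `∂u` has `n`-jets `≤ A`,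
`G'(v)` has `n`-jets `≤ B₂` (`jetLe_comp`), `∂u - ∂v` has `n`-jets `≤ σ` (it equals `∂(u-v)` on `M`); `JetLe.mul`, `JetLe.add`.
(2) `jet_comp_rem`, `R_G = G(u) - G(v) - G'(w)(u - v)`. `n = 0`: `|G u - G v - G'(w)(u-v)| ≤ sup |G'(ξ) - G'(w)| |u-v| ≤ B ρ σ`, with `ξ` between
`u` and `v`, `|ξ - w| ≤ ρ`, `B = sup_{[-A,A]} |G''|`. `n + 1`: on `M`,
`∂R_G = R_{G'} ∂u + (G'(v) - G'(w)) ∂(u-v) + G''(w) (u-v) ∂(u-w)`
(check: `G'(u)∂u - G'(v)∂v - G''(w)∂w (u-v) - G'(w)∂(u-v)`). The three terms have `n`-jets `≤ 2^n (B₁ρσ) A`, `2^n (B₂ ρ) σ` ((1) for `G'`; note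
`JetLe n ρ (v - w)`), `2^n (2^n B₃ σ) ρ`.
-/

open MeasureTheory Set Filter Topology
open scoped ContDiff

namespace Pool.Agent.YUD

theorem b6_lip0 {G : ℝ → ℝ} (hG : ContDiff ℝ ∞ G) (A : ℝ) : ∃ B, 0 ≤ B ∧ ∀ s t : ℝ, |s| ≤ A → |t| ≤ A →
    |G s - G t| ≤ B * |s - t| := by
  have hG' : ContDiff ℝ ∞ (deriv G) := (contDiff_infty_iff_deriv.1 hG).2
  have hd : Differentiable ℝ G := hG.differentiable (by simp)
  obtain ⟨B, hB0, hB⟩ := bdd_on_Icc hG'.continuous A
  refine ⟨B, hB0, fun s t hs ht => ?_⟩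
  have h1 := (convex_Icc (-A) A).norm_image_sub_le_of_norm_deriv_le (f := G) (C := B)
    (fun x _ => hd x) (fun x hx => hB x (abs_le.2 hx)) (abs_le.1 ht) (abs_le.1 hs)
  simpa [Real.norm_eq_abs] using h1

theorem b6_rem0 {G : ℝ → ℝ} (hG : ContDiff ℝ ∞ G) (A : ℝ) : ∃ B, 0 ≤ B ∧ ∀ s t r ρ : ℝ, |s| ≤ A → |t| ≤ A → |r| ≤ A →
    |s - r| ≤ ρ → |t - r| ≤ ρ → |G s - G t - deriv G r * (s - t)| ≤ B * ρ * |s - t| := by
  have hG' : ContDiff ℝ ∞ (deriv G) := (contDiff_infty_iff_deriv.1 hG).2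
  have hd : Differentiable ℝ G := hG.differentiable (by simp)
  obtain ⟨B, hB0, hB⟩ := b6_lip0 hG' A
  refine ⟨B, hB0, fun s t r ρ hs ht hr hsr htr => ?_⟩
  have hcv : Convex ℝ (Icc (-A) A ∩ Icc (r - ρ) (r + ρ)) := (convex_Icc _ _).inter (convex_Icc _ _)
  have hdd : ∀ x, HasDerivAt (fun x => G x - deriv G r * x) (deriv G x - deriv G r) x := by
    intro x
    have h1 := (hd x).hasDerivAt.fun_sub ((hasDerivAt_id x).const_mul (deriv G r))
    simpa using h1
  have hmem : ∀ x, |x| ≤ A → |x - r| ≤ ρ → x ∈ Icc (-A) A ∩ Icc (r - ρ) (r + ρ) := by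
    intro x h1 h2
    have h3 := abs_le.1 h2
    exact ⟨abs_le.1 h1, by linarith [h3.1], by linarith [h3.2]⟩
  have h1 := hcv.norm_image_sub_le_of_norm_hasDerivWithin_le (f := fun x => G x - deriv G r * x)
    (f' := fun x => deriv G x - deriv G r) (C := B * ρ) (fun x _ => (hdd x).hasDerivWithinAt) (by
      rintro x ⟨hx1, hx2⟩
      have h3 := hB x r (abs_le.2 hx1) hr
      have h4 : |x - r| ≤ ρ := abs_le.2 ⟨by linarith [hx2.1], by linarith [hx2.2]⟩
      exact h3.trans (mul_le_mul_of_nonneg_left h4 hB0)) (hmem t ht htr) (hmem s hs hsr)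
  rw [Real.norm_eq_abs, Real.norm_eq_abs] at h1
  have h2 : G s - G t - deriv G r * (s - t) = (G s - deriv G r * s) - (G t - deriv G r * t) := by ring
  rw [h2]
  exact h1

theorem jet_comp_lip (n : ℕ) : ∀ {G : ℝ → ℝ}, ContDiff ℝ ∞ G → ∀ A : ℝ,
    ∃ B, 0 ≤ B ∧ ∀ (M : Set ℂ) (u v : ℂ → ℝ), IsOpen M → ContDiffOn ℝ n u M → ContDiffOn ℝ n v M →
      JetLe M n A u → JetLe M n A v → ∀ σ, 0 ≤ σ → JetLe M n σ (fun x => u x - v x) →
      JetLe M n (B * σ) (fun x => G (u x) - G (v x)) := by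
  induction n with
  | zero =>
    intro G hG A
    obtain ⟨B, hB0, hB⟩ := b6_lip0 hG A
    refine ⟨B, hB0, fun M u v _ _ _ hu hv σ _ hσ x hx => ?_⟩
    exact (hB _ _ (hu x hx) (hv x hx)).trans (mul_le_mul_of_nonneg_left (hσ x hx) hB0)
  | succ n ih =>
    intro G hG A
    have hG' : ContDiff ℝ ∞ (deriv G) := (contDiff_infty_iff_deriv.1 hG).2
    have hd : Differentiable ℝ G := hG.differentiable (by simp)
    obtain ⟨B0, hB00, hB0⟩ := b6_lip0 hG A
    obtain ⟨B1, hB10, hB1⟩ := ih hG' A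
    obtain ⟨B2, hB20, hB2⟩ := jetLe_comp n hG' A
    refine ⟨max B0 (2 ^ n * B1 * |A| + 2 ^ n * B2), le_max_of_le_left hB00, ?_⟩
    intro M u v hM hu hv hju hjv σ hσ0 hσ
    have hun : ContDiffOn ℝ n u M := hu.of_le (by norm_cast; omega)
    have hvn : ContDiffOn ℝ n v M := hv.of_le (by norm_cast; omega)
    have hGn : ContDiff ℝ n (deriv G) := hG'.of_le (by exact_mod_cast le_top)
    have hGu : ContDiffOn ℝ n (fun x => deriv G (u x)) M := hGn.comp_contDiffOn hun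
    have hGv : ContDiffOn ℝ n (fun x => deriv G (v x)) M := hGn.comp_contDiffOn hvn
    have e1 := hB1 M u v hM hun hvn hju.of_succ hjv.of_succ σ hσ0 hσ.of_succ
    have e2 := hB2 M v hM hvn hjv.of_succ
    have hmono : ∀ f : ℂ → ℝ, JetLe M n (2 ^ n * (B1 * σ) * |A| + 2 ^ n * B2 * σ) f →
        JetLe M n (max B0 (2 ^ n * B1 * |A| + 2 ^ n * B2) * σ) f := by
      intro f hf
      refine hf.mono ?_
      have h1 : (2 ^ n * B1 * |A| + 2 ^ n * B2) * σ ≤ max B0 (2 ^ n * B1 * |A| + 2 ^ n * B2) * σ :=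
        mul_le_mul_of_nonneg_right (le_max_right _ _) hσ0
      have h2 : 2 ^ n * (B1 * σ) * |A| + 2 ^ n * B2 * σ = (2 ^ n * B1 * |A| + 2 ^ n * B2) * σ := by ring
      rw [h2]
      exact h1
    refine ⟨fun x hx => ?_, ?_, ?_⟩
    · refine (hB0 _ _ (hju.1 x hx) (hjv.1 x hx)).trans ?_
      exact (mul_le_mul_of_nonneg_left (hσ.1 x hx) hB00).trans
        (mul_le_mul_of_nonneg_right (le_max_left _ _) hσ0)
    · have hux := contDiffOn_dx hM hu
      have hvx := contDiffOn_dx hM hv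
      have f1 := e1.mul hM (hGu.sub hGv) hux (hju.2.1.mono (le_abs_self A))
      have f2 := e2.mul hM hGv (hux.sub hvx) (hσ.2.1.congr hM fun x hx => dx_sub (dat hM hu hx) (dat hM hv hx))
      have f3 := f1.add hM ((hGu.sub hGv).mul hux) (hGv.mul (hux.sub hvx)) f2
      refine hmono _ (f3.congr hM fun x hx => ?_)
      have dGu : DifferentiableAt ℝ (fun x => G (u x)) x := (hd _).comp x (dat hM hu hx)
      have dGv : DifferentiableAt ℝ (fun x => G (v x)) x := (hd _).comp x (dat hM hv hx)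
      rw [dx_sub dGu dGv, dx_comp (hd _) (dat hM hu hx), dx_comp (hd _) (dat hM hv hx)]
      ring
    · have hux := contDiffOn_dy hM hu
      have hvx := contDiffOn_dy hM hv
      have f1 := e1.mul hM (hGu.sub hGv) hux (hju.2.2.mono (le_abs_self A))
      have f2 := e2.mul hM hGv (hux.sub hvx) (hσ.2.2.congr hM fun x hx => dy_sub (dat hM hu hx) (dat hM hv hx))
      have f3 := f1.add hM ((hGu.sub hGv).mul hux) (hGv.mul (hux.sub hvx)) f2
      refine hmono _ (f3.congr hM fun x hx => ?_)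
      have dGu : DifferentiableAt ℝ (fun x => G (u x)) x := (hd _).comp x (dat hM hu hx)
      have dGv : DifferentiableAt ℝ (fun x => G (v x)) x := (hd _).comp x (dat hM hv hx)
      rw [dy_sub dGu dGv, dy_comp (hd _) (dat hM hu hx), dy_comp (hd _) (dat hM hv hx)]
      ring

theorem jet_comp_rem (n : ℕ) : ∀ {G : ℝ → ℝ}, ContDiff ℝ ∞ G → ∀ A : ℝ,
    ∃ B, 0 ≤ B ∧ ∀ (M : Set ℂ) (u v w : ℂ → ℝ), IsOpen M → ContDiffOn ℝ n u M →
      ContDiffOn ℝ n v M → ContDiffOn ℝ n w M → JetLe M n A u → JetLe M n A v → JetLe M n A w →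
      ∀ ρ σ, 0 ≤ ρ → 0 ≤ σ → JetLe M n ρ (fun x => u x - w x) → JetLe M n ρ (fun x => v x - w x) →
      JetLe M n σ (fun x => u x - v x) →
      JetLe M n (B * ρ * σ) (fun x => G (u x) - G (v x) - deriv G (w x) * (u x - v x)) := by
  induction n with
  | zero =>
    intro G hG A
    obtain ⟨B, hB0, hB⟩ := b6_rem0 hG A
    refine ⟨B, hB0, fun M u v w _ _ _ _ hu hv hw ρ σ hρ0 _ hρ hρ' hσ x hx => ?_⟩
    exact (hB _ _ _ ρ (hu x hx) (hv x hx) (hw x hx) (hρ x hx) (hρ' x hx)).trans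
      (mul_le_mul_of_nonneg_left (hσ x hx) (mul_nonneg hB0 hρ0))
  | succ n ih =>
    intro G hG A
    have hG' : ContDiff ℝ ∞ (deriv G) := (contDiff_infty_iff_deriv.1 hG).2
    have hG'' : ContDiff ℝ ∞ (deriv (deriv G)) := (contDiff_infty_iff_deriv.1 hG').2
    have hd : Differentiable ℝ G := hG.differentiable (by simp)
    have hd' : Differentiable ℝ (deriv G) := hG'.differentiable (by simp)
    obtain ⟨B0, hB00, hB0⟩ := b6_rem0 hG A
    obtain ⟨B1, hB10, hB1⟩ := ih hG' A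
    obtain ⟨B2, hB20, hB2⟩ := jet_comp_lip n hG' A
    obtain ⟨B3, hB30, hB3⟩ := jetLe_comp n hG'' A
    refine ⟨max B0 (2 ^ n * B1 * |A| + 2 ^ n * B2 + 2 ^ n * 2 ^ n * B3), le_max_of_le_left hB00, ?_⟩
    intro M u v w hM hu hv hw hju hjv hjw ρ σ hρ0 hσ0 hρ hρ' hσ
    have hun : ContDiffOn ℝ n u M := hu.of_le (by norm_cast; omega)
    have hvn : ContDiffOn ℝ n v M := hv.of_le (by norm_cast; omega)
    have hwn : ContDiffOn ℝ n w M := hw.of_le (by norm_cast; omega)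
    have hGn : ContDiff ℝ n (deriv G) := hG'.of_le (by exact_mod_cast le_top)
    have hGn' : ContDiff ℝ n (deriv (deriv G)) := hG''.of_le (by exact_mod_cast le_top)
    have hGu : ContDiffOn ℝ n (fun x => deriv G (u x)) M := hGn.comp_contDiffOn hun
    have hGv : ContDiffOn ℝ n (fun x => deriv G (v x)) M := hGn.comp_contDiffOn hvn
    have hGw : ContDiffOn ℝ n (fun x => deriv G (w x)) M := hGn.comp_contDiffOn hwn
    have hGw' : ContDiffOn ℝ n (fun x => deriv (deriv G) (w x)) M := hGn'.comp_contDiffOn hwn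
    have e1 := hB1 M u v w hM hun hvn hwn hju.of_succ hjv.of_succ hjw.of_succ ρ σ hρ0 hσ0 hρ.of_succ
      hρ'.of_succ hσ.of_succ
    have c1 : ContDiffOn ℝ n (fun x => deriv G (u x) - deriv G (v x) - deriv (deriv G) (w x) * (u x - v x)) M :=
      (hGu.sub hGv).sub (hGw'.mul (hun.sub hvn))
    have e2 := hB2 M v w hM hvn hwn hjv.of_succ hjw.of_succ ρ hρ0 hρ'.of_succ
    have e3 := (hB3 M w hM hwn hjw.of_succ).mul hM hGw' (hun.sub hvn) hσ.of_succ
    have c3 : ContDiffOn ℝ n (fun x => deriv (deriv G) (w x) * (u x - v x)) M := hGw'.mul (hun.sub hvn)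
    have hρσ : 0 ≤ ρ * σ := mul_nonneg hρ0 hσ0
    have hmono : ∀ f : ℂ → ℝ, JetLe M n (2 ^ n * (B1 * ρ * σ) * |A| + 2 ^ n * (B2 * ρ) * σ +
        2 ^ n * (2 ^ n * B3 * σ) * ρ) f →
        JetLe M n (max B0 (2 ^ n * B1 * |A| + 2 ^ n * B2 + 2 ^ n * 2 ^ n * B3) * ρ * σ) f := by
      intro f hf
      refine hf.mono ?_
      have h1 : (2 ^ n * B1 * |A| + 2 ^ n * B2 + 2 ^ n * 2 ^ n * B3) * (ρ * σ) ≤
          max B0 (2 ^ n * B1 * |A| + 2 ^ n * B2 + 2 ^ n * 2 ^ n * B3) * (ρ * σ) :=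
        mul_le_mul_of_nonneg_right (le_max_right _ _) hρσ
      have h2 : 2 ^ n * (B1 * ρ * σ) * |A| + 2 ^ n * (B2 * ρ) * σ + 2 ^ n * (2 ^ n * B3 * σ) * ρ =
          (2 ^ n * B1 * |A| + 2 ^ n * B2 + 2 ^ n * 2 ^ n * B3) * (ρ * σ) := by ring
      rw [h2, mul_assoc (max _ _)]
      exact h1
    refine ⟨fun x hx => ?_, ?_, ?_⟩
    · refine (hB0 _ _ _ ρ (hju.1 x hx) (hjv.1 x hx) (hjw.1 x hx) (hρ.1 x hx) (hρ'.1 x hx)).trans ?_
      rw [mul_assoc, mul_assoc]
      refine mul_le_mul (le_max_left _ _) (mul_le_mul_of_nonneg_left (hσ.1 x hx) hρ0) (by positivity)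
        (le_max_of_le_left hB00)
    · have hux := contDiffOn_dx hM hu
      have hvx := contDiffOn_dx hM hv
      have hwx := contDiffOn_dx hM hw
      have f1 := e1.mul hM c1 hux (hju.2.1.mono (le_abs_self A))
      have f2 := e2.mul hM (hGv.sub hGw) (hux.sub hvx)
        (hσ.2.1.congr hM fun x hx => dx_sub (dat hM hu hx) (dat hM hv hx))
      have f3 := e3.mul hM c3 (hux.sub hwx) (hρ.2.1.congr hM fun x hx => dx_sub (dat hM hu hx) (dat hM hw hx))
      have f4 := (f1.add hM (c1.mul hux) ((hGv.sub hGw).mul (hux.sub hvx)) f2).add hM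
        ((c1.mul hux).add ((hGv.sub hGw).mul (hux.sub hvx))) (c3.mul (hux.sub hwx)) f3
      refine hmono _ (f4.congr hM fun x hx => ?_)
      have du := dat hM hu hx
      have dv := dat hM hv hx
      have dw := dat hM hw hx
      have dGu : DifferentiableAt ℝ (fun x => G (u x)) x := (hd _).comp x du
      have dGv : DifferentiableAt ℝ (fun x => G (v x)) x := (hd _).comp x dv
      have dGw : DifferentiableAt ℝ (fun x => deriv G (w x)) x := (hd' _).comp x dw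
      rw [dx_sub (dGu.fun_sub dGv) (dGw.fun_mul (du.fun_sub dv)), dx_sub dGu dGv, dx_mul dGw (du.fun_sub dv), dx_sub du dv,
        dx_comp (hd _) du, dx_comp (hd _) dv, dx_comp (hd' _) dw]
      ring
    · have hux := contDiffOn_dy hM hu
      have hvx := contDiffOn_dy hM hv
      have hwx := contDiffOn_dy hM hw
      have f1 := e1.mul hM c1 hux (hju.2.2.mono (le_abs_self A))
      have f2 := e2.mul hM (hGv.sub hGw) (hux.sub hvx)
        (hσ.2.2.congr hM fun x hx => dy_sub (dat hM hu hx) (dat hM hv hx))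
      have f3 := e3.mul hM c3 (hux.sub hwx) (hρ.2.2.congr hM fun x hx => dy_sub (dat hM hu hx) (dat hM hw hx))
      have f4 := (f1.add hM (c1.mul hux) ((hGv.sub hGw).mul (hux.sub hvx)) f2).add hM
        ((c1.mul hux).add ((hGv.sub hGw).mul (hux.sub hvx))) (c3.mul (hux.sub hwx)) f3
      refine hmono _ (f4.congr hM fun x hx => ?_)
      have du := dat hM hu hx
      have dv := dat hM hv hx
      have dw := dat hM hw hx
      have dGu : DifferentiableAt ℝ (fun x => G (u x)) x := (hd _).comp x du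
      have dGv : DifferentiableAt ℝ (fun x => G (v x)) x := (hd _).comp x dv
      have dGw : DifferentiableAt ℝ (fun x => deriv G (w x)) x := (hd' _).comp x dw
      rw [dy_sub (dGu.fun_sub dGv) (dGw.fun_mul (du.fun_sub dv)), dy_sub dGu dGv, dy_mul dGw (du.fun_sub dv), dy_sub du dv,
        dy_comp (hd _) du, dy_comp (hd _) dv, dy_comp (hd' _) dw]
      ring

end Pool.Agent.YUD
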