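import Mathlib

/-!
# [YUD] B7a: abstract functional analysis: Fredholm alternative, implicit function theorem

PROOFS. (1) `fredholm`: Mathlib `Mathlib/Analysis/Normed/Operator/Compact/FredholmAlternative.lean`:
`hasEigenvalue_or_mem_resolventSet` with `μ = 1`: `1` is not an eigenvalue of `K` (an eigenvector `z ≠ 0` has `K z = z`), so `1 ∈ resolventSet`, i.e.
`algebraMap 1 - K` is a unit; its inverse gives the `ContinuousLinearEquiv` (`ContinuousLinearEquiv.unitsEquiv` / or `ofBijective`).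
(2) `ker_finite`: on `N = ker (1 - K)` (closed), `K` restricts to the identity, which is therefore a compact operator of `N`
(`IsCompactOperator.restrict'` or directly), so `N` is finite dimensional (`FiniteDimensional.of_isCompactOperator_id`).
(3) `ift`: `Mathlib/Analysis/Calculus/ImplicitFunction/ProdDomain.lean`: `HasStrictFDerivAt.implicitFunctionOfProdDomain` at `u = (0,0)`; its derivative
is `- (P' ∘ inr)⁻¹ ∘ (P' ∘ inl)`, and `eventually_apply_eq_iff_implicitFunctionOfProdDomain` together with continuity of `ε ↦ (ε, γ ε)` at `0` gives `P (ε, γ ε) = P (0,0) = 0` for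
small `ε`; `γ 0 = 0`.
-/

open Filter Topology

namespace Pool.Agent.YUD

variable {Z : Type} [NormedAddCommGroup Z] [NormedSpace ℝ Z] [CompleteSpace Z]

theorem fredholm (K : Z →L[ℝ] Z) (hK : IsCompactOperator K) (hinj : ∀ z, z - K z = 0 → z = 0) :
    ∃ e : Z ≃L[ℝ] Z, ∀ z, e z = z - K z := by
  have h1 := hK.hasEigenvalue_or_mem_resolventSet (μ := (1 : ℝ)) one_ne_zero
  have h2 : ¬ Module.End.HasEigenvalue (K : Z →ₗ[ℝ] Z) 1 := by
    intro h
    obtain ⟨z, hz⟩ := h.exists_hasEigenvector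
    apply hz.2
    apply hinj
    have h3 := hz.apply_eq_smul
    rw [one_smul] at h3
    have h4 : K z = z := h3
    rw [h4, sub_self]
  have h3 := h1.resolve_left h2
  rw [spectrum.mem_resolventSet_iff, ContinuousLinearMap.isUnit_iff_bijective] at h3
  have h4 : ∀ z, (algebraMap ℝ (Z →L[ℝ] Z) 1 - K) z = z - K z := by
    intro z
    simp
  have hker : LinearMap.ker ((algebraMap ℝ (Z →L[ℝ] Z) 1 - K : Z →L[ℝ] Z) : Z →ₗ[ℝ] Z) = ⊥ :=
    LinearMap.ker_eq_bot.2 h3.1
  have hran : LinearMap.range ((algebraMap ℝ (Z →L[ℝ] Z) 1 - K : Z →L[ℝ] Z) : Z →ₗ[ℝ] Z) = ⊤ :=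
    LinearMap.range_eq_top.2 h3.2
  exact ⟨ContinuousLinearEquiv.ofBijective _ hker hran, fun z => h4 z⟩

theorem ker_finite (K : Z →L[ℝ] Z) (hK : IsCompactOperator K) :
    FiniteDimensional ℝ (LinearMap.ker ((ContinuousLinearMap.id ℝ Z - K : Z →L[ℝ] Z) :
      Z →ₗ[ℝ] Z)) := by
  set N := LinearMap.ker ((ContinuousLinearMap.id ℝ Z - K : Z →L[ℝ] Z) : Z →ₗ[ℝ] Z) with hN
  have hmem : ∀ z : Z, z ∈ N ↔ K z = z := by
    intro z
    rw [hN, LinearMap.mem_ker]
    constructor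
    · intro h
      have h1 : z - K z = 0 := h
      exact (sub_eq_zero.1 h1).symm
    · intro h
      show z - K z = 0
      rw [h, sub_self]
  have hcl : IsClosed (N : Set Z) := (ContinuousLinearMap.id ℝ Z - K : Z →L[ℝ] Z).isClosed_ker
  have h1 : ∀ z ∈ N, (K : Z →ₗ[ℝ] Z) z ∈ N := by
    intro z hz
    have h2 : K z = z := (hmem z).1 hz
    show K z ∈ N
    rw [h2]
    exact hz
  have h2 : IsCompactOperator ((K : Z →ₗ[ℝ] Z).restrict h1) := IsCompactOperator.restrict (f := (K : Z →ₗ[ℝ] Z)) hK h1 hcl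
  have h3 : ((K : Z →ₗ[ℝ] Z).restrict h1 : N → N) = id := by
    funext z
    ext
    exact (hmem z).1 z.2
  rw [h3] at h2
  exact FiniteDimensional.of_isCompactOperator_id h2

theorem ift {P : ℝ × Z → Z} {P' : ℝ × Z →L[ℝ] Z} (hP : HasStrictFDerivAt P P' (0, 0))
    (h0 : P (0, 0) = 0) (e : Z ≃L[ℝ] Z) (he : ∀ z, P' (0, z) = e z) :
    ∃ γ : ℝ → Z, γ 0 = 0 ∧ HasDerivAt γ (- e.symm (P' (1, 0))) 0 ∧
      ∀ᶠ ε in 𝓝 (0 : ℝ), P (ε, γ ε) = 0 := by
  have h2 : P' ∘L ContinuousLinearMap.inr ℝ ℝ Z = (e : Z →L[ℝ] Z) := by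
    ext z
    exact he z
  have hinv : (P' ∘L ContinuousLinearMap.inr ℝ ℝ Z).IsInvertible := ⟨e, h2.symm⟩
  refine ⟨hP.implicitFunctionOfProdDomain hinv, ?_, ?_, ?_⟩
  · exact (hP.eventually_apply_eq_iff_implicitFunctionOfProdDomain hinv).self_of_nhds.mp rfl
  · have h3 := (hP.hasStrictFDerivAt_implicitFunctionOfProdDomain hinv).hasFDerivAt.hasDerivAt
    have h4 : (-(P' ∘L ContinuousLinearMap.inr ℝ ℝ Z).inverse ∘L (P' ∘L ContinuousLinearMap.inl ℝ ℝ Z)) 1 =
        - e.symm (P' (1, 0)) := by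
      rw [h2, ContinuousLinearMap.inverse_equiv]
      simp
    rw [h4] at h3
    exact h3
  · have h5 := hP.eventually_apply_implicitFunctionOfProdDomain hinv
    filter_upwards [h5] with x hx
    rw [hx, h0]

end Pool.Agent.YUD
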