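import Pool.Agent.YUD.A1
import Pool.Agent.YUD.B1
import Pool.Agent.YUD.B2
import Pool.Agent.YUD.B5

/-!
# [YUD] B7b: the solution operator on the Banach space `X`, and compactness

PROOFS. (1) `exists_S`: for `F : X` choose `ψ` from `Schauder` applied to `ev F` with constant `3‖F‖` and put `S F x = if x ∈ M then ψ x else 0`
(`Stream.congr`, `JetLe.congr`, `lap_congr`: it agrees with `ψ` on the open set `M`). Linearity (as functions on `ℂ`): on `M` by `stream_unique`
(`lap (S (F+G)) = ev F + ev G = lap (S F + S G)`), off `M` both sides are `0`.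
(2) `exists_mul_S`: `p` is `C³` on `M` with 3-jets `≤ A`. For `F : X`, `p · S F` is `C³`, its 3-jets are `≤ 8 A (3 CS ‖F‖)` (`JetLe.mul`), so by `normLe_of_jet`
`NormLe M α (K · 8 A · 3 CS ‖F‖)` (assume `A ≥ 0`; `JetLe.of_succ`), and `m.lift` gives `T F : X` with `ev (T F) = p · S F` on `M`, `‖T F‖ ≤ 24 K A CS ‖F‖`. `T` is linear by `m.ext`;
so a continuous linear map (`LinearMap.mkContinuous`). Compact: by `isCompactOperator_iff_isCompact_closure_image_ball` (or closedBall) it suffices that `T '' closedBall 0 1` is totally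
bounded (`X` complete; `TotallyBounded.isCompact_of_isClosed`/`isCompact_closure`). Use `Metric.totallyBounded_of_finite_discretization`: given `ε > 0`, let `D` be from `discretize` with `n = 2`,
`C = 24 A CS` (times 1), `ε' = ε / (2(K+1))`; for `T F, T G` in the image with `D (p·S F) = D (p·S G)` the difference `p·S F - p·S G` has 2-jets `≤ ε'`, so
`NormLe M α (K ε')` (`normLe_of_jet`), and `m.lift` + `m.ext` give `‖T F - T G‖ ≤ K ε' < ε`. (For an element of the image choose a preimage in the ball.)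
-/

open MeasureTheory Set Filter Topology
open scoped ContDiff

namespace Pool.Agent.YUD

variable {M : Set ℂ} {α CS : ℝ} {X : Type} [NormedAddCommGroup X] [NormedSpace ℝ X]

/-- `S` is the solution operator of the Dirichlet problem on `X` -/
structure IsSol (M : Set ℂ) (α CS : ℝ) (m : Model M α X) (S : X →ₗ[ℝ] (ℂ → ℝ)) : Prop where
  stream : ∀ F, Stream M (S F)
  lap_eq : ∀ F, ∀ x ∈ M, lap (S F) x = m.ev F x
  jet : ∀ F, JetLe M 3 (3 * CS * ‖F‖) (S F)

theorem exists_S (hM : IsOpen M) (hb : Bornology.IsBounded M) (hS : Schauder M α CS)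
    (m : Model M α X) : ∃ S : X →ₗ[ℝ] (ℂ → ℝ), IsSol M α CS m S := by
  classical
  have hex : ∀ F : X, ∃ ψ : ℂ → ℝ, Stream M ψ ∧ (∀ x ∈ M, lap ψ x = m.ev F x) ∧ JetLe M 3 (CS * (3 * ‖F‖)) ψ :=
    fun F => hS.2 _ _ (m.normLe F)
  choose ψ hψ hlap hjet using hex
  have hadd : ∀ F G, ∀ x ∈ M, ψ (F + G) x = ψ F x + ψ G x := by
    intro F G
    refine stream_unique hM hb (hψ (F + G)) ((hψ F).add hM (hψ G)) fun x hx => ?_
    rw [hlap _ x hx, lap_add hM (hψ F).two (hψ G).two hx, hlap F x hx, hlap G x hx, map_add]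
    rfl
  have hsmul : ∀ (c : ℝ) F, ∀ x ∈ M, ψ (c • F) x = c * ψ F x := by
    intro c F
    refine stream_unique hM hb (hψ (c • F)) ((hψ F).const_mul hM c) fun x hx => ?_
    rw [hlap _ x hx, lap_const_mul hM c (hψ F).two hx, hlap F x hx, map_smul]
    rfl
  let L : X →ₗ[ℝ] (ℂ → ℝ) :=
    { toFun := fun F x => if x ∈ M then ψ F x else 0
      map_add' := by
        intro F G
        funext x
        by_cases hx : x ∈ M
        · simp only [if_pos hx, Pi.add_apply]
          exact hadd F G x hx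
        · simp only [if_neg hx, Pi.add_apply, add_zero]
      map_smul' := by
        intro c F
        funext x
        by_cases hx : x ∈ M
        · simp only [if_pos hx, Pi.smul_apply, RingHom.id_apply, smul_eq_mul]
          exact hsmul c F x hx
        · simp only [if_neg hx, Pi.smul_apply, RingHom.id_apply, smul_eq_mul, mul_zero] }
  have hL : ∀ F, ∀ x ∈ M, ψ F x = L F x := by
    intro F x hx
    show ψ F x = if x ∈ M then ψ F x else 0
    rw [if_pos hx]
  refine ⟨L, ⟨fun F => (hψ F).congr hM (hL F), fun F x hx => ?_, fun F => ?_⟩⟩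
  · rw [← lap_congr hM (hL F) hx]
    exact hlap F x hx
  · have h1 : 3 * CS * ‖F‖ = CS * (3 * ‖F‖) := by ring
    rw [h1]
    exact (hjet F).congr hM (hL F)

theorem exists_mul_S (hM : IsOpen M) (hb : Bornology.IsBounded M) (hq : QuasiConvex M)
    (hα0 : 0 < α) (hα1 : α < 1) (hCS : 0 ≤ CS) [CompleteSpace X] (m : Model M α X)
    {S : X →ₗ[ℝ] (ℂ → ℝ)} (hS : IsSol M α CS m S) {p : ℂ → ℝ} (hp : ContDiffOn ℝ 3 p M) {A : ℝ}
    (hpA : JetLe M 3 A p) :
    ∃ T : X →L[ℝ] X, IsCompactOperator T ∧ ∀ F, ∀ x ∈ M, m.ev (T F) x = p x * S F x := by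
  obtain ⟨K, hK0, hK⟩ := normLe_of_jet (α := α) hM hb hq hα0 hα1
  set A' := max A 0 with hA'
  have hA0 : 0 ≤ A' := le_max_right _ _
  have hpA' : JetLe M 3 A' p := hpA.mono (le_max_left _ _)
  have hcd : ∀ F, ContDiffOn ℝ (3 : ℕ) (fun x => p x * S F x) M := fun F => hp.mul (hS.stream F).contDiffOn
  have hjet : ∀ F, JetLe M 3 (2 ^ 3 * A' * (3 * CS * ‖F‖)) (fun x => p x * S F x) := fun F =>
    hpA'.mul hM hp (hS.stream F).contDiffOn (hS.jet F)
  have hcoef : 0 ≤ 2 ^ 3 * A' * (3 * CS) := by positivity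
  have hex : ∀ F : X, ∃ T : X, ‖T‖ ≤ K * (2 ^ 3 * A' * (3 * CS * ‖F‖)) ∧ ∀ x ∈ M, m.ev T x = p x * S F x := by
    intro F
    refine m.lift _ _ (hK _ _ ?_ ((hcd F).of_le (by norm_num)) (hjet F).of_succ)
    have := mul_nonneg hcoef (norm_nonneg F)
    linarith
  choose T hTn hT using hex
  have hadd : ∀ F G, T (F + G) = T F + T G := by
    intro F G
    refine sub_eq_zero.1 (m.ext _ fun x hx => ?_)
    rw [map_sub, map_add, Pi.sub_apply, Pi.add_apply, hT _ x hx, hT _ x hx, hT _ x hx, map_add, Pi.add_apply]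
    ring
  have hsmul : ∀ (c : ℝ) F, T (c • F) = c • T F := by
    intro c F
    refine sub_eq_zero.1 (m.ext _ fun x hx => ?_)
    rw [map_sub, map_smul, Pi.sub_apply, Pi.smul_apply, hT _ x hx, hT _ x hx, map_smul, Pi.smul_apply,
      smul_eq_mul, smul_eq_mul]
    ring
  let L : X →ₗ[ℝ] X := { toFun := T, map_add' := hadd, map_smul' := hsmul }
  let L' : X →L[ℝ] X := L.mkContinuous (K * (2 ^ 3 * A' * (3 * CS))) (fun F => by
    refine (hTn F).trans (le_of_eq ?_)
    ring)
  refine ⟨L', ?_, fun F x hx => hT F x hx⟩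
  have hL' : ∀ F, L' F = T F := fun F => rfl
  rw [← ContinuousLinearMap.coe_coe, isCompactOperator_iff_isCompact_closure_image_closedBall _ (one_pos)]
  refine TotallyBounded.isCompact_of_isClosed ?_ isClosed_closure
  refine TotallyBounded.closure ?_
  refine Metric.totallyBounded_of_finite_discretization fun ε hε => ?_
  set C := 2 ^ 3 * A' * (3 * CS) with hC
  set ε' := ε / (2 * (K + 1)) with hε'
  have hε'0 : 0 < ε' := by positivity
  obtain ⟨β, hβ, D, hD⟩ := discretize hM hb hq 2 C ε' hε'0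
  have hpre : ∀ y : ((L' : X →ₗ[ℝ] X) '' Metric.closedBall 0 1 : Set X), ∃ F : X, ‖F‖ ≤ 1 ∧ T F = y.1 := by
    rintro ⟨y, F, hF, rfl⟩
    refine ⟨F, ?_, rfl⟩
    simpa using hF
  choose P hP1 hP2 using hpre
  refine ⟨β, Fintype.ofFinite β, fun y => D (fun x => p x * S (P y) x), ?_⟩
  intro x y hxy
  have hj : ∀ y, JetLe M (2 + 1) C (fun x => p x * S (P y) x) := by
    intro y
    refine (hjet (P y)).mono ?_
    have h1 := mul_le_mul_of_nonneg_left (hP1 y) hcoef
    rw [mul_one] at h1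
    refine le_trans (le_of_eq ?_) h1
    ring
  have h1 := hD _ _ (hcd (P x)) (hcd (P y)) (hj x) (hj y) hxy
  have h2 : ContDiffOn ℝ 2 (fun z => p z * S (P x) z - p z * S (P y) z) M :=
    ((hcd (P x)).of_le (by norm_num)).sub ((hcd (P y)).of_le (by norm_num))
  obtain ⟨H, hH1, hH2⟩ := m.lift _ _ (hK ε' _ hε'0.le h2 h1)
  have h3 : T (P x) - T (P y) = H := by
    refine sub_eq_zero.1 (m.ext _ fun z hz => ?_)
    rw [map_sub, map_sub, Pi.sub_apply, Pi.sub_apply, hT _ z hz, hT _ z hz, hH2 z hz]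
    ring
  rw [← hP2 x, ← hP2 y, dist_eq_norm, h3]
  refine lt_of_le_of_lt hH1 ?_
  rw [hε', mul_div_assoc', div_lt_iff₀ (by positivity)]
  nlinarith

end Pool.Agent.YUD
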