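import Pool.Agent.YUD.B6
import Pool.Agent.YUD.B7b

/-!
# [YUD] B7c: composition operators are strictly differentiable on `X`; functionals

PROOFS. (1) `nemytskii`. `A₀` with `JetLe M 3 A₀ ψ`, so for `‖F‖ ≤ 1`, `u_F = ψ + S F` has 2-jets `≤ A = |A₀| + 3 CS`. For every `F` (any norm), `G(u_F)` is `C³` with bounded 2-jets
(`jetLe_comp`), so `NormLe` (`normLe_of_jet`) and `m.lift` give `N F : X` with `ev (N F) = G(ψ + S F)` on `M`. Strict differentiability at `0` with derivative `T`: for `‖F‖, ‖F'‖ ≤ ρ ≤ 1` apply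
`jet_comp_rem` (`n = 2`) to `u = u_F`, `v = u_{F'}`, `w = ψ`, with `3 CS ρ` for `ρ` and `σ = 3 CS ‖F - F'‖` (`S` is linear): the function
`G(u_F) - G(u_{F'}) - G'(ψ) S (F - F')` has 2-jets `≤ B (3 CS)² ρ ‖F - F'‖`, so (`normLe_of_jet`, `m.lift`, `m.ext`)
`‖N F - N F' - T (F - F')‖ ≤ K B (3 CS)² ρ ‖F - F'‖`, which is `o(‖F - F'‖)` (`HasStrictFDerivAt`: `hasStrictFDerivAt_iff_isLittleO`, `Asymptotics.isLittleO_iff`).
(2) `exists_functional`: `F ↦ ∫_M (S F) k` is linear (`integral_add`, integrable by `integrableOn_of_bdd`) with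
`|∫_M (S F) k| ≤ vol(M) 3 CS ‖F‖ Ck`; `LinearMap.mkContinuous`.
-/

open MeasureTheory Set Filter Topology
open scoped ContDiff

namespace Pool.Agent.YUD

variable {M : Set ℂ} {α CS : ℝ} {X : Type} [NormedAddCommGroup X] [NormedSpace ℝ X]

theorem nemytskii (hM : IsOpen M) (hb : Bornology.IsBounded M) (hq : QuasiConvex M)
    (hα0 : 0 < α) (hα1 : α < 1) (hCS : 0 ≤ CS) (m : Model M α X)
    {S : X →ₗ[ℝ] (ℂ → ℝ)} (hS : IsSol M α CS m S) {ψ : ℂ → ℝ} (hψ : Stream M ψ)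
    {G : ℝ → ℝ} (hG : ContDiff ℝ ∞ G) :
    ∃ N : X → X, (∀ F, ∀ x ∈ M, m.ev (N F) x = G (ψ x + S F x)) ∧
      ∀ T : X →L[ℝ] X, (∀ F, ∀ x ∈ M, m.ev (T F) x = deriv G (ψ x) * S F x) →
        HasStrictFDerivAt N T 0 := by
  obtain ⟨A₀, hA₀⟩ := hψ.bdd
  obtain ⟨K, hK0, hK⟩ := normLe_of_jet hM hb hq hα0 hα1
  have hu : ∀ F : X, ContDiffOn ℝ 3 (fun x => ψ x + S F x) M := fun F =>
    hψ.contDiffOn.add (hS.stream F).contDiffOn
  have hjet : ∀ F : X, JetLe M 3 (|A₀| + 3 * CS * ‖F‖) (fun x => ψ x + S F x) := fun F =>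
    JetLe.add hM hψ.contDiffOn (hS.stream F).contDiffOn (hA₀.mono (le_abs_self _)) (hS.jet F)
  have hG2 : ContDiff ℝ 2 G := contDiff_infty.1 hG 2
  have hex : ∀ F : X, ∃ N : X, ∀ x ∈ M, m.ev N x = G (ψ x + S F x) := by
    intro F
    obtain ⟨B, hB0, hB⟩ := jetLe_comp 2 hG (|A₀| + 3 * CS * ‖F‖)
    have hu2 : ContDiffOn ℝ (2 : ℕ) (fun x => ψ x + S F x) M := (hu F).of_le (by norm_num)
    have h1 := hB M _ hM hu2 (hjet F).of_succ
    have h2 : ContDiffOn ℝ 2 (fun x => G (ψ x + S F x)) M := hG2.comp_contDiffOn hu2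
    obtain ⟨N, -, hN⟩ := m.lift _ _ (hK B _ hB0 h2 h1)
    exact ⟨N, hN⟩
  choose N hN using hex
  refine ⟨N, hN, fun T hT => ?_⟩
  set A := |A₀| + 3 * CS with hA
  obtain ⟨B, hB0, hB⟩ := jet_comp_rem 2 hG A
  rw [hasStrictFDerivAt_iff_isLittleO, Asymptotics.isLittleO_iff]
  intro c hc
  set L := K * B * (3 * CS) ^ 2 with hL
  have hL0 : 0 ≤ L := by positivity
  set ρ := min 1 (c / (L + 1)) with hρ
  have hρ0 : 0 < ρ := lt_min one_pos (by positivity)
  have hρ1 : ρ ≤ 1 := min_le_left _ _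
  have hρc : L * ρ ≤ c := by
    have h1 : ρ ≤ c / (L + 1) := min_le_right _ _
    rw [le_div_iff₀ (by positivity)] at h1
    nlinarith
  have hball : Metric.ball ((0 : X), (0 : X)) ρ ∈ 𝓝 ((0 : X), (0 : X)) := Metric.ball_mem_nhds _ hρ0
  filter_upwards [hball] with p hp
  obtain ⟨F, F'⟩ := p
  rw [mem_ball_iff_norm, Prod.mk_sub_mk, sub_zero, sub_zero, Prod.norm_mk, max_lt_iff] at hp
  obtain ⟨hF, hF'⟩ := hp
  have hle : ∀ F : X, ‖F‖ < ρ → JetLe M 2 A (fun x => ψ x + S F x) := by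
    intro F hF
    refine (hjet F).of_succ.mono ?_
    have h1 : ‖F‖ ≤ 1 := hF.le.trans hρ1
    have h2 : 3 * CS * ‖F‖ ≤ 3 * CS * 1 := mul_le_mul_of_nonneg_left h1 (by positivity)
    rw [hA]
    linarith
  have hle2 : ∀ F : X, ‖F‖ < ρ → JetLe M 2 (3 * CS * ρ) (fun x => ψ x + S F x - ψ x) := by
    intro F hF
    have h1 : JetLe M 2 (3 * CS * ρ) (S F) :=
      (hS.jet F).of_succ.mono (mul_le_mul_of_nonneg_left hF.le (by positivity))
    exact h1.congr hM fun x _ => by ring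
  have hdiff : ∀ x, S (F - F') x = S F x - S F' x := fun x => by
    rw [map_sub]; rfl
  have hσ : JetLe M 2 (3 * CS * ‖F - F'‖) (fun x => ψ x + S F x - (ψ x + S F' x)) :=
    (hS.jet (F - F')).of_succ.congr hM fun x _ => by rw [hdiff x]; ring
  have hu2 : ∀ F : X, ContDiffOn ℝ (2 : ℕ) (fun x => ψ x + S F x) M := fun F => (hu F).of_le (by norm_num)
  have hψ2 : ContDiffOn ℝ (2 : ℕ) ψ M := hψ.contDiffOn.of_le (by norm_num)
  have hψA : JetLe M 2 A ψ := hA₀.of_succ.mono (by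
    rw [hA]
    have := le_abs_self A₀
    have : 0 ≤ 3 * CS := by positivity
    linarith)
  have hR := hB M (fun x => ψ x + S F x) (fun x => ψ x + S F' x) ψ hM (hu2 F) (hu2 F') hψ2 (hle F hF) (hle F' hF')
    hψA (3 * CS * ρ) (3 * CS * ‖F - F'‖) (by positivity) (by positivity) (hle2 F hF) (hle2 F' hF') hσ
  have hG' : ContDiff ℝ ∞ (deriv G) := (contDiff_infty_iff_deriv.1 hG).2
  have hG'2 : ContDiff ℝ 2 (deriv G) := contDiff_infty.1 hG' 2
  have hcd : ContDiffOn ℝ 2 (fun x => G (ψ x + S F x) - G (ψ x + S F' x) -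
      deriv G (ψ x) * (ψ x + S F x - (ψ x + S F' x))) M :=
    ((hG2.comp_contDiffOn (hu2 F)).sub (hG2.comp_contDiffOn (hu2 F'))).sub
      ((hG'2.comp_contDiffOn hψ2).mul ((hu2 F).sub (hu2 F')))
  obtain ⟨Z, hZ, hZ2⟩ := m.lift _ _ (hK _ _ (by positivity) hcd hR)
  have hZe : N F - N F' - T (F - F') = Z := by
    rw [← sub_eq_zero]
    refine m.ext _ fun x hx => ?_
    have e1 : m.ev (N F - N F' - T (F - F') - Z) x =
        m.ev (N F) x - m.ev (N F') x - m.ev (T (F - F')) x - m.ev Z x := by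
      rw [map_sub m.ev, map_sub m.ev, map_sub m.ev]; rfl
    rw [e1, hN F x hx, hN F' x hx, hT _ x hx, hZ2 x hx, hdiff x]
    ring
  show ‖N F - N F' - T (F - F')‖ ≤ c * ‖F - F'‖
  rw [hZe]
  refine hZ.trans ?_
  have e2 : K * (B * (3 * CS * ρ) * (3 * CS * ‖F - F'‖)) = L * ρ * ‖F - F'‖ := by
    rw [hL]; ring
  rw [e2]
  exact mul_le_mul_of_nonneg_right hρc (norm_nonneg _)

theorem exists_functional (hM : IsOpen M) (hb : Bornology.IsBounded M) (hCS : 0 ≤ CS)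
    (m : Model M α X) {S : X →ₗ[ℝ] (ℂ → ℝ)} (hS : IsSol M α CS m S) {k : ℂ → ℝ}
    (hk : Stream M k) : ∃ l : X →L[ℝ] ℝ, ∀ F, l F = ∫ x in M, S F x * k x := by
  obtain ⟨Ck, hCk⟩ := hk.abs_bdd
  have hkC : ∀ x ∈ M, |k x| ≤ |Ck| := fun x hx => (hCk x hx).trans (le_abs_self _)
  have hbd : ∀ F : X, ∀ x ∈ M, |S F x * k x| ≤ 3 * CS * ‖F‖ * |Ck| := by
    intro F x hx
    rw [abs_mul]
    exact mul_le_mul ((hS.jet F).zero_le x hx) (hkC x hx) (abs_nonneg _) (by positivity)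
  have hint : ∀ F : X, IntegrableOn (fun x => S F x * k x) M := fun F =>
    integrableOn_of_bdd hM hb ((hS.stream F).contDiffOn.continuousOn.mul hk.contDiffOn.continuousOn) (hbd F)
  let l0 : X →ₗ[ℝ] ℝ :=
    { toFun := fun F => ∫ x in M, S F x * k x
      map_add' := fun F F' => by
        rw [← integral_add (hint F) (hint F')]
        refine integral_congr_ae (Eventually.of_forall fun x => ?_)
        show S (F + F') x * k x = S F x * k x + S F' x * k x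
        rw [map_add, Pi.add_apply]
        ring
      map_smul' := fun c F => by
        rw [RingHom.id_apply, smul_eq_mul, ← integral_const_mul]
        refine integral_congr_ae (Eventually.of_forall fun x => ?_)
        show S (c • F) x * k x = c * (S F x * k x)
        rw [map_smul, Pi.smul_apply, smul_eq_mul]
        ring }
  refine ⟨l0.mkContinuous (3 * CS * |Ck| * volume.real M) fun F => ?_, fun F => rfl⟩
  have hfin : volume M < ⊤ := hb.measure_lt_top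
  have h1 := norm_setIntegral_le_of_norm_le_const hfin (f := fun x => S F x * k x) (C := 3 * CS * ‖F‖ * |Ck|)
    (fun x hx => by rw [Real.norm_eq_abs]; exact hbd F x hx)
  refine h1.trans (le_of_eq ?_)
  ring

end Pool.Agent.YUD
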