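import Pool.Agent.YUD.A6
import Pool.Agent.YUD.B7a
import Pool.Agent.YUD.B7b

/-!
# [YUD] B8a: the kernel of the linearised operator

PROOF. `X, m, S` from `exists_model`, `exists_S`; `T` from `exists_mul_S` with `p = deriv F ∘ ψ` (`C³`, bounded 3-jets by `jetLe_comp`). Let
`N = ker (1 - T) ⊆ X`, finite dimensional (`ker_finite`). `𝒦 = {k ∈ Stream : lap k = F'(ψ) k on M}`. The map `N → 𝒦`, `F ↦ S F` is onto modulo values off `M`: if `k ∈ 𝒦`, then
`F'(ψ) k` has bounded 2-jets (`JetLe.mul`), so `NormLe`, lift it to `Fk : X`; `lap (S Fk) = ev Fk = F'(ψ) k = lap k`, so `S Fk = k` on `M`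
(`stream_unique`), and `ev (T Fk) = F'(ψ) S Fk = F'(ψ) k = ev Fk`, so `T Fk = Fk` (`m.ext`).
For `g ∈ Sm` let `Λ g : N →ₗ ℝ`, `F ↦ ∫_M g(ψ) S F` (bounded, integrable). By `Nondeg`: if `Λ g F = 0` for all `g ∈ Sm`, then `S F = 0` on `M` (`S F ∈ Stream`,
`lap (S F) = ev F = ev (T F) = F'(ψ) S F`), so `ev F = lap (S F) = 0` on `M`, `F = 0`. So the span of the `Λ g` in the dual of the finite dimensional `N` has zero common kernel,
hence is everything (`Submodule.dualCoannihilator`/`Subspace.dualAnnihilator` lemmas); `g ↦ Λ g` is linear on `Sm`, so its range is the whole dual: for a basis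
`b_1..b_d` of `N` there are `g_i ∈ Sm` with `Λ g_i = b_i^*`. Put `k_i = S b_i`: `∫_M g_i(ψ) k_j = δ_ij`. (4): if `k ∈ 𝒦`, then `k = Σ c_j k_j` on `M`; if moreover
`∫_M k k_j = 0` for all `j`, then `∫_M k² = 0`, so `k = 0` on `M` (continuity; the argument is at the end of `nondeg_case` in `E.lean`, copy it).
-/

open MeasureTheory Set Filter Topology
open scoped ContDiff

namespace Pool.Agent.YUD

variable {M : Set ℂ} {α CS : ℝ}

/-- the functional `F ↦ ∫ w S F` -/
theorem b8a_int (hM : IsOpen M) (hb : Bornology.IsBounded M) {X : Type} [NormedAddCommGroup X] [NormedSpace ℝ X]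
    {m : Model M α X} {S : X →ₗ[ℝ] (ℂ → ℝ)} (hS : IsSol M α CS m S) {w : ℂ → ℝ} (hw : ContinuousOn w M) {C : ℝ}
    (hC : ∀ x ∈ M, |w x| ≤ C) : ∃ l : X →ₗ[ℝ] ℝ, ∀ F, l F = ∫ x in M, w x * S F x := by
  have hi : ∀ F, IntegrableOn (fun x => w x * S F x) M := by
    intro F
    obtain ⟨D, hD⟩ := (hS.stream F).abs_bdd
    refine integrableOn_of_bdd hM hb (hw.mul (hS.stream F).contDiffOn.continuousOn) (C := C * D) fun x hx => ?_
    rw [abs_mul]
    exact mul_le_mul (hC x hx) (hD x hx) (abs_nonneg _) ((abs_nonneg _).trans (hC x hx))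
  refine ⟨{ toFun := fun F => ∫ x in M, w x * S F x, map_add' := ?_, map_smul' := ?_ }, fun F => rfl⟩
  · intro F G
    rw [← integral_add (hi F) (hi G)]
    refine setIntegral_congr_fun hM.measurableSet fun x _ => ?_
    show w x * S (F + G) x = w x * S F x + w x * S G x
    rw [map_add, Pi.add_apply]
    ring
  · intro c F
    rw [RingHom.id_apply, smul_eq_mul, ← integral_const_mul]
    refine setIntegral_congr_fun hM.measurableSet fun x _ => ?_
    show w x * S (c • F) x = c * (w x * S F x)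
    rw [map_smul, Pi.smul_apply, smul_eq_mul]
    ring

theorem exists_kernel (hM : IsOpen M) (hb : Bornology.IsBounded M) (hq : QuasiConvex M)
    (hα0 : 0 < α) (hα1 : α < 1) (hS : Schauder M α CS) {F : ℝ → ℝ} (hF : ContDiff ℝ ∞ F)
    {ψ : ℂ → ℝ} (hψ : Stream M ψ) (hN : Nondeg M F ψ) :
    ∃ (d : ℕ) (g : Fin d → ℝ → ℝ) (k : Fin d → ℂ → ℝ), (∀ i, ContDiff ℝ ∞ (g i)) ∧
      (∀ i, Stream M (k i)) ∧ (∀ i, ∀ x ∈ M, lap (k i) x = deriv F (ψ x) * k i x) ∧
      (∀ i j, ∫ x in M, g i (ψ x) * k j x = if i = j then 1 else 0) ∧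
      ∀ φ : ℂ → ℝ, Stream M φ → (∀ x ∈ M, lap φ x = deriv F (ψ x) * φ x) →
        (∀ j, ∫ x in M, φ x * k j x = 0) → ∀ x ∈ M, φ x = 0 := by

  classical
  obtain ⟨X, iX, nX, cX, ⟨m⟩⟩ := exists_model (M := M) hM hα0
  obtain ⟨S, hSol⟩ := exists_S hM hb hS m
  have hF' : ContDiff ℝ ∞ (deriv F) := (contDiff_infty_iff_deriv.1 hF).2
  obtain ⟨C, hC⟩ := hψ.bdd
  obtain ⟨B, hB0, hB⟩ := jetLe_comp 3 hF' C
  have hp3 : ContDiffOn ℝ 3 (fun x => deriv F (ψ x)) M := (contDiff_infty.1 hF' 3).comp_contDiffOn hψ.contDiffOn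
  have hpB : JetLe M 3 B (fun x => deriv F (ψ x)) := hB M ψ hM hψ.contDiffOn hC
  obtain ⟨T, hTc, hT⟩ := exists_mul_S hM hb hq hα0 hα1 hS.1 m hSol hp3 hpB
  have hψc : ContinuousOn ψ M := hψ.contDiffOn.continuousOn
  obtain ⟨N, hNdef⟩ : ∃ N : Submodule ℝ X, N = LinearMap.ker ((ContinuousLinearMap.id ℝ X - T : X →L[ℝ] X) : X →ₗ[ℝ] X) :=
    ⟨_, rfl⟩
  have hNmem : ∀ v : X, v ∈ N ↔ T v = v := by
    intro v
    rw [hNdef, LinearMap.mem_ker]
    constructor
    · intro h
      have h1 : v - T v = 0 := h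
      exact (sub_eq_zero.1 h1).symm
    · intro h
      show v - T v = 0
      rw [h, sub_self]
  haveI : FiniteDimensional ℝ N := by
    rw [hNdef]
    exact ker_finite T hTc
  -- elements of the kernel
  have hNlap : ∀ v : X, v ∈ N → ∀ x ∈ M, lap (S v) x = deriv F (ψ x) * S v x := by
    intro v hv x hx
    rw [hSol.lap_eq v x hx, ← hT v x hx, (hNmem v).1 hv]
  -- bounded functions of psi
  have hgb : ∀ g : ℝ → ℝ, ContDiff ℝ ∞ g → ContinuousOn (fun x => g (ψ x)) M ∧ ∃ D, ∀ x ∈ M, |g (ψ x)| ≤ D := by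
    intro g hg
    refine ⟨hg.continuous.comp_continuousOn hψc, ?_⟩
    obtain ⟨D, hD0, hD⟩ := bdd_on_Icc hg.continuous C
    exact ⟨D, fun x hx => hD _ (hC.zero_le x hx)⟩
  have hint : ∀ g : ℝ → ℝ, ContDiff ℝ ∞ g → ∀ v : X, IntegrableOn (fun x => g (ψ x) * S v x) M := by
    intro g hg v
    obtain ⟨h1, D, hD⟩ := hgb g hg
    obtain ⟨E, hE⟩ := (hSol.stream v).abs_bdd
    refine integrableOn_of_bdd hM hb (h1.mul (hSol.stream v).contDiffOn.continuousOn) (C := D * E) fun x hx => ?_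
    rw [abs_mul]
    exact mul_le_mul (hD x hx) (hE x hx) (abs_nonneg _) ((abs_nonneg _).trans (hD x hx))
  -- the functionals
  let W : Submodule ℝ (Module.Dual ℝ N) :=
    { carrier := {l | ∃ g : ℝ → ℝ, ContDiff ℝ ∞ g ∧ ∀ v : N, l v = ∫ x in M, g (ψ x) * S (v : X) x}
      add_mem' := by
        rintro l l' ⟨g, hg, h1⟩ ⟨g', hg', h2⟩
        refine ⟨fun s => g s + g' s, hg.add hg', fun v => ?_⟩
        rw [LinearMap.add_apply, h1, h2, ← integral_add (hint g hg v) (hint g' hg' v)]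
        exact setIntegral_congr_fun hM.measurableSet fun x _ => (add_mul _ _ _).symm
      zero_mem' := ⟨fun _ => 0, contDiff_const, fun v => by simp⟩
      smul_mem' := by
        rintro c l ⟨g, hg, h1⟩
        refine ⟨fun s => c * g s, contDiff_const.mul hg, fun v => ?_⟩
        rw [LinearMap.smul_apply, h1, smul_eq_mul, ← integral_const_mul]
        exact setIntegral_congr_fun hM.measurableSet fun x _ => (mul_assoc _ _ _).symm }
  have hWmem : ∀ l : Module.Dual ℝ N, l ∈ W ↔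
      ∃ g : ℝ → ℝ, ContDiff ℝ ∞ g ∧ ∀ v : N, l v = ∫ x in M, g (ψ x) * S (v : X) x := fun l => Iff.rfl
  have hWbot : W.dualCoannihilator = ⊥ := by
    rw [eq_bot_iff]
    intro v hv
    rw [Submodule.mem_dualCoannihilator] at hv
    rw [Submodule.mem_bot]
    have h0 : ∀ x ∈ M, S (v : X) x = 0 := by
      refine hN (S (v : X)) (hSol.stream _) (hNlap _ v.2) fun g hg => ?_
      obtain ⟨h1, D, hD⟩ := hgb g hg
      obtain ⟨l, hl⟩ := b8a_int hM hb hSol h1 hD
      have h2 := hv (l.comp N.subtype) ((hWmem _).2 ⟨g, hg, fun u => hl u⟩)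
      have h3 : l (v : X) = 0 := h2
      rw [← hl]
      exact h3
    have h1 : (v : X) = 0 := by
      refine m.ext _ fun x hx => ?_
      rw [← hSol.lap_eq _ x hx, hNlap _ v.2 x hx, h0 x hx, mul_zero]
    exact Subtype.ext h1
  have hWtop : W = ⊤ := by
    rw [← Subspace.dualCoannihilator_dualAnnihilator_eq (W := W), hWbot, Submodule.dualAnnihilator_bot]
  have hg : ∀ i : Fin (Module.finrank ℝ N), ∃ g : ℝ → ℝ, ContDiff ℝ ∞ g ∧
      ∀ v : N, (Module.finBasis ℝ N).coord i v = ∫ x in M, g (ψ x) * S (v : X) x := by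
    intro i
    have h1 : (Module.finBasis ℝ N).coord i ∈ W := by
      rw [hWtop]
      exact Submodule.mem_top
    exact (hWmem _).1 h1
  choose g hg1 hg2 using hg
  refine ⟨Module.finrank ℝ N, g, fun i => S ((Module.finBasis ℝ N i : N) : X), hg1, fun i => hSol.stream _,
    fun i => hNlap _ (Module.finBasis ℝ N i).2, ?_, ?_⟩
  · intro i j
    rw [← hg2 i, Module.Basis.coord_apply, Module.Basis.repr_self, Finsupp.single_apply]
    by_cases hij : i = j
    · rw [if_pos hij, if_pos hij.symm]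
    · rw [if_neg hij, if_neg (fun h => hij h.symm)]
  · intro φ hφ hφlap hφk
    obtain ⟨Cφ, hCφ⟩ := hφ.bdd
    obtain ⟨K, hK0, hK⟩ := normLe_of_jet hM hb hq hα0 hα1
    have hjet : JetLe M 2 (2 ^ 2 * B * Cφ) (fun x => deriv F (ψ x) * φ x) :=
      hpB.of_succ.mul hM (hp3.of_le (by norm_num)) hφ.two hCφ.of_succ
    have hnl := hK (|2 ^ 2 * B * Cφ|) _ (abs_nonneg _) ((hp3.of_le (by norm_num)).mul hφ.two) (hjet.mono (le_abs_self _))
    obtain ⟨G, -, hG⟩ := m.lift _ _ hnl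
    have hSG : ∀ x ∈ M, S G x = φ x := stream_unique hM hb (hSol.stream G) hφ fun x hx => by
      rw [hSol.lap_eq G x hx, hG x hx, hφlap x hx]
    have hGN : G ∈ N := by
      rw [hNmem]
      have h1 : T G - G = 0 := by
        refine m.ext _ fun x hx => ?_
        rw [map_sub, Pi.sub_apply, hT G x hx, hG x hx, hSG x hx, sub_self]
      exact sub_eq_zero.1 h1
    obtain ⟨Dφ, hDφ⟩ := hφ.abs_bdd
    have hφc : ContinuousOn φ M := hφ.contDiffOn.continuousOn
    obtain ⟨l, hl⟩ := b8a_int hM hb hSol hφc hDφ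
    have hl0 : l.comp N.subtype = 0 := by
      refine (Module.finBasis ℝ N).ext fun j => ?_
      show l ((Module.finBasis ℝ N j : N) : X) = 0
      rw [hl]
      exact hφk j
    have hlG : ∫ x in M, φ x * S G x = 0 := by
      rw [← hl]
      exact LinearMap.congr_fun hl0 ⟨G, hGN⟩
    have e6 : ∫ x in M, φ x ^ 2 = 0 := by
      rw [← hlG]
      refine setIntegral_congr_fun hM.measurableSet fun x hx => ?_
      show φ x ^ 2 = φ x * S G x
      rw [hSG x hx, pow_two]
    have hi2 : IntegrableOn (fun x => φ x ^ 2) M :=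
      integrableOn_of_bdd hM hb (hφc.pow 2) (C := Dφ ^ 2) fun x hx => by
        rw [abs_pow]; exact pow_le_pow_left₀ (abs_nonneg _) (hDφ x hx) 2
    have h8 := (setIntegral_eq_zero_iff_of_nonneg_ae
      (Eventually.of_forall fun x => sq_nonneg (φ x)) hi2).1 e6
    intro x hx
    by_contra hne
    have hU : IsOpen {z | z ∈ M ∧ φ z ≠ 0} := by
      have := hφc.isOpen_inter_preimage hM (isOpen_compl_singleton (x := (0 : ℝ)))
      exact this
    have hpos : 0 < volume {z | z ∈ M ∧ φ z ≠ 0} := hU.measure_pos volume ⟨x, hx, hne⟩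
    have hz : volume {z | z ∈ M ∧ φ z ≠ 0} = 0 := by
      rw [EventuallyEq, ae_restrict_iff' hM.measurableSet] at h8
      refine measure_mono_null ?_ h8
      rintro z ⟨hz1, hz2⟩
      intro hcon
      exact pow_ne_zero 2 hz2 (hcon hz1)
    exact hpos.ne' hz

end Pool.Agent.YUD
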