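import Pool.Agent.YUD.A6
import Pool.Agent.YUD.B7a
import Pool.Agent.YUD.B7c

/-!
# [YUD] B8b: the augmented linear operator is invertible

PROOF. `Z = X × (Fin d → ℝ)`, complete. `K : Z →L Z`, `K (F, μ) = (T F + Σ μ_i • G_i, fun j => μ_j - l_j F)`. It is compact: `T ∘ fst` is compact composed with `inl`,
and the rest factors through the finite dimensional spaces (`F, μ) ↦ μ`, `(l_j F)_j`: a continuous linear map with finite dimensional (locally compact) domain or range is compact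
(`isCompactOperator_of_locallyCompactSpace_dom`, `IsCompactOperator.comp_clm`, `.clm_comp`, `.add`). `z - K z = (F - T F - Σ μ_i G_i, (l_j F)_j)`. Injectivity: let `F - T F = Σ μ_i G_i` and `l_j F = 0`
for all `j`, `φ = S F ∈ Stream`: `lap φ = ev F = F'(ψ) φ + Σ μ_i g_i(ψ)` on `M`, `∫ φ k_j = 0`. Multiply by `k_j` and integrate:
`∫ lap φ k_j = ∫ φ lap k_j = ∫ φ F'(ψ) k_j` (`lap_symm`), so `0 = Σ_i μ_i ∫ g_i(ψ) k_j = μ_j`. Then `lap φ = F'(ψ) φ`, so `φ = 0` on `M` by `hker`, so `ev F = lap φ = 0` on `M` (`lap_congr` with the zero function), `F = 0` (`m.ext`).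
`fredholm` gives `e`.
-/

open MeasureTheory Set Filter Topology
open scoped ContDiff

namespace Pool.Agent.YUD

variable {M : Set ℂ} {α CS : ℝ} {X : Type} [NormedAddCommGroup X] [NormedSpace ℝ X]

theorem b8b_int (hM : IsOpen M) (hb : Bornology.IsBounded M) {ψ φ : ℂ → ℝ} (hψ : Stream M ψ)
    (hφ : Stream M φ) {G : ℝ → ℝ} (hG : Continuous G) : IntegrableOn (fun x => G (ψ x) * φ x) M := by
  obtain ⟨C, hC⟩ := hψ.abs_bdd
  obtain ⟨D, hD⟩ := hφ.abs_bdd
  obtain ⟨B, hB0, hB⟩ := bdd_on_Icc hG C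
  refine integrableOn_of_bdd hM hb (C := B * D)
    ((hG.comp_continuousOn hψ.contDiffOn.continuousOn).mul hφ.contDiffOn.continuousOn) fun x hx => ?_
  rw [abs_mul]
  exact mul_le_mul (hB _ (hC x hx)) (hD x hx) (abs_nonneg _) hB0

theorem b8b_int2 (hM : IsOpen M) (hb : Bornology.IsBounded M) {ψ φ k : ℂ → ℝ} (hψ : Stream M ψ)
    (hφ : Stream M φ) (hk : Stream M k) {G : ℝ → ℝ} (hG : Continuous G) :
    IntegrableOn (fun x => G (ψ x) * φ x * k x) M := by
  obtain ⟨C, hC⟩ := hψ.abs_bdd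
  obtain ⟨D, hD⟩ := hφ.abs_bdd
  obtain ⟨E, hE⟩ := hk.abs_bdd
  obtain ⟨B, hB0, hB⟩ := bdd_on_Icc hG C
  refine integrableOn_of_bdd hM hb (C := B * D * E)
    (((hG.comp_continuousOn hψ.contDiffOn.continuousOn).mul hφ.contDiffOn.continuousOn).mul
      hk.contDiffOn.continuousOn) fun x hx => ?_
  have hD0 : 0 ≤ D := (abs_nonneg _).trans (hD x hx)
  rw [abs_mul, abs_mul]
  exact mul_le_mul (mul_le_mul (hB _ (hC x hx)) (hD x hx) (abs_nonneg _) hB0) (hE x hx)
    (abs_nonneg _) (mul_nonneg hB0 hD0)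

theorem exists_equiv (hM : IsOpen M) (hb : Bornology.IsBounded M) [CompleteSpace X]
    {ζ : ℂ → ℝ} (hζ : Torsion M ζ) (m : Model M α X) {S : X →ₗ[ℝ] (ℂ → ℝ)}
    (hS : IsSol M α CS m S) {F : ℝ → ℝ} (hF : ContDiff ℝ ∞ F) {ψ : ℂ → ℝ} (hψ : Stream M ψ)
    {d : ℕ} {g : Fin d → ℝ → ℝ} {k : Fin d → ℂ → ℝ} (hg : ∀ i, ContDiff ℝ ∞ (g i))
    (hk : ∀ i, Stream M (k i)) (hklap : ∀ i, ∀ x ∈ M, lap (k i) x = deriv F (ψ x) * k i x)
    (hgk : ∀ i j, ∫ x in M, g i (ψ x) * k j x = if i = j then 1 else 0)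
    (hker : ∀ φ : ℂ → ℝ, Stream M φ → (∀ x ∈ M, lap φ x = deriv F (ψ x) * φ x) →
        (∀ j, ∫ x in M, φ x * k j x = 0) → ∀ x ∈ M, φ x = 0)
    {T : X →L[ℝ] X} (hTc : IsCompactOperator T)
    (hT : ∀ f, ∀ x ∈ M, m.ev (T f) x = deriv F (ψ x) * S f x)
    {G : Fin d → X} (hG : ∀ i, ∀ x ∈ M, m.ev (G i) x = g i (ψ x))
    {l : Fin d → X →L[ℝ] ℝ} (hl : ∀ j f, l j f = ∫ x in M, S f x * k j x) :
    ∃ e : (X × (Fin d → ℝ)) ≃L[ℝ] (X × (Fin d → ℝ)), ∀ z,
      e z = (z.1 - T z.1 - ∑ i, z.2 i • G i, fun j => l j z.1) := by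
  have hF' : Continuous (deriv F) := (contDiff_infty_iff_deriv.1 hF).2.continuous
  let A : X × (Fin d → ℝ) →L[ℝ] (Fin d → ℝ) × (Fin d → ℝ) :=
    (ContinuousLinearMap.snd ℝ X (Fin d → ℝ)).prod
      ((ContinuousLinearMap.pi l).comp (ContinuousLinearMap.fst ℝ X (Fin d → ℝ)))
  let B : (Fin d → ℝ) × (Fin d → ℝ) →L[ℝ] X × (Fin d → ℝ) :=
    ContinuousLinearMap.prod
      (∑ i, ((ContinuousLinearMap.proj (R := ℝ) (φ := fun _ : Fin d => ℝ) i).comp
        (ContinuousLinearMap.fst ℝ (Fin d → ℝ) (Fin d → ℝ))).smulRight (G i))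
      (ContinuousLinearMap.fst ℝ (Fin d → ℝ) (Fin d → ℝ) -
        ContinuousLinearMap.snd ℝ (Fin d → ℝ) (Fin d → ℝ))
  let K : X × (Fin d → ℝ) →L[ℝ] X × (Fin d → ℝ) :=
    (ContinuousLinearMap.inl ℝ X (Fin d → ℝ)).comp
      (T.comp (ContinuousLinearMap.fst ℝ X (Fin d → ℝ))) + B.comp A
  have hK : IsCompactOperator K :=
    ((hTc.comp_clm (ContinuousLinearMap.fst ℝ X (Fin d → ℝ))).clm_comp
      (ContinuousLinearMap.inl ℝ X (Fin d → ℝ))).add
      ((isCompactOperator_of_locallyCompactSpace_rng B).comp_clm A)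
  have hKz : ∀ z, z - K z = (z.1 - T z.1 - ∑ i, z.2 i • G i, fun j => l j z.1) := by
    intro z
    have h1 : K z = (T z.1 + ∑ i, z.2 i • G i, 0 + (z.2 - fun j => l j z.1)) := by
      have hA : A z = (z.2, fun j => l j z.1) := rfl
      have hB : B (A z) = (∑ i, z.2 i • G i, z.2 - fun j => l j z.1) := by
        rw [hA]
        refine Prod.ext ?_ rfl
        show (∑ i, ((ContinuousLinearMap.proj (R := ℝ) (φ := fun _ : Fin d => ℝ) i).comp
          (ContinuousLinearMap.fst ℝ (Fin d → ℝ) (Fin d → ℝ))).smulRight (G i)) (z.2, fun j => l j z.1) = _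
        rw [ContinuousLinearMap.sum_apply]
        rfl
      show (T z.1, (0 : Fin d → ℝ)) + B (A z) = _
      rw [hB]
      rfl
    rw [h1]
    refine Prod.ext ?_ ?_
    · show z.1 - (T z.1 + ∑ i, z.2 i • G i) = z.1 - T z.1 - ∑ i, z.2 i • G i
      abel
    · show z.2 - (0 + (z.2 - fun j => l j z.1)) = fun j => l j z.1
      rw [zero_add, sub_sub_cancel]
  have hinj : ∀ z, z - K z = 0 → z = 0 := by
    intro z hz
    rw [hKz z] at hz
    have e1 : z.1 - T z.1 - ∑ i, z.2 i • G i = 0 := congrArg Prod.fst hz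
    have e2 : ∀ j, l j z.1 = 0 := fun j => congrFun (congrArg Prod.snd hz) j
    have hφ := hS.stream z.1
    have hlap : ∀ x ∈ M, lap (S z.1) x = deriv F (ψ x) * S z.1 x + ∑ i, z.2 i * g i (ψ x) := by
      intro x hx
      have e3 : z.1 = T z.1 + ∑ i, z.2 i • G i := by
        rw [sub_sub, sub_eq_zero] at e1
        exact e1
      rw [hS.lap_eq z.1 x hx]
      conv_lhs => rw [e3]
      rw [map_add, map_sum, Pi.add_apply, hT z.1 x hx, Finset.sum_apply]
      congr 1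
      refine Finset.sum_congr rfl fun i _ => ?_
      rw [map_smul, Pi.smul_apply, smul_eq_mul, hG i x hx]
    have hμ : ∀ j, z.2 j = 0 := by
      intro j
      have h1 := lap_symm hM hb hζ hφ (hk j)
      have h2 : ∫ x in M, S z.1 x * lap (k j) x = ∫ x in M, deriv F (ψ x) * S z.1 x * k j x := by
        refine setIntegral_congr_fun hM.measurableSet fun x hx => ?_
        show S z.1 x * lap (k j) x = deriv F (ψ x) * S z.1 x * k j x
        rw [hklap j x hx]
        ring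
      have h3 : ∫ x in M, lap (S z.1) x * k j x =
          (∫ x in M, deriv F (ψ x) * S z.1 x * k j x) + ∑ i, z.2 i * ∫ x in M, g i (ψ x) * k j x := by
        have h4 : ∀ i, IntegrableOn (fun x => z.2 i * (g i (ψ x) * k j x)) M := fun i =>
          (b8b_int hM hb hψ (hk j) (hg i).continuous).const_mul _
        rw [Finset.sum_congr rfl fun i _ => (integral_const_mul (z.2 i) fun x => g i (ψ x) * k j x).symm,
          ← integral_finsetSum _ fun i _ => h4 i,
          ← integral_add (b8b_int2 hM hb hψ hφ (hk j) hF') (integrable_finsetSum _ fun i _ => h4 i)]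
        refine setIntegral_congr_fun hM.measurableSet fun x hx => ?_
        show lap (S z.1) x * k j x = deriv F (ψ x) * S z.1 x * k j x + ∑ i, z.2 i * (g i (ψ x) * k j x)
        rw [hlap x hx, add_mul, Finset.sum_mul]
        congr 1
        exact Finset.sum_congr rfl fun i _ => by ring
      rw [h2, h3] at h1
      have h5 : ∑ i, z.2 i * ∫ x in M, g i (ψ x) * k j x = z.2 j := by
        rw [Finset.sum_congr rfl fun i _ => by rw [hgk i j]]
        simp
      rw [h5] at h1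
      linarith
    have hz2 : z.2 = 0 := funext hμ
    have hφ0 : ∀ x ∈ M, S z.1 x = 0 := by
      refine hker (S z.1) hφ (fun x hx => ?_) fun j => ?_
      · rw [hlap x hx, hz2]
        simp
      · rw [← hl j z.1]
        exact e2 j
    have hz1 : z.1 = 0 := by
      refine m.ext z.1 fun x hx => ?_
      rw [← hS.lap_eq z.1 x hx, lap_congr hM (g := fun _ => 0) hφ0 hx]
      have h6 : dx (fun _ : ℂ => (0 : ℝ)) = fun _ => 0 := funext fun x => dx_const 0 x
      have h7 : dy (fun _ : ℂ => (0 : ℝ)) = fun _ => 0 := funext fun x => dy_const 0 x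
      unfold lap
      rw [h6, h7, dx_const, dy_const, add_zero]
    exact Prod.ext hz1 hz2
  obtain ⟨e, he⟩ := fredholm K hK hinj
  exact ⟨e, fun z => by rw [he z, hKz z]⟩

end Pool.Agent.YUD
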