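import Pool.Agent.YUD.B8a
import Pool.Agent.YUD.B8b

/-!
# [YUD] B9: the family of steady states

PROOF. `X, m` (`exists_model`), `S` (`exists_S`), `ζ` (Schauder for the constant `1`), `d, g, k` (`exists_kernel`), `T` (`exists_mul_S` with `p = deriv F ∘ ψ`, `C³` with bounded 3-jets by
`jetLe_comp 3`), `N_G` (`nemytskii`) for `G = F`, `G = g i`, `G = H`, `l j` (`exists_functional`), `e` (`exists_equiv` with `G i = N_{g i} 0`).
For `H : Sm` let `z_H = e.symm (N_H 0, 0)`, where `N_H 0 : X` is the element with `ev = H ∘ ψ` on `M` (unique by `m.ext`, so it depends linearly on `H`); `R H = S z_H.1`, `μ H = z_H.2`, both linear in `H`.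
`lap (R H) = ev z_H.1 = ev (T z_H.1 + Σ μ_i G_i + N_H 0) = F'(ψ) R H + Σ μ_i g_i(ψ) + H(ψ)` on `M`; so (2).
(3): `P (ε, (η, ν)) = (η - (N_F η - N_F 0) - ε • N_H η - Σ ν_i • N_{g i} η, (l_j η)_j)`, `P (0, (0,0)) = 0`. It is strictly differentiable at `(0,(0,0))`
(`nemytskii`, product rule `HasStrictFDerivAt.fun_smul`) with derivative `P' (ε, (η, ν)) = (η - T η - ε • N_H 0 - Σ ν_i • N_{g i} 0, (l_j η))`
(the products `ε • N_H η` and `ν_i • N_{g i} η` have zero first factor at the base point, so only their first factors are differentiated). `P' (0, z) = e z`, `P' (1, 0) = (- N_H 0, 0)`. `ift` gives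
`γ ε = (η_ε, ν_ε)`, `γ 0 = 0`, `γ' (0) = e.symm (N_H 0, 0) = z_H`, `P (ε, γ ε) = 0` for small `ε`. `Ψ ε = ψ + S η_ε ∈ Stream`; first component of `P = 0` evaluated on `M`:
`ev η_ε = F(Ψ ε) - F(ψ) + ε H(Ψ ε) + Σ ν_i g_i(Ψ ε)`, so `lap (Ψ ε) = lap ψ + ev η_ε = Fε(Ψ ε)` with `Fε = F + ε H + Σ ν_i g_i` smooth; hence `pb (Ψ ε) (lap (Ψ ε)) = 0` (`pb_comp_self`, `pb_congr`).
`lap (Ψ ε) - F(ψ) = ev η_ε` on `M`: `NormLe M α (3‖η_ε‖)`, and `‖η_ε‖ → 0` as `γ` is continuous at `0`. `Ψ ε - ψ - ε R H = S (η_ε - ε z_H.1)`: `|·| ≤ 3 CS ‖η_ε - ε z_H.1‖ ≤ η ε` for small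
`ε > 0` by differentiability of `γ` at `0`. `‖D Ψ ε - D ψ‖ = ‖D (S η_ε)‖ ≤ 2 · 3 CS ‖η_ε‖ → 0`.
-/

open MeasureTheory Set Filter Topology
open scoped ContDiff

namespace Pool.Agent.YUD

variable {M : Set ℂ} {α : ℝ}

theorem family (hM : IsOpen M) (hb : Bornology.IsBounded M) (hq : QuasiConvex M) (hα0 : 0 < α)
    (hα1 : α < 1) {CS : ℝ} (hS : Schauder M α CS) {F : ℝ → ℝ} (hF : ContDiff ℝ ∞ F) {ψ : ℂ → ℝ}
    (hψ : Stream M ψ) (hlap : ∀ x ∈ M, lap ψ x = F (ψ x)) (hN : Nondeg M F ψ) :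
    ∃ (d : ℕ) (R : Sm →ₗ[ℝ] (ℂ → ℝ)) (μ : Sm →ₗ[ℝ] (Fin d → ℝ)),
      (∀ H, Stream M (R H)) ∧
      (∀ H : Sm, μ H = 0 → ∀ x ∈ M,
        lap (R H) x = deriv F (ψ x) * R H x + (H : ℝ → ℝ) (ψ x)) ∧
      ∀ H : Sm, ∃ Ψ : ℝ → ℂ → ℝ,
        (∀ᶠ ε in 𝓝[>] 0, Stream M (Ψ ε) ∧ ∀ x ∈ M, pb (Ψ ε) (lap (Ψ ε)) x = 0) ∧
        (∀ η > 0, ∀ᶠ ε in 𝓝[>] 0, NormLe M α η (fun x => lap (Ψ ε) x - F (ψ x))) ∧
        (∀ η > 0, ∀ᶠ ε in 𝓝[>] 0, ∀ x ∈ M, |Ψ ε x - ψ x - ε * R H x| ≤ η * ε) ∧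
        (∀ η > 0, ∀ᶠ ε in 𝓝[>] 0, ∀ x ∈ M, ‖fderiv ℝ (Ψ ε) x - fderiv ℝ ψ x‖ ≤ η) := by
  have hCS : 0 ≤ CS := hS.1
  obtain ⟨X, _, _, _, ⟨m⟩⟩ := exists_model hM hα0
  obtain ⟨S, hSS⟩ := exists_S hM hb hS m
  obtain ⟨ζ, hζ⟩ : ∃ ζ, Torsion M ζ := by
    obtain ⟨ζ, h1, h2, -⟩ := hS.2 |1| (fun _ => 1) (normLe_const 1)
    exact ⟨ζ, h1, h2⟩
  obtain ⟨d, g, k, hg, hk, hklap, hgk, hker⟩ := exists_kernel hM hb hq hα0 hα1 hS hF hψ hN
  -- multiplication operators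
  have hmul : ∀ H : Sm, ∃ T : X →L[ℝ] X, IsCompactOperator T ∧
      ∀ f, ∀ x ∈ M, m.ev (T f) x = deriv (H : ℝ → ℝ) (ψ x) * S f x := by
    intro H
    have hH' : ContDiff ℝ ∞ (deriv (H : ℝ → ℝ)) := (contDiff_infty_iff_deriv.1 H.2).2
    obtain ⟨A, hA⟩ := hψ.bdd
    obtain ⟨B, hB0, hB⟩ := jetLe_comp 3 hH' A
    exact exists_mul_S hM hb hq hα0 hα1 hCS m hSS
      (p := fun x => deriv (H : ℝ → ℝ) (ψ x))
      ((contDiff_infty.1 hH' 3).comp_contDiffOn hψ.contDiffOn) (hB M ψ hM hψ.contDiffOn hA)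
  choose TT hTTc hTT using hmul
  choose NN hNN1 hNN2 using fun H : Sm => nemytskii hM hb hq hα0 hα1 hCS m hSS hψ (Sm.contDiff H)
  choose l hl using fun j : Fin d => exists_functional hM hb hCS m hSS (hk j)
  obtain ⟨F', hF'⟩ : ∃ F' : Sm, (F' : ℝ → ℝ) = F := ⟨⟨F, hF⟩, rfl⟩
  obtain ⟨g', hg'⟩ : ∃ g' : Fin d → Sm, ∀ i, (g' i : ℝ → ℝ) = g i := ⟨fun i => ⟨g i, hg i⟩, fun _ => rfl⟩
  have hNN0 : ∀ H : Sm, ∀ x ∈ M, m.ev (NN H 0) x = (H : ℝ → ℝ) (ψ x) := by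
    intro H x hx
    rw [hNN1 H 0 x hx, map_zero]; simp
  obtain ⟨e, he⟩ := exists_equiv hM hb hζ m hSS hF hψ hg hk hklap hgk hker (T := TT F')
    (hTTc F') (fun f x hx => by rw [hTT F' f x hx, hF']) (G := fun i => NN (g' i) 0)
    (fun i x hx => by rw [hNN0 (g' i) x hx, hg']) (l := l) hl
  -- the linear data
  let ell : Sm →ₗ[ℝ] X :=
    { toFun := fun H => NN H 0
      map_add' := by
        intro H1 H2
        have := m.ext (NN (H1 + H2) 0 - (NN H1 0 + NN H2 0)) (fun x hx => by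
          rw [map_sub, map_add, Pi.sub_apply, Pi.add_apply, hNN0 _ x hx, hNN0 _ x hx,
            hNN0 _ x hx]
          simp)
        exact sub_eq_zero.1 this
      map_smul' := by
        intro c H
        have := m.ext (NN (c • H) 0 - c • NN H 0) (fun x hx => by
          rw [map_sub, map_smul, Pi.sub_apply, Pi.smul_apply, hNN0 _ x hx, hNN0 _ x hx]
          simp)
        exact sub_eq_zero.1 this }
  let zz : Sm →ₗ[ℝ] X × (Fin d → ℝ) :=
    (e.symm.toLinearEquiv.toLinearMap).comp ((LinearMap.inl ℝ X (Fin d → ℝ)).comp ell)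
  have hzz : ∀ H, zz H = e.symm (NN H 0, 0) := fun H => rfl
  refine ⟨d, S.comp ((LinearMap.fst ℝ X (Fin d → ℝ)).comp zz),
    (LinearMap.snd ℝ X (Fin d → ℝ)).comp zz, ?_, ?_, ?_⟩
  · intro H; exact hSS.stream _
  · intro H hμ x hx
    have hμ' : (zz H).2 = 0 := hμ
    have h1 : e (zz H) = (NN H 0, 0) := by rw [hzz, e.apply_symm_apply]
    rw [he, hμ'] at h1
    have h2 : (zz H).1 - TT F' (zz H).1 = NN H 0 := by
      have := congrArg Prod.fst h1
      simpa using this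
    have h3 : (zz H).1 = TT F' (zz H).1 + NN H 0 := by rw [← h2]; abel
    show lap (S (zz H).1) x = deriv F (ψ x) * S (zz H).1 x + (H : ℝ → ℝ) (ψ x)
    rw [hSS.lap_eq _ x hx]
    conv_lhs => rw [h3]
    rw [map_add, Pi.add_apply, hTT F' _ x hx, hNN0 H x hx, hF']
  · intro H
    -- the nonlinear map
    obtain ⟨P, hP⟩ : ∃ P : ℝ × (X × (Fin d → ℝ)) → X × (Fin d → ℝ), P = fun q =>
        (q.2.1 - (NN F' q.2.1 - NN F' 0) - q.1 • NN H q.2.1 - ∑ i, q.2.2 i • NN (g' i) q.2.1,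
          fun j => l j q.2.1) := ⟨_, rfl⟩
    have hη : HasStrictFDerivAt (fun q : ℝ × (X × (Fin d → ℝ)) => q.2.1)
        ((ContinuousLinearMap.fst ℝ X (Fin d → ℝ)).comp
          (ContinuousLinearMap.snd ℝ ℝ (X × (Fin d → ℝ)))) (0, 0) :=
      ((ContinuousLinearMap.fst ℝ X (Fin d → ℝ)).comp
          (ContinuousLinearMap.snd ℝ ℝ (X × (Fin d → ℝ)))).hasStrictFDerivAt
    have hNNη : ∀ G : Sm, HasStrictFDerivAt (fun q : ℝ × (X × (Fin d → ℝ)) => NN G q.2.1)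
        ((TT G).comp ((ContinuousLinearMap.fst ℝ X (Fin d → ℝ)).comp
          (ContinuousLinearMap.snd ℝ ℝ (X × (Fin d → ℝ))))) (0, 0) := by
      intro G
      have h1 : HasStrictFDerivAt (NN G) (TT G) ((0 : ℝ × (X × (Fin d → ℝ))).2.1) :=
        hNN2 G (TT G) (hTT G)
      exact h1.comp ((0 : ℝ), (0 : X × (Fin d → ℝ))) hη
    have hc1 : HasStrictFDerivAt (fun q : ℝ × (X × (Fin d → ℝ)) => q.1)
        (ContinuousLinearMap.fst ℝ ℝ (X × (Fin d → ℝ))) (0, 0) :=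
      (ContinuousLinearMap.fst ℝ ℝ (X × (Fin d → ℝ))).hasStrictFDerivAt
    have hc2 : ∀ i, HasStrictFDerivAt (fun q : ℝ × (X × (Fin d → ℝ)) => q.2.2 i)
        (((ContinuousLinearMap.proj i : (Fin d → ℝ) →L[ℝ] ℝ).comp
          (ContinuousLinearMap.snd ℝ X (Fin d → ℝ))).comp
          (ContinuousLinearMap.snd ℝ ℝ (X × (Fin d → ℝ)))) (0, 0) := fun i =>
      (((ContinuousLinearMap.proj i : (Fin d → ℝ) →L[ℝ] ℝ).comp
          (ContinuousLinearMap.snd ℝ X (Fin d → ℝ))).comp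
          (ContinuousLinearMap.snd ℝ ℝ (X × (Fin d → ℝ)))).hasStrictFDerivAt
    have hlη : ∀ j, HasStrictFDerivAt (fun q : ℝ × (X × (Fin d → ℝ)) => l j q.2.1)
        ((l j).comp ((ContinuousLinearMap.fst ℝ X (Fin d → ℝ)).comp
          (ContinuousLinearMap.snd ℝ ℝ (X × (Fin d → ℝ))))) (0, 0) := fun j =>
      ((l j).comp ((ContinuousLinearMap.fst ℝ X (Fin d → ℝ)).comp
          (ContinuousLinearMap.snd ℝ ℝ (X × (Fin d → ℝ))))).hasStrictFDerivAt
    have hd1 := (((hη.sub ((hNNη F').sub_const (NN F' 0))).sub (hc1.smul (hNNη H))).sub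
      (HasStrictFDerivAt.fun_sum (u := Finset.univ) fun i _ => (hc2 i).smul (hNNη (g' i)))).prodMk
      (hasStrictFDerivAt_pi.2 hlη)
    obtain ⟨P', hP', hP'z, hP'1⟩ : ∃ P' : ℝ × (X × (Fin d → ℝ)) →L[ℝ] X × (Fin d → ℝ),
        HasStrictFDerivAt P P' (0, 0) ∧ (∀ z, P' (0, z) = e z) ∧ P' (1, 0) = - (NN H 0, 0) := by
      have hd3 := hd1.congr_of_eventuallyEq (f₁ := P) (Eventually.of_forall fun q => by
        rw [hP]; rfl)
      refine ⟨_, hd3, fun z => ?_, ?_⟩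
      · rw [he]
        ext
        · simp
        · simp
      · ext
        · simp
        · simp
    have hP0 : P (0, 0) = 0 := by
      rw [hP]; ext <;> simp
    obtain ⟨γ, hγ0, hγd, hγP⟩ := ift hP' hP0 e hP'z
    rw [hP'1, map_neg, neg_neg, ← hzz] at hγd
    have hγc : Tendsto γ (𝓝 0) (𝓝 0) := by
      have := hγd.continuousAt.tendsto; rwa [hγ0] at this
    have hlo : ∀ c > 0, ∀ᶠ ε : ℝ in 𝓝 0, ‖γ ε - ε • zz H‖ ≤ c * |ε| := by
      intro c hc
      have h1 := hasDerivAt_iff_isLittleO.1 hγd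
      have h2 := h1.bound hc
      filter_upwards [h2] with ε hε
      simpa [hγ0] using hε
    -- the family
    refine ⟨fun ε x => ψ x + S (γ ε).1 x, ?_, ?_, ?_, ?_⟩
    · filter_upwards [nhdsWithin_le_nhds hγP] with ε hε
      have hst : Stream M (fun x => ψ x + S (γ ε).1 x) := hψ.add hM (hSS.stream _)
      refine ⟨hst, fun x hx => ?_⟩
      rw [hP] at hε
      have h1 := congrArg Prod.fst hε
      simp only [Prod.fst_zero] at h1
      -- the profile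
      have h2 : ∀ z ∈ M, lap (fun x => ψ x + S (γ ε).1 x) z =
          (fun s => F s + ε * (H : ℝ → ℝ) s + ∑ i, (γ ε).2 i * g i s) (ψ z + S (γ ε).1 z) := by
        intro z hz
        rw [lap_add hM hψ.two (hSS.stream _).two hz, hSS.lap_eq _ z hz, hlap z hz]
        have h3 := congrFun (congrArg m.ev h1) z
        rw [map_sub, map_sub, map_sub, map_sub, map_smul, map_sum, map_zero, Pi.sub_apply,
          Pi.sub_apply, Pi.sub_apply, Pi.sub_apply, Pi.smul_apply, Finset.sum_apply,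
          Pi.zero_apply, hNN1 F' _ z hz, hNN0 F' z hz, hNN1 H _ z hz, hF'] at h3
        have h4 : ∑ i, m.ev ((γ ε).2 i • NN (g' i) (γ ε).1) z =
            ∑ i, (γ ε).2 i * g i (ψ z + S (γ ε).1 z) := by
          refine Finset.sum_congr rfl fun i _ => ?_
          rw [map_smul, Pi.smul_apply, hNN1 (g' i) _ z hz, hg' i, smul_eq_mul]
        rw [h4, smul_eq_mul] at h3
        show F (ψ z) + m.ev (γ ε).1 z = F (ψ z + S (γ ε).1 z) +
          ε * (H : ℝ → ℝ) (ψ z + S (γ ε).1 z) + ∑ i, (γ ε).2 i * g i (ψ z + S (γ ε).1 z)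
        linarith
      rw [pb_congr hM (fun _ _ => rfl) h2 hx]
      refine pb_comp_self (G := fun s => F s + ε * (H : ℝ → ℝ) s + ∑ i, (γ ε).2 i * g i s) ?_
        (hst.differentiableAt hM hx)
      have hFd := hF.differentiable (by simp)
      have hHd := H.2
      have hHd' : Differentiable ℝ (H : ℝ → ℝ) := (Sm.contDiff H).differentiable (by simp)
      have hgd : ∀ i, Differentiable ℝ (g i) := fun i => (hg i).differentiable (by simp)
      have : Differentiable ℝ (fun s => F s + ε * (H : ℝ → ℝ) s + ∑ i, (γ ε).2 i * g i s) := by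
        refine (hFd.add (hHd'.const_mul ε)).add ?_
        exact Differentiable.fun_sum fun i _ => (hgd i).const_mul _
      exact this _
    · intro η' hη'
      have h1 : ∀ᶠ ε : ℝ in 𝓝[>] 0, ‖γ ε‖ < η' / 3 := by
        have h2 : Tendsto (fun ε => ‖γ ε‖) (𝓝[>] 0) (𝓝 0) := by
          have := (hγc.mono_left (nhdsWithin_le_nhds (s := Ioi (0:ℝ)))).norm
          simpa using this
        exact h2.eventually (gt_mem_nhds (by positivity))
      filter_upwards [h1] with ε hε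
      have h2 := m.normLe (γ ε).1
      have h3 : ‖(γ ε).1‖ ≤ ‖γ ε‖ := norm_fst_le _
      refine (h2.mono (C' := η') (by linarith)).congr hM fun x hx => ?_
      rw [lap_add hM hψ.two (hSS.stream _).two hx, hSS.lap_eq _ x hx, hlap x hx]
      ring
    · intro η' hη'
      have hc : 0 < η' / (3 * CS + 1) := by positivity
      filter_upwards [nhdsWithin_le_nhds (hlo _ hc), self_mem_nhdsWithin] with ε hε hε0 x hx
      have hε0' : 0 < ε := hε0
      have h1 : ψ x + S (γ ε).1 x - ψ x - ε * S (zz H).1 x = S ((γ ε).1 - ε • (zz H).1) x := by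
        rw [map_sub, map_smul, Pi.sub_apply, Pi.smul_apply, smul_eq_mul]; ring
      show |ψ x + S (γ ε).1 x - ψ x - ε * S (zz H).1 x| ≤ η' * ε
      rw [h1]
      refine ((hSS.jet _).zero_le x hx).trans ?_
      have h2 : ‖(γ ε).1 - ε • (zz H).1‖ ≤ ‖γ ε - ε • zz H‖ := norm_fst_le (γ ε - ε • zz H)
      rw [abs_of_pos hε0'] at hε
      calc 3 * CS * ‖(γ ε).1 - ε • (zz H).1‖ ≤ 3 * CS * (η' / (3 * CS + 1) * ε) := by
            gcongr; exact h2.trans hε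
        _ ≤ η' * ε := by
            have h4 : 3 * CS * (η' / (3 * CS + 1)) ≤ η' := by
              rw [mul_div_assoc', div_le_iff₀ (by positivity)]
              nlinarith
            nlinarith
    · intro η' hη'
      have h1 : ∀ᶠ ε : ℝ in 𝓝[>] 0, 2 * (3 * CS * ‖γ ε‖) < η' := by
        have h2 : Tendsto (fun ε => 2 * (3 * CS * ‖γ ε‖)) (𝓝[>] 0) (𝓝 0) := by
          have := (((hγc.mono_left (nhdsWithin_le_nhds (s := Ioi (0:ℝ)))).norm).const_mul
            (3 * CS)).const_mul 2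
          simpa using this
        exact h2.eventually (gt_mem_nhds (by positivity))
      filter_upwards [h1] with ε hε x hx
      have hd1 := hψ.differentiableAt hM hx
      have hd2 := (hSS.stream (γ ε).1).differentiableAt hM hx
      rw [fderiv_fun_add hd1 hd2, add_sub_cancel_left]
      have h3 := norm_fderiv_le (S (γ ε).1) x
      have h4 := (hSS.jet (γ ε).1).2.1.zero_le x hx
      have h5 := (hSS.jet (γ ε).1).2.2.zero_le x hx
      have h6 : ‖(γ ε).1‖ ≤ ‖γ ε‖ := norm_fst_le _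
      have h7 : 3 * CS * ‖(γ ε).1‖ ≤ 3 * CS * ‖γ ε‖ := by gcongr
      linarith

end Pool.Agent.YUD
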