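import Pool.Agent.YUD.Defs

/-!
# [YUD] Base: partial derivatives, jets, stream functions
-/

open MeasureTheory Set Filter Topology
open scoped ContDiff

namespace Pool.Agent.YUD

/-! ### auxiliary notions -/

/-- the negation of norm inflation, at fixed `δ`, `C` -/
def UB (M : Set ℂ) (α : ℝ) (ws : ℂ → ℝ) (δ C : ℝ) : Prop :=
  ∀ w₀ : ℂ → ℝ, NormLe M α δ (fun x => w₀ x - ws x) →
    ∃ w ψ : ℝ → ℂ → ℝ, Sol M w ψ ∧ (∀ x ∈ M, w 0 x = w₀ x) ∧ ∀ t, 0 ≤ t → NormLe M α C (w t)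

/-- solvability of the Dirichlet problem in `C^{1,α}(M)`, with a Schauder estimate -/
def Schauder (M : Set ℂ) (α CS : ℝ) : Prop :=
  0 ≤ CS ∧ ∀ (C : ℝ) (f : ℂ → ℝ), NormLe M α C f →
    ∃ ψ : ℂ → ℝ, Stream M ψ ∧ (∀ x ∈ M, lap ψ x = f x) ∧ JetLe M 3 (CS * C) ψ

/-- the torsion function -/
def Torsion (M : Set ℂ) (ζ : ℂ → ℝ) : Prop := Stream M ζ ∧ ∀ x ∈ M, lap ζ x = 1

variable {M : Set ℂ} {f g : ℂ → ℝ} {x y : ℂ}

/-! ### partial derivatives -/

theorem fderiv_apply' (f : ℂ → ℝ) (x v : ℂ) :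
    fderiv ℝ f x v = v.re * dx f x + v.im * dy f x := by
  have h : v = v.re • (1 : ℂ) + v.im • Complex.I := by
    simp
  conv_lhs => rw [h]
  rw [map_add, map_smul, map_smul]
  simp [dx, dy]

theorem abs_dx_le (f : ℂ → ℝ) (x : ℂ) : |dx f x| ≤ ‖fderiv ℝ f x‖ := by
  have := (fderiv ℝ f x).le_opNorm 1
  simpa [dx] using this

theorem abs_dy_le (f : ℂ → ℝ) (x : ℂ) : |dy f x| ≤ ‖fderiv ℝ f x‖ := by
  have := (fderiv ℝ f x).le_opNorm Complex.I
  simpa [dy] using this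

theorem clm_norm_le (A : ℂ →L[ℝ] ℝ) : ‖A‖ ≤ |A 1| + |A Complex.I| := by
  refine A.opNorm_le_bound (by positivity) fun v => ?_
  have h : v = v.re • (1 : ℂ) + v.im • Complex.I := by simp
  have h1 : A v = v.re * A 1 + v.im * A Complex.I := by
    conv_lhs => rw [h]
    rw [map_add, map_smul, map_smul]; simp
  rw [h1, Real.norm_eq_abs]
  have h2 := Complex.abs_re_le_norm v
  have h3 := Complex.abs_im_le_norm v
  calc |v.re * A 1 + v.im * A Complex.I| ≤ |v.re| * |A 1| + |v.im| * |A Complex.I| := by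
        refine (abs_add_le _ _).trans ?_
        rw [abs_mul, abs_mul]
    _ ≤ ‖v‖ * |A 1| + ‖v‖ * |A Complex.I| := by gcongr
    _ = (|A 1| + |A Complex.I|) * ‖v‖ := by ring

theorem norm_fderiv_le (f : ℂ → ℝ) (x : ℂ) : ‖fderiv ℝ f x‖ ≤ |dx f x| + |dy f x| :=
  clm_norm_le _

theorem norm_fderiv_sub_le (f g : ℂ → ℝ) (x y : ℂ) :
    ‖fderiv ℝ f x - fderiv ℝ g y‖ ≤ |dx f x - dx g y| + |dy f x - dy g y| := by
  simpa [dx, dy] using clm_norm_le (fderiv ℝ f x - fderiv ℝ g y)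

theorem abs_dx_sub_le (f g : ℂ → ℝ) (x y : ℂ) :
    |dx f x - dx g y| ≤ ‖fderiv ℝ f x - fderiv ℝ g y‖ := by
  have := (fderiv ℝ f x - fderiv ℝ g y).le_opNorm 1
  simpa [dx] using this

theorem abs_dy_sub_le (f g : ℂ → ℝ) (x y : ℂ) :
    |dy f x - dy g y| ≤ ‖fderiv ℝ f x - fderiv ℝ g y‖ := by
  have := (fderiv ℝ f x - fderiv ℝ g y).le_opNorm Complex.I
  simpa [dy] using this

theorem gsq_nonneg (f : ℂ → ℝ) (x : ℂ) : 0 ≤ gsq f x := by unfold gsq; positivity

theorem norm_fderiv_sq_le (f : ℂ → ℝ) (x : ℂ) : ‖fderiv ℝ f x‖ ^ 2 ≤ 2 * gsq f x := by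
  have h := norm_fderiv_le f x
  have h0 := norm_nonneg (fderiv ℝ f x)
  have h1 : ‖fderiv ℝ f x‖ ^ 2 ≤ (|dx f x| + |dy f x|) ^ 2 := by gcongr
  have h2 : (|dx f x| + |dy f x|) ^ 2 ≤ 2 * (|dx f x| ^ 2 + |dy f x| ^ 2) := by
    nlinarith [sq_nonneg (|dx f x| - |dy f x|)]
  simpa [gsq, sq_abs] using h1.trans h2

theorem dx_congr_nhds (h : f =ᶠ[𝓝 x] g) : dx f x = dx g x := by
  unfold dx; rw [h.fderiv_eq]

theorem dy_congr_nhds (h : f =ᶠ[𝓝 x] g) : dy f x = dy g x := by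
  unfold dy; rw [h.fderiv_eq]

theorem eventuallyEq_of_eqOn (hM : IsOpen M) (h : ∀ x ∈ M, f x = g x) (hx : x ∈ M) :
    f =ᶠ[𝓝 x] g := by
  filter_upwards [hM.mem_nhds hx] with y hy using h y hy

theorem fderiv_congr_on (hM : IsOpen M) (h : ∀ x ∈ M, f x = g x) (hx : x ∈ M) :
    fderiv ℝ f x = fderiv ℝ g x := (eventuallyEq_of_eqOn hM h hx).fderiv_eq

theorem dx_congr (hM : IsOpen M) (h : ∀ x ∈ M, f x = g x) (hx : x ∈ M) : dx f x = dx g x :=
  dx_congr_nhds (eventuallyEq_of_eqOn hM h hx)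

theorem dy_congr (hM : IsOpen M) (h : ∀ x ∈ M, f x = g x) (hx : x ∈ M) : dy f x = dy g x :=
  dy_congr_nhds (eventuallyEq_of_eqOn hM h hx)

theorem lap_congr (hM : IsOpen M) (h : ∀ x ∈ M, f x = g x) (hx : x ∈ M) : lap f x = lap g x := by
  unfold lap
  rw [dx_congr hM (fun y hy => dx_congr hM h hy) hx, dy_congr hM (fun y hy => dy_congr hM h hy) hx]

theorem contDiffOn_dx {n : ℕ} (hM : IsOpen M) (hf : ContDiffOn ℝ (n + 1 : ℕ) f M) :
    ContDiffOn ℝ n (dx f) M := by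
  have h : ContDiffOn ℝ n (fderiv ℝ f) M := hf.fderiv_of_isOpen hM (by norm_cast)
  exact h.clm_apply contDiffOn_const

theorem contDiffOn_dy {n : ℕ} (hM : IsOpen M) (hf : ContDiffOn ℝ (n + 1 : ℕ) f M) :
    ContDiffOn ℝ n (dy f) M := by
  have h : ContDiffOn ℝ n (fderiv ℝ f) M := hf.fderiv_of_isOpen hM (by norm_cast)
  exact h.clm_apply contDiffOn_const

theorem contDiff_dx {n : ℕ} (hf : ContDiff ℝ (n + 1 : ℕ) f) : ContDiff ℝ n (dx f) := by
  rw [← contDiffOn_univ] at hf ⊢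
  exact contDiffOn_dx isOpen_univ hf

theorem contDiff_dy {n : ℕ} (hf : ContDiff ℝ (n + 1 : ℕ) f) : ContDiff ℝ n (dy f) := by
  rw [← contDiffOn_univ] at hf ⊢
  exact contDiffOn_dy isOpen_univ hf

/-- differentiability at points of `M` -/
theorem dat {n : ℕ} (hM : IsOpen M) (hf : ContDiffOn ℝ (n + 1 : ℕ) f M) (hx : x ∈ M) :
    DifferentiableAt ℝ f x :=
  (hf.contDiffAt (hM.mem_nhds hx)).differentiableAt (by norm_cast)

theorem dx_add (hf : DifferentiableAt ℝ f x) (hg : DifferentiableAt ℝ g x) :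
    dx (fun x => f x + g x) x = dx f x + dx g x := by
  unfold dx; rw [fderiv_fun_add hf hg]; rfl

theorem dy_add (hf : DifferentiableAt ℝ f x) (hg : DifferentiableAt ℝ g x) :
    dy (fun x => f x + g x) x = dy f x + dy g x := by
  unfold dy; rw [fderiv_fun_add hf hg]; rfl

theorem dx_sub (hf : DifferentiableAt ℝ f x) (hg : DifferentiableAt ℝ g x) :
    dx (fun x => f x - g x) x = dx f x - dx g x := by
  unfold dx; rw [fderiv_fun_sub hf hg]; rfl

theorem dy_sub (hf : DifferentiableAt ℝ f x) (hg : DifferentiableAt ℝ g x) :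
    dy (fun x => f x - g x) x = dy f x - dy g x := by
  unfold dy; rw [fderiv_fun_sub hf hg]; rfl

theorem dx_mul (hf : DifferentiableAt ℝ f x) (hg : DifferentiableAt ℝ g x) :
    dx (fun x => f x * g x) x = dx f x * g x + f x * dx g x := by
  unfold dx; rw [fderiv_fun_mul hf hg]; simp; ring

theorem dy_mul (hf : DifferentiableAt ℝ f x) (hg : DifferentiableAt ℝ g x) :
    dy (fun x => f x * g x) x = dy f x * g x + f x * dy g x := by
  unfold dy; rw [fderiv_fun_mul hf hg]; simp; ring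

theorem dx_const (c : ℝ) (x : ℂ) : dx (fun _ => c) x = 0 := by simp [dx]

theorem dy_const (c : ℝ) (x : ℂ) : dy (fun _ => c) x = 0 := by simp [dy]

theorem dx_const_mul (c : ℝ) (hf : DifferentiableAt ℝ f x) :
    dx (fun x => c * f x) x = c * dx f x := by
  rw [dx_mul (by fun_prop) hf, dx_const]; ring

theorem dy_const_mul (c : ℝ) (hf : DifferentiableAt ℝ f x) :
    dy (fun x => c * f x) x = c * dy f x := by
  rw [dy_mul (by fun_prop) hf, dy_const]; ring

theorem dx_neg (f : ℂ → ℝ) (x : ℂ) : dx (fun x => - f x) x = - dx f x := by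
  unfold dx; rw [fderiv_fun_neg]; rfl

theorem dy_neg (f : ℂ → ℝ) (x : ℂ) : dy (fun x => - f x) x = - dy f x := by
  unfold dy; rw [fderiv_fun_neg]; rfl

theorem dx_comp {G : ℝ → ℝ} (hG : DifferentiableAt ℝ G (f x)) (hf : DifferentiableAt ℝ f x) :
    dx (fun x => G (f x)) x = deriv G (f x) * dx f x := by
  unfold dx
  have h := hG.hasDerivAt.comp_hasFDerivAt x hf.hasFDerivAt
  rw [show (fun x => G (f x)) = G ∘ f from rfl, h.fderiv]; simp

theorem dy_comp {G : ℝ → ℝ} (hG : DifferentiableAt ℝ G (f x)) (hf : DifferentiableAt ℝ f x) :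
    dy (fun x => G (f x)) x = deriv G (f x) * dy f x := by
  unfold dy
  have h := hG.hasDerivAt.comp_hasFDerivAt x hf.hasFDerivAt
  rw [show (fun x => G (f x)) = G ∘ f from rfl, h.fderiv]; simp

/-- equality of the mixed second derivatives -/
theorem dx_dy_comm (hM : IsOpen M) (hf : ContDiffOn ℝ 2 f M) (hx : x ∈ M) :
    dx (dy f) x = dy (dx f) x := by
  have h2 : ContDiffAt ℝ 2 f x := hf.contDiffAt (hM.mem_nhds hx)
  have hd : DifferentiableAt ℝ (fderiv ℝ f) x :=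
    ((h2.fderiv_right (m := 1) (by norm_num)).differentiableAt one_ne_zero)
  have hs : IsSymmSndFDerivAt ℝ f x := h2.isSymmSndFDerivAt (by simp)
  have e1 : dx (dy f) x = fderiv ℝ (fderiv ℝ f) x 1 Complex.I := by
    unfold dx dy
    rw [fderiv_clm_apply hd (by fun_prop)]
    simp
  have e2 : dy (dx f) x = fderiv ℝ (fderiv ℝ f) x Complex.I 1 := by
    unfold dx dy
    rw [fderiv_clm_apply hd (by fun_prop)]
    simp
  rw [e1, e2]
  exact hs 1 Complex.I

/-! ### jets -/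

theorem JetLe.zero_le {n : ℕ} {C : ℝ} (h : JetLe M n C f) : ∀ x ∈ M, |f x| ≤ C := by
  cases n with
  | zero => exact h
  | succ n => exact h.1

theorem JetLe.mono {n : ℕ} : ∀ {C C' : ℝ} {f : ℂ → ℝ}, JetLe M n C f → C ≤ C' → JetLe M n C' f := by
  induction n with
  | zero => intro C C' f h hC x hx; exact (h x hx).trans hC
  | succ n ih =>
    intro C C' f h hC
    exact ⟨fun x hx => (h.1 x hx).trans hC, ih h.2.1 hC, ih h.2.2 hC⟩

theorem JetLe.of_succ {n : ℕ} : ∀ {C : ℝ} {f : ℂ → ℝ}, JetLe M (n + 1) C f → JetLe M n C f := by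
  induction n with
  | zero => intro C f h; exact h.1
  | succ n ih => intro C f h; exact ⟨h.1, ih h.2.1, ih h.2.2⟩

theorem JetLe.of_le {m n : ℕ} {C : ℝ} (hmn : m ≤ n) (h : JetLe M n C f) : JetLe M m C f := by
  induction hmn with
  | refl => exact h
  | step _ ih => exact ih h.of_succ

theorem JetLe.congr (hM : IsOpen M) {n : ℕ} : ∀ {C : ℝ} {f g : ℂ → ℝ}, JetLe M n C f →
    (∀ x ∈ M, f x = g x) → JetLe M n C g := by
  induction n with
  | zero => intro C f g h hfg x hx; rw [← hfg x hx]; exact h x hx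
  | succ n ih =>
    intro C f g h hfg
    exact ⟨fun x hx => by rw [← hfg x hx]; exact h.1 x hx,
      ih h.2.1 fun x hx => dx_congr hM hfg hx, ih h.2.2 fun x hx => dy_congr hM hfg hx⟩

theorem JetLe.add (hM : IsOpen M) {n : ℕ} : ∀ {A B : ℝ} {f g : ℂ → ℝ}, ContDiffOn ℝ n f M →
    ContDiffOn ℝ n g M → JetLe M n A f → JetLe M n B g → JetLe M n (A + B) (fun x => f x + g x) := by
  induction n with
  | zero =>
    intro A B f g _ _ h1 h2 x hx
    exact (abs_add_le _ _).trans (add_le_add (h1 x hx) (h2 x hx))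
  | succ n ih =>
    intro A B f g hf hg h1 h2
    refine ⟨fun x hx => (abs_add_le _ _).trans (add_le_add (h1.1 x hx) (h2.1 x hx)), ?_, ?_⟩
    · exact (ih (contDiffOn_dx hM hf) (contDiffOn_dx hM hg) h1.2.1 h2.2.1).congr hM
        fun x hx => (dx_add (dat hM hf hx) (dat hM hg hx)).symm
    · exact (ih (contDiffOn_dy hM hf) (contDiffOn_dy hM hg) h1.2.2 h2.2.2).congr hM
        fun x hx => (dy_add (dat hM hf hx) (dat hM hg hx)).symm

theorem JetLe.mul (hM : IsOpen M) {n : ℕ} : ∀ {A B : ℝ} {f g : ℂ → ℝ}, ContDiffOn ℝ n f M →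
    ContDiffOn ℝ n g M → JetLe M n A f → JetLe M n B g →
    JetLe M n (2 ^ n * A * B) (fun x => f x * g x) := by
  induction n with
  | zero =>
    intro A B f g _ _ h1 h2 x hx
    have := h1 x hx
    have := h2 x hx
    rw [abs_mul]
    simp only [pow_zero, one_mul]
    exact mul_le_mul (h1 x hx) (h2 x hx) (abs_nonneg _) ((abs_nonneg _).trans (h1 x hx))
  | succ n ih =>
    intro A B f g hf hg h1 h2
    have key : ∀ x ∈ M, 0 ≤ A ∧ 0 ≤ B ∧ |f x * g x| ≤ A * B := by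
      intro x hx
      have hA := (abs_nonneg _).trans (h1.1 x hx)
      have hB := (abs_nonneg _).trans (h2.1 x hx)
      refine ⟨hA, hB, ?_⟩
      rw [abs_mul]
      exact mul_le_mul (h1.1 x hx) (h2.1 x hx) (abs_nonneg _) hA
    have hn : ContDiffOn ℝ n f M := hf.of_le (by norm_cast; omega)
    have hn' : ContDiffOn ℝ n g M := hg.of_le (by norm_cast; omega)
    refine ⟨fun x hx => ?_, ?_, ?_⟩
    · obtain ⟨hA, hB, h⟩ := key x hx
      have : (1:ℝ) ≤ 2 ^ (n + 1) := one_le_pow₀ (by norm_num)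
      nlinarith [mul_nonneg hA hB]
    · have e := (ih (contDiffOn_dx hM hf) hn' h1.2.1 h2.of_succ).add hM
        ((contDiffOn_dx hM hf).mul hn') (hn.mul (contDiffOn_dx hM hg))
        (ih hn (contDiffOn_dx hM hg) h1.of_succ h2.2.1)
      have e2 := e.congr hM (g := dx (fun x => f x * g x))
        fun x hx => (dx_mul (dat hM hf hx) (dat hM hg hx)).symm
      have e3 : 2 ^ (n + 1) * A * B = 2 ^ n * A * B + 2 ^ n * A * B := by ring
      rw [e3]; exact e2
    · have e := (ih (contDiffOn_dy hM hf) hn' h1.2.2 h2.of_succ).add hM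
        ((contDiffOn_dy hM hf).mul hn') (hn.mul (contDiffOn_dy hM hg))
        (ih hn (contDiffOn_dy hM hg) h1.of_succ h2.2.2)
      have e2 := e.congr hM (g := dy (fun x => f x * g x))
        fun x hx => (dy_mul (dat hM hf hx) (dat hM hg hx)).symm
      have e3 : 2 ^ (n + 1) * A * B = 2 ^ n * A * B + 2 ^ n * A * B := by ring
      rw [e3]; exact e2

theorem JetLe.const_mul (hM : IsOpen M) {n : ℕ} (c : ℝ) : ∀ {A : ℝ} {f : ℂ → ℝ},
    ContDiffOn ℝ n f M → JetLe M n A f → JetLe M n (|c| * A) (fun x => c * f x) := by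
  induction n with
  | zero =>
    intro A f _ h1 x hx
    rw [abs_mul]; exact mul_le_mul_of_nonneg_left (h1 x hx) (abs_nonneg _)
  | succ n ih =>
    intro A f hf h1
    refine ⟨fun x hx => ?_, ?_, ?_⟩
    · rw [abs_mul]; exact mul_le_mul_of_nonneg_left (h1.1 x hx) (abs_nonneg _)
    · exact (ih (contDiffOn_dx hM hf) h1.2.1).congr hM
        fun x hx => (dx_const_mul c (dat hM hf hx)).symm
    · exact (ih (contDiffOn_dy hM hf) h1.2.2).congr hM
        fun x hx => (dy_const_mul c (dat hM hf hx)).symm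

theorem JetLe.neg (hM : IsOpen M) {n : ℕ} : ∀ {A : ℝ} {f : ℂ → ℝ},
    JetLe M n A f → JetLe M n A (fun x => - f x) := by
  induction n with
  | zero => intro A f h1 x hx; rw [abs_neg]; exact h1 x hx
  | succ n ih =>
    intro A f h1
    exact ⟨fun x hx => by rw [abs_neg]; exact h1.1 x hx,
      (ih h1.2.1).congr hM fun x _ => (dx_neg f x).symm,
      (ih h1.2.2).congr hM fun x _ => (dy_neg f x).symm⟩

theorem JetLe.sub (hM : IsOpen M) {n : ℕ} {A B : ℝ} {f g : ℂ → ℝ} (hf : ContDiffOn ℝ n f M)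
    (hg : ContDiffOn ℝ n g M) (h1 : JetLe M n A f) (h2 : JetLe M n B g) :
    JetLe M n (A + B) (fun x => f x - g x) := by
  have := h1.add hM hf hg.neg (h2.neg hM)
  exact this.congr hM fun x _ => by simp [sub_eq_add_neg]

theorem jetLe_const (n : ℕ) (c : ℝ) : JetLe M n |c| (fun _ => c) := by
  have h0 : ∀ (n : ℕ) (C : ℝ), 0 ≤ C → JetLe M n C (fun _ : ℂ => (0 : ℝ)) := by
    intro n
    induction n with
    | zero => intro C hC x _; simpa using hC
    | succ n ih =>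
      intro C hC
      refine ⟨fun x _ => by simpa using hC, ?_, ?_⟩
      · have : dx (fun _ : ℂ => (0 : ℝ)) = fun _ => 0 := by ext x; exact dx_const 0 x
        rw [this]; exact ih C hC
      · have : dy (fun _ : ℂ => (0 : ℝ)) = fun _ => 0 := by ext x; exact dy_const 0 x
        rw [this]; exact ih C hC
  cases n with
  | zero => intro x _; exact le_rfl
  | succ n =>
    refine ⟨fun x _ => le_rfl, ?_, ?_⟩
    · have : dx (fun _ : ℂ => c) = fun _ => 0 := by ext x; exact dx_const c x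
      rw [this]; exact h0 n _ (abs_nonneg _)
    · have : dy (fun _ : ℂ => c) = fun _ => 0 := by ext x; exact dy_const c x
      rw [this]; exact h0 n _ (abs_nonneg _)

/-! ### Laplacian and Poisson bracket -/

theorem lap_add (hM : IsOpen M) (hf : ContDiffOn ℝ 2 f M) (hg : ContDiffOn ℝ 2 g M) (hx : x ∈ M) :
    lap (fun x => f x + g x) x = lap f x + lap g x := by
  have hf' : ContDiffOn ℝ (1 + 1 : ℕ) f M := hf
  have hg' : ContDiffOn ℝ (1 + 1 : ℕ) g M := hg
  have f1 : ContDiffOn ℝ (0 + 1 : ℕ) (dx f) M := contDiffOn_dx hM hf'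
  have g1 : ContDiffOn ℝ (0 + 1 : ℕ) (dx g) M := contDiffOn_dx hM hg'
  have f2 : ContDiffOn ℝ (0 + 1 : ℕ) (dy f) M := contDiffOn_dy hM hf'
  have g2 : ContDiffOn ℝ (0 + 1 : ℕ) (dy g) M := contDiffOn_dy hM hg'
  unfold lap
  rw [dx_congr hM (fun y hy => dx_add (dat hM hf' hy) (dat hM hg' hy)) hx,
    dy_congr hM (fun y hy => dy_add (dat hM hf' hy) (dat hM hg' hy)) hx,
    dx_add (dat hM f1 hx) (dat hM g1 hx), dy_add (dat hM f2 hx) (dat hM g2 hx)]
  ring

theorem lap_const_mul (hM : IsOpen M) (c : ℝ) (hf : ContDiffOn ℝ 2 f M) (hx : x ∈ M) :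
    lap (fun x => c * f x) x = c * lap f x := by
  have hf' : ContDiffOn ℝ (1 + 1 : ℕ) f M := hf
  have f1 : ContDiffOn ℝ (0 + 1 : ℕ) (dx f) M := contDiffOn_dx hM hf'
  have f2 : ContDiffOn ℝ (0 + 1 : ℕ) (dy f) M := contDiffOn_dy hM hf'
  unfold lap
  rw [dx_congr hM (fun y hy => dx_const_mul c (dat hM hf' hy)) hx,
    dy_congr hM (fun y hy => dy_const_mul c (dat hM hf' hy)) hx,
    dx_const_mul c (dat hM f1 hx), dy_const_mul c (dat hM f2 hx)]
  ring

theorem lap_neg (hM : IsOpen M) (hf : ContDiffOn ℝ 2 f M) (hx : x ∈ M) :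
    lap (fun x => - f x) x = - lap f x := by
  have := lap_const_mul hM (-1) hf hx
  simpa using this

theorem lap_sub (hM : IsOpen M) (hf : ContDiffOn ℝ 2 f M) (hg : ContDiffOn ℝ 2 g M) (hx : x ∈ M) :
    lap (fun x => f x - g x) x = lap f x - lap g x := by
  have h := lap_add hM hf hg.neg hx
  rw [lap_neg hM hg hx] at h
  rw [← sub_eq_add_neg] at h
  rw [← h]
  exact lap_congr hM (fun y _ => by simp [sub_eq_add_neg]) hx

theorem pb_self (f : ℂ → ℝ) (x : ℂ) : pb f f x = 0 := by unfold pb; ring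

theorem pb_antisymm (f g : ℂ → ℝ) (x : ℂ) : pb f g x = - pb g f x := by unfold pb; ring

theorem pb_comp_self {G : ℝ → ℝ} (hG : DifferentiableAt ℝ G (f x)) (hf : DifferentiableAt ℝ f x) :
    pb f (fun x => G (f x)) x = 0 := by
  unfold pb; rw [dx_comp hG hf, dy_comp hG hf]; ring

theorem pb_congr (hM : IsOpen M) {f f' g g' : ℂ → ℝ} (h : ∀ x ∈ M, f x = f' x)
    (h' : ∀ x ∈ M, g x = g' x) (hx : x ∈ M) : pb f g x = pb f' g' x := by
  unfold pb
  rw [dx_congr hM h hx, dx_congr hM h' hx, dy_congr hM h hx, dy_congr hM h' hx]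

theorem pb_add_right (hf : DifferentiableAt ℝ f x) (hg : DifferentiableAt ℝ g x) (h : ℂ → ℝ) :
    pb h (fun x => f x + g x) x = pb h f x + pb h g x := by
  unfold pb; rw [dx_add hf hg, dy_add hf hg]; ring

theorem pb_sub_right (hf : DifferentiableAt ℝ f x) (hg : DifferentiableAt ℝ g x) (h : ℂ → ℝ) :
    pb h (fun x => f x - g x) x = pb h f x - pb h g x := by
  unfold pb; rw [dx_sub hf hg, dy_sub hf hg]; ring

theorem pb_sub_left (hf : DifferentiableAt ℝ f x) (hg : DifferentiableAt ℝ g x) (h : ℂ → ℝ) :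
    pb (fun x => f x - g x) h x = pb f h x - pb g h x := by
  unfold pb; rw [dx_sub hf hg, dy_sub hf hg]; ring

theorem pb_mul_right (hf : DifferentiableAt ℝ f x) (hg : DifferentiableAt ℝ g x) (h : ℂ → ℝ) :
    pb h (fun x => f x * g x) x = pb h f x * g x + f x * pb h g x := by
  unfold pb; rw [dx_mul hf hg, dy_mul hf hg]; ring

theorem pb_mul_left (hf : DifferentiableAt ℝ f x) (hg : DifferentiableAt ℝ g x) (h : ℂ → ℝ) :
    pb (fun x => f x * g x) h x = pb f h x * g x + f x * pb g h x := by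
  unfold pb; rw [dx_mul hf hg, dy_mul hf hg]; ring

theorem pb_fderiv (f g : ℂ → ℝ) (x : ℂ) :
    pb f g x = fderiv ℝ g x (⟨- dy f x, dx f x⟩ : ℂ) := by
  rw [fderiv_apply']; simp [pb]; ring

theorem abs_pb_le (f g : ℂ → ℝ) (x : ℂ) : |pb f g x| ≤ 2 * ‖fderiv ℝ f x‖ * ‖fderiv ℝ g x‖ := by
  have h1 := abs_dx_le f x
  have h2 := abs_dy_le f x
  have h3 := abs_dx_le g x
  have h4 := abs_dy_le g x
  unfold pb
  calc |dx f x * dy g x - dy f x * dx g x| ≤ |dx f x| * |dy g x| + |dy f x| * |dx g x| := by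
        refine (abs_sub _ _).trans ?_
        rw [abs_mul, abs_mul]
    _ ≤ ‖fderiv ℝ f x‖ * ‖fderiv ℝ g x‖ + ‖fderiv ℝ f x‖ * ‖fderiv ℝ g x‖ := by gcongr
    _ = _ := by ring

/-! ### stream functions -/

namespace Stream

theorem cd1 (h : Stream M f) : ContDiffOn ℝ (0 + 1 : ℕ) f M := h.contDiffOn.of_le (by norm_num)

theorem cd2 (h : Stream M f) : ContDiffOn ℝ (1 + 1 : ℕ) f M := h.contDiffOn.of_le (by norm_num)

theorem cd3 (h : Stream M f) : ContDiffOn ℝ (2 + 1 : ℕ) f M := h.contDiffOn.of_le (by norm_num)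

theorem two (h : Stream M f) : ContDiffOn ℝ 2 f M := h.contDiffOn.of_le (by norm_num)

theorem one (h : Stream M f) : ContDiffOn ℝ 1 f M := h.contDiffOn.of_le (by norm_num)

theorem differentiableAt (hM : IsOpen M) (h : Stream M f) (hx : x ∈ M) : DifferentiableAt ℝ f x :=
  dat hM h.cd1 hx

theorem congr (hM : IsOpen M) (h : Stream M f) (hfg : ∀ x ∈ M, f x = g x) : Stream M g := by
  refine ⟨h.contDiffOn.congr fun x hx => (hfg x hx).symm, ?_, ?_⟩
  · obtain ⟨C, hC⟩ := h.bdd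
    exact ⟨C, hC.congr hM hfg⟩
  · intro ε hε
    obtain ⟨K, hK, hKc, hK2⟩ := h.zero ε hε
    exact ⟨K, hK, hKc, fun x hx hxK => by rw [← hfg x hx]; exact hK2 x hx hxK⟩

theorem add (hM : IsOpen M) (hf : Stream M f) (hg : Stream M g) : Stream M (fun x => f x + g x) := by
  refine ⟨hf.contDiffOn.add hg.contDiffOn, ?_, ?_⟩
  · obtain ⟨C, hC⟩ := hf.bdd
    obtain ⟨D, hD⟩ := hg.bdd
    exact ⟨C + D, hC.add hM hf.contDiffOn hg.contDiffOn hD⟩
  · intro ε hε
    obtain ⟨K, hK, hKc, hK2⟩ := hf.zero (ε / 2) (by positivity)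
    obtain ⟨L, hL, hLc, hL2⟩ := hg.zero (ε / 2) (by positivity)
    refine ⟨K ∪ L, union_subset hK hL, hKc.union hLc, fun x hx hxK => ?_⟩
    rw [mem_union, not_or] at hxK
    have h1 := hK2 x hx hxK.1
    have h2 := hL2 x hx hxK.2
    calc |f x + g x| ≤ |f x| + |g x| := abs_add_le _ _
      _ < ε := by linarith

theorem const_mul (hM : IsOpen M) (c : ℝ) (hf : Stream M f) : Stream M (fun x => c * f x) := by
  refine ⟨contDiffOn_const.mul hf.contDiffOn, ?_, ?_⟩
  · obtain ⟨C, hC⟩ := hf.bdd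
    exact ⟨|c| * C, hC.const_mul hM c hf.contDiffOn⟩
  · intro ε hε
    obtain ⟨K, hK, hKc, hK2⟩ := hf.zero (ε / (|c| + 1)) (by positivity)
    refine ⟨K, hK, hKc, fun x hx hxK => ?_⟩
    have h1 := hK2 x hx hxK
    rw [lt_div_iff₀ (by positivity)] at h1
    rw [abs_mul]
    nlinarith [abs_nonneg (f x), abs_nonneg c]

theorem neg (hM : IsOpen M) (hf : Stream M f) : Stream M (fun x => - f x) := by
  simpa using hf.const_mul hM (-1)

theorem sub (hM : IsOpen M) (hf : Stream M f) (hg : Stream M g) : Stream M (fun x => f x - g x) := by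
  simpa [sub_eq_add_neg] using hf.add hM (hg.neg hM)

theorem zero_fun : Stream M (fun _ => 0) := by
  refine ⟨contDiffOn_const, ⟨0, ?_⟩, ?_⟩
  · simpa using jetLe_const (M := M) 3 0
  · intro ε hε
    exact ⟨∅, empty_subset _, isCompact_empty, fun x _ _ => by simpa using hε⟩

end Stream

/-! ### the norm of `C^{1,α}` -/

theorem NormLe.congr (hM : IsOpen M) {α C : ℝ} (h : NormLe M α C f) (hfg : ∀ x ∈ M, f x = g x) :
    NormLe M α C g := by
  obtain ⟨hd, a, b, c, ha, hb, hc, habc, h1, h2, h3⟩ := h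
  refine ⟨fun x hx => ?_, a, b, c, ha, hb, hc, habc, ?_, ?_, ?_⟩
  · exact (hd x hx).congr (fun y hy => (hfg y hy).symm) (hfg x hx).symm
  · intro x hx; rw [← hfg x hx]; exact h1 x hx
  · intro x hx; rw [← fderiv_congr_on hM hfg hx]; exact h2 x hx
  · intro x hx y hy
    rw [← fderiv_congr_on hM hfg hx, ← fderiv_congr_on hM hfg hy]; exact h3 x hx y hy

theorem NormLe.mono {α C C' : ℝ} (h : NormLe M α C f) (hC : C ≤ C') : NormLe M α C' f := by
  obtain ⟨hd, a, b, c, ha, hb, hc, habc, h1⟩ := h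
  exact ⟨hd, a, b, c, ha, hb, hc, habc.trans hC, h1⟩

theorem NormLe.nonneg {α C : ℝ} (h : NormLe M α C f) : 0 ≤ C := by
  obtain ⟨hd, a, b, c, ha, hb, hc, habc, h1⟩ := h
  linarith

theorem NormLe.differentiableAt (hM : IsOpen M) {α C : ℝ} (h : NormLe M α C f) (hx : x ∈ M) :
    DifferentiableAt ℝ f x := (h.1 x hx).differentiableAt (hM.mem_nhds hx)

theorem NormLe.abs_le {α C : ℝ} (h : NormLe M α C f) (hx : x ∈ M) : |f x| ≤ C := by
  obtain ⟨hd, a, b, c, ha, hb, hc, habc, h1, h2, h3⟩ := h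
  linarith [h1 x hx]

theorem NormLe.norm_fderiv_le {α C : ℝ} (h : NormLe M α C f) (hx : x ∈ M) :
    ‖fderiv ℝ f x‖ ≤ C := by
  obtain ⟨hd, a, b, c, ha, hb, hc, habc, h1, h2, h3⟩ := h
  linarith [h2 x hx]

theorem NormLe.holder {α C : ℝ} (h : NormLe M α C f) (hx : x ∈ M) (hy : y ∈ M) :
    ‖fderiv ℝ f x - fderiv ℝ f y‖ ≤ C * ‖x - y‖ ^ α := by
  obtain ⟨hd, a, b, c, ha, hb, hc, habc, h1, h2, h3⟩ := h
  have h4 : 0 ≤ ‖x - y‖ ^ α := by positivity
  nlinarith [h3 x hx y hy]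

theorem NormLe.add (hM : IsOpen M) {α A B : ℝ} (hf : NormLe M α A f) (hg : NormLe M α B g) :
    NormLe M α (A + B) (fun x => f x + g x) := by
  have hf' := hf
  have hg' := hg
  obtain ⟨hd, a, b, c, ha, hb, hc, habc, h1, h2, h3⟩ := hf
  obtain ⟨hd', a', b', c', ha', hb', hc', habc', h1', h2', h3'⟩ := hg
  have key : ∀ x ∈ M, fderiv ℝ (fun x => f x + g x) x = fderiv ℝ f x + fderiv ℝ g x := fun x hx =>
    fderiv_fun_add (hf'.differentiableAt hM hx) (hg'.differentiableAt hM hx)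
  refine ⟨hd.add hd', a + a', b + b', c + c', by positivity, by positivity, by positivity,
    by linarith, ?_, ?_, ?_⟩
  · intro x hx; exact (abs_add_le _ _).trans (add_le_add (h1 x hx) (h1' x hx))
  · intro x hx; rw [key x hx]; exact (norm_add_le _ _).trans (add_le_add (h2 x hx) (h2' x hx))
  · intro x hx y hy
    rw [key x hx, key y hy, add_sub_add_comm, add_mul]
    exact (norm_add_le _ _).trans (add_le_add (h3 x hx y hy) (h3' x hx y hy))

theorem NormLe.const_mul (hM : IsOpen M) {α A : ℝ} (r : ℝ) (hf : NormLe M α A f) :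
    NormLe M α (|r| * A) (fun x => r * f x) := by
  have hf' := hf
  obtain ⟨hd, a, b, c, ha, hb, hc, habc, h1, h2, h3⟩ := hf
  have key : ∀ x ∈ M, fderiv ℝ (fun x => r * f x) x = r • fderiv ℝ f x := fun x hx =>
    fderiv_const_mul (hf'.differentiableAt hM hx) r
  refine ⟨hd.const_mul r, |r| * a, |r| * b, |r| * c, by positivity, by positivity, by positivity,
    ?_, ?_, ?_, ?_⟩
  · nlinarith [abs_nonneg r]
  · intro x hx; rw [abs_mul]; exact mul_le_mul_of_nonneg_left (h1 x hx) (abs_nonneg _)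
  · intro x hx; rw [key x hx, norm_smul, Real.norm_eq_abs]
    exact mul_le_mul_of_nonneg_left (h2 x hx) (abs_nonneg _)
  · intro x hx y hy
    rw [key x hx, key y hy, ← smul_sub, norm_smul, Real.norm_eq_abs, mul_assoc]
    exact mul_le_mul_of_nonneg_left (h3 x hx y hy) (abs_nonneg _)

theorem NormLe.neg (hM : IsOpen M) {α A : ℝ} (hf : NormLe M α A f) :
    NormLe M α A (fun x => - f x) := by
  have := hf.const_mul hM (-1)
  simpa using this

theorem NormLe.sub (hM : IsOpen M) {α A B : ℝ} (hf : NormLe M α A f) (hg : NormLe M α B g) :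
    NormLe M α (A + B) (fun x => f x - g x) := by
  simpa [sub_eq_add_neg] using hf.add hM (hg.neg hM)

theorem normLe_const {α : ℝ} (c : ℝ) : NormLe M α |c| (fun _ => c) := by
  refine ⟨by fun_prop, |c|, 0, 0, abs_nonneg _, le_rfl, le_rfl, by simp, ?_, ?_, ?_⟩
  · intro x _; exact le_rfl
  · intro x _; simp
  · intro x _ y _; simp

/-! ### auxiliary structures -/

/-- smooth functions of one variable -/
def Sm : Submodule ℝ (ℝ → ℝ) where
  carrier := {f | ContDiff ℝ ∞ f}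
  add_mem' := by
    intro f g hf hg
    have hf' : ContDiff ℝ ∞ f := hf
    have hg' : ContDiff ℝ ∞ g := hg
    exact hf'.add hg' 
  zero_mem' := by
    show ContDiff ℝ ∞ (fun _ : ℝ => (0 : ℝ))
    exact contDiff_const
  smul_mem' := by
    intro c f hf
    have hf' : ContDiff ℝ ∞ f := hf
    exact contDiff_const.smul hf' 

theorem mem_Sm {f : ℝ → ℝ} : f ∈ Sm ↔ ContDiff ℝ ∞ f := Iff.rfl

theorem Sm.contDiff (f : Sm) : ContDiff ℝ ∞ (f : ℝ → ℝ) := f.2

/-- `Φ` is the flow of `V`, a divergence free `C²` field of compact support which equals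
`-∇^⊥ψ = (ψ_y, -ψ_x)` near the (invariant) set `{a ≤ ψ ≤ b}` -/
structure SFlow (M : Set ℂ) (ψ : ℂ → ℝ) (a b : ℝ) (V : ℂ → ℂ) (Φ : ℝ → ℂ → ℂ) : Prop where
  cdV : ContDiff ℝ 2 V
  compV : HasCompactSupport V
  divV : ∀ x, dx (fun z => (V z).re) x + dy (fun z => (V z).im) x = 0
  cdΦ : ContDiff ℝ 2 (fun p : ℝ × ℂ => Φ p.1 p.2)
  zero : ∀ y, Φ 0 y = y
  ode : ∀ t y, HasDerivAt (fun s => Φ s y) (V (Φ t y)) t
  group : ∀ s t y, Φ (s + t) y = Φ s (Φ t y)
  inv : ∀ y ∈ M, ψ y ∈ Icc a b → ∀ t, Φ t y ∈ M ∧ ψ (Φ t y) = ψ y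
  eqV : ∀ y ∈ M, ψ y ∈ Icc a b → ∀ᶠ z in 𝓝 y, V z = (⟨dy ψ z, - dx ψ z⟩ : ℂ)

end Pool.Agent.YUD
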