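import Pool.Agent.YUD.Base

/-!
# [YUD] Base2: integrability, compact level sets, jets of compositions
-/

open MeasureTheory Set Filter Topology
open scoped ContDiff

namespace Pool.Agent.YUD

variable {M : Set ℂ} {f g ψ : ℂ → ℝ} {x y : ℂ}

/-- integrability of bounded continuous functions on `M` -/
theorem integrableOn_of_bdd (hM : IsOpen M) (hb : Bornology.IsBounded M) {f : ℂ → ℝ}
    (hf : ContinuousOn f M) {C : ℝ} (h : ∀ x ∈ M, |f x| ≤ C) : IntegrableOn f M := by
  have hfin : volume M < ⊤ := hb.measure_lt_top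
  have : IsFiniteMeasure (volume.restrict M) := isFiniteMeasure_restrict.2 hfin.ne
  refine Integrable.of_bound (hf.aestronglyMeasurable hM.measurableSet) C ?_
  rw [ae_restrict_iff' hM.measurableSet]
  exact Eventually.of_forall fun x hx => by simpa using h x hx

theorem compact_level (hψ : ContinuousOn ψ M) (hz : ZeroAtBoundary M ψ) {a b : ℝ}
    (h0 : (0 : ℝ) ∉ Icc a b) : IsCompact {x | x ∈ M ∧ ψ x ∈ Icc a b} := by
  obtain ⟨ε, hε, hε2⟩ : ∃ ε > 0, ∀ s ∈ Icc a b, ε ≤ |s| := by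
    have := (isClosed_Icc (a := a) (b := b)).isOpen_compl.mem_nhds h0
    rw [Metric.mem_nhds_iff] at this
    obtain ⟨ε, hε, h⟩ := this
    refine ⟨ε, hε, fun s hs => ?_⟩
    by_contra hlt
    push Not at hlt
    exact h (by simpa using hlt) hs
  obtain ⟨K, hK, hKc, hK2⟩ := hz ε hε
  have e : {x | x ∈ M ∧ ψ x ∈ Icc a b} = K ∩ ψ ⁻¹' Icc a b := by
    ext x
    simp only [mem_ofPred_eq, mem_inter_iff, mem_preimage]
    constructor
    · rintro ⟨h1, h2⟩
      refine ⟨?_, h2⟩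
      by_contra hxK
      exact absurd (hK2 x h1 hxK) (not_lt.2 (hε2 _ h2))
    · rintro ⟨h1, h2⟩
      exact ⟨hK h1, h2⟩
  rw [e]
  obtain ⟨u, hu, hu2⟩ := (continuousOn_iff_isClosed.1 (hψ.mono hK)) (Icc a b) isClosed_Icc
  rw [inter_comm, hu2, inter_comm]
  exact hKc.inter_right hu

theorem Stream.compact_level (hψ : Stream M ψ) {a b : ℝ} (h0 : (0 : ℝ) ∉ Icc a b) :
    IsCompact {x | x ∈ M ∧ ψ x ∈ Icc a b} :=
  YUD.compact_level hψ.contDiffOn.continuousOn hψ.zero h0

theorem Stream.abs_bdd (hψ : Stream M ψ) : ∃ C, ∀ x ∈ M, |ψ x| ≤ C := by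
  obtain ⟨C, hC⟩ := hψ.bdd
  exact ⟨C, hC.zero_le⟩

theorem Stream.integrableOn (hM : IsOpen M) (hb : Bornology.IsBounded M) (hψ : Stream M ψ) :
    IntegrableOn ψ M := by
  obtain ⟨C, hC⟩ := hψ.abs_bdd
  exact integrableOn_of_bdd hM hb hψ.contDiffOn.continuousOn hC

/-- a smooth function is bounded on bounded intervals -/
theorem bdd_on_Icc {G : ℝ → ℝ} (hG : Continuous G) (A : ℝ) :
    ∃ B, 0 ≤ B ∧ ∀ s, |s| ≤ A → |G s| ≤ B := by
  obtain ⟨B, hB⟩ := (isCompact_Icc (a := -A) (b := A)).exists_bound_of_continuousOn hG.continuousOn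
  refine ⟨max B 0, le_max_right _ _, fun s hs => ?_⟩
  exact (hB s (abs_le.1 hs)).trans (le_max_left _ _)

/-- jets of compositions -/
theorem jetLe_comp (n : ℕ) : ∀ {G : ℝ → ℝ}, ContDiff ℝ ∞ G → ∀ A : ℝ,
    ∃ B, 0 ≤ B ∧ ∀ (M : Set ℂ) (f : ℂ → ℝ), IsOpen M → ContDiffOn ℝ n f M → JetLe M n A f →
      JetLe M n B (fun x => G (f x)) := by
  induction n with
  | zero =>
    intro G hG A
    obtain ⟨B, hB0, hB⟩ := bdd_on_Icc hG.continuous A
    exact ⟨B, hB0, fun M f _ _ h x hx => hB _ (h x hx)⟩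
  | succ n ih =>
    intro G hG A
    have hG' : ContDiff ℝ ∞ (deriv G) := (contDiff_infty_iff_deriv.1 hG).2
    obtain ⟨B, hB0, hB⟩ := bdd_on_Icc hG.continuous A
    obtain ⟨B', hB0', hB'⟩ := ih hG' A
    refine ⟨max B (2 ^ n * B' * |A|), le_max_of_le_left hB0, fun M f hM hf h => ?_⟩
    have hn : ContDiffOn ℝ n f M := hf.of_le (by norm_cast; omega)
    have hd : Differentiable ℝ G := hG.differentiable (by simp)
    have hc : ContDiffOn ℝ n (fun x => deriv G (f x)) M :=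
      (hG'.of_le (by exact_mod_cast le_top)).comp_contDiffOn hn
    refine ⟨fun x hx => (hB _ (h.1 x hx)).trans (le_max_left _ _), ?_, ?_⟩
    · have h1 := (hB' M f hM hn h.of_succ).mul hM hc (contDiffOn_dx hM hf)
        (h.2.1.mono (le_abs_self A))
      exact (h1.congr hM fun x hx => (dx_comp (hd _) (dat hM hf hx)).symm).mono (le_max_right _ _)
    · have h1 := (hB' M f hM hn h.of_succ).mul hM hc (contDiffOn_dy hM hf)
        (h.2.2.mono (le_abs_self A))
      exact (h1.congr hM fun x hx => (dy_comp (hd _) (dat hM hf hx)).symm).mono (le_max_right _ _)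

end Pool.Agent.YUD
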