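import Pool.Agent.YUD.A6

/-!
# [YUD] C1: `L²` growth of the difference of a solution and a steady state

PROOF. `P` from `poincare`; `L = 2 C (1 + 2 P)` (for `C < 0` everything is vacuous or trivial: if `M` is empty all integrals vanish; otherwise
`C ≥ 0`). Put `ws = lap ψs`, `E(t) = ∫_M (w t - ws)²`. Continuity of `E` on `[0,∞)`: `w` is continuous on `Ici 0 ×ˢ M`, `|w| ≤ C` (dominated
convergence, `continuousWithinAt_of_dominated`/`continuousOn`...). For `t > 0`, `E` has derivative `E'(t) = ∫_M 2 (w t - ws) ∂_t w t`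
(`hasDerivAt_integral_of_dominated_loc_of_deriv_le`, on a ball around `t` inside `(0,∞)`; `∂_t w = deriv (fun s => w s x) t = - pb (ψ t) (w t) x` by `hsol.eqn`, bounded by `2 C²`
(`abs_pb_le`); `s ↦ w s x` is differentiable at `s > 0`: `hsol.c1` is `C¹` on a neighbourhood of `(s,x)`). On `M`:
`2 (w-ws) ∂_t w = - 2 (w-ws) pb ψ w = - pb ψ ((w-ws)²) - 2 (w-ws) pb ψ ws`, and `pb ψ ws = pb (ψ-ψs) ws` as `pb ψs ws = 0`. `∫_M pb (ψ t) ((w t - ws)²) = 0` by `integral_pb_eq_zero`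
(`g = (w t - ws)²` is `C¹` on `M` with bounded gradient: `w t` is `C¹` on `M` by `hsol.c1` (restrict to the slice), `ws = lap ψs` is `C¹` (`contDiffOn_dx`...)).
So `E'(t) ≤ ∫ 2 |w-ws| 2 ‖D(ψ-ψs)‖ C ≤ 2C ∫ (w-ws)² + ‖D(ψ-ψs)‖² ≤ 2 C (E + 2 ∫ gsq (ψ-ψs)) ≤ 2C (1+2P) E(t) = L E(t)`
(`norm_fderiv_sq_le`; `lap (ψ t - ψs) = w t - ws`, `ψ t - ψs ∈ Stream`, `poincare`). Gronwall: `t ↦ exp(-L t) E(t)` is continuous on `[0,T]` with nonpositive derivative inside, so
antitone (`antitoneOn_of_deriv_nonpos`): `E(t) ≤ exp(L t) E(0)`; finally `∫ gsq (ψ t - ψs) ≤ P E(t)`.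
-/

open MeasureTheory Set Filter Topology
open scoped ContDiff

namespace Pool.Agent.YUD

variable {M : Set ℂ} {f g ζ ψ : ℂ → ℝ} {α : ℝ} {x y : ℂ}

theorem c1_cont_dx (hM : IsOpen M) (hf : ContDiffOn ℝ 1 f M) : ContinuousOn (dx f) M :=
  (contDiffOn_dx (n := 0) hM hf).continuousOn

theorem c1_cont_dy (hM : IsOpen M) (hf : ContDiffOn ℝ 1 f M) : ContinuousOn (dy f) M :=
  (contDiffOn_dy (n := 0) hM hf).continuousOn

theorem c1_cont_pb (hM : IsOpen M) (hf : ContDiffOn ℝ 1 f M) (hg : ContDiffOn ℝ 1 g M) : ContinuousOn (pb f g) M :=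
  ((c1_cont_dx hM hf).mul (c1_cont_dy hM hg)).sub ((c1_cont_dy hM hf).mul (c1_cont_dx hM hg))

theorem c1_cont_gsq (hM : IsOpen M) (hf : ContDiffOn ℝ 1 f M) : ContinuousOn (gsq f) M :=
  ((c1_cont_dx hM hf).pow 2).add ((c1_cont_dy hM hf).pow 2)

theorem c1_gsq_le (f : ℂ → ℝ) (x : ℂ) : gsq f x ≤ 2 * ‖fderiv ℝ f x‖ ^ 2 := by
  have h1 : dx f x ^ 2 ≤ ‖fderiv ℝ f x‖ ^ 2 := by
    rw [← sq_abs (dx f x)]
    exact pow_le_pow_left₀ (abs_nonneg _) (abs_dx_le f x) 2
  have h2 : dy f x ^ 2 ≤ ‖fderiv ℝ f x‖ ^ 2 := by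
    rw [← sq_abs (dy f x)]
    exact pow_le_pow_left₀ (abs_nonneg _) (abs_dy_le f x) 2
  unfold gsq
  linarith

theorem c1_lap (hM : IsOpen M) (hψ : Stream M ψ) : ContDiffOn ℝ 1 (lap ψ) M := by
  have h1 : ContDiffOn ℝ (1 + 1 : ℕ) (dx ψ) M := contDiffOn_dx hM hψ.cd3
  have h2 : ContDiffOn ℝ (1 + 1 : ℕ) (dy ψ) M := contDiffOn_dy hM hψ.cd3
  have h3 : ContDiffOn ℝ 1 (dx (dx ψ)) M := contDiffOn_dx (n := 1) hM h1
  have h4 : ContDiffOn ℝ 1 (dy (dy ψ)) M := contDiffOn_dy (n := 1) hM h2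
  exact h3.add h4

theorem c1_slice {w ψ : ℝ → ℂ → ℝ} (hs : Sol M w ψ) {t : ℝ} (ht : 0 ≤ t) : ContDiffOn ℝ 1 (w t) M := by
  have h1 : ContDiffOn ℝ 1 (fun x : ℂ => ((t, x) : ℝ × ℂ)) M := (contDiff_const.prodMk contDiff_id).contDiffOn
  exact hs.c1.comp h1 fun x hx => ⟨ht, hx⟩

theorem c1_line {w ψ : ℝ → ℂ → ℝ} (hs : Sol M w ψ) {x : ℂ} (hx : x ∈ M) : ContinuousOn (fun s => w s x) (Ici 0) := by
  have h1 : ContinuousOn (fun s : ℝ => ((s, x) : ℝ × ℂ)) (Ici 0) := (continuous_id.prodMk continuous_const).continuousOn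
  exact hs.c1.continuousOn.comp h1 fun s hs' => ⟨hs', hx⟩

theorem c1_diff (hM : IsOpen M) {w ψ : ℝ → ℂ → ℝ} (hs : Sol M w ψ) {t : ℝ} (ht : 0 < t) {x : ℂ} (hx : x ∈ M) :
    DifferentiableAt ℝ (fun s => w s x) t := by
  have h1 : (Ici (0 : ℝ)) ×ˢ M ∈ 𝓝 ((t, x) : ℝ × ℂ) := prod_mem_nhds (Ici_mem_nhds ht) (hM.mem_nhds hx)
  have h2 : DifferentiableAt ℝ (fun p : ℝ × ℂ => w p.1 p.2) (t, x) :=
    (hs.c1.contDiffAt h1).differentiableAt one_ne_zero
  have h3 : DifferentiableAt ℝ (fun s : ℝ => ((s, x) : ℝ × ℂ)) t :=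
    differentiableAt_id.prodMk (differentiableAt_const x)
  exact DifferentiableAt.comp (f := fun s : ℝ => ((s, x) : ℝ × ℂ)) t h2 h3

theorem l2_growth (hM : IsOpen M) (hb : Bornology.IsBounded M) (hζ : Torsion M ζ) (C : ℝ) :
    ∃ P L, 0 ≤ P ∧ 0 ≤ L ∧ ∀ (w ψ : ℝ → ℂ → ℝ) (ψs : ℂ → ℝ), Sol M w ψ → Stream M ψs →
      (∀ x ∈ M, pb ψs (lap ψs) x = 0) →
      (∀ t, 0 ≤ t → ∀ x ∈ M, |w t x| ≤ C ∧ ‖fderiv ℝ (w t) x‖ ≤ C ∧ ‖fderiv ℝ (ψ t) x‖ ≤ C) →
      (∀ x ∈ M, |lap ψs x| ≤ C ∧ ‖fderiv ℝ (lap ψs) x‖ ≤ C ∧ ‖fderiv ℝ ψs x‖ ≤ C) →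
      ∀ t, 0 ≤ t → ∫ x in M, gsq (fun z => ψ t z - ψs z) x ≤
        P * Real.exp (L * t) * ∫ x in M, (w 0 x - lap ψs x) ^ 2 := by
  obtain ⟨P, hP0, hP⟩ := poincare hM hb hζ
  obtain ⟨D, hD⟩ : ∃ D, D = |C| := ⟨_, rfl⟩
  have hD0 : 0 ≤ D := by rw [hD]; exact abs_nonneg C
  have hCD : C ≤ D := by rw [hD]; exact le_abs_self C
  refine ⟨P, 2 * D * (1 + 2 * P), hP0.le, by positivity, ?_⟩
  intro w ψ ψs hsol hψs hst hbd hbs
  obtain ⟨ws, hws⟩ : ∃ ws, ws = lap ψs := ⟨_, rfl⟩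
  rw [← hws] at hst hbs ⊢
  have hws1 : ContDiffOn ℝ 1 ws M := by rw [hws]; exact c1_lap hM hψs
  have hfin : volume M < ⊤ := hb.measure_lt_top
  have hfm : IsFiniteMeasure (volume.restrict M) := isFiniteMeasure_restrict.2 hfin.ne
  have hw1 : ∀ t, 0 ≤ t → ContDiffOn ℝ 1 (w t) M := fun t ht => c1_slice hsol ht
  have hψ1 : ∀ t, 0 ≤ t → ContDiffOn ℝ 1 (ψ t) M := fun t ht => (hsol.stream t ht).one
  have hwd : ∀ t, 0 ≤ t → ∀ x ∈ M, DifferentiableAt ℝ (w t) x := fun t ht x hx =>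
    ((hw1 t ht).contDiffAt (hM.mem_nhds hx)).differentiableAt one_ne_zero
  have hwsd : ∀ x ∈ M, DifferentiableAt ℝ ws x := fun x hx =>
    (hws1.contDiffAt (hM.mem_nhds hx)).differentiableAt one_ne_zero
  -- the difference
  obtain ⟨W, hW⟩ : ∃ W : ℝ → ℂ → ℝ, W = fun t x => w t x - ws x := ⟨_, rfl⟩
  have hWa : ∀ t x, W t x = w t x - ws x := fun t x => by rw [hW]
  have hW1 : ∀ t, 0 ≤ t → ContDiffOn ℝ 1 (W t) M := by
    intro t ht
    rw [hW]
    exact (hw1 t ht).sub hws1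
  have hWd : ∀ t, 0 ≤ t → ∀ x ∈ M, DifferentiableAt ℝ (W t) x := fun t ht x hx =>
    ((hW1 t ht).contDiffAt (hM.mem_nhds hx)).differentiableAt one_ne_zero
  have hWb : ∀ t, 0 ≤ t → ∀ x ∈ M, |W t x| ≤ 2 * D := by
    intro t ht x hx
    rw [hWa]
    have h1 := (hbd t ht x hx).1
    have h2 := (hbs x hx).1
    refine (abs_sub _ _).trans ?_
    linarith
  have hWf : ∀ t, 0 ≤ t → ∀ x ∈ M, ‖fderiv ℝ (W t) x‖ ≤ 2 * D := by
    intro t ht x hx
    have h1 := (hbd t ht x hx).2.1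
    have h2 := (hbs x hx).2.1
    have h3 : fderiv ℝ (W t) x = fderiv ℝ (w t) x - fderiv ℝ ws x := by
      rw [hW]
      exact fderiv_fun_sub (hwd t ht x hx) (hwsd x hx)
    rw [h3]
    refine (norm_sub_le _ _).trans ?_
    linarith
  -- the time derivative
  have hder : ∀ t, 0 < t → ∀ x ∈ M, HasDerivAt (fun s => w s x) (- pb (ψ t) (w t) x) t := by
    intro t ht x hx
    have h1 := (c1_diff hM hsol ht hx).hasDerivAt
    have h2 := hsol.eqn t ht x hx
    have h3 : deriv (fun s => w s x) t = - pb (ψ t) (w t) x := by linarith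
    rw [h3] at h1
    exact h1
  have hpbb : ∀ t, 0 ≤ t → ∀ x ∈ M, |pb (ψ t) (w t) x| ≤ 2 * D * D := by
    intro t ht x hx
    refine (abs_pb_le _ _ _).trans ?_
    have h1 := (hbd t ht x hx).2.1.trans hCD
    have h2 := (hbd t ht x hx).2.2.trans hCD
    gcongr
  have hder2 : ∀ t, 0 < t → ∀ x ∈ M, HasDerivAt (fun s => W s x ^ 2) (2 * W t x * (- pb (ψ t) (w t) x)) t := by
    intro t ht x hx
    have h1 : HasDerivAt (fun s => W s x) (- pb (ψ t) (w t) x) t := by
      rw [hW]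
      exact (hder t ht x hx).sub_const (ws x)
    have h2 := h1.fun_pow 2
    refine h2.congr_deriv ?_
    simp
  have hWcont : ∀ t, 0 ≤ t → ContinuousOn (W t) M := fun t ht => (hW1 t ht).continuousOn
  have hpbc : ∀ t, 0 ≤ t → ContinuousOn (pb (ψ t) (w t)) M := fun t ht => c1_cont_pb hM (hψ1 t ht) (hw1 t ht)
  obtain ⟨E, hE⟩ : ∃ E : ℝ → ℝ, E = fun t => ∫ x in M, W t x ^ 2 := ⟨_, rfl⟩
  have hEcont : ContinuousOn E (Ici 0) := by
    rw [hE]
    refine continuousOn_of_dominated (bound := fun _ => (2 * D) ^ 2) ?_ ?_ (integrable_const _) ?_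
    · intro t ht
      exact ((hWcont t ht).pow 2).aestronglyMeasurable hM.measurableSet
    · intro t ht
      rw [ae_restrict_iff' hM.measurableSet]
      refine Eventually.of_forall fun x hx => ?_
      rw [Real.norm_eq_abs, abs_pow]
      exact pow_le_pow_left₀ (abs_nonneg _) (hWb t ht x hx) 2
    · rw [ae_restrict_iff' hM.measurableSet]
      refine Eventually.of_forall fun x hx => ?_
      have h1 : ContinuousOn (fun s => W s x) (Ici 0) := by
        rw [hW]
        exact (c1_line hsol hx).sub continuousOn_const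
      exact h1.pow 2
  have hEder : ∀ t, 0 < t → HasDerivAt E (∫ x in M, 2 * W t x * (- pb (ψ t) (w t) x)) t := by
    intro t ht
    rw [hE]
    refine (hasDerivAt_integral_of_dominated_loc_of_deriv_le (F := fun s x => W s x ^ 2)
      (F' := fun s x => 2 * W s x * (- pb (ψ s) (w s) x)) (s := Ioi 0)
      (bound := fun _ => 2 * (2 * D) * (2 * D * D)) (Ioi_mem_nhds ht) ?_ ?_ ?_ ?_ (integrable_const _) ?_).2
    · filter_upwards [Ioi_mem_nhds ht] with s hs
      exact ((hWcont s (le_of_lt hs)).pow 2).aestronglyMeasurable hM.measurableSet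
    · refine integrableOn_of_bdd hM hb ((hWcont t ht.le).pow 2) (C := (2 * D) ^ 2) ?_
      intro x hx
      rw [abs_pow]
      exact pow_le_pow_left₀ (abs_nonneg _) (hWb t ht.le x hx) 2
    · exact ((continuousOn_const.mul (hWcont t ht.le)).mul (hpbc t ht.le).neg).aestronglyMeasurable hM.measurableSet
    · rw [ae_restrict_iff' hM.measurableSet]
      refine Eventually.of_forall fun x hx s hs => ?_
      have hs0 : (0 : ℝ) ≤ s := le_of_lt hs
      have h1 := hWb s hs0 x hx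
      have h2 := hpbb s hs0 x hx
      rw [Real.norm_eq_abs, abs_mul, abs_mul, abs_neg, abs_two]
      gcongr
    · rw [ae_restrict_iff' hM.measurableSet]
      exact Eventually.of_forall fun x hx s hs => hder2 s hs x hx
  have hφ : ∀ t, 0 ≤ t → Stream M (fun z => ψ t z - ψs z) := fun t ht => (hsol.stream t ht).sub hM hψs
  have hgl : ∀ t, 0 ≤ t → ∫ x in M, gsq (fun z => ψ t z - ψs z) x ≤ P * E t := by
    intro t ht
    have h1 := (hP _ (hφ t ht)).2
    have h2 : ∫ x in M, lap (fun z => ψ t z - ψs z) x ^ 2 = E t := by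
      rw [hE]
      refine setIntegral_congr_fun hM.measurableSet fun x hx => ?_
      show lap (fun z => ψ t z - ψs z) x ^ 2 = W t x ^ 2
      rw [lap_sub hM (hsol.stream t ht).two hψs.two hx, hsol.lap_eq t ht x hx, hWa, hws]
    rw [h2] at h1
    exact h1
  have hEle : ∀ t, 0 < t → ∫ x in M, 2 * W t x * (- pb (ψ t) (w t) x) ≤ 2 * D * (1 + 2 * P) * E t := by
    intro t ht
    have ht' := ht.le
    have hsq1 : ContDiffOn ℝ 1 (fun x => W t x * W t x) M := (hW1 t ht').mul (hW1 t ht')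
    have hz : ∫ x in M, pb (ψ t) (fun x => W t x * W t x) x = 0 := by
      refine integral_pb_eq_zero hM hb hζ (hsol.stream t ht') (B := 2 * D * (2 * D) + 2 * D * (2 * D)) hsq1 ?_
      intro x hx
      rw [fderiv_fun_mul (hWd t ht' x hx) (hWd t ht' x hx)]
      refine (norm_add_le _ _).trans ?_
      rw [norm_smul, Real.norm_eq_abs]
      have h1 := hWb t ht' x hx
      have h2 := hWf t ht' x hx
      gcongr
    have hi1 : IntegrableOn (fun x => pb (ψ t) (fun x => W t x * W t x) x) M := by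
      refine integrableOn_of_bdd hM hb (c1_cont_pb hM (hψ1 t ht') hsq1) (C := 2 * D * (2 * D * (2 * D) + 2 * D * (2 * D))) ?_
      intro x hx
      refine (abs_pb_le _ _ _).trans ?_
      have h0 : ‖fderiv ℝ (fun x => W t x * W t x) x‖ ≤ 2 * D * (2 * D) + 2 * D * (2 * D) := by
        rw [fderiv_fun_mul (hWd t ht' x hx) (hWd t ht' x hx)]
        refine (norm_add_le _ _).trans ?_
        rw [norm_smul, Real.norm_eq_abs]
        have h1 := hWb t ht' x hx
        have h2 := hWf t ht' x hx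
        gcongr
      have h3 := (hbd t ht' x hx).2.2.trans hCD
      gcongr
    have hi2 : IntegrableOn (fun x => W t x ^ 2) M := by
      refine integrableOn_of_bdd hM hb ((hWcont t ht').pow 2) (C := (2 * D) ^ 2) ?_
      intro x hx
      rw [abs_pow]
      exact pow_le_pow_left₀ (abs_nonneg _) (hWb t ht' x hx) 2
    have hi3 : IntegrableOn (fun x => gsq (fun z => ψ t z - ψs z) x) M := by
      refine integrableOn_of_bdd hM hb (c1_cont_gsq hM (hφ t ht').one) (C := 2 * (2 * D) ^ 2) ?_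
      intro x hx
      rw [abs_of_nonneg (gsq_nonneg _ _)]
      refine (c1_gsq_le _ _).trans ?_
      have h1 : ‖fderiv ℝ (fun z => ψ t z - ψs z) x‖ ≤ 2 * D := by
        rw [fderiv_fun_sub ((hsol.stream t ht').differentiableAt hM hx) (hψs.differentiableAt hM hx)]
        refine (norm_sub_le _ _).trans ?_
        have h1 := (hbd t ht' x hx).2.2.trans hCD
        have h2 := (hbs x hx).2.2.trans hCD
        linarith
      gcongr
    have hi4 : IntegrableOn (fun x => 2 * W t x * (- pb (ψ t) (w t) x)) M := by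
      refine integrableOn_of_bdd hM hb ((continuousOn_const.mul (hWcont t ht')).mul (hpbc t ht').neg)
        (C := 2 * (2 * D) * (2 * D * D)) ?_
      intro x hx
      have h1 := hWb t ht' x hx
      have h2 := hpbb t ht' x hx
      rw [abs_mul, abs_mul, abs_neg, abs_two]
      gcongr
    have hpt : ∀ x ∈ M, 2 * W t x * (- pb (ψ t) (w t) x) ≤
        - pb (ψ t) (fun x => W t x * W t x) x + (2 * D * W t x ^ 2 + 4 * D * gsq (fun z => ψ t z - ψs z) x) := by
      intro x hx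
      have hd1 := hWd t ht' x hx
      have hd2 := hwsd x hx
      have hd3 := hwd t ht' x hx
      have e1 : pb (ψ t) (fun x => W t x * W t x) x = 2 * W t x * pb (ψ t) (W t) x := by
        rw [pb_mul_right hd1 hd1]; ring
      have e2 : pb (ψ t) (W t) x = pb (ψ t) (w t) x - pb (ψ t) ws x := by
        have h := pb_sub_right hd3 hd2 (ψ t)
        rw [← h, hW]
      have e3 : pb (fun z => ψ t z - ψs z) ws x = pb (ψ t) ws x := by
        rw [pb_sub_left ((hsol.stream t ht').differentiableAt hM hx) (hψs.differentiableAt hM hx), hst x hx, sub_zero]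
      have e4 : |pb (fun z => ψ t z - ψs z) ws x| ≤ 2 * ‖fderiv ℝ (fun z => ψ t z - ψs z) x‖ * D := by
        refine (abs_pb_le _ _ _).trans ?_
        have h1 := (hbs x hx).2.1.trans hCD
        gcongr
      have e5 := norm_fderiv_sq_le (fun z => ψ t z - ψs z) x
      obtain ⟨N, hN⟩ : ∃ N, N = ‖fderiv ℝ (fun z => ψ t z - ψs z) x‖ := ⟨_, rfl⟩
      rw [← hN] at e4 e5
      have hN0 : 0 ≤ N := by rw [hN]; exact norm_nonneg _
      rw [e1, e2]
      rw [e3] at e4
      have e6 : - (2 * W t x * pb (ψ t) ws x) ≤ 2 * |W t x| * (2 * N * D) := by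
        refine (neg_le_abs _).trans ?_
        rw [abs_mul, abs_mul, abs_two]
        gcongr
      have e7 : 2 * |W t x| * (2 * N * D) ≤ 2 * D * W t x ^ 2 + 2 * D * N ^ 2 := by
        have h1 : 0 ≤ 2 * D * (|W t x| - N) ^ 2 := by positivity
        have h2 : |W t x| ^ 2 = W t x ^ 2 := sq_abs _
        nlinarith [h1, h2]
      have e8 : 2 * D * N ^ 2 ≤ 2 * D * (2 * gsq (fun z => ψ t z - ψs z) x) := by gcongr
      linarith
    have h5 := setIntegral_mono_on hi4 (hi1.neg.add ((hi2.const_mul (2 * D)).add (hi3.const_mul (4 * D)))) hM.measurableSet hpt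
    have h6 : ∫ x in M, (- pb (ψ t) (fun x => W t x * W t x) x + (2 * D * W t x ^ 2 + 4 * D * gsq (fun z => ψ t z - ψs z) x)) =
        2 * D * E t + 4 * D * ∫ x in M, gsq (fun z => ψ t z - ψs z) x := by
      have h7 := integral_add (μ := volume.restrict M) (f := fun x => - pb (ψ t) (fun x => W t x * W t x) x)
        (g := fun x => 2 * D * W t x ^ 2 + 4 * D * gsq (fun z => ψ t z - ψs z) x) hi1.neg
        ((hi2.const_mul (2 * D)).add (hi3.const_mul (4 * D)))
      have h8 := integral_add (μ := volume.restrict M) (f := fun x => 2 * D * W t x ^ 2)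
        (g := fun x => 4 * D * gsq (fun z => ψ t z - ψs z) x) (hi2.const_mul (2 * D)) (hi3.const_mul (4 * D))
      rw [h7, h8, integral_neg, hz, integral_const_mul, integral_const_mul, hE]
      ring
    have h9 := hgl t ht'
    refine h5.trans ?_
    refine (le_of_eq h6).trans ?_
    have h10 : 4 * D * ∫ x in M, gsq (fun z => ψ t z - ψs z) x ≤ 4 * D * (P * E t) := by gcongr
    linarith
  -- Gronwall
  obtain ⟨L, hL⟩ : ∃ L, L = 2 * D * (1 + 2 * P) := ⟨_, rfl⟩
  rw [← hL] at hEle ⊢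
  intro T hT
  have hgr : E T ≤ Real.exp (L * T) * E 0 := by
    have hanti : AntitoneOn (fun t => Real.exp (-(L * t)) * E t) (Icc 0 T) := by
      have hdd : ∀ t, 0 < t → HasDerivAt (fun t => Real.exp (-(L * t)) * E t)
          (Real.exp (-(L * t)) * (-(L * 1)) * E t + Real.exp (-(L * t)) * ∫ x in M, 2 * W t x * (- pb (ψ t) (w t) x)) t := by
        intro t ht
        have h1 : HasDerivAt (fun t : ℝ => Real.exp (-(L * t))) (Real.exp (-(L * t)) * (-(L * 1))) t :=
          (((hasDerivAt_id t).const_mul L).neg).exp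
        exact h1.mul (hEder t ht)
      refine antitoneOn_of_deriv_nonpos (convex_Icc 0 T) ?_ ?_ ?_
      · have h1 : Continuous (fun t : ℝ => Real.exp (-(L * t))) := by fun_prop
        exact h1.continuousOn.mul (hEcont.mono Icc_subset_Ici_self)
      · rw [interior_Icc]
        intro t ht
        exact (hdd t ht.1).differentiableAt.differentiableWithinAt
      · rw [interior_Icc]
        intro t ht
        rw [(hdd t ht.1).deriv]
        have h1 := hEle t ht.1
        have h2 : 0 < Real.exp (-(L * t)) := Real.exp_pos _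
        have h3 : Real.exp (-(L * t)) * (∫ x in M, 2 * W t x * (- pb (ψ t) (w t) x)) ≤ Real.exp (-(L * t)) * (L * E t) := by
          gcongr
        linarith
    have h1 := hanti (left_mem_Icc.2 hT) (right_mem_Icc.2 hT) hT
    simp only [mul_zero, neg_zero, Real.exp_zero, one_mul] at h1
    have h2 : E T = Real.exp (L * T) * (Real.exp (-(L * T)) * E T) := by
      rw [← mul_assoc, ← Real.exp_add, add_neg_cancel, Real.exp_zero, one_mul]
    rw [h2]
    gcongr
  have hfinal := hgl T hT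
  have hE0 : E 0 = ∫ x in M, (w 0 x - ws x) ^ 2 := by rw [hE, hW]
  rw [← hE0]
  refine hfinal.trans ?_
  rw [mul_assoc]
  gcongr

end Pool.Agent.YUD
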