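import Pool.Agent.YUD.Base2

/-!
# [YUD] C2: interpolation: pointwise bounds from `L²` bounds and bounded second derivatives

PROOFS. (1) `interp`. On the convex open ball, `‖fderiv g z - fderiv g y‖ ≤ 4 K ‖z - y‖` (`dx g`, `dy g` are `C¹` with 1-jets `≤ K`, so
`‖fderiv (dx g)‖ ≤ 2K`, mean value inequality; `norm_fderiv_sub_le`). So `|g(y+z) - g(y) - Dg(y) z| ≤ 4K |z|²`
(`Convex.norm_image_sub_le_of_norm_fderiv_le'`-type lemma applied to `g - Dg(y)` on the ball of radius `|z|`), and adding the estimate for `-z`: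
`|g(y+z) + g(y-z) - 2 g(y)| ≤ 8 K |z|²`. Hence `g(y)² ≤ g(y+z)² + g(y-z)² + 32 K² ρ⁴` for `|z| < ρ`
(`g(y) = (u+v)/2 + e`, `|e| ≤ 4Kρ²`, `g(y)² ≤ 2 ((u+v)/2)² + 2 e² ≤ u² + v² + 32 K² ρ⁴`). Integrate over `z ∈ ball 0 ρ`, of volume `π ρ²`
(`Complex.volume_ball`), and use translation and reflection invariance (`∫_{ball 0 ρ} g(y ± z)² dz = ∫_{ball y ρ} g²`). `g²` is integrable on the ball: continuous and bounded (`|g| ≤ K`).
(2) `gsq_le`: (1) for `g = dx φ` and `g = dy φ` (2-jets on `ball y ρ ⊆ M` bounded by `K`; the derivatives on `M` and on the ball are the same `fderiv`s, so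
`JetLe M 2 K g` implies `JetLe (ball y ρ) 2 K g`: prove `JetLe.mono_set` by induction) and `∫_{ball} gsq ≤ ∫_M gsq`.
-/

open MeasureTheory Set Filter Topology
open scoped ContDiff

namespace Pool.Agent.YUD

variable {M : Set ℂ} {f g ζ ψ : ℂ → ℝ} {α : ℝ} {x y : ℂ}

theorem c2_mono {n : ℕ} : ∀ {C : ℝ} {f : ℂ → ℝ} {A : Set ℂ}, JetLe M n C f → A ⊆ M → JetLe A n C f := by
  induction n with
  | zero => intro C f A h hA x hx; exact h x (hA hx)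
  | succ n ih => intro C f A h hA; exact ⟨fun x hx => h.1 x (hA hx), ih h.2.1 hA, ih h.2.2 hA⟩

/-- the derivative is Lipschitz -/
theorem c2_lip {g : ℂ → ℝ} {y : ℂ} {ρ K : ℝ} (hρ : 0 < ρ)
    (hg : ContDiffOn ℝ 2 g (Metric.ball y ρ)) (hgK : JetLe (Metric.ball y ρ) 2 K g) {w : ℂ} (hw : w ∈ Metric.ball y ρ) :
    ‖fderiv ℝ g w - fderiv ℝ g y‖ ≤ 4 * K * ‖w - y‖ := by
  have hy : y ∈ Metric.ball y ρ := Metric.mem_ball_self hρ
  have hg' : ContDiffOn ℝ (1 + 1 : ℕ) g (Metric.ball y ρ) := hg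
  have h1 : ContDiffOn ℝ (0 + 1 : ℕ) (dx g) (Metric.ball y ρ) := contDiffOn_dx Metric.isOpen_ball hg'
  have h2 : ContDiffOn ℝ (0 + 1 : ℕ) (dy g) (Metric.ball y ρ) := contDiffOn_dy Metric.isOpen_ball hg'
  have e1 : ‖dx g w - dx g y‖ ≤ (K + K) * ‖w - y‖ :=
    (convex_ball y ρ).norm_image_sub_le_of_norm_fderiv_le (fun z hz => dat Metric.isOpen_ball h1 hz)
      (fun z hz => (norm_fderiv_le _ _).trans (add_le_add (hgK.2.1.2.1 z hz) (hgK.2.1.2.2 z hz))) hy hw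
  have e2 : ‖dy g w - dy g y‖ ≤ (K + K) * ‖w - y‖ :=
    (convex_ball y ρ).norm_image_sub_le_of_norm_fderiv_le (fun z hz => dat Metric.isOpen_ball h2 hz)
      (fun z hz => (norm_fderiv_le _ _).trans (add_le_add (hgK.2.2.2.1 z hz) (hgK.2.2.2.2 z hz))) hy hw
  refine (norm_fderiv_sub_le g g w y).trans ?_
  rw [Real.norm_eq_abs] at e1 e2
  linarith

/-- the second difference -/
theorem c2_second {g : ℂ → ℝ} {y z : ℂ} {ρ K : ℝ} (hρ : 0 < ρ) (hK : 0 ≤ K)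
    (hg : ContDiffOn ℝ 2 g (Metric.ball y ρ)) (hgK : JetLe (Metric.ball y ρ) 2 K g) (hz : ‖z‖ < ρ) :
    |g (y + z) - g y - fderiv ℝ g y z| ≤ 4 * K * ρ ^ 2 := by
  have hsub : Metric.closedBall y ‖z‖ ⊆ Metric.ball y ρ := Metric.closedBall_subset_ball hz
  have hg' : ContDiffOn ℝ (1 + 1 : ℕ) g (Metric.ball y ρ) := hg
  have h1 := (convex_closedBall y ‖z‖).norm_image_sub_le_of_norm_fderiv_le' (𝕜 := ℝ) (f := g) (C := 4 * K * ‖z‖) (φ := fderiv ℝ g y)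
    (x := y) (y := y + z) (fun w hw => dat Metric.isOpen_ball hg' (hsub hw)) (fun w hw => by
      refine (c2_lip hρ hg hgK (hsub hw)).trans ?_
      rw [Metric.mem_closedBall, dist_eq_norm] at hw
      gcongr) (by simp) (by simp)
  rw [add_sub_cancel_left, Real.norm_eq_abs] at h1
  refine h1.trans ?_
  have h2 := norm_nonneg z
  have h3 : ‖z‖ * ‖z‖ ≤ ρ * ρ := mul_le_mul hz.le hz.le h2 hρ.le
  nlinarith

theorem c2_point {g : ℂ → ℝ} {y z : ℂ} {ρ K : ℝ} (hρ : 0 < ρ) (hK : 0 ≤ K)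
    (hg : ContDiffOn ℝ 2 g (Metric.ball y ρ)) (hgK : JetLe (Metric.ball y ρ) 2 K g) (hz : ‖z‖ < ρ) :
    g y ^ 2 ≤ g (y + z) ^ 2 + g (y - z) ^ 2 + 32 * K ^ 2 * ρ ^ 4 := by
  have h1 := c2_second hρ hK hg hgK hz
  have h2 := c2_second (z := -z) hρ hK hg hgK (by rwa [norm_neg])
  rw [← sub_eq_add_neg, map_neg, sub_neg_eq_add] at h2
  obtain ⟨e, he⟩ : ∃ e, e = g (y + z) + g (y - z) - 2 * g y := ⟨_, rfl⟩
  have h3 : |e| ≤ 8 * K * ρ ^ 2 := by
    have h4 : e = (g (y + z) - g y - fderiv ℝ g y z) + (g (y - z) - g y + fderiv ℝ g y z) := by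
      rw [he]
      ring
    rw [h4]
    refine (abs_add_le _ _).trans ?_
    linarith
  have h4 : e ^ 2 ≤ (8 * K * ρ ^ 2) ^ 2 := by
    rw [← sq_abs e]
    exact pow_le_pow_left₀ (abs_nonneg _) h3 2
  have h5 : g y = (g (y + z) + g (y - z)) / 2 - e / 2 := by
    rw [he]
    ring
  have h6 : g y ^ 2 ≤ 2 * ((g (y + z) + g (y - z)) / 2) ^ 2 + 2 * (e / 2) ^ 2 := by
    rw [h5]
    nlinarith [sq_nonneg ((g (y + z) + g (y - z)) / 2 + e / 2)]
  nlinarith [sq_nonneg (g (y + z) - g (y - z))]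

theorem c2_shift {G : ℂ → ℝ} {y : ℂ} {ρ : ℝ} :
    ∫ z in Metric.ball 0 ρ, G (y + z) = ∫ z in Metric.ball y ρ, G z := by
  have h1 := (measurePreserving_add_left (volume : Measure ℂ) y).setIntegral_preimage_emb
    (measurableEmbedding_addLeft y) G (Metric.ball y ρ)
  have h2 : (fun z : ℂ => y + z) ⁻¹' Metric.ball y ρ = Metric.ball 0 ρ := by
    ext z
    simp [dist_eq_norm]
  rw [h2] at h1
  exact h1

theorem c2_reflect {G : ℂ → ℝ} {y : ℂ} {ρ : ℝ} :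
    ∫ z in Metric.ball 0 ρ, G (y - z) = ∫ z in Metric.ball y ρ, G z := by
  have h1 := (Measure.measurePreserving_sub_left (volume : Measure ℂ) y).setIntegral_preimage_emb
    (MeasurableEquiv.subLeft y).measurableEmbedding G (Metric.ball y ρ)
  have h2 : (fun z : ℂ => y - z) ⁻¹' Metric.ball y ρ = Metric.ball 0 ρ := by
    ext z
    simp [dist_eq_norm]
  rw [h2] at h1
  exact h1

theorem interp {g : ℂ → ℝ} {y : ℂ} {ρ K : ℝ} (hρ : 0 < ρ) (hK : 0 ≤ K)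
    (hg : ContDiffOn ℝ 2 g (Metric.ball y ρ)) (hgK : JetLe (Metric.ball y ρ) 2 K g) :
    g y ^ 2 * (Real.pi * ρ ^ 2) ≤
      2 * (∫ z in Metric.ball y ρ, g z ^ 2) + 32 * K ^ 2 * Real.pi * ρ ^ 6 := by
  have hmeas : MeasurableSet (Metric.ball (0 : ℂ) ρ) := measurableSet_ball
  have hgc : ContinuousOn g (Metric.ball y ρ) := hg.continuousOn
  have hgb : ∀ x ∈ Metric.ball y ρ, |g x ^ 2| ≤ K ^ 2 := by
    intro x hx
    rw [abs_pow]
    exact pow_le_pow_left₀ (abs_nonneg _) (hgK.1 x hx) 2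
  have hm1 : ∀ z ∈ Metric.ball (0 : ℂ) ρ, y + z ∈ Metric.ball y ρ := by
    intro z hz
    simpa [dist_eq_norm] using hz
  have hm2 : ∀ z ∈ Metric.ball (0 : ℂ) ρ, y - z ∈ Metric.ball y ρ := by
    intro z hz
    simpa [dist_eq_norm] using hz
  have hi1 : IntegrableOn (fun z => g (y + z) ^ 2) (Metric.ball 0 ρ) :=
    integrableOn_of_bdd Metric.isOpen_ball Metric.isBounded_ball
      ((hgc.comp (by fun_prop) hm1).pow 2) (C := K ^ 2) fun z hz => hgb _ (hm1 z hz)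
  have hi2 : IntegrableOn (fun z => g (y - z) ^ 2) (Metric.ball 0 ρ) :=
    integrableOn_of_bdd Metric.isOpen_ball Metric.isBounded_ball
      ((hgc.comp (by fun_prop) hm2).pow 2) (C := K ^ 2) fun z hz => hgb _ (hm2 z hz)
  have hball : volume (Metric.ball (0 : ℂ) ρ) ≠ ⊤ := measure_ball_lt_top.ne
  have hic : ∀ c : ℝ, IntegrableOn (fun _ : ℂ => c) (Metric.ball (0 : ℂ) ρ) := fun c => integrableOn_const hball
  have hvol : volume.real (Metric.ball (0 : ℂ) ρ) = Real.pi * ρ ^ 2 := by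
    rw [Measure.real, Complex.volume_ball, ENNReal.toReal_mul, ENNReal.toReal_pow, ENNReal.toReal_ofReal hρ.le,
      ENNReal.coe_toReal, NNReal.coe_real_pi, mul_comm]
  have h1 : ∫ z in Metric.ball (0 : ℂ) ρ, g y ^ 2 ≤
      ∫ z in Metric.ball (0 : ℂ) ρ, (g (y + z) ^ 2 + g (y - z) ^ 2 + 32 * K ^ 2 * ρ ^ 4) := by
    refine setIntegral_mono_on (hic _) ((hi1.add hi2).add (hic _)) hmeas fun z hz => ?_
    refine c2_point hρ hK hg hgK ?_
    simpa using hz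
  have h2 : ∫ z in Metric.ball (0 : ℂ) ρ, (g (y + z) ^ 2 + g (y - z) ^ 2 + 32 * K ^ 2 * ρ ^ 4) =
      (∫ z in Metric.ball y ρ, g z ^ 2) + (∫ z in Metric.ball y ρ, g z ^ 2) + Real.pi * ρ ^ 2 * (32 * K ^ 2 * ρ ^ 4) := by
    have h3 : ∫ z in Metric.ball (0 : ℂ) ρ, (g (y + z) ^ 2 + g (y - z) ^ 2 + 32 * K ^ 2 * ρ ^ 4) =
        (∫ z in Metric.ball (0 : ℂ) ρ, (g (y + z) ^ 2 + g (y - z) ^ 2)) + ∫ z in Metric.ball (0 : ℂ) ρ, 32 * K ^ 2 * ρ ^ 4 :=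
      integral_add (hi1.add hi2) (hic _)
    rw [h3, integral_add hi1 hi2, c2_shift (G := fun z => g z ^ 2),
      c2_reflect (G := fun z => g z ^ 2), setIntegral_const, hvol, smul_eq_mul]
  rw [h2, setIntegral_const, hvol, smul_eq_mul] at h1
  nlinarith

theorem gsq_le (hM : IsOpen M) (hb : Bornology.IsBounded M) {φ : ℂ → ℝ} (hφ : ContDiffOn ℝ 3 φ M)
    {K : ℝ} (hK : 0 ≤ K) (hφK : JetLe M 3 K φ) {ρ : ℝ} (hρ : 0 < ρ) (hyρ : Metric.ball y ρ ⊆ M) :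
    gsq φ y * (Real.pi * ρ ^ 2) ≤
      2 * (∫ z in M, gsq φ z) + 64 * K ^ 2 * Real.pi * ρ ^ 6 := by
  have hm : ∀ z ∈ Metric.ball y ρ, z ∈ M := fun z hz => hyρ hz
  have hφ' : ContDiffOn ℝ (2 + 1 : ℕ) φ M := hφ
  have hdx : ContDiffOn ℝ 2 (dx φ) M := contDiffOn_dx hM hφ'
  have hdy : ContDiffOn ℝ 2 (dy φ) M := contDiffOn_dy hM hφ'
  have h1 := interp hρ hK (hdx.mono hyρ) (c2_mono hφK.2.1 hyρ)
  have h2 := interp hρ hK (hdy.mono hyρ) (c2_mono hφK.2.2 hyρ)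
  have hb1 : ∀ x ∈ M, |dx φ x ^ 2| ≤ K ^ 2 := fun x hx => by
    rw [abs_pow]
    exact pow_le_pow_left₀ (abs_nonneg _) (hφK.2.1.zero_le x hx) 2
  have hb2 : ∀ x ∈ M, |dy φ x ^ 2| ≤ K ^ 2 := fun x hx => by
    rw [abs_pow]
    exact pow_le_pow_left₀ (abs_nonneg _) (hφK.2.2.zero_le x hx) 2
  have hi1 : IntegrableOn (fun x => dx φ x ^ 2) M := integrableOn_of_bdd hM hb (hdx.continuousOn.pow 2) hb1
  have hi2 : IntegrableOn (fun x => dy φ x ^ 2) M := integrableOn_of_bdd hM hb (hdy.continuousOn.pow 2) hb2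
  have h3 : ∫ z in Metric.ball y ρ, gsq φ z ≤ ∫ z in M, gsq φ z :=
    setIntegral_mono_set (hi1.add hi2) (Eventually.of_forall fun x => gsq_nonneg φ x) hyρ.eventuallyLE
  have h4 : ∫ z in Metric.ball y ρ, gsq φ z = (∫ z in Metric.ball y ρ, dx φ z ^ 2) + ∫ z in Metric.ball y ρ, dy φ z ^ 2 :=
    integral_add (hi1.mono_set hyρ) (hi2.mono_set hyρ)
  rw [h4] at h3
  unfold gsq at *
  nlinarith

end Pool.Agent.YUD
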