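import Pool.Agent.YUD.Base2

/-!
# [YUD] C3: the bumps `r^{1+α} β((x - x₀)/r)`

PROOF. `β` = a smooth bump (`ContDiffBump (0 : ℂ)` with `rIn = 1/2`, `rOut = 1`): values in `[0,1]`, `β 0 = 1`, `β z = 0` for `‖z‖ ≥ 1`. `Dβ` is continuous with compact support, so
`‖Dβ‖ ≤ L₁`, and `Dβ` is Lipschitz (`ContDiff.lipschitzWith_of_hasCompactSupport` for `fderiv ℝ β`, `C¹`) with a constant `L₂`. Hölder:
`‖Dβ u - Dβ v‖ ≤ L₃ ‖u-v‖^α`, `L₃ = L₂ + 2 L₁` (if `‖u-v‖ ≤ 1` then `‖u-v‖ ≤ ‖u-v‖^α`, else `1 ≤ ‖u-v‖^α`). For `b x = r^{1+α} β((1/r)•(x-x₀))`: `|b| ≤ r^{1+α} ≤ 1`;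
`D b x = r^{1+α} (1/r) Dβ(..)`, norm `≤ r^α L₁ ≤ L₁`; Hölder constant `r^{1+α} (1/r) L₃ (1/r)^α = L₃`. `D₀ = 1 + L₁ + L₃`.
Second part: `b² ≤ r^{2+2α}` and `b = 0` off `ball x₀ r`, of volume `π r²` (`Complex.volume_ball`); `∫_M b² ≤ ∫_{ball} r^{2+2α} = π r^{4+2α}`.
-/

open MeasureTheory Set Filter Topology
open scoped ContDiff

namespace Pool.Agent.YUD

theorem exists_bump {α : ℝ} (hα0 : 0 < α) (hα1 : α < 1) : ∃ (β : ℂ → ℝ) (D : ℝ), 0 < D ∧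
    ContDiff ℝ ∞ β ∧ β 0 = 1 ∧ (∀ z, 1 ≤ ‖z‖ → β z = 0) ∧ (∀ z, 0 ≤ β z ∧ β z ≤ 1) ∧
    ∀ (M : Set ℂ) (x₀ : ℂ) (r : ℝ), 0 < r → r ≤ 1 →
      NormLe M α D (fun x => r ^ (1 + α) * β ((1 / r : ℝ) • (x - x₀))) ∧
      ∫ x in M, (r ^ (1 + α) * β ((1 / r : ℝ) • (x - x₀))) ^ 2 ≤ Real.pi * r ^ (4 + 2 * α) := by

  let f : ContDiffBump (0 : ℂ) := ⟨1 / 2, 1, by norm_num, by norm_num⟩
  have hfc : ContDiff ℝ ∞ (f : ℂ → ℝ) := f.contDiff
  have hcs : HasCompactSupport (f : ℂ → ℝ) := f.hasCompactSupport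
  have hgc : ContDiff ℝ ∞ (fderiv ℝ (f : ℂ → ℝ)) := hfc.fderiv_right (by simp)
  have hgs : HasCompactSupport (fderiv ℝ (f : ℂ → ℝ)) := hcs.fderiv ℝ
  obtain ⟨L₀, hL₀⟩ := hgs.exists_bound_of_continuous hgc.continuous
  obtain ⟨L₂, hL₂⟩ := ContDiff.lipschitzWith_of_hasCompactSupport hgs hgc (by simp)
  have hL₁ : ∀ z, ‖fderiv ℝ (f : ℂ → ℝ) z‖ ≤ |L₀| := fun z => (hL₀ z).trans (le_abs_self _)
  have hhol : ∀ u v : ℂ, ‖fderiv ℝ (f : ℂ → ℝ) u - fderiv ℝ (f : ℂ → ℝ) v‖ ≤ ((L₂ : ℝ) + 2 * |L₀|) * ‖u - v‖ ^ α := by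
    intro u v
    have hn := norm_nonneg (u - v)
    have hp : 0 ≤ ‖u - v‖ ^ α := Real.rpow_nonneg hn α
    rcases le_total ‖u - v‖ 1 with h | h
    · have h1 : ‖u - v‖ ≤ ‖u - v‖ ^ α := by
        conv_lhs => rw [← Real.rpow_one ‖u - v‖]
        rcases hn.eq_or_lt with h0 | h0
        · rw [← h0, Real.zero_rpow one_ne_zero, Real.zero_rpow hα0.ne']
        · exact Real.rpow_le_rpow_of_exponent_ge h0 h hα1.le
      have h2 := hL₂.norm_sub_le u v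
      calc ‖fderiv ℝ (f : ℂ → ℝ) u - fderiv ℝ (f : ℂ → ℝ) v‖ ≤ L₂ * ‖u - v‖ := h2
        _ ≤ L₂ * ‖u - v‖ ^ α := by gcongr
        _ ≤ ((L₂ : ℝ) + 2 * |L₀|) * ‖u - v‖ ^ α := by
          gcongr
          have := abs_nonneg L₀
          linarith
    · have h1 : 1 ≤ ‖u - v‖ ^ α := Real.one_le_rpow h hα0.le
      calc ‖fderiv ℝ (f : ℂ → ℝ) u - fderiv ℝ (f : ℂ → ℝ) v‖ ≤ ‖fderiv ℝ (f : ℂ → ℝ) u‖ + ‖fderiv ℝ (f : ℂ → ℝ) v‖ :=
            norm_sub_le _ _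
        _ ≤ 2 * |L₀| := by linarith [hL₁ u, hL₁ v]
        _ ≤ ((L₂ : ℝ) + 2 * |L₀|) * 1 := by
          have : (0 : ℝ) ≤ L₂ := L₂.2
          linarith
        _ ≤ ((L₂ : ℝ) + 2 * |L₀|) * ‖u - v‖ ^ α := by
          have : (0 : ℝ) ≤ L₂ := L₂.2
          gcongr
  have h01 : ∀ z, 0 ≤ f z ∧ f z ≤ 1 := fun z => ⟨f.nonneg, f.le_one⟩
  have hz0 : ∀ z : ℂ, 1 ≤ ‖z‖ → f z = 0 := fun z hz => f.zero_of_le_dist (by rw [dist_zero_right]; exact hz)
  refine ⟨f, 1 + |L₀| + ((L₂ : ℝ) + 2 * |L₀|), by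
    have := abs_nonneg L₀
    have : (0 : ℝ) ≤ L₂ := L₂.2
    positivity, hfc, f.one_of_mem_closedBall (by simp [f]), hz0, h01, ?_⟩
  intro M x₀ r hr hr1
  have hra : 0 < r ^ (1 + α) := Real.rpow_pos_of_pos hr _
  have hra1 : r ^ (1 + α) ≤ 1 := Real.rpow_le_one hr.le hr1 (by linarith)
  have hral : 0 < r ^ α := Real.rpow_pos_of_pos hr _
  have hral1 : r ^ α ≤ 1 := Real.rpow_le_one hr.le hr1 hα0.le
  have hrr : r ^ (1 + α) * (1 / r) = r ^ α := by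
    rw [Real.rpow_add hr, Real.rpow_one]
    field_simp
  have hder : ∀ x : ℂ, HasFDerivAt (fun x : ℂ => r ^ (1 + α) * f ((1 / r : ℝ) • (x - x₀)))
      ((r ^ α) • fderiv ℝ (f : ℂ → ℝ) ((1 / r : ℝ) • (x - x₀))) x := by
    intro x
    have h1 : HasFDerivAt (fun x : ℂ => (1 / r : ℝ) • (x - x₀)) ((1 / r : ℝ) • ContinuousLinearMap.id ℝ ℂ) x :=
      ((hasFDerivAt_id x).sub_const x₀).const_smul (1 / r : ℝ)
    have h2 := ((hfc.differentiable (by simp)) ((1 / r : ℝ) • (x - x₀))).hasFDerivAt.comp x h1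
    have h3 := h2.const_mul (r ^ (1 + α))
    have e : (r ^ α) • fderiv ℝ (f : ℂ → ℝ) ((1 / r : ℝ) • (x - x₀)) =
        r ^ (1 + α) • (fderiv ℝ (f : ℂ → ℝ) ((1 / r : ℝ) • (x - x₀)) ∘L ((1 / r : ℝ) • ContinuousLinearMap.id ℝ ℂ)) := by
      refine ContinuousLinearMap.ext fun v => ?_
      show r ^ α * fderiv ℝ (f : ℂ → ℝ) ((1 / r : ℝ) • (x - x₀)) v =
        r ^ (1 + α) * fderiv ℝ (f : ℂ → ℝ) ((1 / r : ℝ) • (x - x₀)) ((1 / r : ℝ) • v)
      rw [map_smul, smul_eq_mul, ← hrr]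
      ring
    rw [e]
    exact h3
  have hfd : ∀ x : ℂ, fderiv ℝ (fun x : ℂ => r ^ (1 + α) * f ((1 / r : ℝ) • (x - x₀))) x =
      (r ^ α) • fderiv ℝ (f : ℂ → ℝ) ((1 / r : ℝ) • (x - x₀)) := fun x => (hder x).fderiv
  constructor
  · refine ⟨fun x _ => (hder x).differentiableAt.differentiableWithinAt, 1, |L₀|, (L₂ : ℝ) + 2 * |L₀|, zero_le_one,
      abs_nonneg _, by
        have := abs_nonneg L₀
        have : (0 : ℝ) ≤ L₂ := L₂.2
        positivity, le_rfl, ?_, ?_, ?_⟩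
    · intro x _
      rw [abs_mul, abs_of_pos hra, abs_of_nonneg (h01 _).1]
      exact mul_le_one₀ hra1 (h01 _).1 (h01 _).2
    · intro x _
      rw [hfd, norm_smul, Real.norm_of_nonneg hral.le]
      calc r ^ α * ‖fderiv ℝ (f : ℂ → ℝ) ((1 / r : ℝ) • (x - x₀))‖ ≤ 1 * |L₀| := by
            gcongr
            exact hL₁ _
        _ = |L₀| := one_mul _
    · intro x _ y _
      rw [hfd, hfd, ← smul_sub, norm_smul, Real.norm_of_nonneg hral.le]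
      have h1 := hhol ((1 / r : ℝ) • (x - x₀)) ((1 / r : ℝ) • (y - x₀))
      have h2 : (1 / r : ℝ) • (x - x₀) - (1 / r : ℝ) • (y - x₀) = (1 / r : ℝ) • (x - y) := by
        rw [← smul_sub]
        congr 1
        ring
      rw [h2, norm_smul, Real.norm_of_nonneg (by positivity), Real.mul_rpow (by positivity) (norm_nonneg _)] at h1
      calc r ^ α * ‖fderiv ℝ (f : ℂ → ℝ) ((1 / r : ℝ) • (x - x₀)) - fderiv ℝ (f : ℂ → ℝ) ((1 / r : ℝ) • (y - x₀))‖ ≤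
            r ^ α * (((L₂ : ℝ) + 2 * |L₀|) * ((1 / r) ^ α * ‖x - y‖ ^ α)) := by gcongr
        _ = (r ^ α * (1 / r) ^ α) * (((L₂ : ℝ) + 2 * |L₀|) * ‖x - y‖ ^ α) := by ring
        _ = ((L₂ : ℝ) + 2 * |L₀|) * ‖x - y‖ ^ α := by
          rw [← Real.mul_rpow hr.le (by positivity), mul_one_div_cancel hr.ne', Real.one_rpow, one_mul]
  · have hcont : Continuous (fun x : ℂ => (r ^ (1 + α) * f ((1 / r : ℝ) • (x - x₀))) ^ 2) := by
      have h1 : Continuous (f : ℂ → ℝ) := hfc.continuous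
      fun_prop
    have hzero : ∀ x : ℂ, x ∉ Metric.ball x₀ r → (r ^ (1 + α) * f ((1 / r : ℝ) • (x - x₀))) ^ 2 = 0 := by
      intro x hx
      rw [Metric.mem_ball, not_lt, dist_eq_norm] at hx
      rw [hz0, mul_zero, zero_pow two_ne_zero]
      rw [norm_smul, Real.norm_of_nonneg (by positivity), one_div, inv_mul_eq_div, le_div_iff₀ hr, one_mul]
      exact hx
    have hle : ∀ x : ℂ, (r ^ (1 + α) * f ((1 / r : ℝ) • (x - x₀))) ^ 2 ≤
        (Metric.ball x₀ r).indicator (fun _ => r ^ (2 + 2 * α)) x := by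
      intro x
      by_cases hx : x ∈ Metric.ball x₀ r
      · rw [Set.indicator_of_mem hx]
        have h1 : r ^ (2 + 2 * α) = (r ^ (1 + α)) ^ 2 := by
          rw [← Real.rpow_natCast, ← Real.rpow_mul hr.le]
          congr 1
          push_cast
          ring
        rw [h1, mul_pow]
        have h2 : f ((1 / r : ℝ) • (x - x₀)) ^ 2 ≤ 1 := pow_le_one₀ (h01 _).1 (h01 _).2
        nlinarith [sq_nonneg (r ^ (1 + α))]
      · rw [hzero x hx, Set.indicator_of_notMem hx]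
    have hball : volume (Metric.ball x₀ r) ≠ ⊤ := measure_ball_lt_top.ne
    have hint2 : Integrable ((Metric.ball x₀ r).indicator (fun _ : ℂ => r ^ (2 + 2 * α))) volume :=
      (integrable_indicator_iff measurableSet_ball).2 (integrableOn_const hball)
    have hint1 : Integrable (fun x : ℂ => (r ^ (1 + α) * f ((1 / r : ℝ) • (x - x₀))) ^ 2) volume :=
      hint2.mono' hcont.aestronglyMeasurable (Eventually.of_forall fun x => by
        rw [Real.norm_of_nonneg (sq_nonneg _)]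
        exact hle x)
    calc ∫ x in M, (r ^ (1 + α) * f ((1 / r : ℝ) • (x - x₀))) ^ 2 ≤
          ∫ x : ℂ, (r ^ (1 + α) * f ((1 / r : ℝ) • (x - x₀))) ^ 2 :=
          setIntegral_le_integral hint1 (Eventually.of_forall fun x => sq_nonneg _)
      _ ≤ ∫ x : ℂ, (Metric.ball x₀ r).indicator (fun _ => r ^ (2 + 2 * α)) x := integral_mono hint1 hint2 hle
      _ = Real.pi * r ^ (4 + 2 * α) := by
          rw [integral_indicator measurableSet_ball, setIntegral_const, smul_eq_mul, Measure.real, Complex.volume_ball,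
            ENNReal.toReal_mul, ENNReal.toReal_pow, ENNReal.toReal_ofReal hr.le, ENNReal.coe_toReal, NNReal.coe_real_pi]
          have h1 : r ^ (4 + 2 * α) = r ^ (2 + 2 * α) * r ^ 2 := by
            rw [← Real.rpow_natCast r 2, ← Real.rpow_add hr]
            congr 1
            push_cast
            ring
          rw [h1]
          ring

end Pool.Agent.YUD
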