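import Pool.Agent.YUD.Base2

/-!
# [YUD] C4: the difference `w - ws` along the steady flow

PROOF. `X t = Φ (T - t) y`; `X 0 = Φ T y`, `X T = y` (`hfl.zero`). By `hfl.inv`, `X t ∈ M` and `ψs (X t) = ψs y ∈ Icc a b` for all `t`. `HasDerivAt X (- V (X t)) t` (`hfl.ode`, chain rule), and
`- V (X t) = ⟨- dy ψs, dx ψs⟩ (X t)` (`(hfl.eqV _ _ _).self_of_nhds`). For `t ∈ (0,T)`: `p ↦ w p.1 p.2` is `C¹` near `(t, X t)` (`hsol.c1`, interior point of `Ici 0 ×ˢ M`), so `h t = w t (X t)` has derivative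
`∂_t w (X t) + D(w t)(X' t) = - pb (ψ t) (w t) (X t) + pb ψs (w t) (X t) = - pb (ψ t - ψs) (w t) (X t)` (`hsol.eqn`, `pb_fderiv`, `pb_sub_left`; split the derivative of the two-variable function into its
two partial derivatives by the chain rule along `s ↦ (s, x)` and `z ↦ (t, z)`). And `t ↦ lap ψs (X t)` has derivative `pb ψs (lap ψs) (X t) = 0` (`lap ψs` is `C¹`), so it is
constant on `[0,T]`. `h` is continuous on `[0,T]` (`w` is continuous on `Ici 0 ×ˢ M`). Mean value inequality on `[0,T]`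
(`norm_image_sub_le_of_norm_deriv_le_segment'`, or `constant_of_...`; derivative bound `η` on the open interval): `|h T - h 0| ≤ T η`.
-/

open MeasureTheory Set Filter Topology
open scoped ContDiff

namespace Pool.Agent.YUD

variable {M : Set ℂ}

theorem C4_lap (hM : IsOpen M) {ψs : ℂ → ℝ} (hψs : Stream M ψs) {x : ℂ} (hx : x ∈ M) :
    DifferentiableAt ℝ (lap ψs) x := by
  have h1 : ContDiffOn ℝ (1 + 1 : ℕ) (dx ψs) M := contDiffOn_dx hM hψs.cd3
  have h2 : ContDiffOn ℝ (1 + 1 : ℕ) (dy ψs) M := contDiffOn_dy hM hψs.cd3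
  have h3 : ContDiffOn ℝ (0 + 1 : ℕ) (dx (dx ψs)) M := contDiffOn_dx hM h1
  have h4 : ContDiffOn ℝ (0 + 1 : ℕ) (dy (dy ψs)) M := contDiffOn_dy hM h2
  exact (dat hM h3 hx).add (dat hM h4 hx)

theorem C4_chain {W : ℝ × ℂ → ℝ} {t : ℝ} {X : ℝ → ℂ} {v : ℂ} (hW : DifferentiableAt ℝ W (t, X t))
    (hX : HasDerivAt X v t) :
    HasDerivAt (fun s => W (s, X s))
      (deriv (fun s => W (s, X t)) t + fderiv ℝ (fun z => W (t, z)) (X t) v) t := by
  have h0 := hW.hasFDerivAt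
  have h1 : HasDerivAt (fun s : ℝ => W (s, X s)) (fderiv ℝ W (t, X t) ((1 : ℝ), v)) t :=
    h0.comp_hasDerivAt t ((hasDerivAt_id t).prodMk hX)
  have h2 : HasDerivAt (fun s : ℝ => W (s, X t)) (fderiv ℝ W (t, X t) ((1 : ℝ), (0 : ℂ))) t :=
    HasFDerivAt.comp_hasDerivAt (f := fun s : ℝ => (s, X t)) t h0
      ((hasDerivAt_id t).prodMk (hasDerivAt_const t (X t)))
  have h3 : HasFDerivAt (fun z : ℂ => W (t, z))
      ((fderiv ℝ W (t, X t)).comp (ContinuousLinearMap.inr ℝ ℝ ℂ)) (X t) :=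
    HasFDerivAt.comp (f := fun z : ℂ => (t, z)) (X t) h0 (hasFDerivAt_prodMk_right t (X t))
  rw [h2.deriv, h3.fderiv, ContinuousLinearMap.comp_apply, ContinuousLinearMap.inr_apply, ← map_add]
  rw [Prod.mk_add_mk, add_zero, zero_add]
  exact h1

theorem lagrangian (hM : IsOpen M) {ψs : ℂ → ℝ} (hψs : Stream M ψs)
    (hst : ∀ x ∈ M, pb ψs (lap ψs) x = 0) {a b : ℝ} {V : ℂ → ℂ} {Φ : ℝ → ℂ → ℂ}
    (hfl : SFlow M ψs a b V Φ) {w ψ : ℝ → ℂ → ℝ} (hsol : Sol M w ψ) {T η : ℝ} (hT : 0 ≤ T) {y : ℂ}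
    (hy : y ∈ M) (hψy : ψs y ∈ Icc a b)
    (h : ∀ t, 0 ≤ t → t ≤ T → ∀ x ∈ M, ψs x ∈ Icc a b →
      |pb (fun z => ψ t z - ψs z) (w t) x| ≤ η) :
    |(w T y - lap ψs y) - (w 0 (Φ T y) - lap ψs (Φ T y))| ≤ T * η := by
  rcases hT.eq_or_lt with h0 | hT0
  · subst h0
    rw [hfl.zero, sub_self, abs_zero, zero_mul]
  set X : ℝ → ℂ := fun t => Φ (T - t) y with hX
  have hXM : ∀ t, X t ∈ M ∧ ψs (X t) = ψs y := fun t => hfl.inv y hy hψy (T - t)
  have hXd : ∀ t, HasDerivAt X (⟨- dy ψs (X t), dx ψs (X t)⟩ : ℂ) t := by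
    intro t
    have h1 := (hfl.ode (T - t) y).scomp t ((hasDerivAt_id t).const_sub T)
    have h2 : V (Φ (T - t) y) = (⟨dy ψs (X t), - dx ψs (X t)⟩ : ℂ) :=
      (hfl.eqV (X t) (hXM t).1 (by rw [(hXM t).2]; exact hψy)).self_of_nhds
    rw [h2] at h1
    have h3 : ((-1 : ℝ) • (⟨dy ψs (X t), - dx ψs (X t)⟩ : ℂ)) = ⟨- dy ψs (X t), dx ψs (X t)⟩ := by
      apply Complex.ext <;> simp
    rw [h3] at h1
    exact h1
  have hXc : Continuous X := continuous_iff_continuousAt.2 fun t => (hXd t).continuousAt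
  have hlapc : ContinuousOn (lap ψs) M := fun x hx =>
    (C4_lap hM hψs hx).continuousAt.continuousWithinAt
  set f : ℝ → ℝ := fun t => w t (X t) - lap ψs (X t) with hf
  set f' : ℝ → ℝ := fun t => - pb (fun z => ψ t z - ψs z) (w t) (X t) with hf'
  have hfc : ContinuousOn f (Icc 0 T) := by
    refine ContinuousOn.sub ?_ ?_
    · exact hsol.c1.continuousOn.comp (f := fun t : ℝ => (t, X t))
        (continuous_id.prodMk hXc).continuousOn fun t ht => ⟨ht.1, (hXM t).1⟩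
    · exact hlapc.comp hXc.continuousOn fun t _ => (hXM t).1
  have hfd : ∀ t ∈ Ioo 0 T, HasDerivAt f (f' t) t := by
    intro t ht
    have hxM := (hXM t).1
    have hn : Ici (0 : ℝ) ×ˢ M ∈ 𝓝 (t, X t) :=
      prod_mem_nhds (Ici_mem_nhds ht.1) (hM.mem_nhds hxM)
    have hW : DifferentiableAt ℝ (fun p : ℝ × ℂ => w p.1 p.2) (t, X t) :=
      (hsol.c1.contDiffAt hn).differentiableAt (by norm_num)
    have h1 := C4_chain (W := fun p : ℝ × ℂ => w p.1 p.2) (X := X) hW (hXd t)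
    have h2 : HasDerivAt (fun s => lap ψs (X s)) (fderiv ℝ (lap ψs) (X t) ⟨- dy ψs (X t), dx ψs (X t)⟩) t :=
      (C4_lap hM hψs hxM).hasFDerivAt.comp_hasDerivAt t (hXd t)
    rw [← pb_fderiv, hst _ hxM] at h2
    have h3 := h1.sub h2
    have h4 := hsol.eqn t ht.1 (X t) hxM
    have h5 := pb_sub_left ((hsol.stream t ht.1.le).differentiableAt hM hxM)
      (hψs.differentiableAt hM hxM) (w t)
    have h6 : (deriv (fun s => w s (X t)) t + fderiv ℝ (fun z => w t z) (X t)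
        (⟨- dy ψs (X t), dx ψs (X t)⟩ : ℂ)) - 0 = f' t := by
      have h7 : fderiv ℝ (fun z => w t z) (X t) (⟨- dy ψs (X t), dx ψs (X t)⟩ : ℂ) =
          pb ψs (w t) (X t) := (pb_fderiv ψs (w t) (X t)).symm
      rw [h7, hf']
      show _ = - pb (fun z => ψ t z - ψs z) (w t) (X t)
      rw [h5]
      linarith
    rw [← h6]
    exact h3
  obtain ⟨c, hc, hc2⟩ := exists_hasDerivAt_eq_slope f f' hT0 hfc hfd
  have hXT : X T = y := by
    rw [hX]
    show Φ (T - T) y = y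
    rw [sub_self, hfl.zero]
  have hX0 : X 0 = Φ T y := by
    rw [hX]
    show Φ (T - 0) y = Φ T y
    rw [sub_zero]
  have hb : |f' c| ≤ η := by
    rw [hf']
    show |- pb (fun z => ψ c z - ψs z) (w c) (X c)| ≤ η
    rw [abs_neg]
    exact h c hc.1.le hc.2.le (X c) (hXM c).1 (by rw [(hXM c).2]; exact hψy)
  have h8 : f T - f 0 = T * f' c := by
    rw [hc2, sub_zero]
    field_simp
  have h9 : (w T y - lap ψs y) - (w 0 (Φ T y) - lap ψs (Φ T y)) = f T - f 0 := by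
    rw [hf]
    show _ = (w T (X T) - lap ψs (X T)) - (w 0 (X 0) - lap ψs (X 0))
    rw [hXT, hX0]
  rw [h9, h8, abs_mul, abs_of_pos hT0]
  exact mul_le_mul_of_nonneg_left hb hT

end Pool.Agent.YUD
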