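import Pool.Agent.YUD.C1
import Pool.Agent.YUD.C2
import Pool.Agent.YUD.C3
import Pool.Agent.YUD.C4

/-!
# [YUD] C5: for a fixed time: the solution started from `ws + d b_r` is `d b_r ∘ Φ_T` up to `o(r^{1+α})`

SETTING of `small_error`: `β, D` from `exists_bump`; `d > 0` with `d D ≤ δ/2`. For `r ∈ (0,1]`, `x₀ ∈ ℂ` the function `w₀ = lap ψ + d b_{r,x₀}`, `b_{r,x₀} x = r^{1+α} β((1/r)•(x-x₀))`, satisfies
`NormLe M α δ (w₀ - ws)` (`hnear`, `NormLe.const_mul`), so `hUB` gives a solution.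
PROOF. Constants: `NormLe M α C (lap ψ)` (apply `hUB` to `w₀ = lap ψ`, time `0`, `NormLe.congr`). For a solution `(w, ψ')` of `UB` from `w₀`: by `hS` and `stream_unique`,
`JetLe M 3 (CS C) (ψ' t)` for `t ≥ 0`, also `JetLe M 3 (CS C) ψ` (as `NormLe M α C (lap ψ)`), so `φ_t = ψ' t - ψ` has 3-jets `≤ K = 2 CS C` (`C, CS ≥ 0`). Let `C' = max C (2 CS C)`, `P, L` from `l2_growth M C'`:
`∫_M gsq φ_t ≤ P e^{LT} d² π r^{4+2α}` for `0 ≤ t ≤ T` (`exists_bump` second part; `w 0 - lap ψ = d b_r` on `M`). The set `W₁ = {x ∈ M : ψ x ∈ Icc a b}` is compact (`Stream.compact_level`), so there is `ρ₁ > 0` with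
`ball x ρ₁ ⊆ M` for `x ∈ W₁`. With `ρ = r^{(2+α)/3}` (`< ρ₁` for small `r`), `gsq_le`: for `x ∈ W₁`,
`gsq φ_t x ≤ (2 P e^{LT} d² π r^{4+2α} + 64 K² π r^{4+2α}) / (π r^{2(2+α)/3}) = c₁ r^{4(2+α)/3}`
(`ρ⁶ = r^{2(2+α)} = r^{4+2α}`), so `‖D φ_t x‖ ≤ c₂ r^{2(2+α)/3}` and `|pb φ_t (w t) x| ≤ 2 C c₂ r^{2(2+α)/3}` (`abs_pb_le`). `lagrangian` gives for `y ∈ W₁`
`|(w T y - lap ψ y) - d b_r(Φ T y)| ≤ T 2 C c₂ r^{2(2+α)/3}`, and `2(2+α)/3 > 1+α` since `α < 1`, so this is `≤ η r^{1+α}` for all small `r > 0`, uniformly in `y, x₀`, the solution.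
-/

open MeasureTheory Set Filter Topology
open scoped ContDiff

namespace Pool.Agent.YUD

variable {M : Set ℂ} {α : ℝ}

theorem jet_of_lap (hM : IsOpen M) (hb : Bornology.IsBounded M) {CS : ℝ} (hS : Schauder M α CS)
    {χ f : ℂ → ℝ} {C : ℝ} (hχ : Stream M χ) (hf : NormLe M α C f) (h : ∀ x ∈ M, lap χ x = f x) :
    JetLe M 3 (CS * C) χ := by
  obtain ⟨χ', h1, h2, h3⟩ := hS.2 C f hf
  exact h3.congr hM fun x hx => stream_unique hM hb h1 hχ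
    (fun z hz => by rw [h2 z hz, h z hz]) x hx

theorem norm_fderiv_of_jet {n : ℕ} {f : ℂ → ℝ} {κ : ℝ} (h : JetLe M (n + 1) κ f) {x : ℂ}
    (hx : x ∈ M) : ‖fderiv ℝ f x‖ ≤ 2 * κ := by
  have h1 := norm_fderiv_le f x
  have h2 := h.2.1.zero_le x hx
  have h3 := h.2.2.zero_le x hx
  linarith

theorem small_error (hM : IsOpen M) (hb : Bornology.IsBounded M) (hα0 : 0 < α) (hα1 : α < 1)
    {ws : ℂ → ℝ} {δ C CS : ℝ} (hδ : 0 < δ) (hUB : UB M α ws δ C) (hS : Schauder M α CS)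
    {ψ : ℂ → ℝ} (hψ : Stream M ψ) (hst : ∀ x ∈ M, pb ψ (lap ψ) x = 0)
    (hnear : NormLe M α (δ / 2) (fun x => lap ψ x - ws x)) {a b : ℝ} (h0 : (0 : ℝ) ∉ Icc a b)
    {V : ℂ → ℂ} {Φ : ℝ → ℂ → ℂ} (hfl : SFlow M ψ a b V Φ) {β : ℂ → ℝ} {D : ℝ} (hD : 0 < D)
    (hβ : ∀ (M : Set ℂ) (x₀ : ℂ) (r : ℝ), 0 < r → r ≤ 1 →
      NormLe M α D (fun x => r ^ (1 + α) * β ((1 / r : ℝ) • (x - x₀))) ∧
      ∫ x in M, (r ^ (1 + α) * β ((1 / r : ℝ) • (x - x₀))) ^ 2 ≤ Real.pi * r ^ (4 + 2 * α))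
    {d : ℝ} (hd : 0 < d) (hdD : d * D ≤ δ / 2) {T : ℝ} (hT : 0 ≤ T) {η : ℝ} (hη : 0 < η) :
    ∃ r₀ > 0, ∀ r, 0 < r → r < r₀ → ∀ x₀ : ℂ, ∃ f : ℂ → ℝ, NormLe M α (2 * C) f ∧
      ∀ y ∈ M, ψ y ∈ Icc a b →
        |f y - d * (r ^ (1 + α) * β ((1 / r : ℝ) • (Φ T y - x₀)))| ≤ η * r ^ (1 + α) := by
  -- the steady state
  have hlapn : NormLe M α C (lap ψ) := by
    obtain ⟨w, ψ', hsol, hini, hn⟩ := hUB (lap ψ) (hnear.mono (by linarith))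
    exact (hn 0 le_rfl).congr hM hini
  have hC : 0 ≤ C := hlapn.nonneg
  have hCS : 0 ≤ CS := hS.1
  obtain ⟨ζ, hζ⟩ : ∃ ζ, Torsion M ζ := by
    obtain ⟨ζ, h1, h2, -⟩ := hS.2 |1| (fun _ => 1) (normLe_const 1)
    exact ⟨ζ, h1, h2⟩
  obtain ⟨κ, hκ⟩ : ∃ κ, κ = CS * C := ⟨_, rfl⟩
  have hκ0 : 0 ≤ κ := by rw [hκ]; positivity
  have hjψ : JetLe M 3 κ ψ := by rw [hκ]; exact jet_of_lap hM hb hS hψ hlapn fun _ _ => rfl
  obtain ⟨P, L, hP, hL, hgr⟩ := l2_growth hM hb hζ (max C (2 * κ))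
  -- room around the compact set
  have hK := hψ.compact_level h0
  obtain ⟨ρ₁, hρ₁, hρ₁2⟩ : ∃ ρ₁ > 0, ∀ x ∈ {x | x ∈ M ∧ ψ x ∈ Icc a b}, Metric.ball x ρ₁ ⊆ M := by
    obtain ⟨ε, hε, hε2⟩ := hK.exists_thickening_subset_open hM (fun x hx => hx.1)
    refine ⟨ε, hε, fun x hx => ?_⟩
    refine subset_trans ?_ hε2
    exact Metric.ball_subset_thickening hx ε
  -- constants
  obtain ⟨c₀, hc₀⟩ : ∃ c₀, c₀ = 2 * (P * Real.exp (L * T) * d ^ 2) + 64 * (κ + κ) ^ 2 := ⟨_, rfl⟩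
  have hc₀0 : 0 ≤ c₀ := by rw [hc₀]; positivity
  obtain ⟨c₁, hc₁⟩ : ∃ c₁, c₁ = T * (2 * √(2 * c₀) * C) := ⟨_, rfl⟩
  have hc₁0 : 0 ≤ c₁ := by rw [hc₁]; positivity
  have hev : ∀ᶠ r : ℝ in 𝓝[>] 0, r ≤ 1 ∧ r ^ ((2 + α) / 3) ≤ ρ₁ ∧ c₁ * r ^ ((1 - α) / 3) ≤ η := by
    have e1 : ∀ᶠ r : ℝ in 𝓝[>] 0, r ≤ 1 :=
      nhdsWithin_le_nhds (eventually_le_nhds (by norm_num))
    have t1 : ∀ p : ℝ, 0 < p → Tendsto (fun r : ℝ => r ^ p) (𝓝[>] 0) (𝓝 0) := by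
      intro p hp
      have : ContinuousAt (fun r : ℝ => r ^ p) 0 :=
        Real.continuousAt_rpow_const _ _ (Or.inr hp.le)
      have h2 := this.tendsto.mono_left (nhdsWithin_le_nhds (s := Ioi (0:ℝ)))
      rwa [Real.zero_rpow hp.ne'] at h2
    have e2 : ∀ᶠ r : ℝ in 𝓝[>] 0, r ^ ((2 + α) / 3) ≤ ρ₁ :=
      (t1 _ (by positivity)).eventually (eventually_le_nhds hρ₁)
    have e3 : ∀ᶠ r : ℝ in 𝓝[>] 0, c₁ * r ^ ((1 - α) / 3) ≤ η := by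
      have h3 := (t1 ((1 - α) / 3) (by linarith)).const_mul c₁
      rw [mul_zero] at h3
      exact h3.eventually (eventually_le_nhds hη)
    filter_upwards [e1, e2, e3] with r h1 h2 h3 using ⟨h1, h2, h3⟩
  obtain ⟨r₀, hr₀, hr⟩ := (nhdsGT_basis (0:ℝ)).eventually_iff.1 hev
  refine ⟨r₀, hr₀, fun r hr1 hr2 x₀ => ?_⟩
  obtain ⟨hr3, hr4, hr5⟩ := hr ⟨hr1, hr2⟩
  obtain ⟨hb1, hb2⟩ := hβ M x₀ r hr1 hr3
  -- the perturbed solution
  have hini0 : NormLe M α δ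
      (fun x => (lap ψ x + d * (r ^ (1 + α) * β ((1 / r : ℝ) • (x - x₀)))) - ws x) := by
    have h1 := hnear.add hM (hb1.const_mul hM d)
    rw [abs_of_pos hd] at h1
    exact (h1.mono (by linarith)).congr hM fun x _ => by ring
  obtain ⟨w, ψ', hsol, hini, hn⟩ := hUB _ hini0
  refine ⟨fun x => w T x - lap ψ x, ((hn T hT).sub hM hlapn).mono (by linarith), ?_⟩
  have hjψ' : ∀ t, 0 ≤ t → JetLe M 3 κ (ψ' t) := fun t ht => by
    rw [hκ]; exact jet_of_lap hM hb hS (hsol.stream t ht) (hn t ht) (hsol.lap_eq t ht)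
  have hgrow := hgr w ψ' ψ hsol hψ hst
    (fun t ht x hx => ⟨((hn t ht).abs_le hx).trans (le_max_left _ _),
      ((hn t ht).norm_fderiv_le hx).trans (le_max_left _ _),
      (norm_fderiv_of_jet (hjψ' t ht) hx).trans (le_max_right _ _)⟩)
    (fun x hx => ⟨(hlapn.abs_le hx).trans (le_max_left _ _),
      (hlapn.norm_fderiv_le hx).trans (le_max_left _ _),
      (norm_fderiv_of_jet hjψ hx).trans (le_max_right _ _)⟩)
  -- initial `L²` size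
  have hE0 : ∫ x in M, (w 0 x - lap ψ x) ^ 2 ≤ d ^ 2 * (Real.pi * r ^ (4 + 2 * α)) := by
    have e1 : ∫ x in M, (w 0 x - lap ψ x) ^ 2 =
        ∫ x in M, d ^ 2 * (r ^ (1 + α) * β ((1 / r : ℝ) • (x - x₀))) ^ 2 :=
      setIntegral_congr_fun hM.measurableSet fun x hx => by
        simp only [hini x hx]; ring
    rw [e1, integral_const_mul]
    exact mul_le_mul_of_nonneg_left hb2 (by positivity)
  obtain ⟨ρ, hρ⟩ : ∃ ρ, ρ = r ^ ((2 + α) / 3) := ⟨_, rfl⟩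
  have hρ0 : 0 < ρ := by rw [hρ]; exact Real.rpow_pos_of_pos hr1 _
  have hρ6 : ρ ^ 6 = r ^ (4 + 2 * α) := by
    rw [hρ, ← Real.rpow_natCast, ← Real.rpow_mul hr1.le]
    congr 1; push_cast; ring
  have hρ2 : ρ ^ 2 = r ^ ((1 - α) / 3) * r ^ (1 + α) := by
    rw [hρ, ← Real.rpow_natCast, ← Real.rpow_mul hr1.le, ← Real.rpow_add hr1]
    congr 1; push_cast; ring
  -- pointwise bound for the gradient of `ψ' t - ψ`
  have hpt : ∀ t, 0 ≤ t → t ≤ T → ∀ x ∈ M, ψ x ∈ Icc a b →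
      ‖fderiv ℝ (fun z => ψ' t z - ψ z) x‖ ≤ √(2 * c₀) * ρ ^ 2 := by
    intro t ht htT x hx hψx
    have hsφ := (hsol.stream t ht).sub hM hψ
    have hjφ : JetLe M 3 (κ + κ) (fun z => ψ' t z - ψ z) :=
      JetLe.sub hM (hsol.stream t ht).contDiffOn hψ.contDiffOn (hjψ' t ht) hjψ
    have hbl : Metric.ball x ρ ⊆ M :=
      (Metric.ball_subset_ball (by rw [hρ]; exact hr4)).trans (hρ₁2 x ⟨hx, hψx⟩)
    have h1 := gsq_le hM hb hsφ.contDiffOn (by positivity) hjφ hρ0 hbl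
    have h2 := hgrow t ht
    have h3 : ∫ z in M, gsq (fun z => ψ' t z - ψ z) z ≤
        P * Real.exp (L * T) * d ^ 2 * (Real.pi * ρ ^ 6) := by
      refine h2.trans ?_
      have h4 : Real.exp (L * t) ≤ Real.exp (L * T) :=
        Real.exp_le_exp.2 (mul_le_mul_of_nonneg_left htT hL)
      have h5 : 0 ≤ ∫ x in M, (w 0 x - lap ψ x) ^ 2 := integral_nonneg fun x => sq_nonneg _
      rw [← hρ6] at hE0
      calc P * Real.exp (L * t) * ∫ x in M, (w 0 x - lap ψ x) ^ 2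
          ≤ P * Real.exp (L * T) * (d ^ 2 * (Real.pi * ρ ^ 6)) := by gcongr
        _ = _ := by ring
    have h6 : gsq (fun z => ψ' t z - ψ z) x ≤ c₀ * ρ ^ 4 := by
      have hpr : 0 < Real.pi * ρ ^ 2 := by positivity
      refine le_of_mul_le_mul_right ?_ hpr
      calc gsq (fun z => ψ' t z - ψ z) x * (Real.pi * ρ ^ 2)
          ≤ 2 * (P * Real.exp (L * T) * d ^ 2 * (Real.pi * ρ ^ 6)) +
            64 * (κ + κ) ^ 2 * Real.pi * ρ ^ 6 := by linarith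
        _ = c₀ * ρ ^ 4 * (Real.pi * ρ ^ 2) := by rw [hc₀]; ring
    have h7 := norm_fderiv_sq_le (fun z => ψ' t z - ψ z) x
    have h8 : ‖fderiv ℝ (fun z => ψ' t z - ψ z) x‖ ^ 2 ≤ (√(2 * c₀) * ρ ^ 2) ^ 2 := by
      rw [mul_pow, Real.sq_sqrt (by positivity)]
      nlinarith
    exact le_of_sq_le_sq h8 (by positivity)
  intro y hy hψy
  have hinv := (hfl.inv y hy hψy T).1
  have hlag := lagrangian hM hψ hst hfl hsol hT hy hψy (η := 2 * √(2 * c₀) * C * ρ ^ 2)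
    (fun t ht htT x hx hψx => by
      refine (abs_pb_le _ _ _).trans ?_
      have h1 := hpt t ht htT x hx hψx
      have h2 := (hn t ht).norm_fderiv_le hx
      calc 2 * ‖fderiv ℝ (fun z => ψ' t z - ψ z) x‖ * ‖fderiv ℝ (w t) x‖
          ≤ 2 * (√(2 * c₀) * ρ ^ 2) * C := by gcongr
        _ = _ := by ring)
  rw [hini _ hinv, add_sub_cancel_left] at hlag
  refine hlag.trans ?_
  calc T * (2 * √(2 * c₀) * C * ρ ^ 2) = (c₁ * r ^ ((1 - α) / 3)) * r ^ (1 + α) := by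
        rw [hρ2, hc₁]; ring
    _ ≤ η * r ^ (1 + α) := mul_le_mul_of_nonneg_right hr5 (Real.rpow_nonneg hr1.le _)

end Pool.Agent.YUD
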