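import Pool.Agent.YUD.C5

/-!
# [YUD] C6: Koch's bound

PROOF. `β, D` from `exists_bump`, `d = δ/(2D)`. `C ≥ 0` (`UB` at `w₀ = ws`, `normLe_const 0`, `NormLe.nonneg`). CLAIM: for `T ≥ 0`, `y ∈ M`, `ψ y ∈ Icc a b`, `B = fderiv ℝ (Φ T) y`
(`Φ T` is differentiable: `hfl.cdΦ`), `k` with `1 ≤ ‖B k‖`: `d ≤ 2 C ‖k‖^{1+α}`. Let `η > 0`. `small_error` (on `Icc a₁ b₁`) with `x₀ = Φ T y` and `r → 0+`: `f = f_r`. For small `r`, the points `y ± r k` are in
`{x ∈ M : ψ x ∈ Icc a₁ b₁}` (open condition near `y`, as `a₁ < a ≤ ψ y ≤ b < b₁`) and in a ball around `y` inside `M`. By `NormLe.holder` and the mean value theorem on the ball,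
`|f(y ± rk) - f(y) ∓ r Df(y) k| ≤ 2C (r‖k‖)^{1+α}`, so `|f(y+rk) + f(y-rk) - 2 f(y)| ≤ 4 C (r‖k‖)^{1+α}`. With
`|f(z) - d r^{1+α} β((1/r)(Φ T z - x₀))| ≤ η r^{1+α}` at the three points, `β(0) = 1`, divide by `r^{1+α}`:
`2d ≤ d β(q₊) + d β(q₋) + 4η + 4 C ‖k‖^{1+α}`, `q_± = (1/r)(Φ T (y ± rk) - Φ T y) → ± B k` as `r → 0+`, and `β(±Bk) = 0`, `β` continuous. So
`2d ≤ 4η + 4C‖k‖^{1+α}`; `η → 0`: `d ≤ 2 C ‖k‖^{1+α}`.
Conclusion: for `k` with `B k ≠ 0` apply the claim to `k/‖B k‖`: `d ≤ 2C (‖k‖/‖Bk‖)^{1+α}`, so `C > 0` and `‖Bk‖ ≤ (2C/d)^{1/(1+α)} ‖k‖`. `c = (2C/d)^{1/(1+α)}` (`≥ 0`, so it also works if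
`B k = 0`).
-/

open MeasureTheory Set Filter Topology
open scoped ContDiff

namespace Pool.Agent.YUD

variable {M : Set ℂ} {α : ℝ}

theorem koch_second_diff (hM : IsOpen M) (hα0 : 0 < α) {A : ℝ} {f : ℂ → ℝ} (hf : NormLe M α A f)
    {y h : ℂ} {ρ : ℝ} (hρ : Metric.ball y ρ ⊆ M) (hh : ‖h‖ < ρ) :
    |f (y + h) + f (y - h) - 2 * f y| ≤ 2 * A * ‖h‖ ^ (1 + α) := by
  have hA := hf.nonneg
  have hρ0 : 0 < ρ := (norm_nonneg h).trans_lt hh
  have hsub : Metric.closedBall y ‖h‖ ⊆ M := (Metric.closedBall_subset_ball hh).trans hρ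
  have key : ∀ z ∈ Metric.closedBall y ‖h‖,
      ‖f z - f y - fderiv ℝ f y (z - y)‖ ≤ A * ‖h‖ ^ α * ‖z - y‖ := by
    intro z hz
    refine Convex.norm_image_sub_le_of_norm_fderiv_le' (s := Metric.closedBall y ‖h‖)
      (fun x hx => hf.differentiableAt hM (hsub hx)) (fun x hx => ?_) (convex_closedBall _ _)
      (Metric.mem_closedBall_self (norm_nonneg _)) hz
    refine (hf.holder (hsub hx) (hρ (Metric.mem_ball_self hρ0))).trans ?_
    have : ‖x - y‖ ≤ ‖h‖ := by rwa [Metric.mem_closedBall, dist_eq_norm] at hx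
    exact mul_le_mul_of_nonneg_left (Real.rpow_le_rpow (norm_nonneg _) this hα0.le) hA
  have e : ‖h‖ ^ (1 + α) = ‖h‖ ^ α * ‖h‖ := by
    rcases eq_or_ne ‖h‖ 0 with h0 | h0
    · rw [h0, Real.zero_rpow (by positivity), mul_zero]
    · rw [add_comm, Real.rpow_add_one h0]
  have h1 := key (y + h) (by simp)
  have h2 := key (y - h) (by simp)
  simp only [add_sub_cancel_left, sub_sub_cancel_left, map_neg, norm_neg, sub_neg_eq_add,
    Real.norm_eq_abs] at h1 h2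
  rw [abs_le] at h1 h2 ⊢
  rw [e]
  constructor <;> nlinarith [h1.1, h1.2, h2.1, h2.2]

theorem koch (hM : IsOpen M) (hb : Bornology.IsBounded M) (hα0 : 0 < α) (hα1 : α < 1)
    {ws : ℂ → ℝ} {δ C CS : ℝ} (hδ : 0 < δ) (hUB : UB M α ws δ C) (hS : Schauder M α CS)
    {ψ : ℂ → ℝ} (hψ : Stream M ψ) (hst : ∀ x ∈ M, pb ψ (lap ψ) x = 0)
    (hnear : NormLe M α (δ / 2) (fun x => lap ψ x - ws x)) {a₁ a b b₁ : ℝ} (ha : a₁ < a)
    (hb' : b < b₁) (h0 : (0 : ℝ) ∉ Icc a₁ b₁) {V : ℂ → ℂ} {Φ : ℝ → ℂ → ℂ}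
    (hfl : SFlow M ψ a₁ b₁ V Φ) :
    ∃ c, ∀ T, 0 ≤ T → ∀ y ∈ M, ψ y ∈ Icc a b → ∀ k : ℂ, ‖fderiv ℝ (Φ T) y k‖ ≤ c * ‖k‖ := by
  obtain ⟨β, D, hD, hβs, hβ0, hβ1, hβ01, hβb⟩ := exists_bump hα0 hα1
  obtain ⟨d, hd⟩ : ∃ d, d = δ / (2 * D) := ⟨_, rfl⟩
  have hd0 : 0 < d := by rw [hd]; positivity
  have hdD : d * D ≤ δ / 2 := by rw [hd]; apply le_of_eq; field_simp
  have hC : 0 ≤ C := by
    have h1 : NormLe M α δ (fun x => ws x - ws x) :=
      ((normLe_const (M := M) (α := α) 0).mono (by simpa using hδ.le)).congr hM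
        fun x _ => by simp
    obtain ⟨w, ψ', hsol, hini, hn⟩ := hUB ws h1
    exact (hn 0 le_rfl).nonneg
  have hψc := hψ.contDiffOn.continuousOn
  have hβc : Continuous β := hβs.continuous
  -- the claim
  have claim : ∀ T, 0 ≤ T → ∀ y ∈ M, ψ y ∈ Icc a b → ∀ k : ℂ, 1 ≤ ‖fderiv ℝ (Φ T) y k‖ →
      d ≤ 2 * C * ‖k‖ ^ (1 + α) := by
    intro T hT y hy hψy k hk
    have key : ∀ η > 0, 2 * d ≤ 4 * η + 4 * C * ‖k‖ ^ (1 + α) := by
      intro η hη
      obtain ⟨r₀, hr₀, hr⟩ := small_error hM hb hα0 hα1 hδ hUB hS hψ hst hnear h0 hfl hD hβb hd0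
        hdD hT hη
      -- limits of the difference quotients
      have hdiff : DifferentiableAt ℝ (Φ T) y := by
        have h1 : ContDiff ℝ 2 (fun z : ℂ => Φ (T, z).1 (T, z).2) :=
          hfl.cdΦ.comp (contDiff_const.prodMk contDiff_id)
        exact (h1.differentiable (by norm_num)) y
      have hlim : ∀ v : ℂ, Tendsto (fun r : ℝ => (1 / r : ℝ) • (Φ T (y + r • v) - Φ T y)) (𝓝[>] 0)
          (𝓝 (fderiv ℝ (Φ T) y v)) := by
        intro v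
        have h1 : HasDerivAt (fun t : ℝ => Φ T (y + t • v)) (fderiv ℝ (Φ T) y v) 0 :=
          hdiff.hasFDerivAt.hasLineDerivAt v
        have h2 := (hasDerivAt_iff_tendsto_slope_zero.1 h1).mono_left
          (nhdsWithin_mono 0 (fun r (hr : r ∈ Ioi (0:ℝ)) => (ne_of_gt hr : r ≠ 0)))
        simpa using h2
      have l1 := (hβc.tendsto _).comp (hlim k)
      have l2 := (hβc.tendsto _).comp (hlim (-k))
      rw [hβ1 _ hk] at l1
      rw [hβ1 _ (by rwa [map_neg, norm_neg])] at l2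
      have l3 : Tendsto (fun r : ℝ => d * β ((1 / r : ℝ) • (Φ T (y + r • k) - Φ T y)) +
          d * β ((1 / r : ℝ) • (Φ T (y + r • (-k)) - Φ T y)) + 4 * η + 4 * C * ‖k‖ ^ (1 + α))
          (𝓝[>] 0) (𝓝 (d * 0 + d * 0 + 4 * η + 4 * C * ‖k‖ ^ (1 + α))) :=
        (((l1.const_mul d).add (l2.const_mul d)).add_const _).add_const _
      have l4 : d * 0 + d * 0 + 4 * η + 4 * C * ‖k‖ ^ (1 + α) =
          4 * η + 4 * C * ‖k‖ ^ (1 + α) := by ring
      rw [l4] at l3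
      refine ge_of_tendsto l3 ?_
      -- small r
      have hnb : {x | x ∈ M ∧ ψ x ∈ Ioo a₁ b₁} ∈ 𝓝 y := by
        have := hψc.isOpen_inter_preimage hM (isOpen_Ioo (a := a₁) (b := b₁))
        exact this.mem_nhds ⟨hy, ⟨by linarith [hψy.1], by linarith [hψy.2]⟩⟩
      obtain ⟨ρ, hρ, hρ2⟩ := Metric.mem_nhds_iff.1 hnb
      have hsm : ∀ᶠ r : ℝ in 𝓝[>] 0, r * ‖k‖ < ρ := by
        have : Tendsto (fun r : ℝ => r * ‖k‖) (𝓝[>] 0) (𝓝 (0 * ‖k‖)) :=
          (tendsto_id.mul_const _).mono_left nhdsWithin_le_nhds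
        rw [zero_mul] at this
        exact this.eventually (gt_mem_nhds hρ)
      have hsm2 : ∀ᶠ r : ℝ in 𝓝[>] 0, r < r₀ :=
        nhdsWithin_le_nhds (gt_mem_nhds hr₀)
      filter_upwards [hsm, hsm2, self_mem_nhdsWithin] with r hr1 hr2 hr3
      have hr3' : 0 < r := hr3
      obtain ⟨f, hf, hfe⟩ := hr r hr3' hr2 (Φ T y)
      have hnr : ‖r • k‖ < ρ := by rw [norm_smul, Real.norm_eq_abs, abs_of_pos hr3']; exact hr1
      have hsd := koch_second_diff hM hα0 hf (h := r • k)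
        (fun z hz => (hρ2 hz).1 : Metric.ball y ρ ⊆ M) hnr
      have hm1 : y + r • k ∈ Metric.ball y ρ := by simpa [Metric.mem_ball, dist_eq_norm] using hnr
      have hm2 : y + r • (-k) ∈ Metric.ball y ρ := by
        simpa [Metric.mem_ball, dist_eq_norm] using hnr
      have e0 := hfe y hy ⟨by linarith [hψy.1], by linarith [hψy.2]⟩
      have e1 := hfe _ (hρ2 hm1).1 (Ioo_subset_Icc_self (hρ2 hm1).2)
      have e2 := hfe _ (hρ2 hm2).1 (Ioo_subset_Icc_self (hρ2 hm2).2)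
      rw [sub_self, smul_zero, hβ0, mul_one] at e0
      have hyk : y - r • k = y + r • (-k) := by rw [smul_neg, sub_eq_add_neg]
      rw [hyk] at hsd
      have hpow : ‖r • k‖ ^ (1 + α) = r ^ (1 + α) * ‖k‖ ^ (1 + α) := by
        rw [norm_smul, Real.norm_eq_abs, abs_of_pos hr3', Real.mul_rpow hr3'.le (norm_nonneg _)]
      rw [hpow] at hsd
      have hR : 0 < r ^ (1 + α) := Real.rpow_pos_of_pos hr3' _
      have h1 := (abs_le.1 e0).1
      have h2 := (abs_le.1 e1).2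
      have h3 := (abs_le.1 e2).2
      have h4 := (abs_le.1 hsd).1
      have h5 : r ^ (1 + α) * (2 * d) ≤ r ^ (1 + α) *
          (d * β ((1 / r : ℝ) • (Φ T (y + r • k) - Φ T y)) +
          d * β ((1 / r : ℝ) • (Φ T (y + r • (-k)) - Φ T y)) + 4 * η +
          4 * C * ‖k‖ ^ (1 + α)) := by
        nlinarith [h1, h2, h3, h4]
      exact le_of_mul_le_mul_left h5 hR
    by_contra hlt
    push Not at hlt
    have := key ((d - 2 * C * ‖k‖ ^ (1 + α)) / 4) (by linarith)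
    linarith
  -- conclusion
  refine ⟨(2 * C / d) ^ (1 / (1 + α)), fun T hT y hy hψy k => ?_⟩
  rcases eq_or_ne (fderiv ℝ (Φ T) y k) 0 with hz | hz
  · rw [hz, norm_zero]; positivity
  · have hn : 0 < ‖fderiv ℝ (Φ T) y k‖ := norm_pos_iff.2 hz
    have h1 := claim T hT y hy hψy ((1 / ‖fderiv ℝ (Φ T) y k‖ : ℝ) • k) (by
      rw [map_smul, norm_smul, Real.norm_eq_abs, abs_of_pos (by positivity), one_div,
        inv_mul_cancel₀ hn.ne'])
    rw [norm_smul, Real.norm_eq_abs, abs_of_pos (by positivity)] at h1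
    set N := ‖fderiv ℝ (Φ T) y k‖ with hN
    -- `d ≤ 2 C (‖k‖/N)^(1+α)`
    have hk0 : 0 ≤ 1 / N * ‖k‖ := by positivity
    have h2 : 1 ≤ 2 * C / d * (1 / N * ‖k‖) ^ (1 + α) := by
      rw [div_mul_eq_mul_div, le_div_iff₀ hd0, one_mul]; exact h1
    have h3 : 1 ≤ (2 * C / d) ^ (1 / (1 + α)) * (1 / N * ‖k‖) := by
      have h4 := Real.rpow_le_rpow zero_le_one h2 (z := 1 / (1 + α)) (by positivity)
      rw [Real.one_rpow, Real.mul_rpow (by positivity) (by positivity), ← Real.rpow_mul hk0,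
        mul_one_div_cancel (by positivity), Real.rpow_one] at h4
      exact h4
    calc N = N * 1 := (mul_one _).symm
      _ ≤ N * ((2 * C / d) ^ (1 / (1 + α)) * (1 / N * ‖k‖)) := by gcongr
      _ = (2 * C / d) ^ (1 / (1 + α)) * ‖k‖ := by field_simp

end Pool.Agent.YUD
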