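import Pool.Agent.Lib.helper99.Flow
import Pool.Agent.PFL.A9

/-!
# [YUD] D1: the global flow of a `C²` vector field of compact support

PROOF. `Pool/Agent/Lib/helper99/Flow.lean` (read its header and `Conn`, `Sol`, `fl`, `Conn.smoothAt`, `exists_uniform_time`, `exists_blowup`) with `Ω = univ`. Global existence: `V` is bounded and Lipschitz
(`ContDiff.lipschitzWith_of_hasCompactSupport`), so solutions exist for all times (either `exists_blowup` is contradicted by the bound `|V| ≤ L`, or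
`PFL.exists_sol_compact` in `Pool/Agent/PFL/A9.lean` on `[0,T]` and for `-V` on `[-T,0]`, or Picard-Lindelof directly), i.e. `∀ y t, ∃ v, Conn V univ y t v`. Put `Φ t y = fl V univ (t, y)`.
`Conn.smoothAt` with `m = 2` gives that it is `C²` near every point (it coincides with a `C²` function locally by `Conn.unique`; copy `Conn.contDiffAt_fl`). `Φ 0 y = y`: `conn_zero`, `Conn.fl_eq`.
ODE: `Conn.hasDerivAt_fl`. Group law: `Conn.trans`, `Conn.unique`.
-/

open Set Filter Topology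
open scoped ContDiff

namespace Pool.Agent.YUD

theorem D1_const {V : ℂ → ℂ} {v : ℂ} (hv : V v = 0) (s : ℝ) : H99.Conn V univ v s v := by
  refine ⟨fun _ => v, -|s| - 1, |s| + 1, by linarith [abs_nonneg s], by linarith [abs_nonneg s],
    by linarith [neg_abs_le s], by linarith [le_abs_self s], rfl, rfl, ?_⟩
  intro τ _
  refine ⟨mem_univ _, ?_⟩
  rw [hv]
  exact hasDerivAt_const τ v

theorem D1_conn {V : ℂ → ℂ} (hV : ContDiff ℝ 2 V) (hc : HasCompactSupport V) (t : ℝ) (y : ℂ) :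
    ∃ v, H99.Conn V univ y t v := by
  have hV1 : ContDiffOn ℝ 1 V univ := (hV.of_le (by norm_num)).contDiffOn
  obtain ⟨ε, hε, h⟩ := H99.exists_uniform_time isOpen_univ hV1 (K := tsupport V) hc (subset_univ _)
  have hall : ∀ v : ℂ, ∀ s ∈ Ioo (-ε) ε, ∃ w, H99.Conn V univ v s w := by
    intro v s hs
    by_cases hv : v ∈ tsupport V
    · exact h v hv s hs
    · exact ⟨v, D1_const (image_eq_zero_of_notMem_tsupport hv) s⟩
  have hstep : ∀ τ ∈ Ioo (-ε) ε, ∀ n : ℕ, ∃ w, H99.Conn V univ y (n * τ) w := by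
    intro τ hτ n
    induction n with
    | zero =>
      refine ⟨y, ?_⟩
      rw [Nat.cast_zero, zero_mul]
      exact H99.conn_zero isOpen_univ hV1 (mem_univ y)
    | succ n ih =>
      obtain ⟨w, hw⟩ := ih
      obtain ⟨w', hw'⟩ := hall w τ hτ
      refine ⟨w', ?_⟩
      have h1 := hw.trans isOpen_univ hV1 hw'
      have e : ((n + 1 : ℕ) : ℝ) * τ = n * τ + τ := by push_cast; ring
      rw [e]
      exact h1
  obtain ⟨n, hn⟩ := exists_nat_gt (|t| / ε)
  have hn0 : (0 : ℝ) < n := lt_of_le_of_lt (by positivity) hn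
  have hτ : |t / n| < ε := by
    rw [abs_div, abs_of_pos hn0, div_lt_iff₀ hn0]
    rw [div_lt_iff₀ hε] at hn
    linarith
  rw [abs_lt] at hτ
  obtain ⟨w, hw⟩ := hstep (t / n) ⟨hτ.1, hτ.2⟩ n
  rw [mul_div_cancel₀ _ hn0.ne'] at hw
  exact ⟨w, hw⟩

theorem exists_flow {V : ℂ → ℂ} (hV : ContDiff ℝ 2 V) (hc : HasCompactSupport V) :
    ∃ Φ : ℝ → ℂ → ℂ, ContDiff ℝ 2 (fun p : ℝ × ℂ => Φ p.1 p.2) ∧ (∀ y, Φ 0 y = y) ∧
      (∀ t y, HasDerivAt (fun s => Φ s y) (V (Φ t y)) t) ∧
      ∀ s t y, Φ (s + t) y = Φ s (Φ t y) := by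
  have hV1 : ContDiffOn ℝ 1 V univ := (hV.of_le (by norm_num)).contDiffOn
  have hV2 : ContDiffOn ℝ (2 : ℕ) V univ := by
    have h := hV.contDiffOn (s := univ)
    exact_mod_cast h
  have hcn : ∀ (t : ℝ) (y : ℂ), H99.Conn V univ y t (H99.fl V univ (t, y)) := fun t y =>
    H99.conn_fl (p := (t, y)) (D1_conn hV hc t y)
  refine ⟨fun t y => H99.fl V univ (t, y), ?_, ?_, ?_, ?_⟩
  · rw [contDiff_iff_contDiffAt]
    rintro ⟨t, y⟩
    obtain ⟨f, h1, h2⟩ := (hcn t y).smoothAt isOpen_univ 2 two_ne_zero hV2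
    have h3 : (fun p : ℝ × ℂ => H99.fl V univ (p.1, p.2)) =ᶠ[𝓝 (t, y)] f := by
      filter_upwards [h2] with p hp
      exact hp.fl_eq isOpen_univ hV1
    have h4 : ContDiffAt ℝ 2 f (t, y) := by exact_mod_cast h1
    exact h4.congr_of_eventuallyEq h3
  · intro y
    exact (H99.conn_zero isOpen_univ hV1 (mem_univ y)).fl_eq isOpen_univ hV1
  · intro t y
    exact (hcn t y).hasDerivAt_fl isOpen_univ hV1
  · intro s t y
    have h1 := (hcn t y).trans isOpen_univ hV1 (hcn s (H99.fl V univ (t, y)))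
    rw [add_comm t s] at h1
    exact h1.fl_eq isOpen_univ hV1

end Pool.Agent.YUD
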