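import Pool.Agent.YUD.Base2
import Pool.Agent.YUD.D1

/-!
# [YUD] D2: the cut off steady flow

PROOF. If `Icc a b` is empty take any field, e.g. `V = 0`, `Φ t y = y` (all conditions on `Icc a b` are vacuous). Otherwise `m := min |a| |b| > 0` and `|s| ≥ m` for `s ∈ Icc a b`
(`0 ∉ Icc a b`). `Θ(s) = s * Real.smoothTransition (4 (s/m)² - 1)`: smooth, `Θ = 0` for `|s| ≤ m/2`, `Θ(s) = s` for `s² ≥ m²/2`, `|Θ s| ≤ |s|`.
`ψ' = M.indicator (Θ ∘ ψ)`. It is `C³` on `ℂ`: at `x ∈ M` it is locally `Θ ∘ ψ`; it vanishes off the compact `K ⊆ M` from `hψ.zero (m/2)`, so near points off `K` it is `0`. Compact support.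
`V z = ⟨dy ψ' z, - dx ψ' z⟩` is `C²` (`contDiff_dx`, `contDiff_dy`; `ℂ`-valued: combine with `Complex.equivRealProdCLM.symm` or `V = dy ψ' • 1 - dx ψ' • I`), compact support (`HasCompactSupport.fderiv`), divergence free
(`dx (dy ψ') = dy (dx ψ')`, `dx_dy_comm` on `univ`). `Φ` from `exists_flow`. `ψ'` is constant along the flow: `d/dt ψ' (Φ t y) = D ψ' (V (Φ t y)) = dx ψ' dy ψ' - dy ψ' dx ψ' = 0`
(`fderiv_apply'`; `is_const_of_deriv_eq_zero`). Let `y ∈ M`, `s = ψ y ∈ Icc a b`, so `ψ' y = Θ s = s`. For `z = Φ t y`: `ψ' z = s ≠ 0`, so `z ∈ M`, `Θ (ψ z) = s`; `|ψ z| ≥ |Θ (ψ z)| = |s| ≥ m`, so `Θ (ψ z) = ψ z` and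
`ψ z = s`: (`inv`). `eqV`: at `y ∈ M` with `ψ y ∈ Icc a b`, `|ψ y| ≥ m`, so `(ψ z)² > m²/2` for `z` near `y`, `ψ' = ψ` near `y`, hence near such `z` the derivatives agree
(`eventually_eventually_nhds`, `dx_congr_nhds`).
-/

open MeasureTheory Set Filter Topology
open scoped ContDiff

namespace Pool.Agent.YUD

variable {M : Set ℂ}

/-- the cut off function -/
noncomputable def d2_T (m s : ℝ) : ℝ := s * Real.smoothTransition (4 * (s / m) ^ 2 - 1)

theorem d2_T_smooth (m : ℝ) : ContDiff ℝ ∞ (d2_T m) := by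
  unfold d2_T
  refine contDiff_id.mul (Real.smoothTransition.contDiff.comp ?_)
  exact (contDiff_const.mul ((contDiff_id.div_const m).pow 2)).sub contDiff_const

theorem d2_T_le (m s : ℝ) : |d2_T m s| ≤ |s| := by
  unfold d2_T
  rw [abs_mul, abs_of_nonneg (Real.smoothTransition.nonneg _)]
  exact mul_le_of_le_one_right (abs_nonneg _) (Real.smoothTransition.le_one _)

theorem d2_T_zero {m s : ℝ} (hm : 0 < m) (h : |s| ≤ m / 2) : d2_T m s = 0 := by
  unfold d2_T
  rw [Real.smoothTransition.zero_of_nonpos, mul_zero]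
  have h1 : s ^ 2 ≤ (m / 2) ^ 2 := by
    rw [← sq_abs s]
    exact pow_le_pow_left₀ (abs_nonneg _) h 2
  have h2 : (s / m) ^ 2 ≤ 1 / 4 := by
    rw [div_pow, div_le_iff₀ (by positivity)]
    linarith
  linarith

theorem d2_T_id {m s : ℝ} (hm : 0 < m) (h : m ^ 2 / 2 ≤ s ^ 2) : d2_T m s = s := by
  unfold d2_T
  rw [Real.smoothTransition.one_of_one_le, mul_one]
  have h2 : 1 / 2 ≤ (s / m) ^ 2 := by
    rw [div_pow, le_div_iff₀ (by positivity)]
    linarith
  linarith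

theorem exists_sflow (hM : IsOpen M) {ψ : ℂ → ℝ} (hψ : Stream M ψ) {a b : ℝ}
    (h0 : (0 : ℝ) ∉ Icc a b) : ∃ V Φ, SFlow M ψ a b V Φ := by
  classical
  rcases lt_or_ge b a with hab | hab
  · have hemp : Icc a b = ∅ := Icc_eq_empty (not_le.2 hab)
    refine ⟨fun _ => 0, fun _ y => y, ?_⟩
    refine ⟨contDiff_const, HasCompactSupport.zero, fun x => ?_, contDiff_snd, fun _ => rfl, fun t y => ?_,
      fun _ _ _ => rfl, fun y _ hy => ?_, fun y _ hy => ?_⟩
    · simp only [Complex.zero_re, Complex.zero_im]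
      rw [dx_const, dy_const, add_zero]
    · exact hasDerivAt_const t y
    · rw [hemp] at hy
      exact absurd hy (notMem_empty _)
    · rw [hemp] at hy
      exact absurd hy (notMem_empty _)
  obtain ⟨m, hm, hmab⟩ : ∃ m > 0, ∀ s ∈ Icc a b, m ≤ |s| := by
    have := (isClosed_Icc (a := a) (b := b)).isOpen_compl.mem_nhds h0
    rw [Metric.mem_nhds_iff] at this
    obtain ⟨ε, hε, h⟩ := this
    refine ⟨ε, hε, fun s hs => ?_⟩
    by_contra hlt
    push Not at hlt
    exact h (by simpa using hlt) hs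
  obtain ⟨K, hKM, hKc, hK⟩ := hψ.zero (m / 2) (by positivity)
  set ψ' : ℂ → ℝ := fun z => if z ∈ M then d2_T m (ψ z) else 0 with hψ'
  have hT : ContDiff ℝ 3 (d2_T m) := contDiff_infty.1 (d2_T_smooth m) 3
  have hin : ∀ x ∈ M, ψ' =ᶠ[𝓝 x] fun z => d2_T m (ψ z) := by
    intro x hx
    filter_upwards [hM.mem_nhds hx] with z hz
    simp only [hψ', if_pos hz]
  have hout : ∀ x, x ∉ K → ψ' x = 0 := by
    intro x hx
    by_cases hxM : x ∈ M
    · simp only [hψ', if_pos hxM]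
      exact d2_T_zero hm (hK x hxM hx).le
    · simp only [hψ', if_neg hxM]
  have hcd : ContDiff ℝ 3 ψ' := by
    rw [contDiff_iff_contDiffAt]
    intro x
    by_cases hx : x ∈ M
    · have h1 : ContDiffAt ℝ 3 (fun z => d2_T m (ψ z)) x :=
        hT.contDiffAt.comp x (hψ.contDiffOn.contDiffAt (hM.mem_nhds hx))
      exact h1.congr_of_eventuallyEq (hin x hx)
    · have hxK : x ∉ K := fun h => hx (hKM h)
      have h1 : ψ' =ᶠ[𝓝 x] fun _ => 0 := by
        filter_upwards [hKc.isClosed.isOpen_compl.mem_nhds hxK] with z hz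
        exact hout z hz
      exact contDiffAt_const.congr_of_eventuallyEq h1
  have hcs : HasCompactSupport ψ' := HasCompactSupport.intro hKc fun x hx => hout x hx
  have hcd' : ContDiff ℝ (2 + 1 : ℕ) ψ' := hcd
  have hdx : ContDiff ℝ (2 : ℕ) (dx ψ') := contDiff_dx hcd'
  have hdy : ContDiff ℝ (2 : ℕ) (dy ψ') := contDiff_dy hcd'
  set V : ℂ → ℂ := fun z => ⟨dy ψ' z, - dx ψ' z⟩ with hV
  have hV1 : V = fun z => (dy ψ' z) • (1 : ℂ) - (dx ψ' z) • Complex.I := by
    ext z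
    apply Complex.ext <;> simp [hV]
  have hVcd : ContDiff ℝ 2 V := by
    rw [hV1]
    exact (ContDiff.smul hdy contDiff_const).sub (ContDiff.smul hdx contDiff_const)
  have hVcs : HasCompactSupport V := by
    have h1 : HasCompactSupport (fderiv ℝ ψ') := hcs.fderiv ℝ
    have h2 : V = (fun A : ℂ →L[ℝ] ℝ => (⟨A Complex.I, - A 1⟩ : ℂ)) ∘ fderiv ℝ ψ' := by
      ext z
      rfl
    rw [h2]
    exact h1.comp_left (by simp; rfl)
  obtain ⟨Φ, hΦ, hΦ0, hΦode, hΦgr⟩ := exists_flow hVcd hVcs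
  have hcons : ∀ t y, ψ' (Φ t y) = ψ' y := by
    intro t y
    have hd : ∀ t, HasDerivAt (fun t => ψ' (Φ t y)) 0 t := by
      intro t
      have h1 : HasFDerivAt ψ' (fderiv ℝ ψ' (Φ t y)) (Φ t y) :=
        ((hcd.differentiable (by norm_num)) _).hasFDerivAt
      have h2 := h1.comp_hasDerivAt t (hΦode t y)
      have h3 : fderiv ℝ ψ' (Φ t y) (V (Φ t y)) = 0 := by
        rw [fderiv_apply']
        simp only [hV]
        ring
      rw [h3] at h2
      exact h2
    have h4 := is_const_of_deriv_eq_zero (f := fun t => ψ' (Φ t y)) (fun t => (hd t).differentiableAt)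
      (fun t => (hd t).deriv) t 0
    simp only [hΦ0] at h4
    exact h4
  refine ⟨V, Φ, hVcd, hVcs, fun x => ?_, hΦ, hΦ0, hΦode, hΦgr, fun y hy hys t => ?_, fun y hy hys => ?_⟩
  · have h1 : (fun z => (V z).re) = dy ψ' := rfl
    have h2 : (fun z => (V z).im) = fun z => - dx ψ' z := rfl
    rw [h1, h2, dy_neg, dx_dy_comm isOpen_univ (hcd.of_le (by norm_num)).contDiffOn (mem_univ x)]
    ring
  · have hs : m ≤ |ψ y| := hmab _ hys
    have h1 : ψ' y = ψ y := by
      simp only [hψ', if_pos hy]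
      exact d2_T_id hm (by
        rw [← sq_abs (ψ y)]
        nlinarith)
    have h2 : ψ' (Φ t y) = ψ y := by rw [hcons, h1]
    have hne : ψ y ≠ 0 := fun h => by
      rw [h, abs_zero] at hs
      linarith
    have hzM : Φ t y ∈ M := by
      by_contra hn
      simp only [hψ', if_neg hn] at h2
      exact hne h2.symm
    refine ⟨hzM, ?_⟩
    simp only [hψ', if_pos hzM] at h2
    have h3 : |ψ y| ≤ |ψ (Φ t y)| := by
      rw [← h2]
      exact d2_T_le m _
    have h4 : d2_T m (ψ (Φ t y)) = ψ (Φ t y) := d2_T_id hm (by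
      rw [← sq_abs (ψ (Φ t y))]
      nlinarith)
    rw [← h4, h2]
  · have hs : m ≤ |ψ y| := hmab _ hys
    have hc : ContinuousAt ψ y := hψ.contDiffOn.continuousOn.continuousAt (hM.mem_nhds hy)
    have h1 : ∀ᶠ z in 𝓝 y, m ^ 2 / 2 < ψ z ^ 2 := by
      refine (hc.pow 2).eventually (lt_mem_nhds ?_)
      change m ^ 2 / 2 < ψ y ^ 2
      rw [← sq_abs (ψ y)]
      nlinarith
    have h2 : ψ' =ᶠ[𝓝 y] ψ := by
      filter_upwards [h1, hM.mem_nhds hy] with z hz hzM
      simp only [hψ', if_pos hzM]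
      exact d2_T_id hm hz.le
    have h3 : ∀ᶠ z in 𝓝 y, ψ' =ᶠ[𝓝 z] ψ := eventually_eventually_nhds.2 h2
    filter_upwards [h3] with z hz
    simp only [hV]
    rw [dx_congr_nhds hz, dy_congr_nhds hz]

end Pool.Agent.YUD
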