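import Mathlib

/-!
# [YUD] D3: the variational equation and its uniqueness

PROOFS. (1) `variational`: `Ψ (t, y) = Φ t y` is `C²` on `ℝ × ℂ`, `DΨ (t,y) (1, 0) = V (Φ t y)`, `DΨ (t,y) (0, k) = fderiv ℝ (Φ t) y k` (chain rule along `t ↦ (t,y)`, `y ↦ (t,y)`).
`s ↦ fderiv ℝ (Φ s) y k = DΨ (s,y) (0,k)` has derivative `D²Ψ (t,y) (1,0) (0,k) = D²Ψ (t,y) (0,k) (1,0)` (symmetry: `ContDiffAt.isSymmSndFDerivAt`), which is the derivative at `z = y` in the
direction `k` of `z ↦ DΨ (t,z) (1,0) = V (Φ t z)`, i.e. `fderiv ℝ V (Φ t y) (fderiv ℝ (Φ t) y k)` (chain rule). At `t = 0`, `Φ 0 = id`.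
(2) `variational_unique`: `e t = b t - fderiv ℝ (Φ t) y k` solves the linear equation `e' = A(t) e`, `e 0 = 0`, with `‖A t‖ = ‖fderiv ℝ V (Φ t y)‖ ≤ K` (`V` is `C²` of compact support, so `DV` is bounded); use
`ODE_solution_unique_univ`-type theorems (`Mathlib/Analysis/ODE/Gronwall.lean`) with `v t = A t`, Lipschitz constant `K`.
-/

open MeasureTheory Set Filter Topology
open scoped ContDiff

namespace Pool.Agent.YUD

variable {V : ℂ → ℂ} {Φ : ℝ → ℂ → ℂ}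

theorem D3_apply (hΦ : ContDiff ℝ 2 (fun p : ℝ × ℂ => Φ p.1 p.2)) (t : ℝ) (y k : ℂ) :
    fderiv ℝ (Φ t) y k = fderiv ℝ (fun p : ℝ × ℂ => Φ p.1 p.2) (t, y) (0, k) := by
  have h1 : HasFDerivAt (fun p : ℝ × ℂ => Φ p.1 p.2) (fderiv ℝ (fun p : ℝ × ℂ => Φ p.1 p.2) (t, y)) (t, y) :=
    (hΦ.differentiable two_ne_zero (t, y)).hasFDerivAt
  have h2 : HasFDerivAt (fun z : ℂ => ((t, z) : ℝ × ℂ)) (ContinuousLinearMap.inr ℝ ℝ ℂ) y :=
    hasFDerivAt_prodMk_right t y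
  have h3 : HasFDerivAt (Φ t) ((fderiv ℝ (fun p : ℝ × ℂ => Φ p.1 p.2) (t, y)).comp
      (ContinuousLinearMap.inr ℝ ℝ ℂ)) y := h1.comp y h2
  rw [h3.fderiv]
  rfl

/-- the time derivative -/
theorem D3_time (hΦ : ContDiff ℝ 2 (fun p : ℝ × ℂ => Φ p.1 p.2))
    (hode : ∀ t y, HasDerivAt (fun s => Φ s y) (V (Φ t y)) t) (t : ℝ) (y : ℂ) :
    fderiv ℝ (fun p : ℝ × ℂ => Φ p.1 p.2) (t, y) (1, 0) = V (Φ t y) := by
  have h1 : HasFDerivAt (fun p : ℝ × ℂ => Φ p.1 p.2) (fderiv ℝ (fun p : ℝ × ℂ => Φ p.1 p.2) (t, y)) (t, y) :=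
    (hΦ.differentiable two_ne_zero (t, y)).hasFDerivAt
  have h2 : HasDerivAt (fun s : ℝ => ((s, y) : ℝ × ℂ)) (1, 0) t :=
    (hasDerivAt_id t).prodMk (hasDerivAt_const t y)
  have h3 := HasFDerivAt.comp_hasDerivAt t (f := fun s : ℝ => ((s, y) : ℝ × ℂ)) h1 h2
  exact HasDerivAt.unique h3 (hode t y)

theorem variational (hV : ContDiff ℝ 2 V) (hΦ : ContDiff ℝ 2 (fun p : ℝ × ℂ => Φ p.1 p.2))
    (h0 : ∀ y, Φ 0 y = y) (hode : ∀ t y, HasDerivAt (fun s => Φ s y) (V (Φ t y)) t) (y k : ℂ) :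
    fderiv ℝ (Φ 0) y k = k ∧ ∀ t, HasDerivAt (fun s => fderiv ℝ (Φ s) y k)
      (fderiv ℝ V (Φ t y) (fderiv ℝ (Φ t) y k)) t := by
  refine ⟨?_, fun t => ?_⟩
  · have h1 : Φ 0 = fun y => y := funext h0
    rw [h1, fderiv_fun_id]
    rfl
  · set DΨ := fderiv ℝ (fun p : ℝ × ℂ => Φ p.1 p.2) with hDΨ
    have hD : ContDiff ℝ 1 DΨ := hΦ.fderiv_right (by norm_num)
    have hB : HasFDerivAt DΨ (fderiv ℝ DΨ (t, y)) (t, y) :=
      (hD.differentiable one_ne_zero (t, y)).hasFDerivAt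
    have hsym : IsSymmSndFDerivAt ℝ (fun p : ℝ × ℂ => Φ p.1 p.2) (t, y) :=
      hΦ.contDiffAt.isSymmSndFDerivAt (by simp)
    -- the time derivative of the space derivative
    have h2 : HasDerivAt (fun s : ℝ => ((s, y) : ℝ × ℂ)) (1, 0) t :=
      (hasDerivAt_id t).prodMk (hasDerivAt_const t y)
    have h3 : HasDerivAt (fun s : ℝ => DΨ (s, y)) (fderiv ℝ DΨ (t, y) (1, 0)) t :=
      hB.comp_hasDerivAt t h2
    have h4 : HasDerivAt (fun s : ℝ => DΨ (s, y) (0, k)) (fderiv ℝ DΨ (t, y) (1, 0) (0, k)) t := by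
      have := h3.clm_apply (hasDerivAt_const t ((0, k) : ℝ × ℂ))
      simpa using this
    -- the space derivative of the time derivative
    have h5 : HasDerivAt (fun r : ℝ => ((t, y + r • k) : ℝ × ℂ)) (0, k) 0 := by
      have h6 : HasDerivAt (fun r : ℝ => y + r • k) k 0 := by
        simpa using ((hasDerivAt_id (0 : ℝ)).smul_const k).const_add y
      exact (hasDerivAt_const (0 : ℝ) t).prodMk h6
    have hB' : HasFDerivAt DΨ (fderiv ℝ DΨ (t, y)) (t, y + (0 : ℝ) • k) := by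
      simpa using hB
    have h7 : HasDerivAt (fun r : ℝ => DΨ (t, y + r • k)) (fderiv ℝ DΨ (t, y) (0, k)) 0 :=
      HasFDerivAt.comp_hasDerivAt (0 : ℝ) (f := fun r : ℝ => ((t, y + r • k) : ℝ × ℂ)) hB' h5
    have h8 : HasDerivAt (fun r : ℝ => DΨ (t, y + r • k) (1, 0)) (fderiv ℝ DΨ (t, y) (0, k) (1, 0)) 0 := by
      have := h7.clm_apply (hasDerivAt_const (0 : ℝ) ((1, 0) : ℝ × ℂ))
      simpa using this
    have h9 : (fun r : ℝ => DΨ (t, y + r • k) (1, 0)) = fun r => V (Φ t (y + r • k)) := by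
      funext r
      exact D3_time hΦ hode t _
    rw [h9] at h8
    have h10 : HasFDerivAt (fun z => V (Φ t z)) ((fderiv ℝ V (Φ t y)).comp (fderiv ℝ (Φ t) y)) y := by
      have e1 : ContDiff ℝ 2 (Φ t) := hΦ.comp (contDiff_const.prodMk contDiff_id)
      exact ((hV.differentiable two_ne_zero (Φ t y)).hasFDerivAt).comp y
        ((e1.differentiable two_ne_zero y).hasFDerivAt)
    have h11 : HasDerivAt (fun r : ℝ => V (Φ t (y + r • k))) (fderiv ℝ V (Φ t y) (fderiv ℝ (Φ t) y k)) 0 := by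
      have h6 : HasDerivAt (fun r : ℝ => y + r • k) k 0 := by
        simpa using ((hasDerivAt_id (0 : ℝ)).smul_const k).const_add y
      have h10' : HasFDerivAt (fun z => V (Φ t z)) ((fderiv ℝ V (Φ t y)).comp (fderiv ℝ (Φ t) y))
          (y + (0 : ℝ) • k) := by simpa using h10
      exact HasFDerivAt.comp_hasDerivAt (0 : ℝ) (f := fun r : ℝ => y + r • k) h10' h6
    have h12 := h8.unique h11
    have h13 : (fun s => fderiv ℝ (Φ s) y k) = fun s => DΨ (s, y) (0, k) :=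
      funext fun s => D3_apply hΦ s y k
    rw [h13, ← h12]
    have h14 : fderiv ℝ DΨ (t, y) (0, k) (1, 0) = fderiv ℝ DΨ (t, y) (1, 0) (0, k) :=
      hsym (0, k) (1, 0)
    rw [h14]
    exact h4

theorem variational_unique (hV : ContDiff ℝ 2 V) (hc : HasCompactSupport V)
    (hΦ : ContDiff ℝ 2 (fun p : ℝ × ℂ => Φ p.1 p.2))
    (h0 : ∀ y, Φ 0 y = y) (hode : ∀ t y, HasDerivAt (fun s => Φ s y) (V (Φ t y)) t) {y k : ℂ}
    {b : ℝ → ℂ} (hb : ∀ t, HasDerivAt b (fderiv ℝ V (Φ t y) (b t)) t) (hb0 : b 0 = k) :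
    ∀ t, b t = fderiv ℝ (Φ t) y k := by
  obtain ⟨h1, h2⟩ := variational hV hΦ h0 hode y k
  obtain ⟨C, hC⟩ := (hV.continuous_fderiv two_ne_zero).bounded_above_of_compact_support (hc.fderiv ℝ)
  have hC0 : 0 ≤ C := (norm_nonneg _).trans (hC 0)
  have hlip : ∀ t, LipschitzOnWith C.toNNReal (fun x : ℂ => fderiv ℝ V (Φ t y) x) Set.univ := by
    intro t
    refine LipschitzWith.lipschitzOnWith ?_
    refine (fderiv ℝ V (Φ t y)).lipschitz.weaken ?_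
    rw [← NNReal.coe_le_coe, Real.coe_toNNReal _ hC0]
    exact hC _
  have h3 := ODE_solution_unique_univ (t₀ := 0) hlip (fun t => ⟨hb t, mem_univ _⟩)
    (fun t => ⟨h2 t, mem_univ _⟩) (by rw [hb0]; exact h1.symm)
  intro t
  exact congrFun h3 t

end Pool.Agent.YUD
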