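import Mathlib

/-!
# [YUD] D4: the flow of a divergence free field preserves area

PROOF. See (3) in the header of `D3.lean`: `I(t) = ∫ g (Φ t y) dy`. `g ∘ Φ t` is `C¹` with compact support (`Φ t` is a homeomorphism with inverse `Φ (-t)`, from the group law: the support is in the compact
`Φ (-t) '' (tsupport g)`). `I` is differentiable with
`I'(t) = ∫ D(g ∘ Φ t)(y) (V y) dy`: `∂_t (g (Φ t y)) = Dg(Φ t y)(V (Φ t y))` and
`Dg(Φ t y)(V(Φ t y)) = D(g∘Φ t)(y)(V y)` because `V (Φ t y) = DΦ_t(y) (V y)` (differentiate `Φ (s+t) y = Φ s (Φ t y)` and `Φ (t+s) y = Φ t (Φ s y)` at `s = 0`). (Differentiation under the integral: `(t,y) ↦ g (Φ t y)` is `C¹`; for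
`|t| ≤ T` it vanishes off the compact image of `[-T,T] × tsupport g` under `(t,z) ↦ Φ (-t) z`; `hasDerivAt_integral_of_dominated_loc_of_deriv_le`.) With `h = g ∘ Φ t`, `V = (P, Q)`:
`∫ (h_x P + h_y Q) = ∫ (∂_x (h P) + ∂_y (h Q)) - ∫ h (P_x + Q_y) = 0` (integrals of derivatives of `C¹` functions of compact support vanish, or directly
`integral_mul_fderiv_eq_neg_fderiv_mul_of_integrable`). So `I` is constant, `I(t) = I(0) = ∫ g`.
-/

open MeasureTheory Set Filter Topology
open scoped ContDiff

namespace Pool.Agent.YUD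

variable {V : ℂ → ℂ} {Φ : ℝ → ℂ → ℂ}

/-- `∫ Dh · V = 0` for a `C¹` function `h` of compact support and a divergence free field `V`. -/
theorem integral_fderiv_field (hV : ContDiff ℝ 2 V) (hc : HasCompactSupport V)
    (hdiv : ∀ x, fderiv ℝ (fun z => (V z).re) x 1 + fderiv ℝ (fun z => (V z).im) x Complex.I = 0)
    {h : ℂ → ℝ} (hh : ContDiff ℝ 1 h) (hhc : HasCompactSupport h) :
    ∫ y, fderiv ℝ h y (V y) = 0 := by
  have hP : ContDiff ℝ 2 (fun z => (V z).re) := Complex.reCLM.contDiff.comp hV
  have hQ : ContDiff ℝ 2 (fun z => (V z).im) := Complex.imCLM.contDiff.comp hV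
  have hPc : HasCompactSupport (fun z => (V z).re) := hc.comp_left (g := Complex.re) rfl
  have hQc : HasCompactSupport (fun z => (V z).im) := hc.comp_left (g := Complex.im) rfl
  have hdh : Continuous (fderiv ℝ h) := hh.continuous_fderiv one_ne_zero
  have hdP : Continuous (fderiv ℝ (fun z => (V z).re)) := hP.continuous_fderiv (by norm_num)
  have hdQ : Continuous (fderiv ℝ (fun z => (V z).im)) := hQ.continuous_fderiv (by norm_num)
  -- the two integrations by parts
  have key : ∀ (P : ℂ → ℝ) (v : ℂ), ContDiff ℝ 2 P → HasCompactSupport P →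
      Integrable (fun x => P x * fderiv ℝ h x v) ∧
      Integrable (fun x => fderiv ℝ P x v * h x) ∧
      ∫ x, P x * fderiv ℝ h x v = - ∫ x, fderiv ℝ P x v * h x := by
    intro P v hP hPc
    have hdP : Continuous (fderiv ℝ P) := hP.continuous_fderiv (by norm_num)
    have i1 : Integrable (fun x => P x * fderiv ℝ h x v) :=
      (hP.continuous.mul (hdh.clm_apply continuous_const)).integrable_of_hasCompactSupport
        hPc.mul_right
    have i2 : Integrable (fun x => fderiv ℝ P x v * h x) :=
      ((hdP.clm_apply continuous_const).mul hh.continuous).integrable_of_hasCompactSupport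
        hhc.mul_left
    have i3 : Integrable (fun x => P x * h x) :=
      (hP.continuous.mul hh.continuous).integrable_of_hasCompactSupport hPc.mul_right
    exact ⟨i1, i2, integral_mul_fderiv_eq_neg_fderiv_mul_of_integrable i2 i1 i3
      (fun x _ => (hP.differentiable (by norm_num)) x)
      (fun x _ => (hh.differentiable (by norm_num)) x)⟩
  obtain ⟨a1, a2, a3⟩ := key (fun z => (V z).re) 1 hP hPc
  obtain ⟨b1, b2, b3⟩ := key (fun z => (V z).im) Complex.I hQ hQc
  have e1 : ∀ y, fderiv ℝ h y (V y)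
      = (V y).re * fderiv ℝ h y 1 + (V y).im * fderiv ℝ h y Complex.I := by
    intro y
    have : V y = (V y).re • (1 : ℂ) + (V y).im • Complex.I := by
      apply Complex.ext <;> simp
    conv_lhs => rw [this]
    rw [map_add, map_smul, map_smul, smul_eq_mul, smul_eq_mul]
  simp_rw [e1]
  rw [integral_add a1 b1, a3, b3, ← neg_add, ← integral_add a2 b2]
  have : ∀ x, fderiv ℝ (fun z => (V z).re) x 1 * h x
      + fderiv ℝ (fun z => (V z).im) x Complex.I * h x = 0 := by
    intro x
    rw [← add_mul, hdiv x, zero_mul]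
  simp_rw [this]
  simp

/-- The derivative at `s = 0` of `s ↦ ∫ h (Φ s y) dy`. -/
theorem flow_integral_deriv_zero (hV : ContDiff ℝ 2 V) (hc : HasCompactSupport V)
    (hdiv : ∀ x, fderiv ℝ (fun z => (V z).re) x 1 + fderiv ℝ (fun z => (V z).im) x Complex.I = 0)
    (hΦ : ContDiff ℝ 2 (fun p : ℝ × ℂ => Φ p.1 p.2)) (h0 : ∀ y, Φ 0 y = y)
    (hode : ∀ t y, HasDerivAt (fun s => Φ s y) (V (Φ t y)) t)
    (hgr : ∀ s t y, Φ (s + t) y = Φ s (Φ t y)) {h : ℂ → ℝ} (hh : ContDiff ℝ 1 h)
    (hhc : HasCompactSupport h) : HasDerivAt (fun s => ∫ y, h (Φ s y)) 0 0 := by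
  have hΦc : Continuous (fun p : ℝ × ℂ => Φ p.1 p.2) := hΦ.continuous
  have hdh : Continuous (fderiv ℝ h) := hh.continuous_fderiv one_ne_zero
  -- compact set containing the supports
  set K : Set ℂ := (fun p : ℝ × ℂ => Φ (-p.1) p.2) '' (Icc (-1 : ℝ) 1 ×ˢ tsupport h) with hK
  have hKc : IsCompact K := by
    apply (isCompact_Icc.prod hhc.isCompact).image
    exact hΦc.comp ((continuous_fst.neg).prodMk continuous_snd)
  have hoff : ∀ s ∈ Icc (-1 : ℝ) 1, ∀ y ∉ K, Φ s y ∉ tsupport h := by
    intro s hs y hy hmem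
    apply hy
    refine ⟨(s, Φ s y), ⟨hs, hmem⟩, ?_⟩
    show Φ (-s) (Φ s y) = y
    rw [← hgr, neg_add_cancel, h0]
  -- bound for the derivative
  obtain ⟨C, hC⟩ : ∃ C, ∀ z, ‖fderiv ℝ h z (V z)‖ ≤ C := by
    have hcont : Continuous (fun z => fderiv ℝ h z (V z)) := hdh.clm_apply hV.continuous
    have hcs : HasCompactSupport (fun z => fderiv ℝ h z (V z)) := by
      apply HasCompactSupport.intro hc
      intro x hx
      rw [image_eq_zero_of_notMem_tsupport hx, map_zero]
    exact hcont.bounded_above_of_compact_support hcs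
  have hres := hasDerivAt_integral_of_dominated_loc_of_deriv_le (μ := volume)
    (F := fun s y => h (Φ s y)) (F' := fun s y => fderiv ℝ h (Φ s y) (V (Φ s y)))
    (x₀ := (0 : ℝ)) (s := Icc (-1 : ℝ) 1) (bound := K.indicator (fun _ => C))
    (Icc_mem_nhds (by norm_num) (by norm_num))
    (Eventually.of_forall fun s =>
      (hh.continuous.comp (hΦc.comp (continuous_const.prodMk continuous_id))).aestronglyMeasurable)
    (by
      simp only [h0]
      exact hh.continuous.integrable_of_hasCompactSupport hhc)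
    (by
      simp only [h0]
      exact (hdh.clm_apply hV.continuous).aestronglyMeasurable)
    (Eventually.of_forall fun y s hs => by
      by_cases hy : y ∈ K
      · rw [indicator_of_mem hy]
        exact hC _
      · rw [indicator_of_notMem hy]
        have h1 := hoff s hs y hy
        have h2 : fderiv ℝ h (Φ s y) = 0 := by
          by_contra hne
          exact h1 (support_fderiv_subset ℝ hne)
        rw [h2]
        simp)
    ((integrable_indicator_iff hKc.measurableSet).2
      (integrableOn_const hKc.measure_lt_top.ne))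
    (Eventually.of_forall fun y s hs => by
      have h1 : HasFDerivAt h (fderiv ℝ h (Φ s y)) (Φ s y) :=
        ((hh.differentiable (by norm_num)) _).hasFDerivAt
      exact h1.comp_hasDerivAt s (hode s y))
  have h3 := hres.2
  simp only [h0] at h3
  rw [integral_fderiv_field hV hc hdiv hh hhc] at h3
  exact h3

theorem flow_integral (hV : ContDiff ℝ 2 V) (hc : HasCompactSupport V)
    (hdiv : ∀ x, fderiv ℝ (fun z => (V z).re) x 1 + fderiv ℝ (fun z => (V z).im) x Complex.I = 0)
    (hΦ : ContDiff ℝ 2 (fun p : ℝ × ℂ => Φ p.1 p.2)) (h0 : ∀ y, Φ 0 y = y)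
    (hode : ∀ t y, HasDerivAt (fun s => Φ s y) (V (Φ t y)) t)
    (hgr : ∀ s t y, Φ (s + t) y = Φ s (Φ t y)) {g : ℂ → ℝ} (hg : ContDiff ℝ 1 g)
    (hgc : HasCompactSupport g) (t : ℝ) : ∫ y, g (Φ t y) = ∫ y, g y := by
  have hΦc : Continuous (fun p : ℝ × ℂ => Φ p.1 p.2) := hΦ.continuous
  have hder : ∀ t : ℝ, HasDerivAt (fun s => ∫ y, g (Φ s y)) 0 t := by
    intro t
    -- the function `g ∘ Φ t`
    have hh : ContDiff ℝ 1 (fun y => g (Φ t y)) := by
      have h1 : ContDiff ℝ 1 (fun y : ℂ => Φ t y) :=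
        (hΦ.of_le (by norm_num)).comp (contDiff_const.prodMk contDiff_id)
      exact hg.comp h1
    have hhc : HasCompactSupport (fun y => g (Φ t y)) := by
      have hK : IsCompact ((fun z => Φ (-t) z) '' tsupport g) :=
        hgc.isCompact.image (hΦc.comp (continuous_const.prodMk continuous_id))
      apply HasCompactSupport.intro hK
      intro x hx
      by_contra hne
      apply hx
      refine ⟨Φ t x, subset_tsupport _ hne, ?_⟩
      show Φ (-t) (Φ t x) = x
      rw [← hgr, neg_add_cancel, h0]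
    have h1 := flow_integral_deriv_zero hV hc hdiv hΦ h0 hode hgr hh hhc
    -- shift
    have h2 : (fun s => ∫ y, g (Φ s y)) = fun s => (fun r => ∫ y, g (Φ t (Φ r y))) (s - t) := by
      funext s
      have : ∀ y, Φ s y = Φ t (Φ (s - t) y) := by
        intro y
        rw [← hgr, add_sub_cancel]
      simp_rw [this]
    rw [h2]
    have h3 : HasDerivAt (fun r => ∫ y, g (Φ t (Φ r y))) 0 (t - t) := by
      rw [sub_self]; exact h1
    have h4 := HasDerivAt.comp t (h := fun s : ℝ => s - t) h3 ((hasDerivAt_id t).sub_const t)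
    simpa [Function.comp_def] using h4
  have h5 := is_const_of_deriv_eq_zero (f := fun s => ∫ y, g (Φ s y))
    (fun t => (hder t).differentiableAt) (fun t => (hder t).deriv) t 0
  simpa only [h0] using h5

end Pool.Agent.YUD
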