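import Mathlib

/-!
# [YUD] Norm inflation in `C^{1,α}` near steady states of the 2D Euler equations: definitions

The plane is `ℂ` (as a real normed space); `M` is a bounded open subset of it.
-/

open MeasureTheory Set Filter Topology
open scoped ContDiff

namespace Pool.Agent.YUD

/-- the partial derivative `∂f/∂x` (direction `1`) -/
noncomputable def dx (f : ℂ → ℝ) (x : ℂ) : ℝ := fderiv ℝ f x 1

/-- the partial derivative `∂f/∂y` (direction `i`) -/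
noncomputable def dy (f : ℂ → ℝ) (x : ℂ) : ℝ := fderiv ℝ f x Complex.I

/-- the Laplacian `f_xx + f_yy` -/
noncomputable def lap (f : ℂ → ℝ) (x : ℂ) : ℝ := dx (dx f) x + dy (dy f) x

/-- the Poisson bracket `{f, g} = f_x g_y - f_y g_x`, which is `∇^⊥ f ⬝ ∇ g` with
`∇^⊥ f = (-f_y, f_x)` -/
noncomputable def pb (f g : ℂ → ℝ) (x : ℂ) : ℝ := dx f x * dy g x - dy f x * dx g x

/-- `|∇ f|²` -/
noncomputable def gsq (f : ℂ → ℝ) (x : ℂ) : ℝ := dx f x ^ 2 + dy f x ^ 2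

/-- `|f| ≤ C` on `M`, and all partial derivatives of `f` of order `≤ n` are bounded by `C` on `M`. -/
def JetLe (M : Set ℂ) : ℕ → ℝ → (ℂ → ℝ) → Prop
  | 0, C, f => ∀ x ∈ M, |f x| ≤ C
  | n + 1, C, f => (∀ x ∈ M, |f x| ≤ C) ∧ JetLe M n C (dx f) ∧ JetLe M n C (dy f)

/-- `f` tends to zero at the boundary of `M` -/
def ZeroAtBoundary (M : Set ℂ) (f : ℂ → ℝ) : Prop :=
  ∀ ε > 0, ∃ K ⊆ M, IsCompact K ∧ ∀ x ∈ M, x ∉ K → |f x| < ε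

/-- Stream functions on `M`: `C³` in `M`, bounded with all their partial derivatives of order
`≤ 3`, tending to zero at the boundary. -/
structure Stream (M : Set ℂ) (f : ℂ → ℝ) : Prop where
  contDiffOn : ContDiffOn ℝ 3 f M
  bdd : ∃ C : ℝ, JetLe M 3 C f
  zero : ZeroAtBoundary M f

/-- `‖f‖_{C^{1,α}(M)} ≤ C` for the norm `sup |f| + sup ‖Df‖ + [Df]_α` over `M`. -/
def NormLe (M : Set ℂ) (α C : ℝ) (f : ℂ → ℝ) : Prop :=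
  DifferentiableOn ℝ f M ∧ ∃ a b c : ℝ, 0 ≤ a ∧ 0 ≤ b ∧ 0 ≤ c ∧ a + b + c ≤ C ∧
    (∀ x ∈ M, |f x| ≤ a) ∧ (∀ x ∈ M, ‖fderiv ℝ f x‖ ≤ b) ∧
    ∀ x ∈ M, ∀ y ∈ M, ‖fderiv ℝ f x - fderiv ℝ f y‖ ≤ c * ‖x - y‖ ^ α

/-- `(w, ψ)` is a (classical, global in time) solution of the Euler equations in `M`, in vorticity
form: `Δψ = w`, `ψ = 0` on the boundary, `∂_t w + u ⬝ ∇w = 0` with `u = ∇^⊥ ψ`. -/
structure Sol (M : Set ℂ) (w ψ : ℝ → ℂ → ℝ) : Prop where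
  stream : ∀ t, 0 ≤ t → Stream M (ψ t)
  lap_eq : ∀ t, 0 ≤ t → ∀ x ∈ M, lap (ψ t) x = w t x
  c1 : ContDiffOn ℝ 1 (fun p : ℝ × ℂ => w p.1 p.2) (Ici 0 ×ˢ M)
  eqn : ∀ t, 0 < t → ∀ x ∈ M, deriv (fun s => w s x) t + pb (ψ t) (w t) x = 0

/-- Lyapunov stability of `ws` in `C^{1,α}(M)`. -/
def Stable (M : Set ℂ) (α : ℝ) (ws : ℂ → ℝ) : Prop :=
  ∀ ε > 0, ∃ δ > 0, ∀ w₀ : ℂ → ℝ, NormLe M α δ (fun x => w₀ x - ws x) →
    ∃ w ψ : ℝ → ℂ → ℝ, Sol M w ψ ∧ (∀ x ∈ M, w 0 x = w₀ x) ∧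
      ∀ t, 0 ≤ t → NormLe M α ε (fun x => w t x - ws x)

/-- Norm inflation at `ws` in `C^{1,α}(M)`: arbitrarily close to `ws` there are initial data none
of whose solutions stays in a given ball of `C^{1,α}(M)`. -/
def NormInflation (M : Set ℂ) (α : ℝ) (ws : ℂ → ℝ) : Prop :=
  ∀ δ > 0, ∀ C : ℝ, ∃ w₀ : ℂ → ℝ, NormLe M α δ (fun x => w₀ x - ws x) ∧
    ∀ w ψ : ℝ → ℂ → ℝ, Sol M w ψ → (∀ x ∈ M, w 0 x = w₀ x) →
      ∃ t, 0 ≤ t ∧ ¬ NormLe M α C (w t)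

/-- any two points of `M` are joined in `M` by a curve of length at most `κ` times their distance -/
def QuasiConvex (M : Set ℂ) : Prop :=
  ∃ κ : ℝ, ∀ x ∈ M, ∀ y ∈ M, ∃ γ : ℝ → ℂ, γ 0 = x ∧ γ 1 = y ∧ (∀ s ∈ Icc (0 : ℝ) 1, γ s ∈ M) ∧
    ∀ s ∈ Icc (0 : ℝ) 1, ∀ t ∈ Icc (0 : ℝ) 1, ‖γ s - γ t‖ ≤ κ * ‖x - y‖ * |s - t|

/-- Nondegeneracy of the steady state `Δψ = F(ψ)`: no nonzero solution `k` of the linearised
equation `Δk = F'(ψ) k`, `k = 0` on the boundary, is orthogonal to all functions `g(ψ)`. -/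
def Nondeg (M : Set ℂ) (F : ℝ → ℝ) (ψ : ℂ → ℝ) : Prop :=
  ∀ k : ℂ → ℝ, Stream M k → (∀ x ∈ M, lap k x = deriv F (ψ x) * k x) →
    (∀ g : ℝ → ℝ, ContDiff ℝ ∞ g → ∫ x in M, g (ψ x) * k x = 0) → ∀ x ∈ M, k x = 0

/-- Arnold's stability criterion for the steady state `Δψ = F(ψ)`: the quadratic form
`∫_M |∇φ|² + F'(ψ) φ²` is positive on all stream functions `φ ≠ 0` (for instance `F' ≥ 0`). -/
def Arnold (M : Set ℂ) (F : ℝ → ℝ) (ψ : ℂ → ℝ) : Prop :=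
  ∀ φ : ℂ → ℝ, Stream M φ → (∃ x ∈ M, φ x ≠ 0) →
    0 < ∫ x in M, (gsq φ x + deriv F (ψ x) * φ x ^ 2)

/-- The travel time of `ψ` is not locally constant (on some interval of regular values not
containing `0`): `∫_M f'(ψ) = ∫ f'(s) T(s) ds`, where `T(s)` is the travel time on `ψ = s`. -/
def NonIso (M : Set ℂ) (ψ : ℂ → ℝ) : Prop :=
  ∃ a b : ℝ, (0 : ℝ) ∉ Icc a b ∧ (∀ x ∈ M, ψ x ∈ Icc a b → fderiv ℝ ψ x ≠ 0) ∧
    ∃ f : ℝ → ℝ, ContDiff ℝ ∞ f ∧ tsupport f ⊆ Ioo a b ∧ ∫ x in M, deriv f (ψ x) ≠ 0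

end Pool.Agent.YUD
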