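import Pool.Agent.YUD.S4b

/-!
# [YUD] S4c: the travel time is constant

PROOF. `W = {x ∈ M : ψ x ∈ Icc a b}` and `W₁ = {x ∈ M : ψ x ∈ Icc a₁ b₁}` are compact (`Stream.compact_level`; `0 ∉ Icc a b` too). On `W₁`: `gsq ψ ≥ m > 0` (`hreg`, compactness), `|Y1|, |Y2| ≤ K`, `‖V‖ ≥ √m`
(`‖V x‖² = gsq ψ x`). For `y ∈ W`, `t ≥ 0`: by `flow_deriv_Y` (with `a₁ b₁`) and `hbd`, `|c(t,y)| ‖V(Φ t y)‖ ≤ c ‖Z y‖ + ‖Z(Φ t y)‖`, so `|c(t,y)| ≤ C₁` with `C₁` independent of `t ≥ 0`, `y ∈ W`, where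
`c(t,y) = ∫ s in 0..t, D (Φ s y)`, `D = dx (Y1 ψ) + dy (Y2 ψ)` (replace `c` by `|c|`).
Let `G x = f (ψ x) * D x` on `M`, `0` off `M` (extension by zero: `f ∘ ψ` is supported in `W`, compact in `M`; `Y1 ψ, Y2 ψ` are `C²` near `W`; so `G` is `C¹` on `ℂ` with compact support; use
`contDiff_of_tsupport` or `contDiff_cut` with `χ = f ∘ ψ` extended by zero, times a function which is `C¹` only on the open set `{x ∈ M : gsq ψ x ≠ 0} ⊇ W`: apply `contDiff_cut` with this open set instead of `M`).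
`κ = ∫ G`. By `flow_integral`, `∫ G (Φ s y) dy = κ` for all `s`. For `y ∈ W`, `ψ (Φ s y) = ψ y`, so `G (Φ s y) = f (ψ y) D (Φ s y)`; for `y ∉ W`, `G (Φ s y) = 0` (if `Φ s y ∈ W` then `y = Φ (-s) (Φ s y) ∈ W` by
`hfl.inv` and the group law). So `t κ = ∫_0^t ∫ G (Φ s y) dy ds = ∫_W f (ψ y) c(t,y) dy` (Fubini: `G (Φ s y)` is continuous in `(s,y)` and supported in `[0,t] × W`; `intervalIntegral`: `MeasureTheory.integral_integral_swap` or
`intervalIntegral_integral_swap`-type lemmas), hence `|t κ| ≤ vol(W) sup|f| C₁` for all `t ≥ 0`, so `κ = 0`.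
Finally (integration by parts, `integral_div_cut` on the open set `{x ∈ M : gsq ψ x ≠ 0}` with `χ = f ∘ ψ` extended by zero, `P = Y1 ψ`, `Q = Y2 ψ`):
`0 = ∫ (∂_x(f(ψ)) Y1 + ∂_y(f(ψ)) Y2 + f(ψ) D) = ∫ f'(ψ) (p² + q²)/n + κ = ∫_M f'(ψ) + κ` (`f'(ψ) = 0` off `W`; `dx_comp`). So `∫_M f'(ψ) = 0`.
-/

open MeasureTheory Set Filter Topology
open scoped ContDiff

namespace Pool.Agent.YUD

variable {M : Set ℂ}

/-- `f ∘ ψ`, extended by zero -/
theorem cut_comp_zero (hM : IsOpen M) {ψ : ℂ → ℝ} (hψ : Stream M ψ) {a b : ℝ}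
    (h0 : (0 : ℝ) ∉ Icc a b) {f : ℝ → ℝ} (hf : ContDiff ℝ ∞ f) (hsupp : tsupport f ⊆ Icc a b) :
    tsupport (M.indicator fun x => f (ψ x)) ⊆ {x | x ∈ M ∧ ψ x ∈ Icc a b} ∧
    HasCompactSupport (M.indicator fun x => f (ψ x)) ∧
    ContDiff ℝ 1 (M.indicator fun x => f (ψ x)) := by
  have hW := hψ.compact_level h0
  have hsub : tsupport (M.indicator fun x => f (ψ x)) ⊆ {x | x ∈ M ∧ ψ x ∈ Icc a b} := by
    apply closure_minimal _ hW.isClosed
    intro x hx
    rw [Function.mem_support] at hx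
    have hxM : x ∈ M := by
      by_contra h
      exact hx (indicator_of_notMem h _)
    refine ⟨hxM, hsupp (subset_tsupport _ ?_)⟩
    rw [indicator_of_mem hxM] at hx
    exact hx
  refine ⟨hsub, hW.of_isClosed_subset (isClosed_tsupport _) hsub, ?_⟩
  rw [contDiff_iff_contDiffAt]
  intro x
  by_cases hx : x ∈ tsupport (M.indicator fun x => f (ψ x))
  · have hxM : x ∈ M := (hsub hx).1
    have h1 : ContDiffAt ℝ 1 (fun x => f (ψ x)) x :=
      (hf.of_le (by exact_mod_cast le_top)).contDiffAt.comp x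
        (hψ.one.contDiffAt (hM.mem_nhds hxM))
    refine h1.congr_of_eventuallyEq ?_
    filter_upwards [hM.mem_nhds hxM] with z hz using indicator_of_mem hz _
  · have h2 : (M.indicator fun x => f (ψ x)) =ᶠ[𝓝 x] fun _ => 0 :=
      notMem_tsupport_iff_eventuallyEq.1 hx
    exact contDiffAt_const.congr_of_eventuallyEq h2

theorem gsq_eq_zero_iff' {ψ : ℂ → ℝ} {x : ℂ} (h : gsq ψ x = 0) : fderiv ℝ ψ x = 0 := by
  unfold gsq at h
  have h1 : dx ψ x = 0 := by nlinarith [sq_nonneg (dx ψ x), sq_nonneg (dy ψ x)]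
  have h2 : dy ψ x = 0 := by nlinarith [sq_nonneg (dx ψ x), sq_nonneg (dy ψ x)]
  ext v
  rw [fderiv_apply', h1, h2]
  simp

theorem travel_time (hM : IsOpen M) {ψ : ℂ → ℝ} (hψ : Stream M ψ) {a₁ a b b₁ : ℝ} (ha : a₁ < a)
    (hb' : b < b₁) (h0 : (0 : ℝ) ∉ Icc a₁ b₁) {V : ℂ → ℂ} {Φ : ℝ → ℂ → ℂ}
    (hfl : SFlow M ψ a₁ b₁ V Φ) (hreg : ∀ x ∈ M, ψ x ∈ Icc a₁ b₁ → fderiv ℝ ψ x ≠ 0) {c : ℝ}
    (hbd : ∀ T, 0 ≤ T → ∀ y ∈ M, ψ y ∈ Icc a b → ∀ k : ℂ, ‖fderiv ℝ (Φ T) y k‖ ≤ c * ‖k‖)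
    {f : ℝ → ℝ} (hf : ContDiff ℝ ∞ f) (hsupp : tsupport f ⊆ Icc a b) :
    ∫ x in M, deriv f (ψ x) = 0 := by
  have hsubI : Icc a b ⊆ Icc a₁ b₁ := Icc_subset_Icc ha.le hb'.le
  have h0' : (0 : ℝ) ∉ Icc a b := fun h => h0 (hsubI h)
  set W : Set ℂ := {x | x ∈ M ∧ ψ x ∈ Icc a b} with hWdef
  set W₁ : Set ℂ := {x | x ∈ M ∧ ψ x ∈ Icc a₁ b₁} with hW₁def
  have hWc : IsCompact W := hψ.compact_level h0'
  have hW₁c : IsCompact W₁ := hψ.compact_level h0
  have hWW : W ⊆ W₁ := fun x hx => ⟨hx.1, hsubI hx.2⟩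
  -- regularity on `M`
  have cdx : ContDiffOn ℝ (2 : ℕ) (dx ψ) M := contDiffOn_dx hM hψ.cd3
  have cdy : ContDiffOn ℝ (2 : ℕ) (dy ψ) M := contDiffOn_dy hM hψ.cd3
  have cg : ContDiffOn ℝ (2 : ℕ) (gsq ψ) M := (cdx.pow 2).add (cdy.pow 2)
  set O : Set ℂ := {x | x ∈ M ∧ gsq ψ x ≠ 0} with hOdef
  have hO : IsOpen O := by
    have := cg.continuousOn.isOpen_inter_preimage hM (isOpen_compl_singleton (x := (0:ℝ)))
    have e : O = M ∩ gsq ψ ⁻¹' {0}ᶜ := by
      ext x; simp [hOdef]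
    rw [e]; exact this
  have hOM : O ⊆ M := fun x hx => hx.1
  have hW₁O : W₁ ⊆ O := fun x hx => ⟨hx.1, fun h => hreg x hx.1 hx.2 (gsq_eq_zero_iff' h)⟩
  have hWO : W ⊆ O := hWW.trans hW₁O
  have cY1 : ContDiffOn ℝ (1 + 1 : ℕ) (Y1 ψ) O :=
    (cdx.mono hOM).div (cg.mono hOM) (fun x hx => hx.2)
  have cY2 : ContDiffOn ℝ (1 + 1 : ℕ) (Y2 ψ) O :=
    (cdy.mono hOM).div (cg.mono hOM) (fun x hx => hx.2)
  have cD : ContDiffOn ℝ (1 : ℕ) (fun x => dx (Y1 ψ) x + dy (Y2 ψ) x) O :=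
    (contDiffOn_dx hO cY1).add (contDiffOn_dy hO cY2)
  -- the cut off functions
  obtain ⟨hχs, hχc, hχd⟩ := cut_comp_zero hM hψ h0' hf hsupp
  set χ : ℂ → ℝ := M.indicator fun x => f (ψ x) with hχdef
  have hf' : ContDiff ℝ ∞ (deriv f) := (contDiff_infty_iff_deriv.1 hf).2
  obtain ⟨hηs, hηc, hηd⟩ := cut_comp_zero hM hψ h0' hf'
    ((closure_minimal support_deriv_subset (isClosed_tsupport _)).trans hsupp)
  set η : ℂ → ℝ := M.indicator fun x => deriv f (ψ x) with hηdef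
  set D : ℂ → ℝ := fun x => dx (Y1 ψ) x + dy (Y2 ψ) x with hDdef
  set G : ℂ → ℝ := fun x => χ x * D x with hGdef
  have hGd : ContDiff ℝ 1 G := by
    have := contDiff_cut (n := 1) hO (χ := χ) (by exact_mod_cast hχd) (hχs.trans hWO) cD
    exact_mod_cast this
  have hGc : HasCompactSupport G := hχc.mul_right
  -- invariance
  have hinv : ∀ y ∈ W, ∀ t, Φ t y ∈ W ∧ ψ (Φ t y) = ψ y := by
    intro y hy t
    have h1 := hfl.inv y hy.1 (hsubI hy.2) t
    exact ⟨⟨h1.1, by rw [h1.2]; exact hy.2⟩, h1.2⟩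
  have hinv' : ∀ y ∉ W, ∀ t, Φ t y ∉ W := by
    intro y hy t h
    apply hy
    have h1 := (hinv _ h (-t)).1
    rwa [← hfl.group, neg_add_cancel, hfl.zero] at h1
  have hχ0 : ∀ z ∉ W, χ z = 0 := fun z hz =>
    image_eq_zero_of_notMem_tsupport fun h => hz (hχs h)
  have hη0 : ∀ z ∉ W, η z = 0 := fun z hz =>
    image_eq_zero_of_notMem_tsupport fun h => hz (hηs h)
  have hχW : ∀ y ∈ W, ∀ t, χ (Φ t y) = χ y := by
    intro y hy t
    have h1 := hinv y hy t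
    rw [hχdef, indicator_of_mem h1.1.1, indicator_of_mem hy.1, h1.2]
  have hGoff : ∀ y ∉ W, ∀ t, G (Φ t y) = 0 := by
    intro y hy t
    rw [hGdef]
    simp only
    rw [hχ0 _ (hinv' y hy t), zero_mul]
  -- the integral of `G` along the flow
  have hflow : ∀ s, ∫ y, G (Φ s y) = ∫ y, G y := fun s =>
    flow_integral hfl.cdV hfl.compV hfl.divV hfl.cdΦ hfl.zero hfl.ode hfl.group hGd hGc s
  have hΦc : Continuous (fun p : ℝ × ℂ => Φ p.1 p.2) := hfl.cdΦ.continuous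
  have hWfin : volume W < ⊤ := hWc.measure_lt_top
  have hWm : MeasurableSet W := hWc.measurableSet
  -- bounds
  obtain ⟨CG, hCG⟩ := hGd.continuous.bounded_above_of_compact_support hGc
  obtain ⟨Cχ, hCχ⟩ := hχd.continuous.bounded_above_of_compact_support hχc
  have hCχ0 : 0 ≤ Cχ := (norm_nonneg _).trans (hCχ 0)
  -- `T κ = ∫_W χ c`
  have hT : ∀ T : ℝ, 0 ≤ T →
      T * ∫ y, G y = ∫ y in W, χ y * ∫ s in (0 : ℝ)..T, D (Φ s y) := by
    intro T hT
    have e1 : ∀ s, ∫ y in W, G (Φ s y) = ∫ y, G y := by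
      intro s
      rw [setIntegral_eq_integral_of_forall_compl_eq_zero (fun y hy => hGoff y hy s), hflow s]
    have hint : Integrable (Function.uncurry fun (s : ℝ) (y : ℂ) => G (Φ s y))
        ((volume.restrict (uIoc 0 T)).prod (volume.restrict W)) := by
      have : IsFiniteMeasure (volume.restrict W) := isFiniteMeasure_restrict.2 hWfin.ne
      have : IsFiniteMeasure (volume.restrict (uIoc (0:ℝ) T)) := by
        rw [uIoc_of_le hT]
        exact isFiniteMeasure_restrict.2 measure_Ioc_lt_top.ne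
      refine Integrable.of_bound (C := CG) ?_ (Eventually.of_forall fun p => hCG _)
      exact (hGd.continuous.comp hΦc).aestronglyMeasurable
    have e2 := intervalIntegral_integral_swap (a := 0) (b := T) hint
    simp only [e1] at e2
    rw [intervalIntegral.integral_const, smul_eq_mul, sub_zero] at e2
    rw [e2]
    apply setIntegral_congr_fun hWm
    intro y hy
    simp only
    rw [← intervalIntegral.integral_const_mul]
    apply intervalIntegral.integral_congr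
    intro s _
    simp only [hGdef]
    rw [hχW y hy s]
  -- bound for `c`
  have cZ : ContinuousOn (fun z => (⟨Y1 ψ z, Y2 ψ z⟩ : ℂ)) W₁ := by
    have h1 : ContinuousOn (fun z => (Y1 ψ z : ℂ) + (Y2 ψ z : ℂ) * Complex.I) W₁ :=
      (Complex.continuous_ofReal.comp_continuousOn (cY1.continuousOn.mono hW₁O)).add
        ((Complex.continuous_ofReal.comp_continuousOn (cY2.continuousOn.mono hW₁O)).mul
          continuousOn_const)
    refine h1.congr fun z _ => ?_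
    apply Complex.ext <;> simp
  obtain ⟨K, hK⟩ := hW₁c.exists_bound_of_continuousOn cZ
  have hVne : ∀ z ∈ W₁, V z ≠ 0 := by
    intro z hz h
    have h1 := (hfl.eqV z hz.1 hz.2).self_of_nhds
    rw [h] at h1
    have h2 : dy ψ z = 0 := by
      have := congrArg Complex.re h1; simpa using this.symm
    have h3 : dx ψ z = 0 := by
      have := congrArg Complex.im h1; simpa using this.symm
    apply (hW₁O hz).2
    unfold gsq
    rw [h2, h3]; simp
  obtain ⟨R, hR⟩ := hW₁c.exists_bound_of_continuousOn (f := fun z => ‖V z‖⁻¹)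
    ((hfl.cdV.continuous.norm.continuousOn).inv₀ fun z hz => norm_ne_zero_iff.2 (hVne z hz))
  have hcb : ∀ T : ℝ, 0 ≤ T → ∀ y ∈ W,
      |∫ s in (0 : ℝ)..T, D (Φ s y)| ≤ (K + |c| * K) * R := by
    intro T hT y hy
    have hK0 : 0 ≤ K := (norm_nonneg _).trans (hK y (hWW hy))
    have h1 := flow_deriv_Y hM hψ hfl hreg hy.1 (hsubI hy.2) T
    set I := ∫ s in (0 : ℝ)..T, D (Φ s y) with hI
    have hz : Φ T y ∈ W₁ := hWW (hinv y hy T).1
    have h2 : I • V (Φ T y) = (⟨Y1 ψ (Φ T y), Y2 ψ (Φ T y)⟩ : ℂ)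
        - fderiv ℝ (Φ T) y (⟨Y1 ψ y, Y2 ψ y⟩ : ℂ) := by
      rw [h1]; simp only [hI, hDdef]; ring
    have h3 : |I| * ‖V (Φ T y)‖ ≤ K + |c| * K := by
      have h4 : ‖I • V (Φ T y)‖ = |I| * ‖V (Φ T y)‖ := by
        rw [norm_smul, Real.norm_eq_abs]
      rw [← h4, h2]
      refine (norm_sub_le _ _).trans (add_le_add (hK _ hz) ?_)
      refine (hbd T hT y hy.1 hy.2 _).trans ?_
      exact mul_le_mul (le_abs_self c) (hK _ (hWW hy)) (norm_nonneg _) (abs_nonneg _)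
    have h5 : 0 < ‖V (Φ T y)‖ := norm_pos_iff.2 (hVne _ hz)
    have h6 : ‖V (Φ T y)‖⁻¹ ≤ R := (le_abs_self _).trans (hR _ hz)
    calc |I| = (|I| * ‖V (Φ T y)‖) * ‖V (Φ T y)‖⁻¹ := by field_simp
      _ ≤ (K + |c| * K) * R := mul_le_mul h3 h6 (by positivity) (by positivity)
  -- `κ = 0`
  have hκ : ∫ y, G y = 0 := by
    by_contra hne
    have hb : ∀ T : ℝ, 0 ≤ T → T * |∫ y, G y| ≤ Cχ * ((K + |c| * K) * R) * volume.real W := by
      intro T hT0
      have h1 : T * |∫ y, G y| = |T * ∫ y, G y| := by rw [abs_mul, abs_of_nonneg hT0]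
      rw [h1, hT T hT0, ← Real.norm_eq_abs]
      refine norm_setIntegral_le_of_norm_le_const hWfin fun y hy => ?_
      rw [norm_mul]
      exact mul_le_mul (hCχ y) (hcb T hT0 y hy) (norm_nonneg _) hCχ0
    have hpos : 0 < |∫ y, G y| := abs_pos.2 hne
    set B := Cχ * ((K + |c| * K) * R) * volume.real W with hB
    have h1 := hb ((|B| + 1) / |∫ y, G y|) (by positivity)
    rw [div_mul_cancel₀ _ hpos.ne'] at h1
    linarith [le_abs_self B]
  -- integration by parts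
  have hparts := integral_div_cut hO hχd hχc (hχs.trans hWO)
    (P := Y1 ψ) (Q := Y2 ψ) (cY1.of_le (by norm_num)) (cY2.of_le (by norm_num))
  have e3 : ∀ x ∈ O, dx χ x * Y1 ψ x + dy χ x * Y2 ψ x + χ x * (dx (Y1 ψ) x + dy (Y2 ψ) x)
      = η x + G x := by
    intro x hx
    have hev : χ =ᶠ[𝓝 x] fun x => f (ψ x) := by
      filter_upwards [hM.mem_nhds hx.1] with z hz using indicator_of_mem hz _
    have hfd : DifferentiableAt ℝ f (ψ x) := (hf.differentiable (by simp)) _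
    have hψd := hψ.differentiableAt hM hx.1
    rw [dx_congr_nhds hev, dy_congr_nhds hev, dx_comp hfd hψd, dy_comp hfd hψd, hηdef,
      indicator_of_mem hx.1]
    simp only [hGdef, hDdef, Y1, Y2]
    have hg : gsq ψ x ≠ 0 := hx.2
    have hg2 : gsq ψ x = dx ψ x ^ 2 + dy ψ x ^ 2 := rfl
    congr 1
    field_simp
    rw [hg2]
  rw [setIntegral_congr_fun hO.measurableSet e3] at hparts
  have iη : Integrable η := hηd.continuous.integrable_of_hasCompactSupport hηc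
  have iG : Integrable G := hGd.continuous.integrable_of_hasCompactSupport hGc
  have hoffO : ∀ x, x ∉ O → η x + G x = 0 := by
    intro x hx
    have hxW : x ∉ W := fun h => hx (hWO h)
    have : G x = 0 := by
      simp only [hGdef]; rw [hχ0 x hxW, zero_mul]
    rw [hη0 x hxW, this, add_zero]
  rw [setIntegral_eq_integral_of_forall_compl_eq_zero hoffO, integral_add iη iG, hκ, add_zero,
    hηdef, integral_indicator hM.measurableSet] at hparts
  exact hparts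

end Pool.Agent.YUD
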