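import Pool.Agent.YUD.Base2
import Pool.Agent.YUD.D3

/-!
# [YUD] S5a: the Hessian at a critical point

PROOF. Put `p = dx (dx ψ) y`, `q = dx (dy ψ) y = dy (dx ψ) y` (`dx_dy_comm`), `s = dy (dy ψ) y`; `lap ψ y = p + s ≠ 0`. Suppose the determinant `p s - q² = 0`. `V y = 0` (`hfl.eqV`, `hcrit`), so `Φ t y = y` for all `t`
(uniqueness: `variational`-free: the constant solves the ODE; use `ODE_solution_unique_univ`, `V` Lipschitz; or `hfl.inv`...). `A = fderiv ℝ V y`: `A k = (q k₁ + s k₂, - p k₁ - q k₂)` (`V = (dy ψ, - dx ψ)` near `y`), so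
`A (A k) = (q² - p s) k = 0`. `A ≠ 0` since `p + s ≠ 0`: choose `k` with `A k ≠ 0`. `b t = k + t • A k` satisfies `b' = A k = A (b t)`, `b 0 = k`, so `b t = fderiv ℝ (Φ t) y k` (`variational_unique`). By `hbd`,
`t ‖A k‖ - ‖k‖ ≤ ‖b t‖ ≤ c ‖k‖` for all `t ≥ 0`: contradiction for large `t`.
-/

open MeasureTheory Set Filter Topology
open scoped ContDiff

namespace Pool.Agent.YUD

variable {M : Set ℂ}

theorem hess_ne (hM : IsOpen M) {ψ : ℂ → ℝ} (hψ : Stream M ψ) {a b : ℝ} {V : ℂ → ℂ}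
    {Φ : ℝ → ℂ → ℂ} (hfl : SFlow M ψ a b V Φ) {y : ℂ} (hy : y ∈ M) (hψy : ψ y ∈ Icc a b)
    (hcrit : fderiv ℝ ψ y = 0) (hlap : lap ψ y ≠ 0) {c : ℝ}
    (hbd : ∀ T, 0 ≤ T → ∀ k : ℂ, ‖fderiv ℝ (Φ T) y k‖ ≤ c * ‖k‖) :
    dx (dx ψ) y * dy (dy ψ) y - dx (dy ψ) y ^ 2 ≠ 0 := by
  intro hdet
  have hev : V =ᶠ[𝓝 y] fun z => (⟨dy ψ z, - dx ψ z⟩ : ℂ) := hfl.eqV y hy hψy
  have hVy : V y = 0 := by
    rw [hev.eq_of_nhds]
    apply Complex.ext
    · simp [dy, hcrit]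
    · simp [dx, hcrit]
  obtain ⟨K, hK⟩ := hfl.cdV.lipschitzWith_of_hasCompactSupport hfl.compV (by norm_num)
  have hfix : ∀ t, Φ t y = y := by
    have h := ODE_solution_unique_univ (v := fun _ => V) (s := fun _ => univ) (K := K)
      (f := fun t => Φ t y) (g := fun _ => y) (t₀ := 0)
      (fun t => hK.lipschitzOnWith) (fun t => ⟨hfl.ode t y, mem_univ _⟩)
      (fun t => ⟨by
        have := hasDerivAt_const t y
        rw [hVy]
        exact this, mem_univ _⟩) (hfl.zero y)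
    intro t
    exact congrFun h t
  have hsym : dx (dy ψ) y = dy (dx ψ) y := dx_dy_comm hM hψ.two hy
  have hp2 : ContDiffOn ℝ (1 + 1 : ℕ) (dx ψ) M := contDiffOn_dx hM hψ.cd3
  have hq2 : ContDiffOn ℝ (1 + 1 : ℕ) (dy ψ) M := contDiffOn_dy hM hψ.cd3
  have hVd : DifferentiableAt ℝ V y := hfl.cdV.differentiable (by norm_num) y
  have hre : ∀ k, (fderiv ℝ V y k).re = k.re * dx (dy ψ) y + k.im * dy (dy ψ) y := by
    intro k
    have h1 : HasFDerivAt (fun z => (V z).re) (Complex.reCLM.comp (fderiv ℝ V y)) y :=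
      Complex.reCLM.hasFDerivAt.comp y hVd.hasFDerivAt
    have h2 : (fun z => (V z).re) =ᶠ[𝓝 y] dy ψ := by
      filter_upwards [hev] with z hz
      rw [hz]
    have h3 : fderiv ℝ (dy ψ) y = Complex.reCLM.comp (fderiv ℝ V y) := by
      rw [← h2.fderiv_eq, h1.fderiv]
    have h4 := fderiv_apply' (dy ψ) y k
    rw [h3] at h4
    exact h4
  have him : ∀ k, (fderiv ℝ V y k).im = - (k.re * dx (dx ψ) y + k.im * dy (dx ψ) y) := by
    intro k
    have h1 : HasFDerivAt (fun z => (V z).im) (Complex.imCLM.comp (fderiv ℝ V y)) y :=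
      Complex.imCLM.hasFDerivAt.comp y hVd.hasFDerivAt
    have h2 : (fun z => (V z).im) =ᶠ[𝓝 y] fun z => - dx ψ z := by
      filter_upwards [hev] with z hz
      rw [hz]
    have h3 : fderiv ℝ (fun z => - dx ψ z) y = Complex.imCLM.comp (fderiv ℝ V y) := by
      rw [← h2.fderiv_eq, h1.fderiv]
    have h4 := fderiv_apply' (fun z => - dx ψ z) y k
    rw [h3, dx_neg, dy_neg] at h4
    have h5 : (fderiv ℝ V y k).im = k.re * -dx (dx ψ) y + k.im * -dy (dx ψ) y := h4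
    rw [h5]
    ring
  have hAA : ∀ k, fderiv ℝ V y (fderiv ℝ V y k) = 0 := by
    intro k
    apply Complex.ext
    · rw [hre, hre, him, ← hsym]
      simp only [Complex.zero_re]
      linear_combination (-k.re) * hdet
    · rw [him, hre, him, ← hsym]
      simp only [Complex.zero_im]
      linear_combination (-k.im) * hdet
  have hex : ∃ k, fderiv ℝ V y k ≠ 0 := by
    by_contra hcon
    push Not at hcon
    apply hlap
    unfold lap
    have e1 := him 1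
    have e2 := hre Complex.I
    rw [hcon] at e1 e2
    simp at e1 e2
    linarith
  obtain ⟨k, hk⟩ := hex
  have hb : ∀ t : ℝ, HasDerivAt (fun s : ℝ => k + s • fderiv ℝ V y k)
      (fderiv ℝ V (Φ t y) (k + t • fderiv ℝ V y k)) t := by
    intro t
    rw [hfix t, map_add, map_smul, hAA k, smul_zero, add_zero]
    have h1 : HasDerivAt (fun s : ℝ => s • fderiv ℝ V y k) ((1 : ℝ) • fderiv ℝ V y k) t :=
      (hasDerivAt_id t).smul_const _
    rw [one_smul] at h1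
    exact h1.const_add k
  have hvar := variational_unique hfl.cdV hfl.compV hfl.cdΦ hfl.zero hfl.ode (y := y) (k := k) hb
    (by simp)
  have hbd' : ∀ t : ℝ, 0 ≤ t → ‖k + t • fderiv ℝ V y k‖ ≤ c * ‖k‖ := by
    intro t ht
    have := hvar t
    rw [this]
    exact hbd t ht k
  have h0 := hbd' 0 le_rfl
  simp only [zero_smul, add_zero] at h0
  have hn : 0 < ‖fderiv ℝ V y k‖ := norm_pos_iff.mpr hk
  have hkn := norm_nonneg k
  have ht0 : 0 ≤ (c * ‖k‖ + ‖k‖ + 1) / ‖fderiv ℝ V y k‖ := by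
    apply div_nonneg _ hn.le
    linarith
  have h1 := hbd' _ ht0
  have h2 : ‖((c * ‖k‖ + ‖k‖ + 1) / ‖fderiv ℝ V y k‖) • fderiv ℝ V y k‖ = c * ‖k‖ + ‖k‖ + 1 := by
    rw [norm_smul, Real.norm_of_nonneg ht0]
    field_simp
  have h3 : ‖((c * ‖k‖ + ‖k‖ + 1) / ‖fderiv ℝ V y k‖) • fderiv ℝ V y k‖ ≤
      ‖k + ((c * ‖k‖ + ‖k‖ + 1) / ‖fderiv ℝ V y k‖) • fderiv ℝ V y k‖ + ‖k‖ := by
    have := norm_sub_le (k + ((c * ‖k‖ + ‖k‖ + 1) / ‖fderiv ℝ V y k‖) • fderiv ℝ V y k) k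
    rwa [add_sub_cancel_left] at this
  rw [h2] at h3
  linarith

end Pool.Agent.YUD
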