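import Pool.Agent.YUD.Base2

/-!
# [YUD] S5b: an interval of regular values

PROOF. (i) There is `x₁ ∈ M` with `lap ψ x₁ ≠ 0`, `ψ x₁ ≠ 0`: take `x₀` with `lap ψ x₀ ≠ 0`; `lap ψ = G ∘ ψ` is continuous on `M`, so `lap ψ ≠ 0` on a neighbourhood `U` of `x₀`; if `ψ = 0` on `U`, then
`lap ψ x₀ = 0` (`lap_congr` on the open `U`), contradiction. (ii) There is `x₂` near `x₁` with `fderiv ℝ ψ x₂ ≠ 0`, `lap ψ x₂ ≠ 0`, `ψ x₂ ≠ 0`: otherwise `fderiv ψ = 0` near `x₁`, so `dx ψ = dy ψ = 0` near `x₁` and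
`lap ψ x₁ = 0`. Let `s₂ = ψ x₂`; `G s₂ ≠ 0`. (iii) `e > 0` with `G ≠ 0` on `[s₂-e, s₂+e]` and `0 ∉ [s₂-e, s₂+e]` (continuity). `ψ` is open at `x₂`: the image of a neighbourhood contains a neighbourhood of `s₂`
(`HasStrictFDerivAt.map_nhds_eq_of_surj`, the derivative is surjective onto `ℝ`), so for some `0 < e' ≤ e` every `s ∈ [s₂-e', s₂+e']` is a value of `ψ` on `M`. (iv) The set `Z` of critical points of `ψ` in
`{x ∈ M : ψ x ∈ [s₂-e', s₂+e']}` is compact (`Stream.compact_level`, closed condition) and discrete: at a critical point `y`, the derivative of `z ↦ fderiv ℝ ψ z` (or of `(dx ψ, dy ψ) : M → ℝ × ℝ`) is injective because the Hessian determinant is nonzero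
(`hdet`, as `lap ψ y = G (ψ y) ≠ 0`, `ψ y ≠ 0`), so `(dx ψ, dy ψ) ≠ (0,0)` in a punctured neighbourhood of `y` (`HasFDerivAt.eventually_ne`). A compact set all of whose points are isolated is finite
(`IsCompact.finite`, `DiscreteTopology`). (v) So finitely many critical values in `[s₂-e', s₂+e']`; choose `a < b` inside avoiding them (a finite set has a complement that is open and dense: `Set.Finite` in `Ioo` infinite; pick a point `s₃ ∈ Ioo` not a critical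
value and a small closed interval around it).
-/

open MeasureTheory Set Filter Topology
open scoped ContDiff

namespace Pool.Agent.YUD

variable {M : Set ℂ}

theorem S5b_fderiv_eq_zero_iff (f : ℂ → ℝ) (x : ℂ) :
    fderiv ℝ f x = 0 ↔ dx f x = 0 ∧ dy f x = 0 := by
  constructor
  · intro h; simp [dx, dy, h]
  · rintro ⟨h1, h2⟩
    ext k
    rw [fderiv_apply', h1, h2]; simp

/-- nondegenerate critical points are isolated -/
theorem S5b_isolated (hM : IsOpen M) {ψ : ℂ → ℝ} (hψ : ContDiffOn ℝ 3 ψ M) {y : ℂ} (hy : y ∈ M)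
    (hdet : dx (dx ψ) y * dy (dy ψ) y - dx (dy ψ) y ^ 2 ≠ 0) :
    ∀ᶠ z in 𝓝[≠] y, fderiv ℝ ψ z ≠ 0 := by
  have h3 : ContDiffOn ℝ (1 + 1 + 1 : ℕ) ψ M := hψ
  have hp : DifferentiableAt ℝ (dx ψ) y := dat hM (contDiffOn_dx hM h3) hy
  have hq : DifferentiableAt ℝ (dy ψ) y := dat hM (contDiffOn_dy hM h3) hy
  have hd : HasFDerivAt (fun z => (dx ψ z, dy ψ z))
      ((fderiv ℝ (dx ψ) y).prod (fderiv ℝ (dy ψ) y)) y := hp.hasFDerivAt.prodMk hq.hasFDerivAt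
  have hcomm : dx (dy ψ) y = dy (dx ψ) y := dx_dy_comm hM (hψ.of_le (by norm_num)) hy
  have hanti : ∃ C, AntilipschitzWith C ((fderiv ℝ (dx ψ) y).prod (fderiv ℝ (dy ψ) y)) := by
    obtain ⟨K, -, hK⟩ := LinearMap.exists_antilipschitzWith
      (((fderiv ℝ (dx ψ) y).prod (fderiv ℝ (dy ψ) y) : ℂ →L[ℝ] ℝ × ℝ) : ℂ →ₗ[ℝ] ℝ × ℝ) (by
        rw [LinearMap.ker_eq_bot']
        intro k hk
        have hk' : (fderiv ℝ (dx ψ) y k, fderiv ℝ (dy ψ) y k) = (0, 0) := hk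
        have h1 : fderiv ℝ (dx ψ) y k = 0 := congrArg Prod.fst hk'
        have h2 : fderiv ℝ (dy ψ) y k = 0 := congrArg Prod.snd hk'
        rw [fderiv_apply'] at h1 h2
        rw [← hcomm] at h1
        have e1 : k.re * (dx (dx ψ) y * dy (dy ψ) y - dx (dy ψ) y ^ 2) = 0 := by
          linear_combination dy (dy ψ) y * h1 - dx (dy ψ) y * h2
        have e2 : k.im * (dx (dx ψ) y * dy (dy ψ) y - dx (dy ψ) y ^ 2) = 0 := by
          linear_combination dx (dx ψ) y * h2 - dx (dy ψ) y * h1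
        have e3 := (mul_eq_zero.1 e1).resolve_right hdet
        have e4 := (mul_eq_zero.1 e2).resolve_right hdet
        exact Complex.ext e3 e4)
    exact ⟨K, hK⟩
  filter_upwards [hd.eventually_ne (c := ((0 : ℝ), (0 : ℝ))) hanti] with z hz hz0
  rw [S5b_fderiv_eq_zero_iff] at hz0
  exact hz (by rw [hz0.1, hz0.2])

theorem regular_interval (hM : IsOpen M) {ψ : ℂ → ℝ} (hψ : Stream M ψ) {G : ℝ → ℝ}
    (hG : Continuous G) (hlap : ∀ x ∈ M, lap ψ x = G (ψ x)) (hne : ∃ x ∈ M, lap ψ x ≠ 0)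
    (hdet : ∀ y ∈ M, fderiv ℝ ψ y = 0 → ψ y ≠ 0 → lap ψ y ≠ 0 →
      dx (dx ψ) y * dy (dy ψ) y - dx (dy ψ) y ^ 2 ≠ 0) :
    ∃ a b : ℝ, a < b ∧ (0 : ℝ) ∉ Icc a b ∧ (∀ x ∈ M, ψ x ∈ Icc a b → fderiv ℝ ψ x ≠ 0) ∧
      ∀ s ∈ Icc a b, ∃ x ∈ M, ψ x = s := by
  have hψc : ContinuousOn ψ M := hψ.contDiffOn.continuousOn
  have hGc : ContinuousOn (fun x => G (ψ x)) M := hG.comp_continuousOn hψc
  have hfc : ContinuousOn (fderiv ℝ ψ) M :=
    hψ.contDiffOn.continuousOn_fderiv_of_isOpen hM (by norm_num)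
  -- (i), (ii)
  obtain ⟨x₂, hx₂, hG₂, hψ₂, hf₂⟩ : ∃ x ∈ M, G (ψ x) ≠ 0 ∧ ψ x ≠ 0 ∧ fderiv ℝ ψ x ≠ 0 := by
    by_contra hcon
    push Not at hcon
    obtain ⟨x₀, hx₀, hl₀⟩ := hne
    have hU : IsOpen {x | x ∈ M ∧ G (ψ x) ≠ 0} :=
      hGc.isOpen_inter_preimage hM (isOpen_compl_singleton (x := (0 : ℝ)))
    have hconst : ∀ z : ℂ, lap (fun _ => (0 : ℝ)) z = 0 := by
      intro z
      have e1 : dx (fun _ : ℂ => (0:ℝ)) = fun _ => 0 := by ext z; exact dx_const 0 z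
      have e2 : dy (fun _ : ℂ => (0:ℝ)) = fun _ => 0 := by ext z; exact dy_const 0 z
      simp [lap, e1, e2, dx_const, dy_const]
    obtain ⟨x₁, hx₁, hψ₁⟩ : ∃ x, (x ∈ M ∧ G (ψ x) ≠ 0) ∧ ψ x ≠ 0 := by
      by_contra hcon2
      push Not at hcon2
      have h1 : lap ψ x₀ = lap (fun _ => (0 : ℝ)) x₀ :=
        lap_congr hU (fun z hz => hcon2 z hz) ⟨hx₀, by rw [← hlap x₀ hx₀]; exact hl₀⟩
      rw [hconst] at h1
      exact hl₀ h1
    have hU1 : IsOpen {x | x ∈ M ∧ G (ψ x) ≠ 0 ∧ ψ x ≠ 0} := by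
      have h1 : IsOpen {x | x ∈ M ∧ ψ x ≠ 0} :=
        hψc.isOpen_inter_preimage hM (isOpen_compl_singleton (x := (0 : ℝ)))
      have h2 := hU.inter h1
      have e : {x | x ∈ M ∧ G (ψ x) ≠ 0 ∧ ψ x ≠ 0} =
          {x | x ∈ M ∧ G (ψ x) ≠ 0} ∩ {x | x ∈ M ∧ ψ x ≠ 0} := by
        ext z
        constructor
        · rintro ⟨h1, h2, h3⟩; exact ⟨⟨h1, h2⟩, ⟨h1, h3⟩⟩
        · rintro ⟨⟨h1, h2⟩, ⟨_, h3⟩⟩; exact ⟨h1, h2, h3⟩
      rw [e]; exact h2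
    have hz : ∀ z ∈ {x | x ∈ M ∧ G (ψ x) ≠ 0 ∧ ψ x ≠ 0}, dx ψ z = 0 ∧ dy ψ z = 0 := by
      rintro z ⟨h1, h2, h3⟩
      exact (S5b_fderiv_eq_zero_iff ψ z).1 (hcon z h1 h2 h3)
    have hl : lap ψ x₁ = 0 := by
      have hm : x₁ ∈ {x | x ∈ M ∧ G (ψ x) ≠ 0 ∧ ψ x ≠ 0} := ⟨hx₁.1, hx₁.2, hψ₁⟩
      unfold lap
      rw [dx_congr hU1 (g := fun _ => 0) (fun z hz' => (hz z hz').1) hm,
        dy_congr hU1 (g := fun _ => 0) (fun z hz' => (hz z hz').2) hm, dx_const, dy_const, add_zero]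
    exact hx₁.2 (by rw [← hlap x₁ hx₁.1]; exact hl)
  -- (iii)
  have himg : ψ '' M ∈ 𝓝 (ψ x₂) := by
    have hs : HasStrictFDerivAt ψ (fderiv ℝ ψ x₂) x₂ :=
      (hψ.contDiffOn.contDiffAt (hM.mem_nhds hx₂)).hasStrictFDerivAt (by norm_num)
    have hsurj : (fderiv ℝ ψ x₂).range = ⊤ := by
      rw [LinearMap.range_eq_top]
      obtain ⟨k, hk⟩ : ∃ k, fderiv ℝ ψ x₂ k ≠ 0 := by
        by_contra hcon
        push Not at hcon
        exact hf₂ (by ext k; simpa using hcon k)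
      intro s
      refine ⟨(s / fderiv ℝ ψ x₂ k) • k, ?_⟩
      show fderiv ℝ ψ x₂ ((s / fderiv ℝ ψ x₂ k) • k) = s
      rw [map_smul, smul_eq_mul, div_mul_cancel₀ _ hk]
    rw [← hs.map_nhds_eq_of_surj hsurj]
    exact image_mem_map (hM.mem_nhds hx₂)
  have hN : {s : ℝ | G s ≠ 0 ∧ s ≠ 0} ∈ 𝓝 (ψ x₂) := by
    have h1 : {s : ℝ | G s ≠ 0} ∈ 𝓝 (ψ x₂) :=
      (isOpen_compl_singleton.preimage hG).mem_nhds hG₂
    have h2 : {s : ℝ | s ≠ 0} ∈ 𝓝 (ψ x₂) := isOpen_compl_singleton.mem_nhds hψ₂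
    filter_upwards [h1, h2] with s hs1 hs2 using ⟨hs1, hs2⟩
  obtain ⟨e, he, he2⟩ := Metric.nhds_basis_closedBall.mem_iff.1 (inter_mem hN himg)
  rw [Real.closedBall_eq_Icc] at he2
  set p := ψ x₂ - e with hp
  set q := ψ x₂ + e with hq
  have hpq : p < q := by rw [hp, hq]; linarith
  have h0 : (0 : ℝ) ∉ Icc p q := fun h => (he2 h).1.2 rfl
  have hKc := hψ.compact_level h0
  -- (iv)
  have hfin : {x | x ∈ M ∧ ψ x ∈ Icc p q ∧ fderiv ℝ ψ x = 0}.Finite := by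
    by_contra hinf
    have hinf' : {x | x ∈ M ∧ ψ x ∈ Icc p q ∧ fderiv ℝ ψ x = 0}.Infinite := hinf
    obtain ⟨y, hyK, hacc⟩ := hinf'.exists_accPt_of_subset_isCompact hKc
      (fun z hz => ⟨hz.1, hz.2.1⟩)
    rw [accPt_iff_frequently_nhdsNE] at hacc
    have hfr : ∃ᶠ z in 𝓝[≠] y, fderiv ℝ ψ z = 0 := hacc.mono fun z hz => hz.2.2
    by_cases hcr : fderiv ℝ ψ y = 0
    · have hG' := (he2 hyK.2).1
      have hev := S5b_isolated hM hψ.contDiffOn hyK.1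
        (hdet y hyK.1 hcr hG'.2 (by rw [hlap y hyK.1]; exact hG'.1))
      obtain ⟨z, hz1, hz2⟩ := (hfr.and_eventually hev).exists
      exact hz2 hz1
    · have hev : ∀ᶠ z in 𝓝[≠] y, fderiv ℝ ψ z ≠ 0 :=
        nhdsWithin_le_nhds ((hfc.continuousAt (hM.mem_nhds hyK.1)).eventually_ne hcr)
      obtain ⟨z, hz1, hz2⟩ := (hfr.and_eventually hev).exists
      exact hz2 hz1
  -- (v)
  obtain ⟨s₃, hs₃, hs₃2⟩ := ((Ioo_infinite hpq).sdiff (hfin.image ψ)).nonempty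
  have hopen : IsOpen (Ioo p q ∩ (ψ '' {x | x ∈ M ∧ ψ x ∈ Icc p q ∧ fderiv ℝ ψ x = 0})ᶜ) :=
    isOpen_Ioo.inter (hfin.image ψ).isClosed.isOpen_compl
  obtain ⟨e', he', he'2⟩ := Metric.nhds_basis_closedBall.mem_iff.1
    (hopen.mem_nhds ⟨hs₃, hs₃2⟩)
  rw [Real.closedBall_eq_Icc] at he'2
  refine ⟨s₃ - e', s₃ + e', by linarith, ?_, ?_, ?_⟩
  · intro h
    exact h0 (Ioo_subset_Icc_self (he'2 h).1)
  · intro x hx hx2 hx3
    exact (he'2 hx2).2 ⟨x, ⟨hx, Ioo_subset_Icc_self (he'2 hx2).1, hx3⟩, rfl⟩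
  · intro s hs
    obtain ⟨x, hx, hxs⟩ := (he2 (Ioo_subset_Icc_self (he'2 hs).1)).2
    exact ⟨x, hx, hxs⟩

end Pool.Agent.YUD
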