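import Pool.Agent.YUD.A6
import Pool.Agent.YUD.A7b
import Pool.Agent.YUD.A8
import Pool.Agent.YUD.A9
import Pool.Agent.YUD.B2
import Pool.Agent.YUD.B4b
import Pool.Agent.YUD.B9
import Pool.Agent.YUD.C6
import Pool.Agent.YUD.D2
import Pool.Agent.YUD.S4c
import Pool.Agent.YUD.S5a
import Pool.Agent.YUD.S5b

/-!
# [YUD] E: assembly
-/

open MeasureTheory Set Filter Topology
open scoped ContDiff

namespace Pool.Agent.YUD

variable {M : Set ℂ} {α : ℝ}

theorem pb_lap_eq_zero (hM : IsOpen M) {F : ℝ → ℝ} (hF : ContDiff ℝ ∞ F) {ψ : ℂ → ℝ}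
    (hψ : Stream M ψ) (hlap : ∀ x ∈ M, lap ψ x = F (ψ x)) : ∀ x ∈ M, pb ψ (lap ψ) x = 0 := by
  intro x hx
  rw [pb_congr hM (fun _ _ => rfl) hlap hx]
  exact pb_comp_self (hF.differentiable (by simp) _) (hψ.differentiableAt hM hx)

/-- Step 4 for steady states near `ws` -/
theorem no_travel (hM : IsOpen M) (hb : Bornology.IsBounded M) (hα0 : 0 < α) (hα1 : α < 1)
    {ws : ℂ → ℝ} {δ C CS : ℝ} (hδ : 0 < δ) (hUB : UB M α ws δ C) (hS : Schauder M α CS)
    {ψ : ℂ → ℝ} (hψ : Stream M ψ) (hst : ∀ x ∈ M, pb ψ (lap ψ) x = 0)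
    (hnear : NormLe M α (δ / 2) (fun x => lap ψ x - ws x)) {a₁ a b b₁ : ℝ} (ha : a₁ < a)
    (hb' : b < b₁) (h0 : (0 : ℝ) ∉ Icc a₁ b₁)
    (hreg : ∀ x ∈ M, ψ x ∈ Icc a₁ b₁ → fderiv ℝ ψ x ≠ 0)
    {f : ℝ → ℝ} (hf : ContDiff ℝ ∞ f) (hsupp : tsupport f ⊆ Icc a b) :
    ∫ x in M, deriv f (ψ x) = 0 := by
  obtain ⟨V, Φ, hfl⟩ := exists_sflow hM hψ h0
  obtain ⟨c, hc⟩ := koch hM hb hα0 hα1 hδ hUB hS hψ hst hnear ha hb' h0 hfl
  exact travel_time hM hψ ha hb' h0 hfl hreg hc hf hsupp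

/-- the second derivative of a nonzero function of compact support does not vanish identically -/
theorem second_deriv_ne {h : ℝ → ℝ} (hh : ContDiff ℝ ∞ h) {a b : ℝ} (hs : tsupport h ⊆ Icc a b)
    (h2 : ∀ s, deriv (deriv h) s = 0) : h = 0 := by
  have hd : ContDiff ℝ ∞ (deriv h) := (contDiff_infty_iff_deriv.1 hh).2
  have h1 : ∀ s, deriv h s = 0 := by
    have hc : ∀ s t, deriv h s = deriv h t :=
      is_const_of_deriv_eq_zero (hd.differentiable (by simp)) h2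
    intro s
    rw [hc s (b + 1)]
    have : h =ᶠ[𝓝 (b + 1)] fun _ => 0 := by
      have : (tsupport h)ᶜ ∈ 𝓝 (b + 1) := (isClosed_tsupport h).isOpen_compl.mem_nhds
        fun hm => by have := (hs hm).2; linarith
      filter_upwards [this] with t ht
      exact image_eq_zero_of_notMem_tsupport ht
    rw [this.deriv_eq, deriv_const]
  have hc : ∀ s t, h s = h t := is_const_of_deriv_eq_zero (hh.differentiable (by simp)) h1
  ext s
  rw [hc s (b + 1)]
  exact image_eq_zero_of_notMem_tsupport fun hm => by have := (hs hm).2; linarith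

theorem hasCompactSupport_deriv' {f : ℝ → ℝ} {a b : ℝ} (hs : tsupport f ⊆ Icc a b) :
    HasCompactSupport (deriv f) := by
  have : HasCompactSupport f := isCompact_Icc.of_isClosed_subset (isClosed_tsupport f) hs
  exact this.deriv

/-- the main argument -/
theorem nondeg_case (hM : IsOpen M) (hb : Bornology.IsBounded M) (hq : QuasiConvex M)
    (hα0 : 0 < α) (hα1 : α < 1) {ws : ℂ → ℝ} {δ C CS : ℝ} (hδ : 0 < δ) (hUB : UB M α ws δ C)
    (hS : Schauder M α CS) {ζ : ℂ → ℝ} (hζ : Torsion M ζ) {F : ℝ → ℝ} (hF : ContDiff ℝ ∞ F)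
    {ψ : ℂ → ℝ} (hψ : Stream M ψ) (hlap : ∀ x ∈ M, lap ψ x = F (ψ x)) (hN : Nondeg M F ψ)
    (hnear : NormLe M α (δ / 4) (fun x => F (ψ x) - ws x)) (hnz : ∃ x ∈ M, lap ψ x ≠ 0) :
    False := by
  have hst := pb_lap_eq_zero hM hF hψ hlap
  have hnear2 : NormLe M α (δ / 2) (fun x => lap ψ x - ws x) :=
    (hnear.mono (by linarith)).congr hM fun x hx => by rw [hlap x hx]
  -- Step 5
  have hdet : ∀ y ∈ M, fderiv ℝ ψ y = 0 → ψ y ≠ 0 → lap ψ y ≠ 0 →
      dx (dx ψ) y * dy (dy ψ) y - dx (dy ψ) y ^ 2 ≠ 0 := by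
    intro y hy hcr hψy hly
    have hr : 0 < |ψ y| / 2 := by positivity
    have h0 : (0 : ℝ) ∉ Icc (ψ y - |ψ y| / 2) (ψ y + |ψ y| / 2) := by
      rintro ⟨h1, h2⟩
      rcases abs_cases (ψ y) with ⟨h3, h4⟩ | ⟨h3, h4⟩ <;> rw [h3] at h1 h2 hr <;> linarith
    obtain ⟨V, Φ, hfl⟩ := exists_sflow hM hψ h0
    obtain ⟨c, hc⟩ := koch hM hb hα0 hα1 hδ hUB hS hψ hst hnear2 (a := ψ y) (b := ψ y)
      (by linarith) (by linarith) h0 hfl
    exact hess_ne hM hψ hfl hy ⟨by linarith, by linarith⟩ hcr hly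
      fun T hT k => hc T hT y hy ⟨le_rfl, le_rfl⟩ k
  obtain ⟨a, b, hab, h0, hreg, hsurj⟩ := regular_interval hM hψ hF.continuous hlap hnz hdet
  -- nested intervals
  obtain ⟨L, hL⟩ : ∃ L, L = (b - a) / 5 := ⟨_, rfl⟩
  have hL0 : 0 < L := by rw [hL]; linarith
  have hbL : b = a + 5 * L := by rw [hL]; ring
  -- Step 6
  obtain ⟨d, R, μ, hRs, hReq, hfam⟩ := family hM hb hq hα0 hα1 hS hF hψ hlap hN
  have hKc := hψ.compact_level h0
  -- Step 7: the bilinear identity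
  have key : ∀ f : ℝ → ℝ, ContDiff ℝ ∞ f → tsupport f ⊆ Icc (a + 2 * L) (b - 2 * L) →
      ∀ H : Sm, ∫ x in M, deriv (deriv f) (ψ x) * R H x = 0 := by
    intro f hf hfs H
    obtain ⟨Ψ, h1, h2, h3, h4⟩ := hfam H
    have hf' : ContDiff ℝ ∞ (deriv f) := (contDiff_infty_iff_deriv.1 hf).2
    obtain ⟨A, hA⟩ := (hRs H).abs_bdd
    obtain ⟨m, hm, hm2⟩ : ∃ m > 0, ∀ x ∈ {x | x ∈ M ∧ ψ x ∈ Icc a b}, m ≤ ‖fderiv ℝ ψ x‖ := by
      have hc : ContinuousOn (fun x => ‖fderiv ℝ ψ x‖) {x | x ∈ M ∧ ψ x ∈ Icc a b} := by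
        have : ContinuousOn (fderiv ℝ ψ) M :=
          (hψ.contDiffOn.continuousOn_fderiv_of_isOpen hM (by norm_num))
        exact (this.mono fun x hx => hx.1).norm
      rcases eq_empty_or_nonempty {x | x ∈ M ∧ ψ x ∈ Icc a b} with he | hne
      · exact ⟨1, one_pos, fun x hx => by rw [he] at hx; exact hx.elim⟩
      · obtain ⟨z, hz, hz2⟩ := hKc.exists_isMinOn hne hc
        exact ⟨‖fderiv ℝ ψ z‖, norm_pos_iff.2 (hreg z hz.1 hz.2), fun x hx => hz2 hx⟩
    refine deriv_limit hM hb hψ.contDiffOn.continuousOn (hRs H).contDiffOn.continuousOn hA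
      (h1.mono fun ε hε => hε.1.contDiffOn.continuousOn)
      (g := deriv f) (contDiff_infty.1 hf' 2) (hasCompactSupport_deriv' hfs) h3 ?_ ?_
    · refine no_travel hM hb hα0 hα1 hδ hUB hS hψ hst hnear2 (a₁ := a) (a := a + 2 * L)
        (b := b - 2 * L) (b₁ := b) (by linarith) (by linarith) h0 hreg hf hfs
    · -- the perturbed steady states
      have hsmall : ∀ᶠ ε : ℝ in 𝓝[>] 0, ∀ x ∈ M, |Ψ ε x - ψ x| ≤ L / 2 := by
        have e1 := h3 1 one_pos
        have e2 : ∀ᶠ ε : ℝ in 𝓝[>] 0, ε * (1 + |A|) < L / 2 := by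
          have : Tendsto (fun ε : ℝ => ε * (1 + |A|)) (𝓝[>] 0) (𝓝 (0 * (1 + |A|))) :=
            (tendsto_id.mul_const _).mono_left nhdsWithin_le_nhds
          rw [zero_mul] at this
          exact this.eventually (gt_mem_nhds (by positivity))
        filter_upwards [e1, e2, self_mem_nhdsWithin] with ε he1 he2 he3 x hx
        have he3' : 0 < ε := he3
        have h5 := he1 x hx
        have h6 : |R H x| ≤ |A| := (hA x hx).trans (le_abs_self A)
        calc |Ψ ε x - ψ x| = |(Ψ ε x - ψ x - ε * R H x) + ε * R H x| := by ring_nf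
          _ ≤ |Ψ ε x - ψ x - ε * R H x| + |ε * R H x| := abs_add_le _ _
          _ ≤ 1 * ε + ε * |A| := by
              rw [abs_mul, abs_of_pos he3']; gcongr
          _ ≤ L / 2 := by linarith
      filter_upwards [h1, h2 (δ / 4) (by positivity), hsmall, h4 (m / 2) (by positivity)] with
        ε he1 he2 he3 he4
      have hnearε : NormLe M α (δ / 2) (fun x => lap (Ψ ε) x - ws x) := by
        have := (he2.add hM hnear).mono (C' := δ / 2) (by linarith)
        exact this.congr hM fun x _ => by ring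
      refine no_travel hM hb hα0 hα1 hδ hUB hS he1.1 he1.2 hnearε (a₁ := a + L)
        (a := a + 2 * L) (b := b - 2 * L) (b₁ := b - L) (by linarith) (by linarith) ?_ ?_ hf hfs
      · rintro ⟨h5, h6⟩
        exact h0 ⟨by linarith, by linarith⟩
      · intro x hx hx2 hx3
        have h5 := abs_le.1 (he3 x hx)
        have h6 : m ≤ ‖fderiv ℝ ψ x‖ := hm2 x ⟨hx, ⟨by linarith [hx2.1], by linarith [hx2.2]⟩⟩
        have h7 := he4 x hx
        rw [hx3, zero_sub, norm_neg] at h7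
        linarith
  -- the test function
  obtain ⟨Cψ, hCψ⟩ := hψ.abs_bdd
  have hF' : ContDiff ℝ ∞ (deriv F) := (contDiff_infty_iff_deriv.1 hF).2
  obtain ⟨B, hB0, hB⟩ := bdd_on_Icc hF'.continuous Cψ
  obtain ⟨m, Q, hQm, hQ⟩ := poincare_codim hM hb hζ (B + 1)
  let LL : Sm →ₗ[ℝ] (Fin d → ℝ) × (Fin m → ℝ) := μ.prod
    { toFun := fun H i => ∫ x in M ∩ Q i, R H x
      map_add' := by
        intro H1 H2
        ext i
        rw [map_add]
        exact integral_add (((hRs H1).integrableOn hM hb).mono_set inter_subset_left)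
          (((hRs H2).integrableOn hM hb).mono_set inter_subset_left)
      map_smul' := by
        intro c H
        ext i
        rw [map_smul]
        exact integral_const_mul c _ }
  obtain ⟨h, hh, hhs, hh0, hmem, hLL⟩ := exists_test (a := a + 2 * L) (b := b - 2 * L)
    (by linarith) LL
  have hμ : μ ⟨deriv (deriv h), hmem⟩ = 0 := congrArg Prod.fst hLL
  have hQ0 : ∀ i, ∫ x in M ∩ Q i, R ⟨deriv (deriv h), hmem⟩ x = 0 := fun i =>
    congrFun (congrArg Prod.snd hLL) i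
  set φ := R ⟨deriv (deriv h), hmem⟩ with hφ
  have hφs : Stream M φ := hRs _
  have hφlap : ∀ x ∈ M, lap φ x = deriv F (ψ x) * φ x + deriv (deriv h) (ψ x) := hReq _ hμ
  have hid : ∫ x in M, deriv (deriv h) (ψ x) * φ x = 0 := key h hh hhs _
  have hgreen := green hM hb hζ hφs hφs
  have hPoi := hQ φ hφs hQ0
  obtain ⟨Cφ, hCφ⟩ := hφs.abs_bdd
  have hψc := hψ.contDiffOn.continuousOn
  have hφc := hφs.contDiffOn.continuousOn
  have hh2 : ContDiff ℝ ∞ (deriv (deriv h)) := hmem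
  have hi2 : IntegrableOn (fun x => φ x ^ 2) M :=
    integrableOn_of_bdd hM hb (hφc.pow 2) (C := Cφ ^ 2) fun x hx => by
      rw [abs_pow]; exact pow_le_pow_left₀ (abs_nonneg _) (hCφ x hx) 2
  have hi1 : IntegrableOn (fun x => deriv F (ψ x) * φ x ^ 2) M := by
    refine integrableOn_of_bdd hM hb ((hF'.continuous.comp_continuousOn hψc).mul (hφc.pow 2))
      (C := B * Cφ ^ 2) fun x hx => ?_
    rw [abs_mul, abs_pow]
    exact mul_le_mul (hB _ (hCψ x hx)) (pow_le_pow_left₀ (abs_nonneg _) (hCφ x hx) 2)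
      (by positivity) hB0
  have hi3 : IntegrableOn (fun x => deriv (deriv h) (ψ x) * φ x) M := by
    obtain ⟨D, hD0, hD⟩ := bdd_on_Icc hh2.continuous Cψ
    refine integrableOn_of_bdd hM hb ((hh2.continuous.comp_continuousOn hψc).mul hφc)
      (C := D * Cφ) fun x hx => ?_
    rw [abs_mul]
    exact mul_le_mul (hD _ (hCψ x hx)) (hCφ x hx) (by positivity) hD0
  have e1 : ∫ x in M, gsq φ x = - ∫ x in M, deriv F (ψ x) * φ x ^ 2 := by
    have e2 : ∫ x in M, gsq φ x = ∫ x in M, (dx φ x * dx φ x + dy φ x * dy φ x) :=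
      setIntegral_congr_fun hM.measurableSet fun x _ => by simp only [gsq]; ring
    have e3 : ∫ x in M, φ x * lap φ x =
        ∫ x in M, (deriv F (ψ x) * φ x ^ 2 + deriv (deriv h) (ψ x) * φ x) :=
      setIntegral_congr_fun hM.measurableSet fun x hx => by simp only [hφlap x hx]; ring
    rw [e2, hgreen, e3, integral_add hi1 hi3, hid, add_zero]
  have e4 : - ∫ x in M, deriv F (ψ x) * φ x ^ 2 ≤ B * ∫ x in M, φ x ^ 2 := by
    rw [← integral_neg, ← integral_const_mul]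
    refine setIntegral_mono_on hi1.neg (hi2.const_mul B) hM.measurableSet fun x hx => ?_
    have := (abs_le.1 (hB _ (hCψ x hx))).1
    nlinarith [sq_nonneg (φ x)]
  have e5 : ∫ x in M, φ x ^ 2 ≤ 0 := by
    rw [e1] at hPoi
    linarith
  have e6 : ∫ x in M, φ x ^ 2 = 0 := le_antisymm e5 (integral_nonneg fun x => sq_nonneg _)
  have e7 : ∀ x ∈ M, φ x = 0 := by
    have h8 := (setIntegral_eq_zero_iff_of_nonneg_ae
      (Eventually.of_forall fun x => sq_nonneg (φ x)) hi2).1 e6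
    intro x hx
    by_contra hne
    have hU : IsOpen {z | z ∈ M ∧ φ z ≠ 0} := by
      have := hφc.isOpen_inter_preimage hM (isOpen_compl_singleton (x := (0 : ℝ)))
      exact this
    have hpos : 0 < volume {z | z ∈ M ∧ φ z ≠ 0} := hU.measure_pos volume ⟨x, hx, hne⟩
    have hz : volume {z | z ∈ M ∧ φ z ≠ 0} = 0 := by
      rw [EventuallyEq, ae_restrict_iff' hM.measurableSet] at h8
      refine measure_mono_null ?_ h8
      rintro z ⟨hz1, hz2⟩
      intro hcon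
      exact pow_ne_zero 2 hz2 (hcon hz1)
    exact hpos.ne' hz
  have e8 : ∀ x ∈ M, deriv (deriv h) (ψ x) = 0 := by
    intro x hx
    have h9 := hφlap x hx
    have h10 : lap φ x = 0 := by
      rw [lap_congr hM (g := fun _ => 0) e7 hx]
      have e1 : dx (fun _ : ℂ => (0:ℝ)) = fun _ => 0 := by ext z; exact dx_const 0 z
      have e2 : dy (fun _ : ℂ => (0:ℝ)) = fun _ => 0 := by ext z; exact dy_const 0 z
      simp [lap, e1, e2, dx_const, dy_const]
    rw [h10, e7 x hx, mul_zero, zero_add] at h9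
    exact h9.symm
  refine hh0 (second_deriv_ne hh hhs fun s => ?_)
  by_cases hs : s ∈ Icc a b
  · obtain ⟨x, hx, rfl⟩ := hsurj s hs
    exact e8 x hx
  · have hs2 : s ∉ tsupport h := fun hm => hs ⟨by linarith [(hhs hm).1], by linarith [(hhs hm).2]⟩
    have hev : h =ᶠ[𝓝 s] fun _ => 0 := by
      filter_upwards [(isClosed_tsupport h).isOpen_compl.mem_nhds hs2] with t ht
      exact image_eq_zero_of_notMem_tsupport ht
    have : deriv h =ᶠ[𝓝 s] fun _ => 0 := by
      have := hev.deriv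
      simpa using this
    rw [this.deriv_eq, deriv_const]

/-- the core: `UB` fails -/
theorem not_UB (hM : IsOpen M) (hb : Bornology.IsBounded M) (hne : M.Nonempty)
    (hq : QuasiConvex M) (hα0 : 0 < α) (hα1 : α < 1) {ws : ℂ → ℝ}
    (hcl : ∀ δ > 0, ∃ (F : ℝ → ℝ) (ψ : ℂ → ℝ), ContDiff ℝ ∞ F ∧ Stream M ψ ∧
      (∀ x ∈ M, lap ψ x = F (ψ x)) ∧ (Nondeg M F ψ ∨ NonIso M ψ) ∧
      NormLe M α δ (fun x => F (ψ x) - ws x)) {δ C : ℝ} (hδ : 0 < δ) :
    ¬ UB M α ws δ C := by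
  intro hUB
  obtain ⟨CS, hS⟩ := schauder_of_UB hM hb hα0 hα1 hδ hUB
  obtain ⟨ζ, hζ⟩ : ∃ ζ, Torsion M ζ := by
    obtain ⟨ζ, h1, h2, -⟩ := hS.2 |1| (fun _ => 1) (normLe_const 1)
    exact ⟨ζ, h1, h2⟩
  obtain ⟨F, ψ, hF, hψ, hlap, hor, hnear⟩ := hcl (δ / 8) (by positivity)
  rcases hor with hN | hI
  · by_cases hnz : ∃ x ∈ M, lap ψ x ≠ 0
    · exact nondeg_case hM hb hq hα0 hα1 hδ hUB hS hζ hF hψ hlap hN
        (hnear.mono (by linarith)) hnz
    · push Not at hnz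
      refine nondeg_case hM hb hq hα0 hα1 hδ hUB hS hζ (F := fun _ => δ / 8)
        contDiff_const (hζ.1.const_mul hM (δ / 8)) ?_ ?_ ?_ ?_
      · intro x hx
        rw [lap_const_mul hM _ hζ.1.two hx, hζ.2 x hx, mul_one]
      · intro k hk hk2 _
        have h0 : ∀ x ∈ M, lap k x = lap (fun _ => (0 : ℝ)) x := by
          intro x hx
          have e1 : dx (fun _ : ℂ => (0:ℝ)) = fun _ => 0 := by ext z; exact dx_const 0 z
          have e2 : dy (fun _ : ℂ => (0:ℝ)) = fun _ => 0 := by ext z; exact dy_const 0 z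
          rw [hk2 x hx]
          simp [lap, e1, e2, dx_const, dy_const]
        exact stream_unique hM hb hk Stream.zero_fun h0
      · have h1 : NormLe M α (|δ / 8| + δ / 8) (fun x => δ / 8 + (F (ψ x) - ws x)) :=
          (normLe_const (δ / 8)).add hM hnear
        have h2 : |δ / 8| = δ / 8 := abs_of_pos (by positivity)
        refine (h1.mono (C' := δ / 4) (by rw [h2]; linarith)).congr hM fun x hx => ?_
        rw [← hlap x hx, hnz x hx]; ring
      · obtain ⟨x, hx⟩ := hne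
        refine ⟨x, hx, ?_⟩
        rw [lap_const_mul hM _ hζ.1.two hx, hζ.2 x hx, mul_one]
        positivity
  · obtain ⟨a, b, h0, hreg, f, hf, hfs, hint⟩ := hI
    refine hint ?_
    have hst := pb_lap_eq_zero hM hF hψ hlap
    have hnear2 : NormLe M α (δ / 2) (fun x => lap ψ x - ws x) :=
      (hnear.mono (by linarith)).congr hM fun x hx => by rw [hlap x hx]
    rcases eq_empty_or_nonempty (tsupport f) with he | hne'
    · have hf0 : f = 0 := by rwa [tsupport_eq_empty_iff] at he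
      simp [hf0]
    · have hK : IsCompact (tsupport f) :=
        (isCompact_Icc (a := a) (b := b)).of_isClosed_subset (isClosed_tsupport f)
          (hfs.trans Ioo_subset_Icc_self)
      have h1 := hfs (hK.sInf_mem hne')
      have h2 := hfs (hK.sSup_mem hne')
      refine no_travel hM hb hα0 hα1 hδ hUB hS hψ hst hnear2 (a₁ := a) (a := sInf (tsupport f))
        (b := sSup (tsupport f)) (b₁ := b) h1.1 h2.2 h0 hreg hf fun s hs => ?_
      exact ⟨csInf_le hK.bddBelow hs, le_csSup hK.bddAbove hs⟩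

/-- the main theorem -/
theorem main (hM : IsOpen M) (hb : Bornology.IsBounded M) (hne : M.Nonempty)
    (hq : QuasiConvex M) (hα0 : 0 < α) (hα1 : α < 1) {ws : ℂ → ℝ}
    (hcl : ∀ δ > 0, ∃ (F : ℝ → ℝ) (ψ : ℂ → ℝ), ContDiff ℝ ∞ F ∧ Stream M ψ ∧
      (∀ x ∈ M, lap ψ x = F (ψ x)) ∧ (Nondeg M F ψ ∨ NonIso M ψ) ∧
      NormLe M α δ (fun x => F (ψ x) - ws x)) :
    NormInflation M α ws ∧ ¬ Stable M α ws := by
  have hinf : NormInflation M α ws := by
    intro δ hδ C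
    by_contra hcon
    push Not at hcon
    exact not_UB hM hb hne hq hα0 hα1 hcl hδ (C := C) hcon
  refine ⟨hinf, fun hst => ?_⟩
  -- a bound for `ws`
  obtain ⟨C₀, hC₀⟩ : ∃ C₀, NormLe M α C₀ ws := by
    obtain ⟨F, ψ, hF, hψ, hlap, -, hnear⟩ := hcl 1 one_pos
    obtain ⟨A, hA⟩ := hψ.bdd
    obtain ⟨B, hB0, hB⟩ := jetLe_comp 2 hF A
    obtain ⟨K, hK0, hK⟩ := normLe_of_jet hM hb hq hα0 hα1
    have h1 : JetLe M 2 B (fun x => F (ψ x)) := hB M ψ hM hψ.two hA.of_succ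
    have h2 : ContDiffOn ℝ 2 (fun x => F (ψ x)) M :=
      (contDiff_infty.1 hF 2).comp_contDiffOn hψ.two
    exact ⟨_, ((hK B _ hB0 h2 h1).sub hM hnear).congr hM fun x _ => by ring⟩
  obtain ⟨δ, hδ, h⟩ := hst 1 one_pos
  obtain ⟨w₀, hw₀, hw⟩ := hinf δ hδ (1 + C₀)
  obtain ⟨w, ψ, hsol, hini, hsmall⟩ := h w₀ hw₀
  obtain ⟨t, ht, hbig⟩ := hw w ψ hsol hini
  exact hbig (((hsmall t ht).add hM hC₀).congr hM fun x _ => by ring)

end Pool.Agent.YUD
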