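import Pool.Agent.YUD.E

/-!
# [YUD] F: Arnold's criteria imply nondegeneracy; final form
-/

open MeasureTheory Set Filter Topology
open scoped ContDiff

namespace Pool.Agent.YUD

variable {M : Set ℂ} {α : ℝ}

theorem integral_kernel (hM : IsOpen M) (hb : Bornology.IsBounded M) {ζ : ℂ → ℝ}
    (hζ : Torsion M ζ) {F : ℝ → ℝ} (hF : ContDiff ℝ ∞ F) {ψ : ℂ → ℝ} (hψ : Stream M ψ)
    {k : ℂ → ℝ} (hk : Stream M k) (hklap : ∀ x ∈ M, lap k x = deriv F (ψ x) * k x) :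
    IntegrableOn (gsq k) M ∧ IntegrableOn (fun x => deriv F (ψ x) * k x ^ 2) M ∧
      ∫ x in M, gsq k x = - ∫ x in M, deriv F (ψ x) * k x ^ 2 := by
  have hF' : ContDiff ℝ ∞ (deriv F) := (contDiff_infty_iff_deriv.1 hF).2
  obtain ⟨Cψ, hCψ⟩ := hψ.abs_bdd
  obtain ⟨B, hB0, hB⟩ := bdd_on_Icc hF'.continuous Cψ
  obtain ⟨Ck, hCk⟩ := hk.bdd
  have hk0 := hCk.zero_le
  have hkc := hk.contDiffOn.continuousOn
  have hψc := hψ.contDiffOn.continuousOn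
  have i1 : IntegrableOn (fun x => deriv F (ψ x) * k x ^ 2) M := by
    refine integrableOn_of_bdd hM hb ((hF'.continuous.comp_continuousOn hψc).mul (hkc.pow 2))
      (C := B * Ck ^ 2) fun x hx => ?_
    rw [abs_mul, abs_pow]
    exact mul_le_mul (hB _ (hCψ x hx)) (pow_le_pow_left₀ (abs_nonneg _) (hk0 x hx) 2)
      (by positivity) hB0
  have i2 : IntegrableOn (gsq k) M := by
    refine integrableOn_of_bdd hM hb (((contDiffOn_dx hM hk.cd3).continuousOn.pow 2).add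
      ((contDiffOn_dy hM hk.cd3).continuousOn.pow 2)) (C := Ck ^ 2 + Ck ^ 2) fun x hx => ?_
    have h1 := hCk.2.1.zero_le x hx
    have h2 := hCk.2.2.zero_le x hx
    rw [abs_of_nonneg (gsq_nonneg k x), gsq, ← sq_abs (dx k x), ← sq_abs (dy k x)]
    gcongr
  refine ⟨i2, i1, ?_⟩
  have e1 : ∫ x in M, gsq k x = ∫ x in M, (dx k x * dx k x + dy k x * dy k x) :=
    setIntegral_congr_fun hM.measurableSet fun x _ => by simp only [gsq]; ring
  have e2 : ∫ x in M, k x * lap k x = ∫ x in M, deriv F (ψ x) * k x ^ 2 :=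
    setIntegral_congr_fun hM.measurableSet fun x hx => by simp only [hklap x hx]; ring
  rw [e1, green hM hb hζ hk hk, e2]

theorem nondeg_of_arnold (hM : IsOpen M) (hb : Bornology.IsBounded M) {ζ : ℂ → ℝ}
    (hζ : Torsion M ζ) {F : ℝ → ℝ} (hF : ContDiff ℝ ∞ F) {ψ : ℂ → ℝ} (hψ : Stream M ψ)
    (hA : Arnold M F ψ) : Nondeg M F ψ := by
  intro k hk hklap _
  by_contra hcon
  push Not at hcon
  have h1 := hA k hk hcon
  obtain ⟨i1, i2, e⟩ := integral_kernel hM hb hζ hF hψ hk hklap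
  rw [integral_add i1 i2, e, neg_add_cancel] at h1
  exact lt_irrefl _ h1

theorem main_good (hM : IsOpen M) (hb : Bornology.IsBounded M) (hne : M.Nonempty)
    (hq : QuasiConvex M) (hα0 : 0 < α) (hα1 : α < 1) {ws : ℂ → ℝ}
    (hcl : ∀ δ > 0, ∃ (F : ℝ → ℝ) (ψ : ℂ → ℝ), ContDiff ℝ ∞ F ∧ Stream M ψ ∧
      (∀ x ∈ M, lap ψ x = F (ψ x)) ∧ (Nondeg M F ψ ∨ Arnold M F ψ ∨ NonIso M ψ) ∧
      NormLe M α δ (fun x => F (ψ x) - ws x)) :
    NormInflation M α ws ∧ ¬ Stable M α ws := by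
  have hinf : NormInflation M α ws := by
    intro δ hδ C
    by_contra hcon
    push Not at hcon
    have hUB : UB M α ws δ C := hcon
    obtain ⟨CS, hS⟩ := schauder_of_UB hM hb hα0 hα1 hδ hUB
    obtain ⟨ζ, hζ⟩ : ∃ ζ, Torsion M ζ := by
      obtain ⟨ζ, h1, h2, -⟩ := hS.2 |1| (fun _ => 1) (normLe_const 1)
      exact ⟨ζ, h1, h2⟩
    refine not_UB hM hb hne hq hα0 hα1 (fun ε hε => ?_) hδ (C := C) hUB
    obtain ⟨F, ψ, hF, hψ, hlap, hG, hnear⟩ := hcl ε hε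
    refine ⟨F, ψ, hF, hψ, hlap, ?_, hnear⟩
    rcases hG with h | h | h
    · exact Or.inl h
    · exact Or.inl (nondeg_of_arnold hM hb hζ hF hψ h)
    · exact Or.inr h
  refine ⟨hinf, fun hst => ?_⟩
  -- a bound for `ws`
  obtain ⟨C₀, hC₀⟩ : ∃ C₀, NormLe M α C₀ ws := by
    obtain ⟨F, ψ, hF, hψ, hlap, -, hnear⟩ := hcl 1 one_pos
    obtain ⟨A, hA⟩ := hψ.bdd
    obtain ⟨B, hB0, hB⟩ := jetLe_comp 2 hF A
    obtain ⟨K, hK0, hK⟩ := normLe_of_jet hM hb hq hα0 hα1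
    have h1 : JetLe M 2 B (fun x => F (ψ x)) := hB M ψ hM hψ.two hA.of_succ
    have h2 : ContDiffOn ℝ 2 (fun x => F (ψ x)) M :=
      (contDiff_infty.1 hF 2).comp_contDiffOn hψ.two
    exact ⟨_, ((hK B _ hB0 h2 h1).sub hM hnear).congr hM fun x _ => by ring⟩
  obtain ⟨δ, hδ, h⟩ := hst 1 one_pos
  obtain ⟨w₀, hw₀, hw⟩ := hinf δ hδ (1 + C₀)
  obtain ⟨w, ψ, hsol, hini, hsmall⟩ := h w₀ hw₀
  obtain ⟨t, ht, hbig⟩ := hw w ψ hsol hini
  exact hbig (((hsmall t ht).add hM hC₀).congr hM fun x _ => by ring)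

end Pool.Agent.YUD
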