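import Pool.Agent.YUD.F

/-!
# Norm inflation in `C^{1,α}` near steady states `Δψ = F(ψ)` of the 2D Euler equations

`M` is a bounded open quasiconvex set of the plane (every bounded domain with smooth boundary is
quasiconvex). All notions are defined in `Pool/Agent/YUD/Defs.lean`.

`ws` is any limit in `C^{1,α}(M)` of steady vorticities `F(ψ)`, `Δψ = F(ψ)`, `ψ = 0` on the
boundary, which are nondegenerate, or Arnold stable, or have a non-constant travel time.
-/

open MeasureTheory Set Filter Topology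
open scoped ContDiff

namespace Pool.Agent.YUD.NormInflationVariant

open Pool.Agent.YUD

theorem result {M : Set ℂ} (hM : IsOpen M) (hb : Bornology.IsBounded M) (hne : M.Nonempty)
    (hq : QuasiConvex M) {α : ℝ} (hα0 : 0 < α) (hα1 : α < 1) {ws : ℂ → ℝ}
    (hws : ∀ δ > 0, ∃ (F : ℝ → ℝ) (ψ : ℂ → ℝ), ContDiff ℝ ∞ F ∧ Stream M ψ ∧
      (∀ x ∈ M, lap ψ x = F (ψ x)) ∧ (Nondeg M F ψ ∨ Arnold M F ψ ∨ NonIso M ψ) ∧
      NormLe M α δ (fun x => F (ψ x) - ws x)) :
    NormInflation M α ws ∧ ¬ Stable M α ws :=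
  main_good hM hb hne hq hα0 hα1 hws

end Pool.Agent.YUD.NormInflationVariant
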