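import Pool.Agent.YUD.A3
import Pool.Agent.YUD.D3
import Pool.Agent.YUD.D4

/-!
# [YUD] S4: the derivative of the travel time

PROOFS. (1) `commutator`: `n = p² + q²` with `p = dx ψ`, `q = dy ψ`; `Y = (p/n, q/n)`, `u = (-q, p)`. Write `p_x, p_y, q_x = p_y, q_y` for the derivatives (`dx_dy_comm`), compute `dx`, `dy` of `p/n`, `q/n` by the quotient rule
(write `p/n = p * n⁻¹`), `field_simp`, `ring`. The two identities are the components of `(DY)u - (Du)Y = (div Y) u`.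
-/

open MeasureTheory Set Filter Topology
open scoped ContDiff

namespace Pool.Agent.YUD

variable {M : Set ℂ}

/-- the two components of `Y = ∇ψ / |∇ψ|²` -/
noncomputable def Y1 (ψ : ℂ → ℝ) (x : ℂ) : ℝ := dx ψ x / gsq ψ x
noncomputable def Y2 (ψ : ℂ → ℝ) (x : ℂ) : ℝ := dy ψ x / gsq ψ x

theorem S4_dx_div {a b : ℂ → ℝ} {x : ℂ} (ha : DifferentiableAt ℝ a x)
    (hb : DifferentiableAt ℝ b x) (h0 : b x ≠ 0) :
    dx (fun z => a z / b z) x = (dx a x * b x - a x * dx b x) / b x ^ 2 := by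
  have hG : HasDerivAt (fun t : ℝ => t⁻¹) (-(b x ^ 2)⁻¹) (b x) := hasDerivAt_inv h0
  have h1 : dx (fun z => (b z)⁻¹) x = -(b x ^ 2)⁻¹ * dx b x := by
    have := dx_comp (G := fun t : ℝ => t⁻¹) hG.differentiableAt hb
    rw [this, hG.deriv]
  have h2 : dx (fun z => a z / b z) x = dx (fun z => a z * (b z)⁻¹) x := by
    simp only [div_eq_mul_inv]
  have h3 : DifferentiableAt ℝ (fun z => (b z)⁻¹) x := hb.inv h0
  rw [h2, dx_mul ha h3, h1]
  field_simp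
  ring

theorem S4_dy_div {a b : ℂ → ℝ} {x : ℂ} (ha : DifferentiableAt ℝ a x)
    (hb : DifferentiableAt ℝ b x) (h0 : b x ≠ 0) :
    dy (fun z => a z / b z) x = (dy a x * b x - a x * dy b x) / b x ^ 2 := by
  have hG : HasDerivAt (fun t : ℝ => t⁻¹) (-(b x ^ 2)⁻¹) (b x) := hasDerivAt_inv h0
  have h1 : dy (fun z => (b z)⁻¹) x = -(b x ^ 2)⁻¹ * dy b x := by
    have := dy_comp (G := fun t : ℝ => t⁻¹) hG.differentiableAt hb
    rw [this, hG.deriv]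
  have h2 : dy (fun z => a z / b z) x = dy (fun z => a z * (b z)⁻¹) x := by
    simp only [div_eq_mul_inv]
  have h3 : DifferentiableAt ℝ (fun z => (b z)⁻¹) x := hb.inv h0
  rw [h2, dy_mul ha h3, h1]
  field_simp
  ring

theorem commutator (hM : IsOpen M) {ψ : ℂ → ℝ} (hψ : ContDiffOn ℝ 3 ψ M) {x : ℂ} (hx : x ∈ M)
    (hn : gsq ψ x ≠ 0) :
    (- dy ψ x * dx (Y1 ψ) x + dx ψ x * dy (Y1 ψ) x) +
        (Y1 ψ x * dx (dy ψ) x + Y2 ψ x * dy (dy ψ) x) =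
      (dx (Y1 ψ) x + dy (Y2 ψ) x) * (- dy ψ x) ∧
    (- dy ψ x * dx (Y2 ψ) x + dx ψ x * dy (Y2 ψ) x) -
        (Y1 ψ x * dx (dx ψ) x + Y2 ψ x * dy (dx ψ) x) =
      (dx (Y1 ψ) x + dy (Y2 ψ) x) * dx ψ x := by
  have h21 : ContDiffOn ℝ (2 + 1 : ℕ) ψ M := hψ.of_le (by norm_num)
  have h2 : ContDiffOn ℝ 2 ψ M := hψ.of_le (by norm_num)
  have hp2 : ContDiffOn ℝ (1 + 1 : ℕ) (dx ψ) M := contDiffOn_dx hM h21
  have hq2 : ContDiffOn ℝ (1 + 1 : ℕ) (dy ψ) M := contDiffOn_dy hM h21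
  have hp : DifferentiableAt ℝ (dx ψ) x := dat hM hp2 hx
  have hq : DifferentiableAt ℝ (dy ψ) x := dat hM hq2 hx
  have hsym : dx (dy ψ) x = dy (dx ψ) x := dx_dy_comm hM h2 hx
  have hnd : DifferentiableAt ℝ (gsq ψ) x := by
    have : gsq ψ = fun z => dx ψ z ^ 2 + dy ψ z ^ 2 := rfl
    rw [this]
    exact (hp.pow 2).add (hq.pow 2)
  have hpp : DifferentiableAt ℝ (fun z => dx ψ z * dx ψ z) x := hp.mul hp
  have hqq : DifferentiableAt ℝ (fun z => dy ψ z * dy ψ z) x := hq.mul hq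
  have hgx : dx (gsq ψ) x = 2 * (dx ψ x * dx (dx ψ) x + dy ψ x * dx (dy ψ) x) := by
    have e : gsq ψ = fun z => dx ψ z * dx ψ z + dy ψ z * dy ψ z := by
      funext z
      simp only [gsq]
      ring
    rw [e, dx_add hpp hqq, dx_mul hp hp, dx_mul hq hq]
    ring
  have hgy : dy (gsq ψ) x = 2 * (dx ψ x * dy (dx ψ) x + dy ψ x * dy (dy ψ) x) := by
    have e : gsq ψ = fun z => dx ψ z * dx ψ z + dy ψ z * dy ψ z := by
      funext z
      simp only [gsq]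
      ring
    rw [e, dy_add hpp hqq, dy_mul hp hp, dy_mul hq hq]
    ring
  have eY1 : Y1 ψ = fun z => dx ψ z / gsq ψ z := rfl
  have eY2 : Y2 ψ = fun z => dy ψ z / gsq ψ z := rfl
  have a1 : dx (Y1 ψ) x = (dx (dx ψ) x * gsq ψ x - dx ψ x * dx (gsq ψ) x) / gsq ψ x ^ 2 := by
    rw [eY1]
    exact S4_dx_div hp hnd hn
  have a2 : dy (Y1 ψ) x = (dy (dx ψ) x * gsq ψ x - dx ψ x * dy (gsq ψ) x) / gsq ψ x ^ 2 := by
    rw [eY1]
    exact S4_dy_div hp hnd hn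
  have a3 : dx (Y2 ψ) x = (dx (dy ψ) x * gsq ψ x - dy ψ x * dx (gsq ψ) x) / gsq ψ x ^ 2 := by
    rw [eY2]
    exact S4_dx_div hq hnd hn
  have a4 : dy (Y2 ψ) x = (dy (dy ψ) x * gsq ψ x - dy ψ x * dy (gsq ψ) x) / gsq ψ x ^ 2 := by
    rw [eY2]
    exact S4_dy_div hq hnd hn
  have b1 : Y1 ψ x = dx ψ x / gsq ψ x := rfl
  have b2 : Y2 ψ x = dy ψ x / gsq ψ x := rfl
  have hN : gsq ψ x = dx ψ x ^ 2 + dy ψ x ^ 2 := rfl
  rw [a1, a2, a3, a4, b1, b2, hgx, hgy, hsym]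
  generalize hNN : gsq ψ x = N at *
  generalize dx ψ x = P at *
  generalize dy ψ x = Q at *
  generalize dx (dx ψ) x = A at *
  generalize dy (dx ψ) x = B at *
  generalize dy (dy ψ) x = C at *
  constructor
  · field_simp
    rw [hN]
    ring
  · field_simp
    rw [hN]
    ring

end Pool.Agent.YUD
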