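import Pool.Agent.YUD.Base2
import Pool.Agent.YUD.S4

/-!
# [YUD] S4b: the derivative of the flow in the direction `Y = ∇ψ/|∇ψ|²`

PROOF. Let `D = dx (Y1 ψ) + dy (Y2 ψ)` (`= div Y`), `Z z = ⟨Y1 ψ z, Y2 ψ z⟩ : ℂ`. All points `Φ t y` are in `W = {x ∈ M : ψ x ∈ Icc a b}` (`hfl.inv`), where `gsq ψ ≠ 0` (`hreg`; `gsq ψ x = 0` iff
`fderiv ℝ ψ x = 0`, `fderiv_apply'`), near `W` the field `Z` is `C²`, `V z = ⟨dy ψ z, - dx ψ z⟩` near `W` (`hfl.eqV`). `c t = ∫ s in 0..t, D (Φ s y)` (`D` is continuous near `W`, so `s ↦ D (Φ s y)` is continuous; `c' = D (Φ t y)`,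
`intervalIntegral.integral_hasDerivAt_right`). Put `b t = Z (Φ t y) - c t • V (Φ t y)` (`u = -V`). Then `b 0 = Z y` and
`b' = DZ(V) - D(Φ t y) V - c DV(V)` at `Φ t y`, and `DV(b) = DV(Z) - c DV(V)`. So `b' = DV(b)` iff `DZ(V) - D V = DV(Z)` at the points of `W`, i.e. (`V = -u`) `- DZ(u) + D u = - Du(Z)`,
i.e. `DZ(u) - Du(Z) = D u`: this is `commutator` (real and imaginary parts; `u = (-dy ψ, dx ψ)`). `variational_unique` gives `b t = fderiv ℝ (Φ t) y (Z y)`.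
-/

open MeasureTheory Set Filter Topology
open scoped ContDiff

namespace Pool.Agent.YUD

variable {M : Set ℂ}

theorem S4b_mk {E : Type*} [NormedAddCommGroup E] [NormedSpace ℝ E] {a b : E → ℝ}
    {a' b' : E →L[ℝ] ℝ} {z : E} (ha : HasFDerivAt a a' z) (hb : HasFDerivAt b b' z) :
    HasFDerivAt (fun z => (⟨a z, b z⟩ : ℂ))
      ((Complex.equivRealProdCLM.symm : ℝ × ℝ →L[ℝ] ℂ).comp (a'.prod b')) z := by
  have h := (Complex.equivRealProdCLM.symm : ℝ × ℝ →L[ℝ] ℂ).hasFDerivAt (x := (a z, b z))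
  have h2 := h.comp z (ha.prodMk hb)
  refine h2.congr_of_eventuallyEq (Eventually.of_forall fun w => ?_)
  apply Complex.ext <;> simp

theorem S4b_mk_apply {E : Type*} [NormedAddCommGroup E] [NormedSpace ℝ E]
    (a' b' : E →L[ℝ] ℝ) (k : E) :
    ((Complex.equivRealProdCLM.symm : ℝ × ℝ →L[ℝ] ℂ).comp (a'.prod b')) k =
      (⟨a' k, b' k⟩ : ℂ) := by
  apply Complex.ext <;> simp

/-- the open set where `∇ψ ≠ 0` -/
theorem S4b_isOpen (hM : IsOpen M) {ψ : ℂ → ℝ} (hψ : ContDiffOn ℝ 3 ψ M) :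
    IsOpen {x | x ∈ M ∧ gsq ψ x ≠ 0} := by
  have h3 : ContDiffOn ℝ (2 + 1 : ℕ) ψ M := hψ
  have hc : ContinuousOn (gsq ψ) M := by
    have h1 := (contDiffOn_dx hM h3).continuousOn
    have h2 := (contDiffOn_dy hM h3).continuousOn
    exact (h1.pow 2).add (h2.pow 2)
  exact hc.isOpen_inter_preimage hM (isOpen_compl_singleton (x := (0 : ℝ)))

theorem S4b_contDiffOn (hM : IsOpen M) {ψ : ℂ → ℝ} (hψ : ContDiffOn ℝ 3 ψ M) :
    ContDiffOn ℝ (1 + 1 : ℕ) (Y1 ψ) {x | x ∈ M ∧ gsq ψ x ≠ 0} ∧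
      ContDiffOn ℝ (1 + 1 : ℕ) (Y2 ψ) {x | x ∈ M ∧ gsq ψ x ≠ 0} := by
  have h3 : ContDiffOn ℝ (2 + 1 : ℕ) ψ M := hψ
  have h1 : ContDiffOn ℝ (1 + 1 : ℕ) (dx ψ) {x | x ∈ M ∧ gsq ψ x ≠ 0} :=
    (contDiffOn_dx hM h3).mono fun x hx => hx.1
  have h2 : ContDiffOn ℝ (1 + 1 : ℕ) (dy ψ) {x | x ∈ M ∧ gsq ψ x ≠ 0} :=
    (contDiffOn_dy hM h3).mono fun x hx => hx.1
  have hg : ContDiffOn ℝ (1 + 1 : ℕ) (gsq ψ) {x | x ∈ M ∧ gsq ψ x ≠ 0} :=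
    (h1.pow 2).add (h2.pow 2)
  exact ⟨h1.div hg fun x hx => hx.2, h2.div hg fun x hx => hx.2⟩

theorem flow_deriv_Y (hM : IsOpen M) {ψ : ℂ → ℝ} (hψ : Stream M ψ) {a b : ℝ} {V : ℂ → ℂ}
    {Φ : ℝ → ℂ → ℂ} (hfl : SFlow M ψ a b V Φ)
    (hreg : ∀ x ∈ M, ψ x ∈ Icc a b → fderiv ℝ ψ x ≠ 0) {y : ℂ} (hy : y ∈ M)
    (hψy : ψ y ∈ Icc a b) (t : ℝ) :
    fderiv ℝ (Φ t) y (⟨Y1 ψ y, Y2 ψ y⟩ : ℂ) =
      (⟨Y1 ψ (Φ t y), Y2 ψ (Φ t y)⟩ : ℂ) -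
        (∫ s in (0 : ℝ)..t, (dx (Y1 ψ) (Φ s y) + dy (Y2 ψ) (Φ s y))) • V (Φ t y) := by
  have hU := S4b_isOpen hM hψ.contDiffOn
  obtain ⟨hY1, hY2⟩ := S4b_contDiffOn hM hψ.contDiffOn
  set U := {x | x ∈ M ∧ gsq ψ x ≠ 0} with hUdef
  have hinv := hfl.inv y hy hψy
  have hW : ∀ t, Φ t y ∈ M ∧ ψ (Φ t y) ∈ Icc a b := fun t =>
    ⟨(hinv t).1, by rw [(hinv t).2]; exact hψy⟩
  have hWU : ∀ t, Φ t y ∈ U := by
    intro t
    refine ⟨(hW t).1, fun h0 => hreg _ (hW t).1 (hW t).2 ?_⟩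
    have h1 : dx ψ (Φ t y) ^ 2 + dy ψ (Φ t y) ^ 2 = 0 := h0
    have h2 : dx ψ (Φ t y) = 0 := by nlinarith [sq_nonneg (dx ψ (Φ t y)), sq_nonneg (dy ψ (Φ t y))]
    have h3 : dy ψ (Φ t y) = 0 := by nlinarith [sq_nonneg (dx ψ (Φ t y)), sq_nonneg (dy ψ (Φ t y))]
    ext k
    rw [fderiv_apply', h2, h3]; simp
  have hΦc : Continuous (fun s => Φ s y) :=
    continuous_iff_continuousAt.2 fun s => (hfl.ode s y).continuousAt
  have hVd : Differentiable ℝ V := hfl.cdV.differentiable (by norm_num)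
  -- the divergence along the trajectory
  have hDc : ContinuousOn (fun z => dx (Y1 ψ) z + dy (Y2 ψ) z) U :=
    (contDiffOn_dx hU hY1).continuousOn.add (contDiffOn_dy hU hY2).continuousOn
  have hDc2 : Continuous (fun s => dx (Y1 ψ) (Φ s y) + dy (Y2 ψ) (Φ s y)) := by
    rw [continuous_iff_continuousAt]
    intro s
    exact ContinuousAt.comp (f := fun s => Φ s y) (g := fun z => dx (Y1 ψ) z + dy (Y2 ψ) z)
      (hDc.continuousAt (hU.mem_nhds (hWU s))) hΦc.continuousAt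
  set c : ℝ → ℝ := fun t => ∫ s in (0 : ℝ)..t, (dx (Y1 ψ) (Φ s y) + dy (Y2 ψ) (Φ s y)) with hc
  have hcd : ∀ t, HasDerivAt c (dx (Y1 ψ) (Φ t y) + dy (Y2 ψ) (Φ t y)) t := fun t =>
    intervalIntegral.integral_hasDerivAt_right (hDc2.intervalIntegrable _ _)
      (hDc2.stronglyMeasurableAtFilter _ _) hDc2.continuousAt
  -- the candidate
  have hcomp : ∀ (h : ℂ → ℝ) (t : ℝ), DifferentiableAt ℝ h (Φ t y) →
      HasDerivAt (fun s => h (Φ s y)) (fderiv ℝ h (Φ t y) (V (Φ t y))) t := fun h t hh =>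
    hh.hasFDerivAt.comp_hasDerivAt t (hfl.ode t y)
  have hb : ∀ t, HasDerivAt
      (fun t => (⟨Y1 ψ (Φ t y), Y2 ψ (Φ t y)⟩ : ℂ) - c t • V (Φ t y))
      (fderiv ℝ V (Φ t y) ((⟨Y1 ψ (Φ t y), Y2 ψ (Φ t y)⟩ : ℂ) - c t • V (Φ t y))) t := by
    intro t
    set z := Φ t y with hz
    have hzU : z ∈ U := hWU t
    have d1 : DifferentiableAt ℝ (Y1 ψ) z := dat hU hY1 hzU
    have d2 : DifferentiableAt ℝ (Y2 ψ) z := dat hU hY2 hzU
    have e1 := hcomp _ t d1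
    have e2 := hcomp _ t d2
    have e3 : HasDerivAt (fun t => (⟨Y1 ψ (Φ t y), Y2 ψ (Φ t y)⟩ : ℂ))
        (⟨fderiv ℝ (Y1 ψ) z (V z), fderiv ℝ (Y2 ψ) z (V z)⟩ : ℂ) t := by
      have := (S4b_mk e1.hasFDerivAt e2.hasFDerivAt).hasDerivAt
      rw [S4b_mk_apply] at this
      simpa using this
    have e4 : HasDerivAt (fun t => V (Φ t y)) (fderiv ℝ V z (V z)) t :=
      (hVd z).hasFDerivAt.comp_hasDerivAt t (hfl.ode t y)
    have e5 := e3.sub ((hcd t).smul e4)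
    refine e5.congr_deriv ?_
    rw [map_sub, map_smul]
    -- the derivative of `V` at `z`
    have hVz : V =ᶠ[𝓝 z] fun w => (⟨dy ψ w, - dx ψ w⟩ : ℂ) := hfl.eqV z (hW t).1 (hW t).2
    have h3 : ContDiffOn ℝ (1 + 1 + 1 : ℕ) ψ M := hψ.contDiffOn
    have hp : DifferentiableAt ℝ (dx ψ) z := dat hM (contDiffOn_dx hM h3) (hW t).1
    have hq : DifferentiableAt ℝ (dy ψ) z := dat hM (contDiffOn_dy hM h3) (hW t).1
    have hVf : fderiv ℝ V z = ((Complex.equivRealProdCLM.symm : ℝ × ℝ →L[ℝ] ℂ).comp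
        ((fderiv ℝ (dy ψ) z).prod (- fderiv ℝ (dx ψ) z))) := by
      rw [hVz.fderiv_eq]
      exact (S4b_mk hq.hasFDerivAt hp.hasFDerivAt.neg).fderiv
    have hVv : V z = (⟨dy ψ z, - dx ψ z⟩ : ℂ) := hVz.self_of_nhds
    obtain ⟨c1, c2⟩ := commutator hM hψ.contDiffOn (hW t).1 hzU.2
    rw [hVf, S4b_mk_apply, S4b_mk_apply, hVv]
    simp only [ContinuousLinearMap.neg_apply, fderiv_apply']
    apply Complex.ext
    · simp only [Complex.sub_re, Complex.add_re, Complex.real_smul, Complex.mul_re,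
        Complex.ofReal_re, Complex.ofReal_im]
      nlinarith [c1]
    · simp only [Complex.sub_im, Complex.add_im, Complex.real_smul, Complex.mul_im,
        Complex.ofReal_re, Complex.ofReal_im]
      nlinarith [c2]
  have hfin := variational_unique hfl.cdV hfl.compV hfl.cdΦ hfl.zero hfl.ode (y := y)
    (k := (⟨Y1 ψ y, Y2 ψ y⟩ : ℂ)) hb (by simp [hc, hfl.zero])
  exact (hfin t).symm

end Pool.Agent.YUD
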